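import Pool.Agent.H29E.DTab

set_option linter.unusedSimpArgs false
set_option linter.unusedVariables false
set_option maxRecDepth 100000

/-! The extremal graphs for `D ≥ 4`. -/

namespace Pool.H29E

open Finset Pool.H82.SC Pool.H82.SC.MG

/-- first ends -/
abbrev PA : ℕ := 0xbba998776554332000

/-- second ends -/
abbrev PB : ℕ := 0xa1182765441329ba86

lemma PAB_lt : ∀ k < 18, dg PA k < 12 ∧ dg PB k < 12 := by decide +kernel

/-- the extremal skeleton with weights `w` -/
def K21 (w : ℕ → ℕ) : MG where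
  V := range 12
  E := range 18
  s := dg PA
  t := dg PB
  w := w
  hs := fun e he => mem_range.2 (PAB_lt e (mem_range.1 he)).1
  ht := fun e he => mem_range.2 (PAB_lt e (mem_range.1 he)).2

lemma k21_lab (w : ℕ → ℕ) : Lab (K21 w) 12 18 (dg PA) (dg PB) id id := by
  refine ⟨fun i _ j _ h => h, ?_, fun i _ j _ h => h, ?_, fun k hk => ?_⟩
  · rw [image_id]; rfl
  · rw [image_id]; rfl
  · exact ⟨(PAB_lt k hk).1, (PAB_lt k hk).2, Or.inl ⟨rfl, rfl⟩⟩

/-- bits of an even set in terms of seven of them -/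
def xb (b0 b1 b9 b8 b10 b4 b15 : Bool) : ℕ → Bool
  | 0 => b0
  | 1 => b1
  | 2 => b0 ^^ b1
  | 3 => (b4 ^^ (b8 ^^ b9)) ^^ (b4 ^^ (b1 ^^ (b10 ^^ (b0 ^^ b9))))
  | 4 => b4
  | 5 => b4 ^^ (b8 ^^ b9)
  | 6 => b8 ^^ b9
  | 7 => b8 ^^ b10
  | 8 => b8
  | 9 => b9
  | 10 => b10
  | 11 => b0 ^^ b9
  | 12 => b10 ^^ (b0 ^^ b9)
  | 13 => b4 ^^ (b1 ^^ (b10 ^^ (b0 ^^ b9)))
  | 14 => b1 ^^ (b10 ^^ (b0 ^^ b9))
  | 15 => b15
  | 16 => (b8 ^^ b10) ^^ b15
  | 17 => (b0 ^^ b1) ^^ b15
  | _ => false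

/-- weight of a bit vector -/
def ws (w : ℕ → ℕ) (x : ℕ → Bool) : ℕ := ∑ k ∈ range 18, if x k = true then w k else 0

lemma vtx {w : ℕ → ℕ} {z : Finset ℕ} (hz : (K21 w).Ev z) (v i j k : ℕ) (hi : i < 18) (hj : j < 18)
    (hk : k < 18) (hij : i ≠ j) (hik : i ≠ k) (hjk : j ≠ k)
    (h : ∀ e < 18, ((if dg PA e = v then (1 : ZMod 2) else 0) + (if dg PB e = v then 1 else 0)) =
      if e = i ∨ e = j ∨ e = k then 1 else 0) :
    (decide (i ∈ z) ^^ (decide (j ∈ z) ^^ decide (k ∈ z))) = false := by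
  have h1 := hz.2 v
  unfold MG.bd at h1
  have h2 : ∑ e ∈ z, (K21 w).inc e v = ∑ e ∈ z, if e = i ∨ e = j ∨ e = k then 1 else 0 := by
    apply sum_congr rfl
    intro e he
    have := h e (mem_range.1 (hz.1 he))
    unfold MG.inc
    exact this
  rw [h2] at h1
  have h3 : ∑ e ∈ z, (if e = i ∨ e = j ∨ e = k then (1 : ZMod 2) else 0) =
      (∑ e ∈ z, if e = i then 1 else 0) + ((∑ e ∈ z, if e = j then 1 else 0) +
        ∑ e ∈ z, if e = k then 1 else 0) := by
    rw [← sum_add_distrib, ← sum_add_distrib]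
    apply sum_congr rfl
    intro e _
    by_cases e1 : e = i
    · subst e1; simp [hij, hik]
    · by_cases e2 : e = j
      · subst e2; simp [e1, hjk]
      · by_cases e3 : e = k
        · subst e3; simp [e1, e2]
        · simp [e1, e2, e3]
  rw [h3, sum_ite_eq', sum_ite_eq', sum_ite_eq'] at h1
  by_cases m1 : i ∈ z <;> by_cases m2 : j ∈ z <;> by_cases m3 : k ∈ z <;>
    simp [m1, m2, m3] at h1 ⊢ <;> revert h1 <;> decide

lemma k21_bits {w : ℕ → ℕ} {z : Finset ℕ} (hz : (K21 w).Ev z) :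
    ∀ k < 18, decide (k ∈ z) = xb (decide (0 ∈ z)) (decide (1 ∈ z)) (decide (9 ∈ z))
      (decide (8 ∈ z)) (decide (10 ∈ z)) (decide (4 ∈ z)) (decide (15 ∈ z)) k := by
  have v0 := vtx hz 0 0 1 2 (by norm_num) (by norm_num) (by norm_num) (by norm_num) (by norm_num)
    (by norm_num) (by decide +kernel)
  have v2 := vtx hz 2 3 5 13 (by norm_num) (by norm_num) (by norm_num) (by norm_num) (by norm_num)
    (by norm_num) (by decide +kernel)
  have v3 := vtx hz 3 4 5 6 (by norm_num) (by norm_num) (by norm_num) (by norm_num) (by norm_num)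
    (by norm_num) (by decide +kernel)
  have v4 := vtx hz 4 6 8 9 (by norm_num) (by norm_num) (by norm_num) (by norm_num) (by norm_num)
    (by norm_num) (by decide +kernel)
  have v5 := vtx hz 5 7 8 10 (by norm_num) (by norm_num) (by norm_num) (by norm_num) (by norm_num)
    (by norm_num) (by decide +kernel)
  have v6 := vtx hz 6 0 9 11 (by norm_num) (by norm_num) (by norm_num) (by norm_num) (by norm_num)
    (by norm_num) (by decide +kernel)
  have v7 := vtx hz 7 10 11 12 (by norm_num) (by norm_num) (by norm_num) (by norm_num)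
    (by norm_num) (by norm_num) (by decide +kernel)
  have v8 := vtx hz 8 1 12 14 (by norm_num) (by norm_num) (by norm_num) (by norm_num) (by norm_num)
    (by norm_num) (by decide +kernel)
  have v9 := vtx hz 9 4 13 14 (by norm_num) (by norm_num) (by norm_num) (by norm_num) (by norm_num)
    (by norm_num) (by decide +kernel)
  have v1 := vtx hz 1 7 15 16 (by norm_num) (by norm_num) (by norm_num) (by norm_num) (by norm_num)
    (by norm_num) (by decide +kernel)
  have v10 := vtx hz 10 2 15 17 (by norm_num) (by norm_num) (by norm_num) (by norm_num)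
    (by norm_num) (by norm_num) (by decide +kernel)
  have key : ∀ a b c : Bool, (a ^^ (b ^^ c)) = false → c = (a ^^ b) := by decide
  have key' : ∀ a b c : Bool, (a ^^ (b ^^ c)) = false → b = (a ^^ c) := by decide
  have key'' : ∀ a b c : Bool, (a ^^ (b ^^ c)) = false → a = (b ^^ c) := by decide
  have e2 := key _ _ _ v0
  have e6 := key'' _ _ _ v4
  have e7 := key'' _ _ _ v5
  have e11 := key _ _ _ v6
  have e12 := key _ _ _ v7
  have e14 := key _ _ _ v8
  have e13 := key' _ _ _ v9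
  have e5 := key' _ _ _ v3
  have e3 := key'' _ _ _ v2
  have e16 := key _ _ _ v1
  have e17 := key _ _ _ v10
  rw [e11] at e12
  rw [e12] at e14
  rw [e14] at e13
  rw [e6] at e5
  rw [e5, e13] at e3
  rw [e7] at e16
  rw [e2] at e17
  intro k hk
  interval_cases k
  · rfl
  · rfl
  · exact e2
  · exact e3
  · rfl
  · exact e5
  · exact e6
  · exact e7
  · rfl
  · rfl
  · rfl
  · exact e11
  · exact e12
  · exact e13
  · exact e14
  · rfl
  · exact e16
  · exact e17

theorem k21_cyc {w : ℕ → ℕ} {g : ℕ} (h : ∀ b0 b1 b9 b8 b10 b4 b15 : Bool,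
    (b0 || b1 || b9 || b8 || b10 || b4 || b15) = true →
    g ≤ ws w (xb b0 b1 b9 b8 b10 b4 b15)) : (K21 w).Cyc g := by
  intro z hz hne
  have h1 := k21_bits hz
  have h2 : (K21 w).wt z = ws w (xb (decide (0 ∈ z)) (decide (1 ∈ z)) (decide (9 ∈ z))
      (decide (8 ∈ z)) (decide (10 ∈ z)) (decide (4 ∈ z)) (decide (15 ∈ z))) := by
    unfold MG.wt ws
    have h3 : ∑ e ∈ z, (K21 w).w e = ∑ e ∈ range 18, if e ∈ z then w e else 0 := by
      rw [← sum_filter]
      apply sum_congr _ (fun _ _ => rfl)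
      ext x
      rw [mem_filter]
      exact ⟨fun h => ⟨hz.1 h, h⟩, fun h => h.2⟩
    rw [h3]
    apply sum_congr rfl
    intro k hk
    rw [← h1 k (mem_range.1 hk)]
    simp
  rw [h2]
  apply h
  by_contra hcon
  simp only [Bool.or_eq_true, decide_eq_true_eq, not_or] at hcon
  obtain ⟨k, hk⟩ := hne
  have h3 := h1 k (mem_range.1 (hz.1 hk))
  obtain ⟨⟨⟨⟨⟨⟨a0, a1⟩, a9⟩, a8⟩, a10⟩, a4⟩, a15⟩ := hcon
  rw [decide_eq_true hk, decide_eq_false a0, decide_eq_false a1, decide_eq_false a9,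
    decide_eq_false a8, decide_eq_false a10, decide_eq_false a4, decide_eq_false a15] at h3
  have h4 : ∀ k < 18, xb false false false false false false false k = false := by decide
  rw [h4 k (mem_range.1 (hz.1 hk))] at h3
  exact absurd h3 (by decide)

lemma ws_lin (w a : ℕ → ℕ) (u : ℕ) (x : ℕ → Bool) :
    ws (fun k => w k + a k * u) x = ws w x + ws a x * u := by
  unfold ws
  rw [sum_mul, ← sum_add_distrib]
  apply sum_congr rfl
  intro k _
  split_ifs
  · rfl
  · simp

/-- slopes -/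
abbrev A2 : ℕ := 0x444042422400440042

lemma slope : ∀ b0 b1 b9 b8 b10 b4 b15 : Bool,
    (b0 || b1 || b9 || b8 || b10 || b4 || b15) = true →
    12 ≤ ws (dg A2) (xb b0 b1 b9 b8 b10 b4 b15) := by decide +kernel

theorem k21_fam {W0 g0 : ℕ} (h : ∀ b0 b1 b9 b8 b10 b4 b15 : Bool,
    (b0 || b1 || b9 || b8 || b10 || b4 || b15) = true →
    g0 ≤ ws (dg W0) (xb b0 b1 b9 b8 b10 b4 b15)) (u : ℕ) :
    (K21 (fun k => dg W0 k + dg A2 k * u)).Cyc (g0 + 12 * u) := by
  apply k21_cyc
  intro b0 b1 b9 b8 b10 b4 b15 hb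
  rw [ws_lin]
  have h1 := h b0 b1 b9 b8 b10 b4 b15 hb
  have h2 := Nat.mul_le_mul_right u (slope b0 b1 b9 b8 b10 b4 b15 hb)
  omega

/-- exact contribution sum -/
def dvx (A B : ℕ → ℕ) (P X : ℕ) : ℕ → ℕ
  | 0 => 0
  | k + 1 => dvx A B P X k +
      cond (Nat.beq ((P >>> k) % 2) 1)
          (1 + 2 * (((X >>> A k) % 2) * ((X >>> B k) % 2)))
          (2 * ((((X >>> A k) % 2) + ((X >>> B k) % 2)) -
            (((X >>> A k) % 2) * ((X >>> B k) % 2))))

lemma dvx_eq {A B : ℕ → ℕ} {P X : ℕ} {pr : ℕ → Bool} (m : ℕ) (hp : ∀ k < m, pr k = P.testBit k) :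
    ∑ k ∈ range m, ph (pr k) (X.testBit (A k)) (X.testBit (B k)) + m = dvx A B P X m := by
  induction m with
  | zero => simp [dvx]
  | succ m ih =>
    have ih' := ih (fun k hk => hp k (by omega))
    rw [sum_range_succ, dvx]
    push_cast
    have key : ph (pr m) (X.testBit (A m)) (X.testBit (B m)) + 1 =
        ((cond (Nat.beq ((P >>> m) % 2) 1)
          (1 + 2 * (((X >>> A m) % 2) * ((X >>> B m) % 2)))
          (2 * ((((X >>> A m) % 2) + ((X >>> B m) % 2)) -
            (((X >>> A m) % 2) * ((X >>> B m) % 2)))) : ℕ) : ℤ) := by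
      rw [hp m (by omega), tb P m, tb X (A m), tb X (B m)]
      rcases Nat.mod_two_eq_zero_or_one (X >>> A m) with x1 | x1 <;>
      rcases Nat.mod_two_eq_zero_or_one (X >>> B m) with x2 | x2 <;>
      rcases Nat.mod_two_eq_zero_or_one (P >>> m) with k1 | k1 <;>
      rw [x1, x2, k1] <;> decide
    linarith

/-- all vertex sets -/
def dall (A B : ℕ → ℕ) (n m P d : ℕ) : ℕ → Bool
  | 0 => true
  | X + 1 => Nat.ble (d + 2 * pcn X n + m) (n + dvx A B P X m) && dall A B n m P d X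

lemma dall_spec {A B : ℕ → ℕ} {n m P d N : ℕ} (h : dall A B n m P d N = true) :
    ∀ X < N, d + 2 * pcn X n + m ≤ n + dvx A B P X m := by
  induction N with
  | zero => intro X hX; omega
  | succ N ih =>
    rw [dall, Bool.and_eq_true] at h
    intro X hX
    rcases Nat.lt_succ_iff_lt_or_eq.1 hX with h1 | h1
    · exact ih h.2 X h1
    · subst h1
      exact Nat.le_of_ble_eq_true h.1

theorem dall21 : dall (dg PA) (dg PB) 12 18 0x3fefd 4 4096 = true := by decide +kernel

lemma exists_mask (n : ℕ) : ∀ X ⊆ range n, ∃ M < 2 ^ n, ∀ i < n, M.testBit i = decide (i ∈ X) := by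
  induction n with
  | zero => intro X _; exact ⟨0, by norm_num, fun i hi => by omega⟩
  | succ n ih =>
    intro X hX
    obtain ⟨M, hM, hb⟩ := ih (X.erase n) (by
      intro x hx
      rw [mem_erase] at hx
      have := mem_range.1 (hX hx.2)
      exact mem_range.2 (by omega))
    by_cases hn : n ∈ X
    · refine ⟨M ||| 2 ^ n, Nat.or_lt_two_pow (by rw [pow_succ]; omega)
        (by rw [pow_succ]; have := Nat.two_pow_pos n; omega), fun i hi => ?_⟩
      rw [Nat.testBit_or]
      by_cases h1 : i = n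
      · subst h1; simp [Nat.testBit_two_pow_self, hn]
      · rw [Nat.testBit_two_pow_of_ne (Ne.symm h1), hb i (by omega)]
        simp [h1]
    · refine ⟨M, by rw [pow_succ]; omega, fun i hi => ?_⟩
      by_cases h1 : i = n
      · subst h1
        rw [Nat.testBit_lt_two_pow hM]
        simp [hn]
      · rw [hb i (by omega)]
        simp [h1]

theorem k21_D {w : ℕ → ℕ} (hw : ∀ k < 18, (w k % 2 = 1 ↔ Nat.testBit 0x3fefd k = true)) :
    ∀ X ⊆ (K21 w).V, (4 : ℤ) ≤ (K21 w).D X := by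
  intro X hX
  obtain ⟨M, hM, hb⟩ := exists_mask 12 X hX
  have hXM : X = (xs M 12).image id := by
    rw [image_id]
    ext i
    constructor
    · intro hi
      have h1 := mem_range.1 (hX hi)
      rw [mem_xs h1, hb i h1]
      simpa using hi
    · intro hi
      have h1 : i < 12 := mem_range.1 (mem_filter.1 hi).1
      rw [mem_xs h1, hb i h1] at hi
      simpa using hi
  rw [hXM, D_lab (k21_lab w) M]
  have h1 := dall_spec dall21 M (by simpa using hM)
  have h2 := dvx_eq (A := dg PA) (B := dg PB) (P := 0x3fefd) (X := M)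
    (pr := par (K21 w) id) 18 (fun k hk => by
      rw [Bool.eq_iff_iff]
      unfold par
      rw [decide_eq_true_iff, Nat.odd_iff]
      exact hw k hk)
  rw [pcn_eq] at h1
  have h3 : (4 : ℤ) + 2 * #(xs M 12) + 18 ≤ 12 + (dvx (dg PA) (dg PB) 0x3fefd M 18 : ℤ) := by
    exact_mod_cast h1
  push_cast at h2 ⊢
  linarith

lemma k21_W (w : ℕ → ℕ) : (K21 w).W = ∑ k ∈ range 18, w k := rfl

lemma even_slope : ∀ k < 18, dg A2 k % 2 = 0 := by decide +kernel

lemma sum_slope : ∑ k ∈ range 18, dg A2 k = 44 := by decide +kernel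

theorem k21_one {W0 g0 S0 : ℕ} (h : ∀ b0 b1 b9 b8 b10 b4 b15 : Bool,
    (b0 || b1 || b9 || b8 || b10 || b4 || b15) = true →
    g0 ≤ ws (dg W0) (xb b0 b1 b9 b8 b10 b4 b15))
    (hp : ∀ k < 18, 1 ≤ dg W0 k) (ho : ∀ k < 18, (dg W0 k % 2 = 1 ↔ Nat.testBit 0x3fefd k = true))
    (hS : ∑ k ∈ range 18, dg W0 k = S0) (u : ℕ) :
    ∃ K : MG, K.Cyc (g0 + 12 * u) ∧ (∀ f ∈ K.E, 1 ≤ K.w f) ∧ (∀ X ⊆ K.V, (4 : ℤ) ≤ K.D X) ∧
      #K.V + K.W + 6 = #K.E + (S0 + 44 * u) := by
  refine ⟨K21 (fun k => dg W0 k + dg A2 k * u), k21_fam h u, ?_, k21_D ?_, ?_⟩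
  · intro f hf
    have := hp f (mem_range.1 hf)
    show 1 ≤ dg W0 f + dg A2 f * u
    omega
  · intro k hk
    have h2 := even_slope k hk
    have h3 : dg A2 k * u % 2 = 0 := by rw [Nat.mul_mod, h2]; simp
    have h4 : (dg W0 k + dg A2 k * u) % 2 = dg W0 k % 2 := by
      rw [Nat.add_mod, h3]; simp
    rw [h4]
    exact ho k hk
  · rw [k21_W, sum_add_distrib, ← sum_mul, hS, sum_slope]
    show #(range 12) + _ + 6 = #(range 18) + _
    rw [card_range, card_range]
    omega

/-- the graphs for the lower bound on `2m+2` vertices -/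
theorem base_four {g : ℕ} (hg : 19 ≤ g) (ho : Odd g) : ∃ K : MG, K.Cyc g ∧
    (∀ f ∈ K.E, 1 ≤ K.w f) ∧ (∀ X ⊆ K.V, (4 : ℤ) ≤ K.D X) ∧
      #K.V + K.W + 6 = #K.E + 2 * ((11 * g + 10) / 6) := by
  rw [Nat.odd_iff] at ho
  have hr : g % 12 = 1 ∨ g % 12 = 3 ∨ g % 12 = 5 ∨ g % 12 = 7 ∨ g % 12 = 9 ∨ g % 12 = 11 := by
    omega
  rcases hr with hr | hr | hr | hr | hr | hr
  · obtain ⟨K, a, b, c, d⟩ := k21_one (W0 := 0x799173b33811991183) (g0 := 25) (S0 := 94)
      (by decide +kernel) (by decide +kernel) (by decide +kernel) (by decide +kernel) (g / 12 - 2)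
    refine ⟨K, ?_, b, c, by omega⟩
    rwa [show 25 + 12 * (g / 12 - 2) = g by omega] at a
  · obtain ⟨K, a, b, c, d⟩ := k21_one (W0 := 0x555131731411391143) (g0 := 15) (S0 := 58)
      (by decide +kernel) (by decide +kernel) (by decide +kernel) (by decide +kernel) (g / 12 - 1)
    refine ⟨K, ?_, b, c, by omega⟩
    rwa [show 15 + 12 * (g / 12 - 1) = g by omega] at a
  · obtain ⟨K, a, b, c, d⟩ := k21_one (W0 := 0x99b193d538119b1185) (g0 := 29) (S0 := 108)
      (by decide +kernel) (by decide +kernel) (by decide +kernel) (by decide +kernel) (g / 12 - 2)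
    refine ⟨K, ?_, b, c, by omega⟩
    rwa [show 29 + 12 * (g / 12 - 2) = g by omega] at a
  · obtain ⟨K, a, b, c, d⟩ := k21_one (W0 := 0x559171931611571145) (g0 := 19) (S0 := 72)
      (by decide +kernel) (by decide +kernel) (by decide +kernel) (by decide +kernel) (g / 12 - 1)
    refine ⟨K, ?_, b, c, by omega⟩
    rwa [show 19 + 12 * (g / 12 - 1) = g by omega] at a
  · obtain ⟨K, a, b, c, d⟩ := k21_one (W0 := 0x7771519516115b1165) (g0 := 21) (S0 := 80)
      (by decide +kernel) (by decide +kernel) (by decide +kernel) (by decide +kernel) (g / 12 - 1)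
    refine ⟨K, ?_, b, c, by omega⟩
    rwa [show 21 + 12 * (g / 12 - 1) = g by omega] at a
  · obtain ⟨K, a, b, c, d⟩ := k21_one (W0 := 0x779175b15611791161) (g0 := 23) (S0 := 86)
      (by decide +kernel) (by decide +kernel) (by decide +kernel) (by decide +kernel) (g / 12 - 1)
    refine ⟨K, ?_, b, c, by omega⟩
    rwa [show 23 + 12 * (g / 12 - 1) = g by omega] at a

end Pool.H29E
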