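import Pool.Agent.H29E.Lists

set_option maxRecDepth 100000

namespace Pool.H29E

theorem r2_0 : rchk (dg 0x0) (dg 0x111) 2 3 3 1 L2 0
 [[0x29062080c84001, 0x29062080c84003, 0x29061100c84003, 0x28c820808c4001],
 [0x29062004c84003, 0x29062004c84001, 0x29060104c84003, 0x28c820048c4001],
 [0x29061008c84003, 0x29060088c84003, 0x29061008c84001, 0x28c810088c4001]] = true := by
  decide +kernel

end Pool.H29E
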