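import Pool.Agent.H29E.Lists

set_option maxRecDepth 100000

namespace Pool.H29E

theorem r3_0 : rchk (dg 0x332000) (dg 0x221113) 4 6 3 1 L3 0
 [[0x100020000000040008000000010002000046, 0x20e62906208150c84001, 0x20e62906110150c84001, 0x20e62906208150c84003, 0x20e01046521950048c01, 0x20e01046429950048c01, 0x100000004000040008000000010002000046],
 [0x20c72906208114c84001, 0x86141cc520041508c03, 0x1c4329001419448c1001, 0x20232900231d148c0401, 0x20e62906208150c84005, 0x20e62146208150c84005, 0x861418e520041148c03],
 [0x20c72906110114c84001, 0x1c2329002419448c1001, 0x46241cc520041508c03, 0x20432900131d148c0401, 0x20e62906110150c84005, 0x20e62146110150c84005, 0x462418e520041148c03],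
 [0x2003290e2099508c0403, 0x202329002399508c0401, 0x204329001399508c0401, 0x100020000000040008000000010002000046, 0x20861040538d5040c801, 0x20a61040438d5040c801, 0x100000004000040008000000010002000046],
 [0x20c01046521d14048c01, 0x20c72906208114c84005, 0x20c72906110114c84005, 0x20871040530d1440c801, 0x140641c8208cc9140403, 0x14e0104664114c049001, 0x14074188208cc9500403],
 [0x20c01046429d14048c01, 0x20c72146208114c84005, 0x20c72146110114c84005, 0x20a71040430d1440c801, 0x10e0104664154c049001, 0x100641ca208cc9140403, 0x1007418a208cc9500403]] = true := by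
  decide +kernel

theorem r3_1 : rchk (dg 0x332000) (dg 0x211132) 4 6 3 1 L3 0
 [[0x142641c0220cc9140401, 0x1ca8190c0088d4490005, 0x1c68290c010454c90005, 0x1464418e20808d144005, 0x20e62906208150c84007, 0x14e4320620814d084005, 0x14274180220cc9500401],
 [0x1ca820cc1008944d0005, 0x140641c221908d140401, 0x1c8828cc1100548d0005, 0x20e628c82005508c4007, 0x1483418e2004c9144005, 0x1ca332082005490c4005, 0x1407418221908d500401],
 [0x1c68214c200494c50005, 0x1c88194c2080d4850005, 0x102641c4028cc5140801, 0x10e5418600884d148005, 0x10e5320600894d048005, 0x20e62146008950c48007, 0x10274184028cc5500801],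
 [0x146441cc20808d504005, 0x20c728c82005148c4007, 0x10c541c600884d508005, 0x148341cc2080c9504001, 0x110531c600894c508005, 0x150419cc20814c904005, 0x1483418e2080c9144001],
 [0x20c72906208114c84007, 0x148341cc2004c9504005, 0x10c53a0600890d448005, 0x1105398600890c548005, 0x146441cc20048d504001, 0x1d03214c200548d04005, 0x1464418e20048d144001],
 [0x14c43a0620810d484005, 0x18a33a082005094c4005, 0x20c72146008914c48007, 0x1504198e20810c944005, 0x1903214e200508d44005, 0x106541cc01044d508001, 0x1065418e01044d148001]] = true := by
  decide +kernel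

end Pool.H29E
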