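import Pool.Agent.H29E.Step
import Pool.Agent.H29E.Data2
import Pool.Agent.H29E.Data3
import Pool.Agent.H29E.Data4
import Pool.Agent.H29E.Data5
import Pool.Agent.H29E.Data6
import Pool.Agent.H29E.Data6f
import Pool.Agent.H29E.Data7a
import Pool.Agent.H29E.Data7b
import Pool.Agent.H29E.Data7c
import Pool.Agent.H29E.Data7d
import Pool.Agent.H29E.Data7e
import Pool.Agent.H29E.Data7f

/-! Classification of the cubic skeletons with small weight. -/

namespace Pool.H29E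

open Finset Pool.H82.SC Pool.H82.SC.MG

theorem t2 : ∀ t ∈ L1, ∀ i < 3, ∀ j < 3 + 1,
    ∃ c, cchk (cA (dg t.1) 2 3) (cB (dg t.2) 2 3 i j) (2 + 2) (3 + 3) 3 1
      L2 c = true := by
  intro t ht i hi j hj
  simp only [L1, List.mem_cons, List.not_mem_nil, or_false] at ht
  rcases ht with rfl
  · exact rchk_spec _ 0 r2_0 i (Nat.zero_le _) hi j hj

theorem t3 : ∀ t ∈ L2, ∀ i < 6, ∀ j < 6 + 1,
    ∃ c, cchk (cA (dg t.1) 4 6) (cB (dg t.2) 4 6 i j) (4 + 2) (6 + 3) 3 1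
      L3 c = true := by
  intro t ht i hi j hj
  simp only [L2, List.mem_cons, List.not_mem_nil, or_false] at ht
  rcases ht with rfl | rfl
  · exact rchk_spec _ 0 r3_0 i (Nat.zero_le _) hi j hj
  · exact rchk_spec _ 0 r3_1 i (Nat.zero_le _) hi j hj

theorem t4 : ∀ t ∈ L3, ∀ i < 9, ∀ j < 9 + 1,
    ∃ c, cchk (cA (dg t.1) 6 9) (cB (dg t.2) 6 9 i j) (6 + 2) (9 + 3) 49 15
      L4 c = true := by
  intro t ht i hi j hj
  simp only [L3, List.mem_cons, List.not_mem_nil, or_false] at ht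
  rcases ht with rfl | rfl | rfl | rfl
  · exact rchk_spec _ 0 r4_0 i (Nat.zero_le _) hi j hj
  · exact rchk_spec _ 0 r4_1 i (Nat.zero_le _) hi j hj
  · exact rchk_spec _ 0 r4_2 i (Nat.zero_le _) hi j hj
  · exact rchk_spec _ 0 r4_3 i (Nat.zero_le _) hi j hj

theorem t5 : ∀ t ∈ L4, ∀ i < 12, ∀ j < 12 + 1,
    ∃ c, cchk (cA (dg t.1) 8 12) (cB (dg t.2) 8 12 i j) (8 + 2) (12 + 3) 7 2
      L5 c = true := by
  intro t ht i hi j hj
  simp only [L4, List.mem_cons, List.not_mem_nil, or_false] at ht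
  rcases ht with rfl | rfl | rfl | rfl | rfl | rfl | rfl | rfl | rfl | rfl | rfl | rfl | rfl
  · exact rchk_spec _ 0 r5_0 i (Nat.zero_le _) hi j hj
  · exact rchk_spec _ 0 r5_1 i (Nat.zero_le _) hi j hj
  · exact rchk_spec _ 0 r5_2 i (Nat.zero_le _) hi j hj
  · exact rchk_spec _ 0 r5_3 i (Nat.zero_le _) hi j hj
  · exact rchk_spec _ 0 r5_4 i (Nat.zero_le _) hi j hj
  · exact rchk_spec _ 0 r5_5 i (Nat.zero_le _) hi j hj
  · exact rchk_spec _ 0 r5_6 i (Nat.zero_le _) hi j hj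
  · exact rchk_spec _ 0 r5_7 i (Nat.zero_le _) hi j hj
  · exact rchk_spec _ 0 r5_8 i (Nat.zero_le _) hi j hj
  · exact rchk_spec _ 0 r5_9 i (Nat.zero_le _) hi j hj
  · exact rchk_spec _ 0 r5_10 i (Nat.zero_le _) hi j hj
  · exact rchk_spec _ 0 r5_11 i (Nat.zero_le _) hi j hj
  · exact rchk_spec _ 0 r5_12 i (Nat.zero_le _) hi j hj

theorem t6 : ∀ t ∈ L5, ∀ i < 15, ∀ j < 15 + 1,
    ∃ c, cchk (cA (dg t.1) 10 15) (cB (dg t.2) 10 15 i j) (10 + 2) (15 + 3) 63 17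
      L6 c = true := by
  intro t ht i hi j hj
  simp only [L5, List.mem_cons, List.not_mem_nil, or_false] at ht
  rcases ht with rfl | rfl | rfl | rfl | rfl | rfl | rfl | rfl | rfl | rfl | rfl
  · exact rchk_spec _ 0 r6_0 i (Nat.zero_le _) hi j hj
  · exact rchk_spec _ 0 r6_1 i (Nat.zero_le _) hi j hj
  · exact rchk_spec _ 0 r6_2 i (Nat.zero_le _) hi j hj
  · exact rchk_spec _ 0 r6_3 i (Nat.zero_le _) hi j hj
  · exact rchk_spec _ 0 r6_4 i (Nat.zero_le _) hi j hj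
  · exact rchk_spec _ 0 r6_5 i (Nat.zero_le _) hi j hj
  · exact rchk_spec _ 0 r6_6 i (Nat.zero_le _) hi j hj
  · exact rchk_spec _ 0 r6_7 i (Nat.zero_le _) hi j hj
  · exact rchk_spec _ 0 r6_8 i (Nat.zero_le _) hi j hj
  · exact rchk_spec _ 0 r6_9 i (Nat.zero_le _) hi j hj
  · exact rchk_spec _ 0 r6_10 i (Nat.zero_le _) hi j hj

theorem t7 : ∀ t ∈ L6s, ∀ i < 18, ∀ j < 18 + 1,
    ∃ c, cchk (cA (dg t.1) 12 18) (cB (dg t.2) 12 18 i j) (12 + 2) (18 + 3) 187 50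
      L7 c = true := by
  intro t ht i hi j hj
  simp only [L6s, List.mem_cons, List.not_mem_nil, or_false] at ht
  rcases ht with rfl | rfl | rfl | rfl | rfl | rfl | rfl | rfl | rfl | rfl | rfl | rfl | rfl | rfl | rfl | rfl | rfl | rfl | rfl | rfl | rfl | rfl | rfl | rfl | rfl | rfl | rfl
  · exact rchk_spec _ 0 r7_0 i (Nat.zero_le _) hi j hj
  · exact rchk_spec _ 0 r7_4 i (Nat.zero_le _) hi j hj
  · exact rchk_spec _ 0 r7_5 i (Nat.zero_le _) hi j hj
  · exact rchk_spec _ 0 r7_8 i (Nat.zero_le _) hi j hj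
  · exact rchk_spec _ 0 r7_9 i (Nat.zero_le _) hi j hj
  · exact rchk_spec _ 0 r7_10 i (Nat.zero_le _) hi j hj
  · exact rchk_spec _ 0 r7_11 i (Nat.zero_le _) hi j hj
  · exact rchk_spec _ 0 r7_12 i (Nat.zero_le _) hi j hj
  · exact rchk_spec _ 0 r7_13 i (Nat.zero_le _) hi j hj
  · exact rchk_spec _ 0 r7_16 i (Nat.zero_le _) hi j hj
  · exact rchk_spec _ 0 r7_17 i (Nat.zero_le _) hi j hj
  · exact rchk_spec _ 0 r7_18 i (Nat.zero_le _) hi j hj
  · exact rchk_spec _ 0 r7_20 i (Nat.zero_le _) hi j hj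
  · exact rchk_spec _ 0 r7_22 i (Nat.zero_le _) hi j hj
  · exact rchk_spec _ 0 r7_23 i (Nat.zero_le _) hi j hj
  · exact rchk_spec _ 0 r7_24 i (Nat.zero_le _) hi j hj
  · exact rchk_spec _ 0 r7_27 i (Nat.zero_le _) hi j hj
  · exact rchk_spec _ 0 r7_28 i (Nat.zero_le _) hi j hj
  · exact rchk_spec _ 0 r7_32 i (Nat.zero_le _) hi j hj
  · exact rchk_spec _ 0 r7_33 i (Nat.zero_le _) hi j hj
  · exact rchk_spec _ 0 r7_34 i (Nat.zero_le _) hi j hj
  · exact rchk_spec _ 0 r7_35 i (Nat.zero_le _) hi j hj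
  · exact rchk_spec _ 0 r7_36 i (Nat.zero_le _) hi j hj
  · exact rchk_spec _ 0 r7_37 i (Nat.zero_le _) hi j hj
  · exact rchk_spec _ 0 r7_38 i (Nat.zero_le _) hi j hj
  · exact rchk_spec _ 0 r7_39 i (Nat.zero_le _) hi j hj
  · exact rchk_spec _ 0 r7_40 i (Nat.zero_le _) hi j hj

theorem cls2 (h : ℕ) : Cls h 4 6 3 1 L2 :=
  step (x := 0) (by norm_num) (by norm_num) (cls1 h 3 1) t2 (by norm_num) (by norm_num)
    (fun K' hK hV hE => by have := MB1 h K' hK hV hE; omega)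
    (fun K' hK hV hE hx => by omega)

theorem cls3 (h : ℕ) : Cls h 6 9 3 1 L3 :=
  step (x := 1) (by norm_num) (by norm_num) (cls2 h) t3 (by norm_num) (by norm_num)
    (fun K' hK hV hE => by have := MB2 h K' hK hV hE; omega)
    (fun K' hK hV hE hx => by have := MB1 h K' hK hV hE; omega)

theorem cls4 (h : ℕ) : Cls h 8 12 49 15 L4 :=
  step (x := 2) (by norm_num) (by norm_num) (cls3 h) t4 (by norm_num) (by norm_num)
    (fun K' hK hV hE => by have := MB3 h K' hK hV hE; omega)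
    (fun K' hK hV hE hx => by have := MB2 h K' hK hV hE; omega)

theorem cls5 (h : ℕ) : Cls h 10 15 7 2 L5 :=
  step (x := 3) (by norm_num) (by norm_num) (cls4 h) t5 (by norm_num) (by norm_num)
    (fun K' hK hV hE => by have := MB4 h K' hK hV hE; omega)
    (fun K' hK hV hE hx => by have := MB3 h K' hK hV hE; omega)

theorem cls6 (h : ℕ) : Cls h 12 18 63 17 L6 :=
  step (x := 4) (by norm_num) (by norm_num) (cls5 h) t6 (by norm_num) (by norm_num)
    (fun K' hK hV hE => by have := MB5 h K' hK hV hE; omega)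
    (fun K' hK hV hE hx => by have := MB4 h K' hK hV hE; omega)

theorem cls6s (h : ℕ) : Cls h 12 18 25 7 L6s := by
  intro K hK hl hc hV hE hW
  obtain ⟨t, ht, fV, fE, L⟩ := cls6 h K hK hl hc hV hE (by omega)
  obtain ⟨c, hc'⟩ := fchk_spec _ _ f6 t ht
  exact cchk_sound L hK hW hc'

theorem cls7 (h : ℕ) : Cls h 14 21 187 50 L7 :=
  step (x := 5) (by norm_num) (by norm_num) (cls6s h) t7 (by norm_num) (by norm_num)
    (fun K' hK hV hE => by have := MB6 h K' hK hV hE; omega)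
    (fun K' hK hV hE hx => by have := MB5 h K' hK hV hE; omega)

end Pool.H29E
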