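import Pool.Agent.H82.SC.Ram

set_option linter.unusedSimpArgs false
set_option linter.unusedVariables false

/-! Counting paths of length two. -/

namespace Pool.H29E

open Finset Pool.H82.SC Pool.H82.SC.MG

variable {K : MG}

/-- `z` joins `v` and `x` (mod 2) -/
def Jn (K : MG) (z : Finset ℕ) (v x : ℕ) : Prop :=
  z ⊆ K.E ∧ ∀ u, K.bd z u = (if v = u then 1 else 0) + (if x = u then 1 else 0)

lemma jn_empty (v : ℕ) : Jn K ∅ v v := by
  refine ⟨empty_subset _, fun u => ?_⟩
  rw [K.bd_empty, zmod2_add_self]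

lemma jn_edge {e v u : ℕ} (he : e ∈ K.E) (hj : K.J e v u) : Jn K {e} v u := by
  refine ⟨by simpa using he, fun x => ?_⟩
  unfold MG.bd
  rw [sum_singleton, hj.inc]

lemma Jn.symm {z : Finset ℕ} {v x : ℕ} (h : Jn K z v x) : Jn K z x v :=
  ⟨h.1, fun u => by rw [h.2 u, add_comm]⟩

lemma Jn.comp {z z' : Finset ℕ} {v x y : ℕ} (h : Jn K z v x) (h' : Jn K z' x y) :
    Jn K (symmDiff z z') v y := by
  refine ⟨?_, fun u => ?_⟩
  · intro e he
    rcases mem_symmDiff.1 he with h1 | h1
    · exact h.1 h1.1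
    · exact h'.1 h1.1
  · rw [K.bd_symmDiff, h.2 u, h'.2 u]
    generalize (if v = u then (1 : ZMod 2) else 0) = a
    generalize (if x = u then (1 : ZMod 2) else 0) = b
    generalize (if y = u then (1 : ZMod 2) else 0) = c
    revert a b c
    decide

lemma Jn.ev {z : Finset ℕ} {v : ℕ} (h : Jn K z v v) : K.Ev z :=
  ⟨h.1, fun u => by rw [h.2 u, zmod2_add_self]⟩

lemma uni_wt (h : K.Uni) {z : Finset ℕ} (hz : z ⊆ K.E) : K.wt z = #z := by
  unfold MG.wt
  rw [sum_congr rfl fun e he => h.w1 e (hz he), sum_const, smul_eq_mul, mul_one]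

lemma card_sd (a b : Finset ℕ) : #(symmDiff a b) ≤ #a + #b ∧
    #(symmDiff a b) % 2 = (#a + #b) % 2 := by
  have h1 := card_sdiff_add_card_inter a b
  have h2 := card_sdiff_add_card_inter b a
  rw [inter_comm] at h2
  have h3 : #(symmDiff a b) = #(a \ b) + #(b \ a) := by
    rw [symmDiff_def, sup_eq_union, card_union_of_disjoint (disjoint_sdiff_sdiff)]
  omega

/-- uniqueness of short joins -/
lemma Jn.unique (h : K.Uni) {n : ℕ} (hK : K.Cyc n) {z z' : Finset ℕ} {v x : ℕ} (h1 : Jn K z v x)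
    (h2 : Jn K z' v x) (hc : #z + #z' < n) : z = z' := by
  by_contra hne
  have h3 := (h1.comp h2.symm)
  have h4 : (symmDiff z z').Nonempty := by
    rw [nonempty_iff_ne_empty]
    intro h5
    exact hne (symmDiff_eq_bot.1 h5)
  have h5 := hK _ h3.ev h4
  rw [uni_wt h h3.1] at h5
  have := (card_sd z z').1
  omega

/-- set of vertices at even distance at most two -/
noncomputable def S2 (K : MG) (v : ℕ) : Finset ℕ := by
  classical
  exact K.V.filter fun x => ∃ z, Jn K z v x ∧ #z ≤ 2 ∧ #z % 2 = 0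

lemma mem_S2 {v x : ℕ} : x ∈ S2 K v ↔ x ∈ K.V ∧ ∃ z, Jn K z v x ∧ #z ≤ 2 ∧ #z % 2 = 0 := by
  classical
  unfold S2
  rw [mem_filter]

lemma S2_indep (h : K.Uni) (hK : K.Cyc 6) (v : ℕ) : (K.ind (S2 K v)).E = ∅ := by
  rw [eq_empty_iff_forall_notMem]
  intro f hf
  rw [MG.ind_E, mem_filter, mem_S2, mem_S2] at hf
  obtain ⟨hf, ⟨-, z1, j1, c1, p1⟩, -, z2, j2, c2, p2⟩ := hf
  have j3 : Jn K {f} (K.s f) (K.t f) := jn_edge hf (Or.inl ⟨rfl, rfl⟩)
  have j4 := (j1.comp j3).comp j2.symm
  have c3 := card_sd z1 {f}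
  have c4 := card_sd (symmDiff z1 {f}) z2
  rw [card_singleton] at c3
  have h4 : (symmDiff (symmDiff z1 {f}) z2).Nonempty := by
    rw [← card_pos]; omega
  have h5 := hK _ j4.ev h4
  rw [uni_wt h j4.1] at h5
  omega

lemma S2_card (h : K.Uni) (hK : K.Cyc 6) (hD : ∀ X ⊆ K.V, 3 ≤ K.D X) (v : ℕ) :
    2 * #(S2 K v) + 3 ≤ #K.V := by
  have h1 := hD (S2 K v) (fun x hx => (mem_S2.1 hx).1)
  rw [h.D, S2_indep h hK] at h1
  rw [card_empty] at h1
  have : (2 * #(S2 K v) + 3 : ℤ) ≤ #K.V := by push_cast at h1; linarith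
  exact_mod_cast this

lemma self_mem_S2 {v : ℕ} (hv : v ∈ K.V) : v ∈ S2 K v :=
  mem_S2.2 ⟨hv, ∅, jn_empty v, by simp, by simp⟩

lemma no_par (h : K.Uni) (hK : K.Cyc 6) {e f u x : ℕ} (he : e ∈ K.E) (hf : f ∈ K.E) (hne : e ≠ f)
    (h1 : K.J e u x) (h2 : K.J f u x) : False := by
  apply hne
  have := Jn.unique h hK (jn_edge he h1) (jn_edge hf h2) (by simp)
  simpa using this

/-- counting pairs -/
theorem count_pairs (h : K.Uni) (hK : K.Cyc 6) :
    ∑ u ∈ K.V, (K.deg u * K.deg u - K.deg u) ≤ ∑ v ∈ K.V, (#(S2 K v) - 1) := by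
  classical
  have e1 : ∑ u ∈ K.V, (K.deg u * K.deg u - K.deg u) =
      #(K.V.sigma fun u => (K.star u).offDiag) := by
    rw [card_sigma]
    apply sum_congr rfl
    intro u _
    rw [offDiag_card, K.deg_eq_card_star h.nl]
  have e2 : ∑ v ∈ K.V, (#(S2 K v) - 1) = #(K.V.sigma fun v => (S2 K v).erase v) := by
    rw [card_sigma]
    apply sum_congr rfl
    intro v hv
    rw [card_erase_of_mem (self_mem_S2 hv)]
  rw [e1, e2]
  have hjn : ∀ u e f, e ∈ K.star u → f ∈ K.star u → e ≠ f →
      Jn K {e, f} (K.oth e u) (K.oth f u) := by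
    intro u e f he hf hne
    have h1 := (jn_edge (K.star_subset u he) (J_star h.nl he)).symm
    have h2 := jn_edge (K.star_subset u hf) (J_star h.nl hf)
    have h3 := h1.comp h2
    have h4 : symmDiff ({e} : Finset ℕ) {f} = {e, f} := by
      ext x
      simp only [mem_symmDiff, mem_singleton, mem_insert]
      constructor
      · rintro (⟨rfl, -⟩ | ⟨rfl, -⟩)
        · exact Or.inl rfl
        · exact Or.inr rfl
      · rintro (rfl | rfl)
        · exact Or.inl ⟨rfl, hne⟩
        · exact Or.inr ⟨rfl, Ne.symm hne⟩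
    rwa [h4] at h3
  apply card_le_card_of_injOn (fun p => (⟨K.oth p.2.1 p.1, K.oth p.2.2 p.1⟩ : Σ _ : ℕ, ℕ))
  · rintro ⟨u, e, f⟩ hp
    simp only [coe_sigma, Set.mem_sigma_iff, mem_coe, mem_offDiag] at hp ⊢
    obtain ⟨hu, he, hf, hne⟩ := hp
    refine ⟨oth_mem (K.star_subset u he), mem_erase.2 ⟨?_, mem_S2.2 ⟨oth_mem (K.star_subset u hf),
      {e, f}, hjn u e f he hf hne, by rw [card_pair hne], by rw [card_pair hne]⟩⟩⟩
    intro hx
    have h1 := J_star h.nl he
    have h2 := J_star h.nl hf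
    rw [hx] at h2
    exact no_par h hK (K.star_subset u he) (K.star_subset u hf) hne h1 h2
  · rintro ⟨u, e, f⟩ hp ⟨u', e', f'⟩ hp' heq
    simp only [coe_sigma, Set.mem_sigma_iff, mem_coe, mem_offDiag] at hp hp'
    obtain ⟨hu, he, hf, hne⟩ := hp
    obtain ⟨hu', he', hf', hne'⟩ := hp'
    simp only [Sigma.mk.injEq, heq_eq_eq] at heq
    obtain ⟨q1, q2⟩ := heq
    have j1 := hjn u e f he hf hne
    have j2 := hjn u' e' f' he' hf' hne'
    rw [← q1, ← q2] at j2
    have hset := Jn.unique h hK j1 j2 (by rw [card_pair hne, card_pair hne']; norm_num)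
    have J1 := J_star h.nl he
    have J2 := J_star h.nl hf
    have J1' := J_star h.nl he'
    have J2' := J_star h.nl hf'
    have hoe : K.oth e u ≠ K.oth f u := by
      intro hx
      rw [hx] at J1
      exact no_par h hK (K.star_subset u he) (K.star_subset u hf) hne J1 J2
    -- `e = e'`
    have hee : e = e' := by
      have : e' ∈ ({e, f} : Finset ℕ) := by rw [hset]; simp
      simp only [mem_insert, mem_singleton] at this
      rcases this with h1 | h1
      · exact h1.symm
      · exfalso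
        subst h1
        have h2 : f' = e := by
          have : e ∈ ({e', f'} : Finset ℕ) := by rw [← hset]; simp
          simp only [mem_insert, mem_singleton] at this
          rcases this with h3 | h3
          · exact absurd h3 hne
          · exact h3.symm
        subst h2
        -- e' joins u, x and u', v ; f' joins u, v and u', x
        rw [← q1] at J1'
        rw [← q2] at J2'
        have n1 := oth_ne (v := u) h.nl (K.star_subset u he)
        have n2 := oth_ne (v := u) h.nl (K.star_subset u hf)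
        rcases J2 with ⟨a1, a2⟩ | ⟨a1, a2⟩ <;> rcases J1' with ⟨b1, b2⟩ | ⟨b1, b2⟩
        · exact hoe (b2.symm.trans a2)
        · exact n1 (b1.symm.trans a1)
        · exact n1 (b2.symm.trans a2)
        · exact hoe (b1.symm.trans a1)
    subst hee
    have hff : f = f' := by
      have : f ∈ ({e, f'} : Finset ℕ) := by rw [← hset]; simp
      simp only [mem_insert, mem_singleton] at this
      rcases this with h1 | h1
      · exact absurd h1.symm hne
      · exact h1
    subst hff
    have huu : u = u' := by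
      rw [← q1] at J1'
      rcases J1 with ⟨a1, a2⟩ | ⟨a1, a2⟩ <;> rcases J1' with ⟨b1, b2⟩ | ⟨b1, b2⟩
      · exact a1.symm.trans b1
      · exfalso
        exact h.nl e (K.star_subset u he) (b1.trans a2.symm)
      · exfalso
        exact h.nl e (K.star_subset u he) (a1.trans b2.symm)
      · exact a2.symm.trans b2
    subst huu
    rfl

theorem count_six (h : K.Uni) (hK : K.Cyc 6) (hD : ∀ X ⊆ K.V, 3 ≤ K.D X) (hV : #K.V = 15)
    (hE : 21 ≤ #K.E) : False := by
  have h1 := count_pairs h hK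
  have h2 : ∑ v ∈ K.V, (#(S2 K v) - 1) ≤ ∑ v ∈ K.V, 5 := by
    apply sum_le_sum
    intro v hv
    have := S2_card h hK hD v
    omega
  rw [sum_const, hV, smul_eq_mul] at h2
  have h3 : ∑ u ∈ K.V, 4 * K.deg u ≤ ∑ u ∈ K.V, ((K.deg u * K.deg u - K.deg u) + 6) := by
    apply sum_le_sum
    intro u _
    generalize K.deg u = d
    rcases Nat.lt_or_ge d 6 with h4 | h4
    · interval_cases d <;> simp
    · have h5 : d * 6 ≤ d * d := Nat.mul_le_mul_left _ h4
      omega
  rw [← mul_sum, sum_add_distrib, sum_const, hV, smul_eq_mul, K.handshake] at h3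
  omega

end Pool.H29E
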