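import Pool.Agent.H29E.Tab

set_option linter.unusedSimpArgs false
set_option linter.unusedVariables false

/-! Decision trees for the functional `D` over the parity patterns of one class. -/

namespace Pool.H29E

open Finset Pool.H82.SC

variable {K : MG} {n m : ℕ} {A B fV fE : ℕ → ℕ}

/-- the vertex set given by a bit mask -/
def xs (X n : ℕ) : Finset ℕ := (range n).filter fun i => X.testBit i = true

lemma mem_xs {X n i : ℕ} (hi : i < n) : i ∈ xs X n ↔ X.testBit i = true := by
  simp [xs, hi]

lemma Lab.mem_image (L : Lab K n m A B fV fE) {X i : ℕ} (hi : i < n) :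
    fV i ∈ (xs X n).image fV ↔ X.testBit i = true := by
  rw [Finset.mem_image]
  constructor
  · rintro ⟨j, hj, h⟩
    have hj' : j < n := mem_range.1 (mem_filter.1 hj).1
    have := L.vinj _ hj' _ hi h
    subst this
    exact (mem_filter.1 hj).2
  · intro h
    exact ⟨i, (mem_xs hi).2 h, rfl⟩

/-- contribution of an edge plus one -/
def ph (o a b : Bool) : ℤ :=
  if o = true then (if a = true ∧ b = true then 2 else 0) else (if a = true ∨ b = true then 1 else -1)

lemma D_lab (L : Lab K n m A B fV fE) (X : ℕ) : K.D ((xs X n).image fV) =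
    (n : ℤ) - 2 * #(xs X n) + ∑ k ∈ range m, ph (par K fE k) (X.testBit (A k)) (X.testBit (B k)) := by
  classical
  unfold MG.D
  rw [L.cardV, card_image_of_injOn (by
    intro i hi j hj h
    have hi' := (mem_filter.1 hi).1
    have hj' := (mem_filter.1 hj).1
    exact L.vinj _ (mem_range.1 hi') _ (mem_range.1 hj') h)]
  congr 1
  rw [← L.eimg, sum_image (by
    intro i hi j hj h
    exact L.einj' hi hj h)]
  apply sum_congr rfl
  intro k hk
  obtain ⟨a1, a2, a3⟩ := L.ends k (mem_range.1 hk)
  have h1 := L.mem_image (X := X) a1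
  have h2 := L.mem_image (X := X) a2
  have hpar : par K fE k = true ↔ ¬ Even (K.w (fE k)) := by
    unfold par
    rw [decide_eq_true_iff, Nat.not_even_iff_odd]
  unfold MG.phi ph
  rcases a3 with ⟨b1, b2⟩ | ⟨b1, b2⟩
  · rw [b1, b2]
    by_cases hw : Even (K.w (fE k))
    · have : ¬ (par K fE k = true) := fun h => (hpar.1 h) hw
      simp only [hw, if_true, this, if_false, h1, h2, Bool.false_eq_true]
    · have : par K fE k = true := hpar.2 hw
      simp only [hw, if_false, this, if_true, h1, h2]
  · rw [b1, b2]
    by_cases hw : Even (K.w (fE k))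
    · have : ¬ (par K fE k = true) := fun h => (hpar.1 h) hw
      simp only [hw, if_true, this, if_false, h1, h2, Bool.false_eq_true]
      cases X.testBit (A k) <;> cases X.testBit (B k) <;> rfl
    · have : par K fE k = true := hpar.2 hw
      simp only [hw, if_false, this, if_true, h1, h2]
      cases X.testBit (A k) <;> cases X.testBit (B k) <;> rfl

/-- upper bounds of the contributions plus one -/
def dvs (A B : ℕ → ℕ) (R0 Kn C X : ℕ) : ℕ → ℕ
  | 0 => 0
  | k + 1 => dvs A B R0 Kn C X k +
      cond (Nat.beq (((Kn >>> A k) % 2) * ((Kn >>> B k) % 2)) 1)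
        (cond (Nat.beq (((R0 >>> k) + (C >>> A k) + (C >>> B k)) % 2) 1)
          (1 + 2 * (((X >>> A k) % 2) * ((X >>> B k) % 2)))
          (2 * ((((X >>> A k) % 2) + ((X >>> B k) % 2)) -
            (((X >>> A k) % 2) * ((X >>> B k) % 2)))))
        (1 + ((X >>> A k) % 2) + ((X >>> B k) % 2))

/-- number of ones -/
def pcn (X : ℕ) : ℕ → ℕ
  | 0 => 0
  | k + 1 => pcn X k + (X >>> k) % 2

/-- decision tree over the colours of the vertices in the list -/
def dtab (A B : ℕ → ℕ) (n m R0 C0 lim : ℕ) : List ℕ → ℕ → ℕ → Tr → Bool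
  | _, Kn, C, .v X => Nat.ble (n + dvs A B R0 Kn C X m) (lim + 2 * pcn X n + m)
  | [], _, C, .z => Nat.beq C C0
  | k :: ks, Kn, C, .n a b => dtab A B n m R0 C0 lim ks (Kn ||| (1 <<< k)) C a &&
      dtab A B n m R0 C0 lim ks (Kn ||| (1 <<< k)) (C ||| (1 <<< k)) b
  | _, _, _, _ => false

lemma pcn_eq (X n : ℕ) : pcn X n = #(xs X n) := by
  induction n with
  | zero => simp [pcn, xs]
  | succ n ih =>
    unfold xs at ih ⊢
    rw [pcn, ih, range_add_one, filter_insert]
    have hn : n ∉ (range n).filter fun i => X.testBit i = true := by simp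
    rw [tb X n]
    rcases Nat.mod_two_eq_zero_or_one (X >>> n) with h | h
    · rw [h]; simp
    · rw [h]; simp [card_insert_of_notMem hn]

lemma dvs_le {R0 Kn C X : ℕ} {c : ℕ → Bool} {pr : ℕ → Bool}
    (hc : ∀ v, Kn.testBit v = true → c v = C.testBit v) (m : ℕ)
    (hp : ∀ k < m, (pr k ^^ (c (A k) ^^ c (B k))) = R0.testBit k) :
    ∑ k ∈ range m, ph (pr k) (X.testBit (A k)) (X.testBit (B k)) + m ≤ dvs A B R0 Kn C X m := by
  induction m with
  | zero => simp [dvs]
  | succ m ih =>
    have ih' := ih (fun k hk => hp k (by omega))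
    rw [sum_range_succ, dvs]
    push_cast
    have key : ph (pr m) (X.testBit (A m)) (X.testBit (B m)) + 1 ≤
        ((cond (Nat.beq (((Kn >>> A m) % 2) * ((Kn >>> B m) % 2)) 1)
        (cond (Nat.beq (((R0 >>> m) + (C >>> A m) + (C >>> B m)) % 2) 1)
          (1 + 2 * (((X >>> A m) % 2) * ((X >>> B m) % 2)))
          (2 * ((((X >>> A m) % 2) + ((X >>> B m) % 2)) -
            (((X >>> A m) % 2) * ((X >>> B m) % 2)))))
        (1 + ((X >>> A m) % 2) + ((X >>> B m) % 2)) : ℕ) : ℤ) := by
      have hpm := hp m (by omega)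
      have hcA := hc (A m)
      have hcB := hc (B m)
      rw [tb Kn (A m)] at hcA
      rw [tb Kn (B m)] at hcB
      rw [tb C (A m)] at hcA
      rw [tb C (B m)] at hcB
      rw [tb R0 m] at hpm
      rw [tb X (A m), tb X (B m)]
      have h4 : ((R0 >>> m) + (C >>> A m) + (C >>> B m)) % 2 =
        ((R0 >>> m) % 2 + (C >>> A m) % 2 + (C >>> B m) % 2) % 2 := by omega
      rw [h4]
      rcases Nat.mod_two_eq_zero_or_one (X >>> A m) with x1 | x1 <;>
      rcases Nat.mod_two_eq_zero_or_one (X >>> B m) with x2 | x2 <;>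
      rcases Nat.mod_two_eq_zero_or_one (Kn >>> A m) with k1 | k1 <;>
      rcases Nat.mod_two_eq_zero_or_one (Kn >>> B m) with k2 | k2 <;>
      rw [x1, x2, k1, k2] <;> rw [k1] at hcA <;> rw [k2] at hcB
      all_goals
        first
        | (rw [show Nat.beq (0 * 0) 1 = false from rfl, cond_false]; cases pr m <;> decide)
        | (rcases Nat.mod_two_eq_zero_or_one (C >>> A m) with c1 | c1 <;>
           rcases Nat.mod_two_eq_zero_or_one (C >>> B m) with c2 | c2 <;>
           rcases Nat.mod_two_eq_zero_or_one (R0 >>> m) with r1 | r1 <;>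
           rw [c1, c2, r1] <;> rw [c1] at hcA <;> rw [c2] at hcB <;> rw [r1] at hpm <;>
           have hA := hcA rfl <;> have hB := hcB rfl <;> rw [hA, hB] at hpm <;>
           clear hA hB hcA hcB <;> revert hpm <;> cases pr m <;> decide)
    linarith

lemma dtab_leaf (L : Lab K n m A B fV fE) {R0 Kn C X lim : ℕ} {c : ℕ → Bool}
    (hp : ∀ k < m, (par K fE k ^^ (c (A k) ^^ c (B k))) = R0.testBit k)
    (hD : ∀ X ⊆ K.V, (lim : ℤ) < K.D X) (hc : ∀ v, Kn.testBit v = true → c v = C.testBit v)
    (h : Nat.ble (n + dvs A B R0 Kn C X m) (lim + 2 * pcn X n + m) = true) : False := by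
  have h1 := Nat.le_of_ble_eq_true h
  have h2 := dvs_le (A := A) (B := B) (X := X) hc m hp
  have h3 := D_lab L X
  have h4 := hD ((xs X n).image fV) (by
    intro u hu
    obtain ⟨i, hi, rfl⟩ := mem_image.1 hu
    exact L.vmem (mem_range.1 (mem_filter.1 hi).1))
  rw [pcn_eq] at h1
  have h5 : (n : ℤ) + (dvs A B R0 Kn C X m : ℤ) ≤ lim + 2 * #(xs X n) + m := by exact_mod_cast h1
  linarith

theorem dtab_sound (L : Lab K n m A B fV fE) {R0 C0 lim : ℕ} {c : ℕ → Bool}
    (hp : ∀ k < m, (par K fE k ^^ (c (A k) ^^ c (B k))) = R0.testBit k)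
    (hD : ∀ X ⊆ K.V, (lim : ℤ) < K.D X) : ∀ (ks : List ℕ) (Kn C : ℕ) (T : Tr),
    dtab A B n m R0 C0 lim ks Kn C T = true → (∀ v, Kn.testBit v = true → c v = C.testBit v) →
    (∀ v, C.testBit v = true → Kn.testBit v = true) →
    ∀ v, (Kn.testBit v = true ∨ v ∈ ks) → c v = C0.testBit v := by
  intro ks
  induction ks with
  | nil =>
    intro Kn C T h hc hCK v hv
    cases T with
    | v X =>
      rw [dtab] at h
      exact (dtab_leaf L hp hD hc h).elim
    | z =>
      rw [dtab] at h
      have := Nat.eq_of_beq_eq_true h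
      subst this
      rcases hv with hv | hv
      · exact hc v hv
      · simp at hv
    | o _ _ _ => simp [dtab] at h
    | n _ _ => simp [dtab] at h
  | cons k ks ih =>
    intro Kn C T h hc hCK v hv
    cases T with
    | v X =>
      rw [dtab] at h
      exact (dtab_leaf L hp hD hc h).elim
    | z => simp [dtab] at h
    | o _ _ _ => simp [dtab] at h
    | n a b =>
      rw [dtab, Bool.and_eq_true] at h
      have hbit : ∀ u, (Kn ||| (1 <<< k)).testBit u = true ↔ (Kn.testBit u = true ∨ u = k) := by
        intro u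
        rw [Nat.testBit_or, Bool.or_eq_true, Nat.one_shiftLeft]
        by_cases hu : u = k
        · subst hu; simp [Nat.testBit_two_pow_self]
        · rw [Nat.testBit_two_pow_of_ne (Ne.symm hu)]; simp [hu]
      have hbitC : ∀ u, (C ||| (1 <<< k)).testBit u = (C.testBit u || decide (u = k)) := by
        intro u
        rw [Nat.testBit_or, Nat.one_shiftLeft]
        by_cases hu : u = k
        · subst hu; simp [Nat.testBit_two_pow_self]
        · rw [Nat.testBit_two_pow_of_ne (Ne.symm hu)]; simp [hu]
      have hv' : (Kn ||| (1 <<< k)).testBit v = true ∨ v ∈ ks := by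
        rw [hbit]
        rcases hv with hv | hv
        · exact Or.inl (Or.inl hv)
        · rcases List.mem_cons.1 hv with hv | hv
          · exact Or.inl (Or.inr hv)
          · exact Or.inr hv
      by_cases hck : c k = true
      · refine ih _ _ _ h.2 ?_ ?_ v hv'
        · intro u hu
          rw [hbit] at hu
          rw [hbitC]
          rcases hu with hu | hu
          · by_cases huk : u = k
            · subst huk; simp [hck]
            · rw [hc u hu]; simp [huk]
          · subst hu; simp [hck]
        · intro u hu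
          rw [hbitC, Bool.or_eq_true] at hu
          rw [hbit]
          rcases hu with hu | hu
          · exact Or.inl (hCK u hu)
          · exact Or.inr (by simpa using hu)
      · refine ih _ _ _ h.1 ?_ ?_ v hv'
        · intro u hu
          rw [hbit] at hu
          rcases hu with hu | hu
          · exact hc u hu
          · subst hu
            rw [Bool.not_eq_true] at hck
            rw [hck]
            by_cases hCu : C.testBit u = true
            · have := hc u (hCK u hCu)
              rw [hck, hCu] at this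
              exact absurd this (by decide)
            · rw [Bool.not_eq_true] at hCu
              exact hCu.symm
        · intro u hu
          rw [hbit]
          exact Or.inl (hCK u hu)

end Pool.H29E
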