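import Pool.Agent.H29E.One
import Pool.Agent.H29E.Base4

set_option linter.unusedSimpArgs false
set_option linter.unusedVariables false

/-! The Ramsey numbers. -/

namespace Pool.H29E

open Finset Pool.H82.SC Pool.H82.SC.MG

theorem upper_three' {n m : ℕ} (hm : 6 ≤ m) (hn : 2 * ((m + 1) / 3) + 1 ≤ n) :
    Arrows n m (2 * m + 1) := by
  refine Arrows.mono_n (n := 2 * ((m + 1) / 3) + 1)
    (arrows_of (d := 3) (by push_cast; ring) ?_) hn
  intro K hU hK hV hD
  have := card_even' (n := 2 * ((m + 1) / 3) + 1 + 1) (by omega)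
    (by rw [Nat.even_iff]; omega) hU hK hD (by rw [Nat.odd_iff]; omega)
  omega

/-- `k = 1` -/
theorem ramsey_one {m n : ℕ} (hm : 6 ≤ m) :
    ramsey n m = 2 * m + 1 ↔ 2 * ((m + 1) / 3) + 1 ≤ n ∧ n ≤ 2 * (m / 2) := by
  rw [ramsey_eq_iff]
  constructor
  · rintro ⟨h1, h2⟩
    constructor
    · by_contra hcon
      exact lower_three hm (by omega) h1
    · by_contra hcon
      exact h2 (upper_two hm (by omega))
  · rintro ⟨h1, h2⟩
    exact ⟨upper_three' hm h1, lower_two hm h2⟩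

theorem upper_four {n m : ℕ} (hm : 215 ≤ m) (hn : 2 * ((3 * m + 4) / 11) + 1 ≤ n) :
    Arrows n m (2 * m + 2) := by
  refine Arrows.mono_n (n := 2 * ((3 * m + 4) / 11) + 1)
    (arrows_of (d := 4) (by push_cast; ring) ?_) hn
  intro K hU hK hV hD
  have := card_four (n := 2 * ((3 * m + 4) / 11) + 1 + 1) (by omega)
    (by rw [Nat.even_iff]; omega) hU hK hD (by rw [Nat.even_iff]; omega)
  omega

theorem lower_four {n m : ℕ} (hm : 32 ≤ m) (hn : n ≤ 2 * ((3 * m + 4) / 11)) :
    ¬ Arrows n m (2 * m + 2) := by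
  intro h
  have h1 := h.mono_n hn
  obtain ⟨K, a, b, c, d⟩ := base_four (g := 2 * ((3 * m + 4) / 11) + 1) (by omega)
    (by rw [Nat.odd_iff]; omega)
  refine not_arrows_of (j := m + 4 - (11 * (2 * ((3 * m + 4) / 11) + 1) + 10) / 6) (by omega) K a b c
    ?_ (by push_cast; linarith) h1
  omega

/-- `k = 2` -/
theorem ramsey_two {m n : ℕ} (hm : 215 ≤ m) :
    ramsey n m = 2 * m + 2 ↔ 2 * ((3 * m + 4) / 11) + 1 ≤ n ∧ n ≤ 2 * ((m + 1) / 3) := by
  rw [ramsey_eq_iff]
  constructor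
  · rintro ⟨h1, h2⟩
    constructor
    · by_contra hcon
      exact lower_four (by omega) (by omega) h1
    · by_contra hcon
      exact h2 (upper_three' (by omega) (by omega))
  · rintro ⟨h1, h2⟩
    exact ⟨upper_four hm h1, lower_three (by omega) h2⟩

end Pool.H29E
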