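import Pool.Agent.H29E.Six

set_option linter.unusedSimpArgs false
set_option linter.unusedVariables false

/-! `D ≥ 4`. -/

namespace Pool.H29E

open Finset Pool.H82.SC Pool.H82.SC.MG

variable {K : MG}

lemma loop_bound {h g : ℕ} (P : Par2 h g) (hK : K.Cyc h) (ht : Tau K 4) {e : ℕ} (he : e ∈ K.E)
    (hst : K.s e = K.t e) : 4 * h ≤ K.W := by
  have h1 := three_of_tau P _ (hK.ind _) (tau_del ht (K.hs e he))
  have h2 := hK _ (K.loop_ev he hst) (singleton_nonempty e)
  have h3 := K.W_ind_sdiff (K.s e)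
  have h4 : K.wt {e} ≤ K.wt (K.star (K.s e)) := K.wt_mono (by
    intro f hf
    rw [mem_singleton] at hf
    subst hf
    exact mem_filter.2 ⟨he, Or.inl rfl⟩)
  omega

lemma small_cubic {h g : ℕ} (P : Par2 h g) (hK : K.Cyc h) (hl : K.NoLoops) (ht : Tau K 4)
    (hV : #K.V = 2 ∨ #K.V = 4 ∨ #K.V = 6 ∨ #K.V = 8 ∨ #K.V = 10) : 15 * h ≤ 4 * K.W := by
  have h1 : ∀ v ∈ K.V, 3 * h ≤ (K.ind (K.V \ {v})).W := fun v hv =>
    three_of_tau P _ (hK.ind _) (tau_del ht hv)
  have h2 := sum_le_sum h1
  rw [sum_const, smul_eq_mul] at h2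
  have h3 := K.sum_W_ind hl
  have h5 := P.h5
  rcases hV with hV | hV | hV | hV | hV <;> rw [hV] at h2 h3 <;> omega

theorem four_main {h g : ℕ} (P : Par2 h g) (K : MG) (hK : K.Cyc h) (hD : ∀ X ⊆ K.V, 4 ≤ K.D X)
    (hmin : ∀ v ∈ K.V, 2 ≤ K.deg v) (hE : #K.E ≤ #K.V + 7) :
    15 * h ≤ 4 * K.W ∨ (#K.E = #K.V + 6 ∧ (63 * h ≤ 17 * K.W ∨ 11 * g + 5 ≤ 3 * K.W)) ∨
    (#K.E = #K.V + 7 ∧ 187 * h ≤ 50 * K.W) := by
  induction' hn : K.mu using Nat.strong_induction_on with n ih generalizing K
  have ht : Tau K 4 := tau_of_D hD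
  by_cases hl : K.NoLoops
  swap
  · unfold NoLoops at hl
    push Not at hl
    obtain ⟨e, he, hst⟩ := hl
    left
    have := loop_bound P hK ht he hst
    omega
  by_cases h2 : ∃ v ∈ K.V, K.deg v = 2
  · obtain ⟨v, hv, hd⟩ := h2
    obtain ⟨e1, e2, hS⟩ := exists_suppData hl hv hd
    have c1 := supp_cardV hS
    have c2 := supp_cardE hS
    have := ih _ (hn ▸ supp_mu_lt hS) (supp hS) (supp_Cyc hS hK) (supp_D_ge hS hD) (by
      intro u hu
      rw [supp_V, mem_erase] at hu
      rw [supp_deg hS hu.1]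
      exact hmin u hu.2) (by omega) rfl
    rw [supp_W] at this
    rcases this with h3 | ⟨h3, h4⟩ | ⟨h3, h4⟩
    · exact Or.inl h3
    · exact Or.inr (Or.inl ⟨by omega, h4⟩)
    · exact Or.inr (Or.inr ⟨by omega, h4⟩)
  by_cases h3 : ∃ v ∈ K.V, 4 ≤ K.deg v
  · obtain ⟨v, hv, hd⟩ := h3
    obtain ⟨e1, e2, v', e0, hS⟩ := exists_splitData hl hv hd
    have c1 := split_cardV hS
    have c2 := split_cardE hS
    have := ih _ (hn ▸ split_mu_lt hS) (split hS) (split_Cyc hS hK) (split_D_ge hS hD) (by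
      intro u hu
      by_cases h4 : u = v'
      · subst h4; rw [split_deg_v' hS]; norm_num
      · by_cases h5 : u = v
        · subst h5
          have := split_deg_v hS
          omega
        · rw [split_deg_other hS h5 h4]
          rw [split_V, mem_insert] at hu
          exact hmin u (hu.resolve_left h4)) (by omega) rfl
    rw [split_W] at this
    rcases this with h3 | ⟨h3, h4⟩ | ⟨h3, h4⟩
    · exact Or.inl h3
    · exact Or.inr (Or.inl ⟨by omega, h4⟩)
    · exact Or.inr (Or.inr ⟨by omega, h4⟩)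
  have hc : K.Cubic := by
    intro v hv
    push Not at h2 h3
    have a1 := hmin v hv
    have a2 := h2 v hv
    have a3 := h3 v hv
    omega
  have hcard := hc.card
  have hpos := card_pos.2 (Tau.pos ht)
  have hx : (#K.V = 2 ∨ #K.V = 4 ∨ #K.V = 6 ∨ #K.V = 8 ∨ #K.V = 10) ∨ #K.V = 12 ∨ #K.V = 14 := by
    omega
  rcases hx with hx | hx | hx
  · exact Or.inl (small_cubic P hK hl ht hx)
  · exact Or.inr (Or.inl ⟨by omega, six_cubic P hK hl hc hx hD⟩)
  · exact Or.inr (Or.inr ⟨by omega, seven_cubic P hK hl hc hx ht⟩)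

theorem MB6' (h : ℕ) : MB h 6 10 3 := by
  refine moore_step (x := 5) ?_ ?_
  · intro K hK hV hE
    have := MB5 h K hK hV hE
    omega
  · intro K hK hl hc hE
    have h1 := hc.card
    by_contra hW
    obtain ⟨t, htL, fV, fE, L⟩ := cls6 h K hK hl hc (by omega) (by omega) (by omega)
    obtain ⟨c, hc'⟩ := fchk_spec _ _ f6k t htL
    obtain ⟨t', htL', -⟩ := cchk_sound L hK (by omega) hc'
    simp at htL'

theorem MB7' (h : ℕ) : MB h 7 7 2 := by
  refine moore_step (x := 6) ?_ ?_
  · intro K hK hV hE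
    have := MB6 h K hK hV hE
    omega
  · intro K hK hl hc hE
    have h1 := hc.card
    by_contra hW
    obtain ⟨t, htL, fV, fE, L⟩ := cls7 h K hK hl hc (by omega) (by omega) (by omega)
    obtain ⟨c, hc'⟩ := fchk_spec _ _ f7k t htL
    obtain ⟨t', htL', -⟩ := cchk_sound L hK (by omega) hc'
    simp at htL'

/-- Moore bound for excess eight -/
theorem MB8' (h : ℕ) : MB h 8 80 21 := by
  refine moore_step (x := 7) ?_ ?_
  · intro K hK hV hE
    have := MB7' h K hK hV hE
    omega
  · intro K hK hl hc hE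
    have := cubic_avg (x := 7) (by norm_num) (MB6' h) hK hl hc hE
    omega

/-- removing vertices of degree at most one, for every `d` -/
lemma prune_step' {d : ℤ} (hd0 : 0 ≤ d) (h : K.Uni) (hD : ∀ X ⊆ K.V, d ≤ K.D X)
    {v : ℕ} (hv : v ∈ K.V) (hd : K.deg v ≤ 1) :
    ∃ S ⊆ K.V, #S < #K.V ∧ #S % 2 = #K.V % 2 ∧ ∀ X ⊆ S, d ≤ (K.ind S).D X := by
  classical
  have hcs := K.card_star_le v
  by_cases hse : K.star v = ∅
  · -- isolated vertex
    have h1 : ∀ X ⊆ K.V \ {v}, d + 1 ≤ (K.ind (K.V \ {v})).D X := by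
      intro X hX
      have hvX : v ∉ X := fun hh => by
        have := hX hh
        simp at this
      have hsub : insert v X ⊆ K.V := insert_subset hv (hX.trans sdiff_subset)
      have h2 := hD _ hsub
      rw [h.D, card_insert_of_notMem hvX] at h2
      rw [(h.ind _).D]
      have h3 : (K.ind (insert v X)).E = ((K.ind (K.V \ {v})).ind X).E := by
        ext e
        simp only [ind_E, ind_s, ind_t, mem_filter, mem_insert, mem_sdiff, mem_singleton]
        constructor
        · rintro ⟨he, a, b⟩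
          have hns : e ∉ K.star v := by rw [hse]; simp
          unfold MG.star at hns
          rw [mem_filter] at hns
          push Not at hns
          obtain ⟨c1, c2⟩ := hns he
          exact ⟨⟨he, ⟨K.hs e he, c1⟩, K.ht e he, c2⟩, a.resolve_left c1, b.resolve_left c2⟩
        · rintro ⟨⟨he, -, -⟩, a, b⟩
          exact ⟨he, Or.inr a, Or.inr b⟩
      rw [h3] at h2
      have h4 : (#(K.ind (K.V \ {v})).V : ℤ) + 1 = #K.V := by
        exact_mod_cast cardV_ind hv
      push_cast at h2
      linarith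
    have hne : (K.V \ {v}).Nonempty := by
      rw [nonempty_iff_ne_empty]
      intro he
      have h2 := h1 ∅ (empty_subset _)
      rw [(h.ind _).D] at h2
      have h3 : #(K.ind (K.V \ {v})).V = 0 := by rw [ind_V, he, card_empty]
      have h4 : ((K.ind (K.V \ {v})).ind ∅).E = ∅ := by
        rw [eq_empty_iff_forall_notMem]
        intro e he
        simp [ind_E] at he
      rw [h3, h4] at h2
      simp at h2
      linarith
    obtain ⟨u, hu⟩ := hne
    have huV : u ∈ K.V ∧ u ≠ v := by simpa using hu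
    refine ⟨(K.V \ {v}) \ {u}, sdiff_subset.trans sdiff_subset, ?_, ?_, ?_⟩
    · apply card_lt_card
      rw [ssubset_iff_of_subset (sdiff_subset.trans sdiff_subset)]
      exact ⟨v, hv, by simp⟩
    · have c1 : #(K.V \ {v}) + 1 = #K.V := cardV_ind hv
      have c2 : #((K.V \ {v}) \ {u}) + 1 = #(K.V \ {v}) := cardV_ind (K := K.ind (K.V \ {v})) hu
      omega
    · intro X hX
      have h2 := h1 X (hX.trans sdiff_subset)
      rw [(h.ind _).D] at h2 ⊢
      have h3 : ((K.ind (K.V \ {v})).ind X).E = ((K.ind ((K.V \ {v}) \ {u})).ind X).E := by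
        ext e
        simp only [ind_E, ind_s, ind_t, mem_filter, mem_sdiff, mem_singleton]
        constructor
        · rintro ⟨⟨he, a, b⟩, c, d⟩
          have hc := hX c
          have hd := hX d
          simp only [mem_sdiff, mem_singleton] at hc hd
          exact ⟨⟨he, hc, hd⟩, c, d⟩
        · rintro ⟨⟨he, a, b⟩, c, d⟩
          exact ⟨⟨he, a.1, b.1⟩, c, d⟩
      rw [h3] at h2
      have c2 : (#((K.V \ {v}) \ {u}) : ℤ) + 1 = #(K.V \ {v}) := by
        exact_mod_cast cardV_ind (K := K.ind (K.V \ {v})) hu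
      simp only [ind_V] at h2 ⊢
      linarith
  · obtain ⟨e, he⟩ : ∃ e, K.star v = {e} := by
      apply card_eq_one.1
      have := card_pos.2 (nonempty_iff_ne_empty.2 hse)
      omega
    have heS : e ∈ K.star v := by rw [he]; simp
    have heE := K.star_subset v heS
    set u := K.oth e v with hu
    have huV : u ∈ K.V := oth_mem heE
    have huv : u ≠ v := oth_ne h.nl heE
    have hj : K.J e v u := J_star h.nl heS
    have hSV : ({v, u} : Finset ℕ) ⊆ K.V := by
      intro x hx
      simp only [mem_insert, mem_singleton] at hx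
      rcases hx with rfl | rfl
      · exact hv
      · exact huV
    have hc2 : #({v, u} : Finset ℕ) = 2 := card_pair huv.symm
    refine ⟨K.V \ {v, u}, sdiff_subset, ?_, ?_, ?_⟩
    · rw [card_sdiff_of_subset hSV, hc2]
      have := card_pos.2 ⟨v, hv⟩
      omega
    · rw [card_sdiff_of_subset hSV, hc2]
      have := card_le_card hSV
      omega
    · intro X hX
      have h4 := K.D_split hSV (h.closed _) (A := {v}) (by simp) hX (by
        intro f hf
        constructor
        · rintro ⟨h5, h6⟩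
          rw [mem_singleton] at h5
          have hfs : f ∈ K.star v := mem_filter.2 ⟨hf, Or.inl h5⟩
          rw [he, mem_singleton] at hfs
          subst hfs
          have h7 := hX h6
          rw [mem_sdiff] at h7
          apply h7.2
          rcases hj with ⟨j1, j2⟩ | ⟨j1, j2⟩
          · rw [j2]; simp
          · exact absurd (j1.symm.trans h5) huv
        · rintro ⟨h5, h6⟩
          rw [mem_singleton] at h6
          have hfs : f ∈ K.star v := mem_filter.2 ⟨hf, Or.inr h6⟩
          rw [he, mem_singleton] at hfs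
          subst hfs
          have h7 := hX h5
          rw [mem_sdiff] at h7
          apply h7.2
          rcases hj with ⟨j1, j2⟩ | ⟨j1, j2⟩
          · exact absurd (j2.symm.trans h6) huv
          · rw [j1]; simp)
      have h5 := hD (X ∪ {v}) (union_subset (hX.trans sdiff_subset) (by simpa using hv))
      rw [h4, (h.ind {v, u}).D] at h5
      have h6 : ((K.ind {v, u}).ind {v}).E = ∅ := by
        rw [eq_empty_iff_forall_notMem]
        intro f hf
        simp only [ind_E, ind_s, ind_t, mem_filter, mem_singleton] at hf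
        exact h.nl f hf.1.1 (hf.2.1.trans hf.2.2.symm)
      rw [h6] at h5
      simp only [ind_V, hc2, card_singleton, card_empty] at h5
      push_cast at h5
      linarith

theorem prune' {d : ℤ} (hd0 : 0 ≤ d) (h : K.Uni) {n : ℕ} (hK : K.Cyc n)
    (hD : ∀ X ⊆ K.V, d ≤ K.D X) :
    ∃ K' : MG, K'.Uni ∧ K'.Cyc n ∧ (∀ X ⊆ K'.V, d ≤ K'.D X) ∧
      #K'.V % 2 = #K.V % 2 ∧ #K'.V ≤ #K.V ∧ ∀ v ∈ K'.V, 2 ≤ K'.deg v := by
  induction' hk : #K.V using Nat.strong_induction_on with k ih generalizing K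
  by_cases hmin : ∀ v ∈ K.V, 2 ≤ K.deg v
  · exact ⟨K, h, hK, hD, by rw [hk], hk.le, hmin⟩
  · push Not at hmin
    obtain ⟨v, hv, hd⟩ := hmin
    obtain ⟨S, hSV, hlt, hSo, hSD⟩ := prune_step' hd0 h hD hv (by omega)
    obtain ⟨K', a, b, c, d, e, f⟩ := ih (#(K.ind S).V) (hk ▸ hlt) (h.ind S) (hK.ind S) hSD rfl
    refine ⟨K', a, b, c, ?_, e.trans (hk ▸ hlt.le), f⟩
    rw [d, ← hk]
    exact hSo

/-- lower bound on the number of vertices for `D ≥ 4` -/
theorem card_four {n : ℕ} (hn : 120 ≤ n) (he : Even n) (h : K.Uni) (hK : K.Cyc n)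
    (hD : ∀ X ⊆ K.V, 4 ≤ K.D X) (hev : Even #K.V) : 11 * n ≤ 3 * #K.V + 2 := by
  obtain ⟨K', a, b, c, d, e, f⟩ := prune' (by norm_num) h hK hD
  have hV : K'.V.Nonempty := Tau.pos (d := 3) (tau_of_D (d := 4) c)
  have P : Par2 n (n + 1) := ⟨by omega, by omega, by omega, he.add_one⟩
  rw [Nat.even_iff] at he hev
  by_cases h1 : #K'.E ≤ #K'.V + 7
  · have h2 := four_main P K' b c f h1
    rw [a.W] at h2
    rcases h2 with h2 | ⟨h2, h3 | h3⟩ | ⟨h2, h3⟩ <;> omega
  · have := a.moore (MB8' n) b hV (by omega)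
    omega

end Pool.H29E
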