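import Pool.Agent.H29E.Kill

set_option linter.unusedSimpArgs false
set_option linter.unusedVariables false

/-! Isomorphism certificates, packed skeletons, and the check of one insertion. -/

namespace Pool.H29E

open Finset Pool.H82.SC

/-- bits hit by `q 0, ..., q (k-1)` -/
def ihit (q : ℕ → ℕ) : ℕ → ℕ
  | 0 => 0
  | k + 1 => ihit q k ||| (1 <<< q k)

/-- edge compatibility -/
def iedge (A B TA TB qv qe : ℕ → ℕ) (n : ℕ) : ℕ → Bool
  | 0 => true
  | k + 1 => iedge A B TA TB qv qe n k &&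
      ((((Nat.beq (A (qe k)) (qv (TA k))) && (Nat.beq (B (qe k)) (qv (TB k)))) ||
        ((Nat.beq (A (qe k)) (qv (TB k))) && (Nat.beq (B (qe k)) (qv (TA k))))) &&
      (Nat.blt (TA k) n && Nat.blt (TB k) n))

/-- the isomorphism check -/
def ichk (A B TA TB qv qe : ℕ → ℕ) (n m : ℕ) : Bool :=
  iedge A B TA TB qv qe n m && (Nat.beq (ihit qv n + 1) (2 ^ n) && Nat.beq (ihit qe m + 1) (2 ^ m))

lemma ihit_testBit {q : ℕ → ℕ} {p : ℕ} (k : ℕ) :
    (ihit q k).testBit p = true ↔ ∃ i < k, q i = p := by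
  induction k with
  | zero => simp [ihit]
  | succ k ih =>
    rw [ihit, Nat.testBit_or, Bool.or_eq_true, ih, Nat.one_shiftLeft]
    rw [Nat.testBit_two_pow]
    constructor
    · rintro (⟨i, hi, h⟩ | h)
      · exact ⟨i, by omega, h⟩
      · exact ⟨k, by omega, by simpa using h⟩
    · rintro ⟨i, hi, h⟩
      rcases Nat.lt_succ_iff_lt_or_eq.1 hi with h1 | h1
      · exact Or.inl ⟨i, h1, h⟩
      · subst h1; right; simpa using h

lemma ihit_perm {q : ℕ → ℕ} {n : ℕ} (h : ihit q n + 1 = 2 ^ n) :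
    (∀ i < n, q i < n) ∧ (∀ i < n, ∀ j < n, q i = q j → i = j) ∧
      (range n).image q = range n := by
  have hb : ∀ p, (ihit q n).testBit p = true ↔ p < n := by
    intro p
    have : ihit q n = 2 ^ n - 1 := by omega
    rw [this, Nat.testBit_two_pow_sub_one]
    simp
  have h1 : ∀ i < n, q i < n := fun i hi => (hb _).1 ((ihit_testBit n).2 ⟨i, hi, rfl⟩)
  have himg : (range n).image q = range n := by
    ext p
    rw [mem_image, mem_range, ← hb, ihit_testBit]
    simp
  refine ⟨h1, ?_, himg⟩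
  have hinj : Set.InjOn q (range n : Finset ℕ) := by
    rw [← card_image_iff, himg]
  intro i hi j hj h
  exact hinj (by simpa using hi) (by simpa using hj) h

lemma iedge_spec {A B TA TB qv qe : ℕ → ℕ} {n m : ℕ} (h : iedge A B TA TB qv qe n m = true) :
    ∀ k < m, ((A (qe k) = qv (TA k) ∧ B (qe k) = qv (TB k)) ∨
      (A (qe k) = qv (TB k) ∧ B (qe k) = qv (TA k))) ∧ TA k < n ∧ TB k < n := by
  induction m with
  | zero => intro k hk; omega
  | succ m ih =>
    rw [iedge, Bool.and_eq_true] at h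
    intro k hk
    rcases Nat.lt_succ_iff_lt_or_eq.1 hk with h1 | h1
    · exact ih h.1 k h1
    · subst h1
      have h2 := h.2
      simp only [Bool.and_eq_true, Bool.or_eq_true] at h2
      obtain ⟨h3, h4, h5⟩ := h2
      have e4 : TA k < n := by
        have := Nat.le_of_ble_eq_true h4
        omega
      have e5 : TB k < n := by
        have := Nat.le_of_ble_eq_true h5
        omega
      refine ⟨?_, e4, e5⟩
      rcases h3 with ⟨a, b⟩ | ⟨a, b⟩
      · exact Or.inl ⟨Nat.eq_of_beq_eq_true a, Nat.eq_of_beq_eq_true b⟩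
      · exact Or.inr ⟨Nat.eq_of_beq_eq_true a, Nat.eq_of_beq_eq_true b⟩

variable {K : MG} {n m : ℕ} {A B fV fE : ℕ → ℕ}

theorem iso_sound (L : Lab K n m A B fV fE) {TA TB qv qe : ℕ → ℕ}
    (hchk : ichk A B TA TB qv qe n m = true) :
    Lab K n m TA TB (fun k => fV (qv k)) (fun k => fE (qe k)) := by
  unfold ichk at hchk
  rw [Bool.and_eq_true, Bool.and_eq_true] at hchk
  obtain ⟨h1, h2, h3⟩ := hchk
  obtain ⟨v1, v2, v3⟩ := ihit_perm (Nat.eq_of_beq_eq_true h2)
  obtain ⟨e1, e2, e3⟩ := ihit_perm (Nat.eq_of_beq_eq_true h3)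
  have hE := iedge_spec h1
  refine ⟨?_, ?_, ?_, ?_, ?_⟩
  · intro i hi j hj h
    exact v2 i hi j hj (L.vinj _ (v1 i hi) _ (v1 j hj) h)
  · rw [← L.vimg]
    conv_rhs => rw [← v3]
    rw [image_image]
    rfl
  · intro i hi j hj h
    exact e2 i hi j hj (L.einj _ (e1 i hi) _ (e1 j hj) h)
  · rw [← L.eimg]
    conv_rhs => rw [← e3]
    rw [image_image]
    rfl
  · intro k hk
    obtain ⟨h4, h5, h6⟩ := hE k hk
    obtain ⟨-, -, hJ⟩ := L.ends (qe k) (e1 k hk)
    refine ⟨h5, h6, ?_⟩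
    rcases h4 with ⟨a, b⟩ | ⟨a, b⟩
    · rw [a, b] at hJ; exact hJ
    · rw [a, b] at hJ; exact hJ.symm

/-! ### packed skeletons -/

/-- hexadecimal digit -/
def dg (P k : ℕ) : ℕ := (P >>> (4 * k)) % 16

/-- `K` is a weighted version of one of the skeletons in the list -/
def InL (K : MG) (n m : ℕ) (Ls : List (ℕ × ℕ)) : Prop :=
  ∃ p ∈ Ls, ∃ fV fE, Lab K n m (dg p.1) (dg p.2) fV fE

/-- first ends of the candidate -/
def cA (A : ℕ → ℕ) (n m : ℕ) : ℕ → ℕ :=
  fun k => cond (Nat.beq k (m + 2)) (n + 1) (sdA (sdA A n m) (n + 1) (m + 1) k)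

/-- second ends of the candidate -/
def cB (B : ℕ → ℕ) (n m i j : ℕ) : ℕ → ℕ :=
  fun k => cond (Nat.beq k (m + 2)) n (sdB (sdB B n m i) (n + 1) (m + 1) j k)

/-- check of one certificate `c` for a skeleton (`A`, `B`) with `n` vertices and `m` edges;
`p/q` is the threshold; `Ls` the list of allowed skeletons -/
def cchk (A B : ℕ → ℕ) (n m p q : ℕ) (Ls : List (ℕ × ℕ)) (c : ℕ) : Bool :=
  cond (Nat.beq (c % 2) 0)
    ((Nat.ble ((c / 2) % 32) 30 && (Nat.ble 1 ((c / 64) % 16) &&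
      Nat.ble (p * ((c / 64) % 16)) (q * ((c / 2) % 32)))) &&
      kchk (fun k => ((c >>> 10) >>> (5 * ((c / 2) % 32) * k)) % 2 ^ (5 * ((c / 2) % 32))) A B
        ((c / 2) % 32) ((c / 64) % 16) m)
    (match Ls[(c / 2) % 512]? with
      | none => false
      | some t => ichk A B (dg t.1) (dg t.2) (fun k => ((c >>> 10) >>> (4 * k)) % 16)
          (fun k => (((c >>> 10) >>> (4 * n)) >>> (5 * k)) % 32) n m)

theorem cchk_sound (L : Lab K n m A B fV fE) {h : ℕ} (hK : K.Cyc h) {p q c : ℕ}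
    {Ls : List (ℕ × ℕ)} (hW : q * K.W < p * h) (hchk : cchk A B n m p q Ls c = true) :
    InL K n m Ls := by
  unfold cchk at hchk
  by_cases h0 : Nat.beq (c % 2) 0 = true
  · rw [h0, cond_true, Bool.and_eq_true, Bool.and_eq_true, Bool.and_eq_true] at hchk
    obtain ⟨⟨h1, h0', h2⟩, h3⟩ := hchk
    have h1' := Nat.le_of_ble_eq_true h1
    have h2' := Nat.le_of_ble_eq_true h2
    have hY := Nat.le_of_ble_eq_true h0'
    exfalso
    have h4 := kill_sound L hK h1' (fun k => Nat.mod_lt _ (by positivity)) h3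
    have h5 : q * (c / 2 % 32 * h) ≤ q * ((c / 64 % 16) * K.W) := Nat.mul_le_mul_left _ h4
    have h6 : p * (c / 64 % 16) * h ≤ q * (c / 2 % 32) * h := Nat.mul_le_mul_right _ h2'
    have h7 : (c / 64 % 16) * (q * K.W) < (c / 64 % 16) * (p * h) :=
      Nat.mul_lt_mul_of_pos_left hW (by omega)
    nlinarith
  · rw [Bool.not_eq_true] at h0
    rw [h0, cond_false] at hchk
    split at hchk
    · exact absurd hchk (by simp)
    · rename_i t ht
      exact ⟨t, List.mem_of_getElem? ht, _, _, iso_sound L hchk⟩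

/-- checks all second insertions after the first one at edge `i` -/
def jchk (A B : ℕ → ℕ) (n m p q : ℕ) (Ls : List (ℕ × ℕ)) (i : ℕ) : ℕ → List ℕ → Bool
  | j, [] => Nat.beq j (m + 1)
  | j, c :: cs => cchk (cA A n m) (cB B n m i j) (n + 2) (m + 3) p q Ls c &&
      jchk A B n m p q Ls i (j + 1) cs

/-- checks all insertions into one skeleton -/
def rchk (A B : ℕ → ℕ) (n m p q : ℕ) (Ls : List (ℕ × ℕ)) : ℕ → List (List ℕ) → Bool
  | i, [] => Nat.beq i m
  | i, r :: rs => jchk A B n m p q Ls i 0 r && rchk A B n m p q Ls (i + 1) rs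

lemma jchk_spec {A B : ℕ → ℕ} {n m p q : ℕ} {Ls : List (ℕ × ℕ)} {i : ℕ} :
    ∀ (cs : List ℕ) (j0 : ℕ), jchk A B n m p q Ls i j0 cs = true → ∀ j, j0 ≤ j → j < m + 1 →
      ∃ c, cchk (cA A n m) (cB B n m i j) (n + 2) (m + 3) p q Ls c = true := by
  intro cs
  induction cs with
  | nil =>
    intro j0 h j h1 h2
    have := Nat.eq_of_beq_eq_true h
    omega
  | cons c cs ih =>
    intro j0 h j h1 h2
    rw [jchk, Bool.and_eq_true] at h
    by_cases hj : j = j0
    · subst hj; exact ⟨c, h.1⟩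
    · exact ih _ h.2 j (by omega) h2

lemma rchk_spec {A B : ℕ → ℕ} {n m p q : ℕ} {Ls : List (ℕ × ℕ)} :
    ∀ (rs : List (List ℕ)) (i0 : ℕ), rchk A B n m p q Ls i0 rs = true → ∀ i, i0 ≤ i → i < m →
      ∀ j < m + 1, ∃ c, cchk (cA A n m) (cB B n m i j) (n + 2) (m + 3) p q Ls c = true := by
  intro rs
  induction rs with
  | nil =>
    intro i0 h i h1 h2
    have := Nat.eq_of_beq_eq_true h
    omega
  | cons r rs ih =>
    intro i0 h i h1 h2 j hj
    rw [rchk, Bool.and_eq_true] at h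
    by_cases hi : i = i0
    · subst hi; exact jchk_spec _ _ h.1 j (by omega) hj
    · exact ih _ h.2 i (by omega) h2 j hj

/-- filtering a list -/
def fchk (n m p q : ℕ) (Lc : List (ℕ × ℕ)) : List (ℕ × ℕ) → List ℕ → Bool
  | [], _ => true
  | _ :: _, [] => false
  | t :: ts, c :: cs => cchk (dg t.1) (dg t.2) n m p q Lc c && fchk n m p q Lc ts cs

lemma fchk_spec {n m p q : ℕ} {Lc : List (ℕ × ℕ)} :
    ∀ (Lp : List (ℕ × ℕ)) (cs : List ℕ), fchk n m p q Lc Lp cs = true → ∀ t ∈ Lp,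
      ∃ c, cchk (dg t.1) (dg t.2) n m p q Lc c = true := by
  intro Lp
  induction Lp with
  | nil => intro cs _ t ht; simp at ht
  | cons t0 ts ih =>
    intro cs h t ht
    cases cs with
    | nil => simp [fchk] at h
    | cons c cs =>
      rw [fchk, Bool.and_eq_true] at h
      rcases List.mem_cons.1 ht with h1 | h1
      · subst h1; exact ⟨c, h.1⟩
      · exact ih cs h.2 t h1

end Pool.H29E
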