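import Pool.Agent.H29E.Lab

set_option linter.unusedSimpArgs false
set_option linter.unusedVariables false

/-! Certificates: families of even sets covering each edge at most `Y` times. -/

namespace Pool.H29E

open Finset Pool.H82.SC

/-- xor accumulator -/
def kacc (M A B : ℕ → ℕ) (s : ℕ) : ℕ → ℕ
  | 0 => 0
  | k + 1 => (kacc M A B s k) ^^^ ((M k <<< (s * A k)) ^^^ (M k <<< (s * B k)))

/-- or accumulator -/
def kor (M : ℕ → ℕ) : ℕ → ℕ
  | 0 => 0
  | k + 1 => kor M k ||| M k

/-- coverage check -/
def kcov (M : ℕ → ℕ) (Y : ℕ) : ℕ → Bool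
  | 0 => true
  | k + 1 => kcov M Y k && Nat.ble (M k % 31) Y

/-- bit as an element of `ZMod 2` -/
def bz (b : Bool) : ZMod 2 := if b then 1 else 0

lemma bz_xor (a b : Bool) : bz (a ^^ b) = bz a + bz b := by
  cases a <;> cases b <;> decide

lemma bz_eq_zero {b : Bool} : bz b = 0 ↔ b = false := by
  cases b <;> decide

lemma testBit_shift_block {M s a v c : ℕ} (hM : M < 2 ^ s) (hc : c < s) :
    (M <<< (s * a)).testBit (s * v + c) = (decide (a = v) && M.testBit c) := by
  rw [Nat.testBit_shiftLeft]
  by_cases h : a = v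
  · subst h
    simp
  · rcases lt_or_gt_of_ne h with h1 | h1
    · have h2 : s * a + s ≤ s * v := by
        calc s * a + s = s * (a + 1) := by ring
          _ ≤ s * v := Nat.mul_le_mul_left _ h1
      have h3 : s * v + c ≥ s * a := by omega
      have h4 : M < 2 ^ (s * v + c - s * a) :=
        lt_of_lt_of_le hM (Nat.pow_le_pow_right (by norm_num) (by omega))
      rw [Nat.testBit_lt_two_pow h4]
      simp [h]
    · have h2 : s * v + s ≤ s * a := by
        calc s * v + s = s * (v + 1) := by ring
          _ ≤ s * a := Nat.mul_le_mul_left _ h1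
      have h3 : ¬ (s * v + c ≥ s * a) := by omega
      simp [h, h3]

lemma kacc_testBit {M A B : ℕ → ℕ} {s : ℕ} (hM : ∀ k, M k < 2 ^ s) {v c : ℕ} (hc : c < s)
    (m : ℕ) : bz ((kacc M A B s m).testBit (s * v + c)) =
      ∑ k ∈ range m, if (M k).testBit c then ((if A k = v then (1 : ZMod 2) else 0) +
        (if B k = v then 1 else 0)) else 0 := by
  induction m with
  | zero => simp [kacc, bz]
  | succ m ih =>
    rw [sum_range_succ, ← ih, kacc, Nat.testBit_xor, Nat.testBit_xor, bz_xor, bz_xor,
      testBit_shift_block (hM m) hc, testBit_shift_block (hM m) hc]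
    congr 1
    by_cases h1 : A m = v <;> by_cases h2 : B m = v <;> cases h3 : (M m).testBit c <;>
      simp [h1, h2, bz]

lemma kor_testBit {M : ℕ → ℕ} {c : ℕ} (m : ℕ) :
    (kor M m).testBit c = true ↔ ∃ k < m, (M k).testBit c = true := by
  induction m with
  | zero => simp [kor]
  | succ m ih =>
    rw [kor, Nat.testBit_or, Bool.or_eq_true, ih]
    constructor
    · rintro (⟨k, hk, h⟩ | h)
      · exact ⟨k, by omega, h⟩
      · exact ⟨m, by omega, h⟩
    · rintro ⟨k, hk, h⟩
      rcases Nat.lt_succ_iff_lt_or_eq.1 hk with h1 | h1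
      · exact Or.inl ⟨k, h1, h⟩
      · subst h1; exact Or.inr h

lemma kcov_le {M : ℕ → ℕ} {Y m : ℕ} (h : kcov M Y m = true) : ∀ k < m, M k % 31 ≤ Y := by
  induction m with
  | zero => intro k hk; omega
  | succ m ih =>
    rw [kcov, Bool.and_eq_true] at h
    intro k hk
    rcases Nat.lt_succ_iff_lt_or_eq.1 hk with h1 | h1
    · exact ih h.1 k h1
    · subst h1; exact Nat.le_of_ble_eq_true h.2

/-- the number `1 + 32 + ... + 32^(c-1)` has ones exactly at the positions `5j`, `j < c` -/
lemma rep_testBit {R c : ℕ} (hR : 31 * R + 1 = 32 ^ c) (p : ℕ) :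
    R.testBit p = true ↔ ∃ j < c, p = 5 * j := by
  induction c generalizing R p with
  | zero =>
    have : R = 0 := by simpa using hR
    subst this
    simp
  | succ c ih =>
    -- R = 1 + 32 * R'
    have h1 : R % 32 = 1 := by
      have h2 : (31 * R + 1) % 32 = 0 := by rw [hR, pow_succ]; omega
      omega
    obtain ⟨R', hR'⟩ : ∃ R', R = 32 * R' + 1 := ⟨R / 32, by omega⟩
    have h3 : 31 * R' + 1 = 32 ^ c := by
      rw [hR', pow_succ] at hR
      omega
    have h4 := ih h3
    have h5 : R = R' * 2 ^ 5 + 1 := by rw [hR']; ring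
    rcases lt_or_ge p 5 with hp | hp
    · have : R.testBit p = (1 : ℕ).testBit p := by
        rw [h5, mul_comm, Nat.testBit_two_pow_mul_add _ (by norm_num) p]
        simp [hp]
      rw [this]
      constructor
      · intro h
        refine ⟨0, by omega, ?_⟩
        interval_cases p
        all_goals first | rfl | (exfalso; revert h; decide)
      · rintro ⟨j, hj, h⟩
        have : p = 0 := by omega
        subst this
        decide
    · have : R.testBit p = R'.testBit (p - 5) := by
        rw [h5, mul_comm, Nat.testBit_two_pow_mul_add _ (by norm_num) p]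
        have : ¬ p < 5 := by omega
        simp [this]
      rw [this, h4]
      constructor
      · rintro ⟨j, hj, h⟩
        exact ⟨j + 1, by omega, by omega⟩
      · rintro ⟨j, hj, h⟩
        exact ⟨j - 1, by omega, by omega⟩

/-- the number of marked positions -/
def pc (c M : ℕ) : ℕ := ∑ j ∈ range c, if M.testBit (5 * j) then 1 else 0

lemma pc_le (c M : ℕ) : pc c M ≤ c := by
  unfold pc
  calc _ ≤ ∑ j ∈ range c, 1 := sum_le_sum fun j _ => by split_ifs <;> omega
    _ = c := by simp

lemma pc_mod {c M : ℕ} (h : ∀ p, M.testBit p = true → ∃ j < c, p = 5 * j) :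
    M % 31 = pc c M % 31 := by
  induction c generalizing M with
  | zero =>
    have : M = 0 := by
      apply Nat.eq_of_testBit_eq
      intro i
      rw [Nat.zero_testBit]
      by_contra hcon
      have : M.testBit i = true := by simpa using hcon
      obtain ⟨j, hj, -⟩ := h i this
      omega
    subst this
    simp [pc]
  | succ c ih =>
    have hM : M = 32 * (M / 32) + M % 32 := by omega
    have h1 : ∀ p, (M / 32).testBit p = M.testBit (p + 5) := by
      intro p
      rw [show (32 : ℕ) = 2 ^ 5 by norm_num, ← Nat.shiftRight_eq_div_pow, Nat.testBit_shiftRight,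
        add_comm]
    have h2 := ih (M := M / 32) (by
      intro p hp
      rw [h1] at hp
      obtain ⟨j, hj, hp'⟩ := h _ hp
      exact ⟨j - 1, by omega, by omega⟩)
    have h3 : M % 32 = if M.testBit 0 then 1 else 0 := by
      apply Nat.eq_of_testBit_eq
      intro i
      rw [show (32 : ℕ) = 2 ^ 5 by norm_num, Nat.testBit_mod_two_pow]
      by_cases h0 : i = 0
      · subst h0
        cases hb : M.testBit 0 <;> simp
      · have hr : (if M.testBit 0 = true then (1 : ℕ) else 0).testBit i = false := by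
          split_ifs
          · obtain ⟨i', rfl⟩ := Nat.exists_eq_succ_of_ne_zero h0
            simp [Nat.testBit_succ]
          · simp
        rw [hr]
        by_contra hcon
        have hcon' : i < 5 ∧ M.testBit i = true := by simpa using hcon
        obtain ⟨j, hj, hp⟩ := h i hcon'.2
        omega
    have h4 : pc (c + 1) M = (if M.testBit 0 then 1 else 0) + pc c (M / 32) := by
      unfold pc
      rw [sum_range_succ', add_comm]
      congr 1
      apply sum_congr rfl
      intro j _
      rw [h1, mul_add, mul_one]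
    rw [h4, ← h3]
    omega

lemma pc_eq {c M : ℕ} (hc : c ≤ 30) (h : ∀ p, M.testBit p = true → ∃ j < c, p = 5 * j) :
    pc c M = M % 31 := by
  rw [pc_mod h, Nat.mod_eq_of_lt]
  have := pc_le c M
  omega

variable {K : MG} {n m : ℕ} {A B fV fE : ℕ → ℕ}

/-- the cycles of a certificate -/
def cz (M : ℕ → ℕ) (m j : ℕ) : Finset ℕ := (range m).filter fun k => (M k).testBit (5 * j) = true

lemma cz_ev (L : Lab K n m A B fV fE) {M : ℕ → ℕ} {c : ℕ} (hM : ∀ k, M k < 2 ^ (5 * c))
    (hacc : kacc M A B (5 * c) m = 0) {j : ℕ} (hj : j < c) : K.Ev ((cz M m j).image fE) := by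
  apply L.ev_image (filter_subset _ _)
  intro v hv
  have h1 := kacc_testBit (A := A) (B := B) hM (v := v) (c := 5 * j) (by omega) m
  rw [hacc, Nat.zero_testBit] at h1
  rw [sum_filter]
  rw [← h1]
  simp [bz]

lemma cz_ne {M : ℕ → ℕ} {c : ℕ} (hor : 31 * kor M m + 1 = 32 ^ c) {j : ℕ} (hj : j < c) :
    (cz M m j).Nonempty := by
  have h1 := (rep_testBit hor (5 * j)).2 ⟨j, hj, rfl⟩
  obtain ⟨k, hk, h2⟩ := (kor_testBit m).1 h1
  exact ⟨k, mem_filter.2 ⟨mem_range.2 hk, h2⟩⟩

lemma sum_cz {M : ℕ → ℕ} {c Y : ℕ} (hc : c ≤ 30) (hor : 31 * kor M m + 1 = 32 ^ c)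
    (hcov : kcov M Y m = true) (w : ℕ → ℕ) :
    ∑ j ∈ range c, ∑ k ∈ cz M m j, w k ≤ Y * ∑ k ∈ range m, w k := by
  unfold cz
  simp only [sum_filter]
  rw [sum_comm, mul_sum]
  apply sum_le_sum
  intro k hk
  have hk' := mem_range.1 hk
  have hbits : ∀ p, (M k).testBit p = true → ∃ j < c, p = 5 * j := by
    intro p hp
    exact (rep_testBit hor p).1 ((kor_testBit m).2 ⟨k, hk', hp⟩)
  have h1 := pc_eq hc hbits
  have h2 := kcov_le hcov k hk'
  have h3 : ∑ j ∈ range c, (if (M k).testBit (5 * j) = true then w k else 0) =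
      pc c (M k) * w k := by
    unfold pc
    rw [sum_mul]
    apply sum_congr rfl
    intro j _
    split_ifs <;> simp
  rw [h3, h1]
  exact Nat.mul_le_mul_right _ h2

/-- the certificate check -/
def kchk (M A B : ℕ → ℕ) (c Y m : ℕ) : Bool :=
  kcov M Y m && (Nat.beq (kacc M A B (5 * c) m) 0 && Nat.beq (31 * kor M m + 1) (32 ^ c))

theorem kill_sound (L : Lab K n m A B fV fE) {h : ℕ} (hK : K.Cyc h) {M : ℕ → ℕ} {c Y : ℕ}
    (hc : c ≤ 30) (hM : ∀ k, M k < 2 ^ (5 * c)) (hchk : kchk M A B c Y m = true) :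
    c * h ≤ Y * K.W := by
  unfold kchk at hchk
  rw [Bool.and_eq_true, Bool.and_eq_true] at hchk
  obtain ⟨hcov, hacc, hor⟩ := hchk
  have hacc' := Nat.eq_of_beq_eq_true hacc
  have hor' := Nat.eq_of_beq_eq_true hor
  have h1 := sum_cz hc hor' hcov (fun k => K.w (fE k))
  rw [← L.W_eq] at h1
  refine le_trans ?_ h1
  calc c * h = ∑ j ∈ range c, h := by simp
    _ ≤ _ := by
      apply sum_le_sum
      intro j hj
      have hj' := mem_range.1 hj
      have h2 := hK _ (cz_ev L hM hacc' hj') ((cz_ne hor' hj').image _)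
      have hsub : cz M m j ⊆ range m := filter_subset _ _
      rwa [L.wt_image hsub] at h2

end Pool.H29E
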