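import Pool.Agent.H82.SC.Ram

set_option linter.unusedSimpArgs false
set_option linter.unusedVariables false

/-! Concrete labellings of weighted multigraphs. -/

namespace Pool.H29E

open Finset Pool.H82.SC

/-- a labelling of the multigraph `K` by vertices `0..n-1` and edges `0..m-1`, edge `k` joining
`A k` and `B k` -/
structure Lab (K : MG) (n m : ℕ) (A B fV fE : ℕ → ℕ) : Prop where
  vinj : ∀ i < n, ∀ j < n, fV i = fV j → i = j
  vimg : (range n).image fV = K.V
  einj : ∀ i < m, ∀ j < m, fE i = fE j → i = j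
  eimg : (range m).image fE = K.E
  ends : ∀ k < m, A k < n ∧ B k < n ∧ K.J (fE k) (fV (A k)) (fV (B k))

variable {K : MG} {n m : ℕ} {A B fV fE : ℕ → ℕ}

lemma Lab.vmem (L : Lab K n m A B fV fE) {i : ℕ} (hi : i < n) : fV i ∈ K.V := by
  rw [← L.vimg]; exact mem_image_of_mem _ (mem_range.2 hi)

lemma Lab.emem (L : Lab K n m A B fV fE) {i : ℕ} (hi : i < m) : fE i ∈ K.E := by
  rw [← L.eimg]; exact mem_image_of_mem _ (mem_range.2 hi)

lemma Lab.vsurj (L : Lab K n m A B fV fE) {v : ℕ} (hv : v ∈ K.V) : ∃ i < n, fV i = v := by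
  rw [← L.vimg, mem_image] at hv
  obtain ⟨i, hi, h⟩ := hv
  exact ⟨i, mem_range.1 hi, h⟩

lemma Lab.esurj (L : Lab K n m A B fV fE) {e : ℕ} (he : e ∈ K.E) : ∃ i < m, fE i = e := by
  rw [← L.eimg, mem_image] at he
  obtain ⟨i, hi, h⟩ := he
  exact ⟨i, mem_range.1 hi, h⟩

lemma Lab.einj' (L : Lab K n m A B fV fE) : Set.InjOn fE (range m : Finset ℕ) := by
  intro i hi j hj h
  exact L.einj i (by simpa using hi) j (by simpa using hj) h

lemma Lab.vinj' (L : Lab K n m A B fV fE) : Set.InjOn fV (range n : Finset ℕ) := by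
  intro i hi j hj h
  exact L.vinj i (by simpa using hi) j (by simpa using hj) h

lemma Lab.cardV (L : Lab K n m A B fV fE) : #K.V = n := by
  rw [← L.vimg, card_image_of_injOn L.vinj', card_range]

lemma Lab.cardE (L : Lab K n m A B fV fE) : #K.E = m := by
  rw [← L.eimg, card_image_of_injOn L.einj', card_range]

lemma Lab.wt_image (L : Lab K n m A B fV fE) {Z : Finset ℕ} (hZ : Z ⊆ range m) :
    K.wt (Z.image fE) = ∑ k ∈ Z, K.w (fE k) := by
  unfold MG.wt
  rw [sum_image]
  intro i hi j hj h
  exact L.einj' (by exact_mod_cast hZ hi) (by exact_mod_cast hZ hj) h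

lemma Lab.W_eq (L : Lab K n m A B fV fE) : K.W = ∑ k ∈ range m, K.w (fE k) := by
  unfold MG.W
  rw [← L.eimg, L.wt_image subset_rfl]

lemma Lab.ev_image (L : Lab K n m A B fV fE) {Z : Finset ℕ} (hZ : Z ⊆ range m)
    (h : ∀ v < n, ∑ k ∈ Z, ((if A k = v then (1 : ZMod 2) else 0) +
      (if B k = v then 1 else 0)) = 0) : K.Ev (Z.image fE) := by
  constructor
  · rw [← L.eimg]; exact image_subset_image hZ
  · intro x
    unfold MG.bd
    rw [sum_image (by
      intro i hi j hj h
      exact L.einj' (by exact_mod_cast hZ hi) (by exact_mod_cast hZ hj) h)]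
    by_cases hx : x ∈ K.V
    · obtain ⟨v, hv, rfl⟩ := L.vsurj hx
      rw [← h v hv]
      apply sum_congr rfl
      intro k hk
      obtain ⟨h1, h2, h3⟩ := L.ends k (mem_range.1 (hZ hk))
      rw [h3.inc]
      have e1 : fV (A k) = fV v ↔ A k = v := ⟨fun h => L.vinj _ h1 _ hv h, fun h => by rw [h]⟩
      have e2 : fV (B k) = fV v ↔ B k = v := ⟨fun h => L.vinj _ h2 _ hv h, fun h => by rw [h]⟩
      simp only [e1, e2]
    · apply sum_eq_zero
      intro k hk
      obtain ⟨h1, h2, h3⟩ := L.ends k (mem_range.1 (hZ hk))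
      rw [h3.inc]
      have e1 : fV (A k) ≠ x := fun h => hx (h ▸ L.vmem h1)
      have e2 : fV (B k) ≠ x := fun h => hx (h ▸ L.vmem h2)
      simp [e1, e2]

/-! ### undoing a deletion -/

lemma beq_dec (k m : ℕ) : Nat.beq k m = decide (k = m) := by
  by_cases h : k = m
  · subst h; simp
  · have : Nat.beq k m = false := by
      rw [Bool.eq_false_iff]
      intro h2
      exact h (Nat.eq_of_beq_eq_true h2)
    rw [this]; simp [h]

lemma Lab.congr (L : Lab K n m A B fV fE) {A' B' : ℕ → ℕ} (hA : ∀ k < m, A' k = A k)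
    (hB : ∀ k < m, B' k = B k) : Lab K n m A' B' fV fE where
  vinj := L.vinj
  vimg := L.vimg
  einj := L.einj
  eimg := L.eimg
  ends := fun k hk => by rw [hA k hk, hB k hk]; exact L.ends k hk

/-- add the deleted edge -/
lemma Lab.add {e : ℕ} (he : e ∈ K.E) (L : Lab (K.sube (K.E.erase e) (erase_subset _ _)) n m A B fV fE)
    {p q : ℕ} (hp : p < n) (hq : q < n) (hJ : K.J e (fV p) (fV q)) :
    Lab K n (m + 1) (fun k => cond (Nat.beq k m) p (A k)) (fun k => cond (Nat.beq k m) q (B k))
      fV (fun k => if k = m then e else fE k) := by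
  have hb := fun k => beq_dec k m
  have hne : ∀ k < m, fE k ≠ e := by
    intro k hk h
    have := L.emem hk
    simp [h] at this
  refine ⟨L.vinj, L.vimg, ?_, ?_, ?_⟩
  · intro i hi j hj h
    by_cases h1 : i = m <;> by_cases h2 : j = m
    · omega
    · rw [if_pos h1, if_neg h2] at h
      exact absurd h.symm (hne j (by omega))
    · rw [if_neg h1, if_pos h2] at h
      exact absurd h (hne i (by omega))
    · rw [if_neg h1, if_neg h2] at h
      exact L.einj i (by omega) j (by omega) h
  · rw [range_add_one, image_insert, if_pos rfl]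
    have : (range m).image (fun k => if k = m then e else fE k) = (range m).image fE := by
      apply image_congr
      intro k hk
      have : k ≠ m := by
        have : k < m := by simpa using hk
        omega
      simp [this]
    rw [this, L.eimg]
    exact insert_erase he
  · intro k hk
    by_cases h1 : k = m
    · subst h1
      simp only [hb, decide_true, cond_true, if_true]
      exact ⟨hp, hq, hJ⟩
    · have := L.ends k (by omega)
      simp only [hb, h1, decide_false, cond_false, if_false]
      exact this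

/-! ### undoing a suppression -/

/-- new first ends after subdividing -/
def sdA (A : ℕ → ℕ) (n m : ℕ) : ℕ → ℕ := fun k => cond (Nat.beq k m) n (A k)

/-- new second ends after subdividing edge `i` by the new vertex `n` -/
def sdB (B : ℕ → ℕ) (n m i : ℕ) : ℕ → ℕ :=
  fun k => cond (Nat.beq k m) (B i) (cond (Nat.beq k i) n (B k))

lemma Lab.unsupp {v e1 e2 : ℕ} (hS : K.SuppData v e1 e2)
    (L : Lab (MG.supp hS) n m A B fV fE) :
    ∃ i < m, ∃ fE' : ℕ → ℕ, Lab K (n + 1) (m + 1) (sdA A n m) (sdB B n m i)
      (fun k => if k = n then v else fV k) fE' := by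
  classical
  obtain ⟨i, hi, hie⟩ := L.esurj hS.e1_mem
  obtain ⟨ha, hb, hJ⟩ := L.ends i hi
  have hvne : ∀ k < n, fV k ≠ v := by
    intro k hk h
    have := L.vmem hk
    simp [h] at this
  have hene : ∀ k < m, fE k ≠ e2 := by
    intro k hk h
    have := L.emem hk
    simp [h] at this
  have hne1 : ∀ k < m, k ≠ i → fE k ≠ e1 := by
    intro k hk hki h
    exact hki (L.einj k hk i hi (h.trans hie.symm))
  have hcases : (K.J e1 (fV (A i)) v ∧ K.J e2 v (fV (B i))) ∨
      (K.J e2 (fV (A i)) v ∧ K.J e1 v (fV (B i))) := by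
    have m1 : e1 ∈ K.star v := by rw [hS.hstar]; simp
    have m2 : e2 ∈ K.star v := by rw [hS.hstar]; simp
    have j1 := MG.J_star hS.hl m1
    have j2 := MG.J_star hS.hl m2
    rw [hie] at hJ
    unfold MG.J at hJ
    simp only [MG.supp_s, MG.supp_t, if_true] at hJ
    rcases hJ with ⟨h1, h2⟩ | ⟨h1, h2⟩
    · left
      rw [h1] at j1; rw [h2] at j2
      exact ⟨j1.symm, j2⟩
    · right
      rw [h1] at j1; rw [h2] at j2
      exact ⟨j2.symm, j1⟩
  -- choose names
  obtain ⟨f1, f2, hf, hJ1, hJ2⟩ : ∃ f1 f2, ((f1 = e1 ∧ f2 = e2) ∨ (f1 = e2 ∧ f2 = e1)) ∧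
      K.J f1 (fV (A i)) v ∧ K.J f2 v (fV (B i)) := by
    rcases hcases with ⟨h1, h2⟩ | ⟨h1, h2⟩
    · exact ⟨e1, e2, Or.inl ⟨rfl, rfl⟩, h1, h2⟩
    · exact ⟨e2, e1, Or.inr ⟨rfl, rfl⟩, h1, h2⟩
  have f12 : f1 ≠ f2 := by
    rcases hf with ⟨rfl, rfl⟩ | ⟨rfl, rfl⟩
    · exact hS.hne
    · exact hS.hne.symm
  have hf1 : ∀ k < m, k ≠ i → fE k ≠ f1 := by
    intro k hk hki
    rcases hf with ⟨rfl, rfl⟩ | ⟨rfl, rfl⟩
    · exact hne1 k hk hki
    · exact hene k hk
  have hf2 : ∀ k < m, k ≠ i → fE k ≠ f2 := by
    intro k hk hki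
    rcases hf with ⟨rfl, rfl⟩ | ⟨rfl, rfl⟩
    · exact hene k hk
    · exact hne1 k hk hki
  have hfm : ({f1, f2} : Finset ℕ) = {e1, e2} := by
    rcases hf with ⟨rfl, rfl⟩ | ⟨rfl, rfl⟩
    · rfl
    · exact pair_comm _ _
  refine ⟨i, hi, fun k => if k = m then f2 else if k = i then f1 else fE k, ?_, ?_, ?_, ?_, ?_⟩
  · intro a haa b hbb h
    by_cases h1 : a = n <;> by_cases h2 : b = n
    · omega
    · rw [if_pos h1, if_neg h2] at h
      exact absurd h.symm (hvne b (by omega))
    · rw [if_neg h1, if_pos h2] at h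
      exact absurd h (hvne a (by omega))
    · rw [if_neg h1, if_neg h2] at h
      exact L.vinj a (by omega) b (by omega) h
  · rw [range_add_one, image_insert, if_pos rfl]
    have : (range n).image (fun k => if k = n then v else fV k) = (range n).image fV := by
      apply image_congr
      intro k hk
      have : k ≠ n := by
        have : k < n := by simpa using hk
        omega
      simp [this]
    rw [this, L.vimg, MG.supp_V]
    exact insert_erase hS.hv
  · intro a haa b hbb h
    have him : i ≠ m := by omega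
    by_cases a1 : a = m
    · by_cases b1 : b = m
      · omega
      · rw [if_pos a1, if_neg b1] at h
        by_cases b2 : b = i
        · rw [if_pos b2] at h; exact absurd h.symm f12
        · rw [if_neg b2] at h; exact absurd h.symm (hf2 b (by omega) b2)
    · rw [if_neg a1] at h
      by_cases b1 : b = m
      · rw [if_pos b1] at h
        by_cases a2 : a = i
        · rw [if_pos a2] at h; exact absurd h f12
        · rw [if_neg a2] at h; exact absurd h (hf2 a (by omega) a2)
      · rw [if_neg b1] at h
        by_cases a2 : a = i <;> by_cases b2 : b = i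
        · omega
        · rw [if_pos a2, if_neg b2] at h; exact absurd h.symm (hf1 b (by omega) b2)
        · rw [if_neg a2, if_pos b2] at h; exact absurd h (hf1 a (by omega) a2)
        · rw [if_neg a2, if_neg b2] at h; exact L.einj a (by omega) b (by omega) h
  · have him : i ≠ m := by omega
    ext x
    rw [mem_image]
    constructor
    · rintro ⟨k, hk, rfl⟩
      have hk' := mem_range.1 hk
      have g1 : f1 ∈ K.E := by
        rcases hf with ⟨rfl, rfl⟩ | ⟨rfl, rfl⟩
        · exact hS.h1
        · exact hS.h2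
      have g2 : f2 ∈ K.E := by
        rcases hf with ⟨rfl, rfl⟩ | ⟨rfl, rfl⟩
        · exact hS.h2
        · exact hS.h1
      by_cases k1 : k = m
      · simp only [k1, if_true]; exact g2
      · by_cases k2 : k = i
        · simp only [k2, him, if_false, if_true]; exact g1
        · simp only [k1, k2, if_false]
          have := L.emem (i := k) (by omega)
          rw [MG.supp_E] at this
          exact (mem_erase.1 this).2
    · intro hx
      by_cases x2 : x = f2
      · exact ⟨m, by simp, by simp [x2]⟩
      · by_cases x1 : x = f1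
        · exact ⟨i, by rw [mem_range]; omega, by simp [x1, him]⟩
        · have hxe : x ≠ e1 ∧ x ≠ e2 := by
            have : x ∉ ({e1, e2} : Finset ℕ) := by rw [← hfm]; simp [x1, x2]
            simpa using this
          have : x ∈ (MG.supp hS).E := by rw [MG.supp_E]; exact mem_erase.2 ⟨hxe.2, hx⟩
          obtain ⟨k, hk, hkx⟩ := L.esurj this
          have k2 : k ≠ i := by
            rintro rfl
            exact hxe.1 (hkx.symm.trans hie)
          refine ⟨k, by rw [mem_range]; omega, ?_⟩
          have k1 : k ≠ m := by omega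
          simp [k1, k2, hkx]
  · intro k hk
    unfold sdA sdB
    rw [beq_dec, beq_dec]
    by_cases k1 : k = m
    · simp only [k1, decide_true, cond_true, if_true]
      have hbn : B i ≠ n := by omega
      exact ⟨by omega, by omega, by simpa [hbn] using hJ2⟩
    · by_cases k2 : k = i
      · have him : i ≠ m := by omega
        have han : A i ≠ n := by omega
        simp only [k1, k2, him, decide_true, decide_false, cond_true, cond_false, if_true,
          if_false, han]
        exact ⟨by omega, by omega, hJ1⟩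
      · obtain ⟨g1, g2, g3⟩ := L.ends k (by omega)
        have n1 : A k ≠ n := by omega
        have n2 : B k ≠ n := by omega
        simp only [k1, k2, decide_false, cond_false, if_false, n1, n2]
        refine ⟨by omega, by omega, ?_⟩
        have hke : fE k ≠ e1 := hne1 k (by omega) k2
        unfold MG.J at g3 ⊢
        simpa only [MG.supp_s, MG.supp_t, hke, if_false] using g3

end Pool.H29E
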