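import Pool.Agent.H29E.Four
import Pool.Agent.H29E.TabB
import Pool.Agent.H29E.TabD
import Pool.Agent.H29E.Count

set_option linter.unusedSimpArgs false
set_option linter.unusedVariables false

/-! `D ≥ 3`, excess at least five. -/

namespace Pool.H29E

open Finset Pool.H82.SC Pool.H82.SC.MG

variable {K : MG}

theorem five_cubic {h g : ℕ} (P : Par2 h g) (hK : K.Cyc h) (hl : K.NoLoops) (hc : K.Cubic)
    (hV : #K.V = 10) (ht : Tau K 3) : 7 * h ≤ 2 * K.W ∨ 3 * g ≤ K.W := by
  have hcard := hc.card
  have hg := odds_of P hK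
  by_cases hW : 2 * K.W < 7 * h
  swap
  · left; omega
  right
  obtain ⟨t, htL, fV, fE, L⟩ := cls5 h K hK hl hc hV (by omega) hW
  simp only [L5, List.mem_cons, List.not_mem_nil, or_false] at htL
  rcases htL with rfl | rfl | rfl | rfl | rfl | rfl | rfl | rfl | rfl | rfl | rfl
  · have := use_tck L tb5_0 ht hg; omega
  · have := use_tck L tb5_1 ht hg; omega
  · have := use_tck L tb5_2 ht hg; omega
  · have := use_tck L tb5_3 ht hg; omega
  · have := use_tck L tb5_4 ht hg; omega
  · have := use_tck L tb5_5 ht hg; omega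
  · have := use_tck L tb5_6 ht hg; omega
  · have := use_tck L tb5_7 ht hg; omega
  · have := use_tck L tb5_8 ht hg; omega
  · have := use_tck L tb5_9 ht hg; omega
  · have := use_tck L tb5_10 ht hg; omega

/-- a set closed under even edges containing the vertex of an even loop -/
lemma grow_loop {e : ℕ} (he : e ∈ K.E) (hst : K.s e = K.t e) (hw : Even (K.w e)) :
    ∃ T ⊆ K.V, K.s e ∈ T ∧ K.Closed T ∧ #T ≤ #(K.evin T) := by
  classical
  let Q := K.V.powerset.filter fun T => K.s e ∈ T ∧ #T ≤ #(K.evin T)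
  have hQ : Q.Nonempty := by
    refine ⟨{K.s e}, ?_⟩
    simp only [Q, mem_filter, mem_powerset, singleton_subset_iff, card_singleton]
    refine ⟨K.hs e he, mem_singleton_self _, card_pos.2 ⟨e, ?_⟩⟩
    exact mem_filter.2 ⟨he, hw, mem_singleton_self _, by rw [← hst]; exact mem_singleton_self _⟩
  obtain ⟨T, hT, hmax⟩ := exists_max_image Q (fun T => #T) hQ
  simp only [Q, mem_filter, mem_powerset] at hT
  obtain ⟨hTU, hYT, hcard⟩ := hT
  have key : ∀ e ∈ K.E, Even (K.w e) → ∀ a b, (a = K.s e ∧ b = K.t e ∨ a = K.t e ∧ b = K.s e) →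
      a ∈ T → b ∈ T := by
    intro f hf hw a b hab ha
    by_contra hb
    have hbU : b ∈ K.V := by
      rcases hab with ⟨h1, h2⟩ | ⟨h1, h2⟩
      · subst h1 h2; exact K.ht f hf
      · subst h1 h2; exact K.hs f hf
    have hmem : insert b T ∈ Q := by
      simp only [Q, mem_filter, mem_powerset]
      refine ⟨insert_subset hbU hTU, mem_insert_of_mem hYT, ?_⟩
      rw [card_insert_of_notMem hb]
      have hsub : insert f (K.evin T) ⊆ K.evin (insert b T) := by
        apply insert_subset
        · simp only [evin, mem_filter]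
          refine ⟨hf, hw, ?_⟩
          rcases hab with ⟨h1, h2⟩ | ⟨h1, h2⟩
          · subst h1 h2; exact ⟨mem_insert_of_mem ha, mem_insert_self _ _⟩
          · subst h1 h2; exact ⟨mem_insert_self _ _, mem_insert_of_mem ha⟩
        · exact K.evin_mono (subset_insert _ _)
      have hnot : f ∉ K.evin T := by
        intro h
        simp only [evin, mem_filter] at h
        apply hb
        rcases hab with ⟨h1, h2⟩ | ⟨h1, h2⟩
        · subst h2; exact h.2.2.2
        · subst h2; exact h.2.2.1
      have := card_le_card hsub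
      rw [card_insert_of_notMem hnot] at this
      omega
    have := hmax _ hmem
    rw [card_insert_of_notMem hb] at this
    omega
  refine ⟨T, hTU, hYT, ?_, hcard⟩
  intro f hf hw
  exact ⟨key f hf hw _ _ (Or.inl ⟨rfl, rfl⟩), key f hf hw _ _ (Or.inr ⟨rfl, rfl⟩)⟩

lemma loop_three {h g : ℕ} (P : Par2 h g) (hK : K.Cyc h) (hD : ∀ X ⊆ K.V, 3 ≤ K.D X)
    {e : ℕ} (he : e ∈ K.E) (hst : K.s e = K.t e) : 3 * g ≤ K.W := by
  have ht : Tau K 3 := tau_of_D hD
  have hwe : K.wt {e} = K.w e := by simp [MG.wt]
  have h5 := P.h5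
  have hgh := P.gh
  rcases Nat.even_or_odd (K.w e) with hev | hod
  · obtain ⟨T, hTV, hvT, hcl, hcard⟩ := grow_loop he hst hev
    have h3 : 3 * h ≤ (K.ind (K.V \ T)).W := by
      apply three_of_tau P _ (hK.ind _)
      apply tau_of_D
      intro X hX
      have hX' : X ⊆ K.V \ T := hX
      have h4 := K.D_split hTV hcl (A := ∅) (empty_subset _) hX' (by
        intro f hf
        simp)
      rw [union_empty, D_ind_empty] at h4
      have h6 := hD X (hX'.trans sdiff_subset)
      have h7 : (#T : ℤ) ≤ #(K.evin T) := by exact_mod_cast hcard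
      push_cast
      linarith
    have h4 : h ≤ (K.ind T).W := by
      have h6 := hK _ (K.loop_ev he hst) (singleton_nonempty e)
      refine h6.trans (K.wt_mono ?_)
      intro f hf
      rw [mem_singleton] at hf
      subst hf
      exact mem_filter.2 ⟨he, hvT, by rw [← hst]; exact hvT⟩
    have h6 := K.W_add_le (S := T)
    omega
  · have h1 := two_of_tau P (hK.ind _) (tau_del ht (K.hs e he))
    have h2 := odd_wt P hK (K.loop_ev he hst) (by rw [hwe]; exact hod)
    have h3 := K.W_ind_sdiff (K.s e)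
    have h4 : K.wt {e} ≤ K.wt (K.star (K.s e)) := K.wt_mono (by
      intro f hf
      rw [mem_singleton] at hf
      subst hf
      exact mem_filter.2 ⟨he, Or.inl rfl⟩)
    omega

theorem five_main {h g : ℕ} (P : Par2 h g) (h6 : 6 ≤ h) (K : MG) (hK : K.Cyc h)
    (hD : ∀ X ⊆ K.V, 3 ≤ K.D X) (hmin : ∀ v ∈ K.V, 2 ≤ K.deg v) (hE : #K.E = #K.V + 5) :
    3 * g ≤ K.W := by
  induction' hn : K.mu using Nat.strong_induction_on with n ih generalizing K
  have ht : Tau K 3 := tau_of_D hD
  by_cases hl : K.NoLoops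
  swap
  · unfold NoLoops at hl
    push Not at hl
    obtain ⟨e, he, hst⟩ := hl
    exact loop_three P hK hD he hst
  by_cases h2 : ∃ v ∈ K.V, K.deg v = 2
  · obtain ⟨v, hv, hd⟩ := h2
    obtain ⟨e1, e2, hS⟩ := exists_suppData hl hv hd
    have c1 := supp_cardV hS
    have c2 := supp_cardE hS
    have := ih _ (hn ▸ supp_mu_lt hS) (supp hS) (supp_Cyc hS hK) (supp_D_ge hS hD) (by
      intro u hu
      rw [supp_V, mem_erase] at hu
      rw [supp_deg hS hu.1]
      exact hmin u hu.2) (by omega) rfl
    rwa [supp_W] at this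
  by_cases h3 : ∃ v ∈ K.V, 4 ≤ K.deg v
  · obtain ⟨v, hv, hd⟩ := h3
    obtain ⟨e1, e2, v', e0, hS⟩ := exists_splitData hl hv hd
    have c1 := split_cardV hS
    have c2 := split_cardE hS
    have := ih _ (hn ▸ split_mu_lt hS) (split hS) (split_Cyc hS hK) (split_D_ge hS hD) (by
      intro u hu
      by_cases h4 : u = v'
      · subst h4; rw [split_deg_v' hS]; norm_num
      · by_cases h5 : u = v
        · subst h5
          have := split_deg_v hS
          omega
        · rw [split_deg_other hS h5 h4]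
          rw [split_V, mem_insert] at hu
          exact hmin u (hu.resolve_left h4)) (by omega) rfl
    rwa [split_W] at this
  have hc : K.Cubic := by
    intro v hv
    push Not at h2 h3
    have a1 := hmin v hv
    have a2 := h2 v hv
    have a3 := h3 v hv
    omega
  have hcard := hc.card
  have h5 := P.gh
  rcases five_cubic P hK hl hc (by omega) ht with h7 | h7
  · omega
  · exact h7

lemma use_tckm {n m d h W : ℕ} {A B fV fE : ℕ → ℕ} {tl : List (ℕ × ℕ)} {nf : List ℕ} {T : Tr}
    (L : Lab K n m A B fV fE) (hev : Even h) (hK : K.Cyc h)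
    (hck : tckm A B m d h W tl nf T = true) (ht : Tau K (d + 1)) : W < K.W := by
  rcases tckm_sound L hev hK hck with ⟨S, hS, hS1, hS2⟩ | h1
  · exact absurd (bipOn_iff.1 hS2) (ht S hS (by omega))
  · exact h1

theorem six_eight (hK : K.Cyc 8) (hl : K.NoLoops) (hc : K.Cubic) (hV : #K.V = 12)
    (ht : Tau K 3) : 27 < K.W := by
  have hcard := hc.card
  by_contra hW
  obtain ⟨t, htL, fV, fE, L⟩ := cls6 8 K hK hl hc hV (by omega) (by omega)
  obtain ⟨c, hc'⟩ := fchk_spec _ _ f6t t htL
  obtain ⟨t', htL', fV', fE', L'⟩ := cchk_sound L hK (by omega) hc'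
  simp only [L6t, List.mem_cons, List.not_mem_nil, or_false] at htL'
  rcases htL' with rfl | rfl
  · exact hW (use_tckm L' (by decide) hK tm6_38 ht)
  · exact hW (use_tckm L' (by decide) hK tm6_39 ht)

theorem seven_eight (hK : K.Cyc 8) (hl : K.NoLoops) (hc : K.Cubic) (hV : #K.V = 14)
    (ht : Tau K 3) : 28 < K.W := by
  have hcard := hc.card
  by_contra hW
  obtain ⟨t, htL, fV, fE, L⟩ := cls7 8 K hK hl hc hV (by omega) (by omega)
  obtain ⟨c, hc'⟩ := fchk_spec _ _ f7t t htL
  obtain ⟨t', htL', fV', fE', L'⟩ := cchk_sound L hK (by omega) hc'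
  simp only [L7t, List.mem_cons, List.not_mem_nil, or_false] at htL'
  subst htL'
  exact hW (use_tckm L' (by decide) hK tm7_1 ht)

theorem eight_main (K : MG) (hK : K.Cyc 8)
    (hD : ∀ X ⊆ K.V, 3 ≤ K.D X) (hmin : ∀ v ∈ K.V, 2 ≤ K.deg v)
    (hE : #K.E = #K.V + 6 ∨ #K.E = #K.V + 7) :
    #K.E + 21 < #K.V + K.W := by
  induction' hn : K.mu using Nat.strong_induction_on with n ih generalizing K
  have ht : Tau K 3 := tau_of_D hD
  have P : Par2 8 9 := ⟨by omega, by omega, by omega, by decide⟩
  by_cases hl : K.NoLoops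
  swap
  · unfold NoLoops at hl
    push Not at hl
    obtain ⟨e, he, hst⟩ := hl
    have hVn : K.V.Nonempty := Tau.pos ht
    have h3 := K.W_erase he
    have h4 := hK _ (K.loop_ev he hst) (singleton_nonempty e)
    have h5 : K.wt {e} = K.w e := by simp [MG.wt]
    have h6 := MB5 8 (K.sube (K.E.erase e) (erase_subset _ _)) (hK.sube _ _) hVn (by
        simp only [sube_V, sube_E, card_erase_of_mem he]; omega)
    omega
  by_cases h2 : ∃ v ∈ K.V, K.deg v = 2
  · obtain ⟨v, hv, hd⟩ := h2
    obtain ⟨e1, e2, hS⟩ := exists_suppData hl hv hd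
    have c1 := supp_cardV hS
    have c2 := supp_cardE hS
    have := ih _ (hn ▸ supp_mu_lt hS) (supp hS) (supp_Cyc hS hK) (supp_D_ge hS hD) (by
      intro u hu
      rw [supp_V, mem_erase] at hu
      rw [supp_deg hS hu.1]
      exact hmin u hu.2) (by omega) rfl
    rw [supp_W] at this
    omega
  by_cases h3 : ∃ v ∈ K.V, 4 ≤ K.deg v
  · obtain ⟨v, hv, hd⟩ := h3
    obtain ⟨e1, e2, v', e0, hS⟩ := exists_splitData hl hv hd
    have c1 := split_cardV hS
    have c2 := split_cardE hS
    have := ih _ (hn ▸ split_mu_lt hS) (split hS) (split_Cyc hS hK) (split_D_ge hS hD) (by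
      intro u hu
      by_cases h4 : u = v'
      · subst h4; rw [split_deg_v' hS]; norm_num
      · by_cases h5 : u = v
        · subst h5
          have := split_deg_v hS
          omega
        · rw [split_deg_other hS h5 h4]
          rw [split_V, mem_insert] at hu
          exact hmin u (hu.resolve_left h4)) (by omega) rfl
    rw [split_W] at this
    omega
  have hc : K.Cubic := by
    intro v hv
    push Not at h2 h3
    have a1 := hmin v hv
    have a2 := h2 v hv
    have a3 := h3 v hv
    omega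
  have hcard := hc.card
  rcases hE with hE | hE
  · have := six_eight hK hl hc (by omega) ht
    omega
  · have := seven_eight hK hl hc (by omega) ht
    omega

/-- lower bound on the number of vertices, even girth parameter -/
theorem card_even' {n : ℕ} (hn : 6 ≤ n) (he : Even n) (h : K.Uni) (hK : K.Cyc n)
    (hD : ∀ X ⊆ K.V, 3 ≤ K.D X) (hodd : Odd #K.V) : 3 * n ≤ #K.V + 2 := by
  have h0 := card_even hn he h hK hD hodd
  obtain ⟨K', a, b, c, d, e, f⟩ := prune h hK hD hodd
  have h00 := card_even hn he a b c d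
  have hV : K'.V.Nonempty := Tau.pos (d := 2) (tau_of_D (d := 3) c)
  have P : Par2 n (n + 1) := ⟨by omega, by omega, by omega, he.add_one⟩
  by_cases h1 : #K'.E ≤ #K'.V + 4
  · have h2 := three_of_D P K' b c f h1 (by rw [a.ev, card_empty, add_zero]; exact d)
    rw [a.W] at h2
    omega
  rw [Nat.even_iff] at he
  rw [Nat.odd_iff] at d
  by_cases h2 : #K'.E = #K'.V + 5
  · have h3 := five_main P (by omega) K' b c f h2
    rw [a.W] at h3
    omega
  by_cases h6 : n = 6
  · subst h6
    by_contra hcon
    exact count_six a b c (by omega) (by omega)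
  by_cases h8 : n = 8
  · subst h8
    by_cases h4 : #K'.E = #K'.V + 6 ∨ #K'.E = #K'.V + 7
    · have := eight_main K' b c f h4
      rw [a.W] at this
      omega
    · have := a.moore (MB8' 8) b hV (by omega)
      omega
  by_cases h3 : #K'.E = #K'.V + 6
  · have := a.moore (MB6' n) b hV (by omega)
    omega
  by_cases h4 : #K'.E = #K'.V + 7
  · have := a.moore (MB7' n) b hV (by omega)
    omega
  · have := a.moore (MB8' n) b hV (by omega)
    omega

end Pool.H29E
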