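import Pool.Agent.H29E.Special1

set_option linter.unusedSimpArgs false
set_option linter.unusedVariables false
set_option maxRecDepth 100000

/-! The exceptional skeleton with twelve vertices. -/

namespace Pool.H29E

open Finset Pool.H82.SC Pool.H82.SC.MG

variable {K : MG} {fV fE : ℕ → ℕ}

/-- the parity pattern -/
theorem special_par (L : Lab K 12 18 (dg 0xbba998776554332000) (dg 0xa1182765441329ba86) fV fE)
    (hD : ∀ X ⊆ K.V, 4 ≤ K.D X)
    (hc : ∃ c : ℕ → Bool, ∀ k < 18, (par K fE k ^^ (c (dg 0xbba998776554332000 k) ^^ c (dg 0xa1182765441329ba86 k))) =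
      Nat.testBit 70808 k) :
    ∀ k < 18, par K fE k = (!(Nat.beq k 1) && !(Nat.beq k 8)) := by
  obtain ⟨c, hc⟩ := hc
  have h1 := dtab_sound L (R0 := 70808) (C0 := 1608) (lim := 3) (c := fun v => c v ^^ c 0) (by
    intro k hk
    rw [← hc k hk]
    cases par K fE k <;> cases c (dg 0xbba998776554332000 k) <;> cases c (dg 0xa1182765441329ba86 k) <;> cases c 0 <;> rfl)
    (fun X hX => by have := hD X hX; push_cast; linarith) _ 1 0 _ dt21 (by
      intro v hv
      have : v = 0 := by
        by_contra h0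
        rw [show (1 : ℕ) = 2 ^ 0 from rfl, Nat.testBit_two_pow_of_ne (Ne.symm h0)] at hv
        exact absurd hv (by decide)
      subst this
      simp) (by intro v hv; simp at hv)
  have h2 : ∀ v < 12, (c v ^^ c 0) = Nat.testBit 1608 v := by
    intro v hv
    apply h1 v
    interval_cases v <;> simp
  intro k hk
  have h3 := hc k hk
  obtain ⟨a1, a2, a3⟩ := L.ends k hk
  have h4 := h2 _ a1
  have h5 := h2 _ a2
  have h6 : par K fE k = (Nat.testBit 70808 k ^^ (Nat.testBit 1608 (dg 0xbba998776554332000 k) ^^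
      Nat.testBit 1608 (dg 0xa1182765441329ba86 k))) := by
    rw [← h4, ← h5, ← h3]
    cases par K fE k <;> cases c (dg 0xbba998776554332000 k) <;> cases c (dg 0xa1182765441329ba86 k) <;> cases c 0 <;> rfl
  rw [h6]
  clear h6 h5 h4 h3 h2 h1 a1 a2 a3
  interval_cases k <;> decide +kernel

end Pool.H29E
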