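import Pool.Agent.H29E.DTab

set_option linter.unusedSimpArgs false
set_option linter.unusedVariables false
set_option maxRecDepth 100000

/-! The exceptional skeleton with twelve vertices. -/

namespace Pool.H29E

open Finset Pool.H82.SC Pool.H82.SC.MG

variable {K : MG} {fV fE : ℕ → ℕ}

theorem special_W (L : Lab K 12 18 (dg 0xbba998776554332000) (dg 0xa1182765441329ba86) fV fE) {g : ℕ} (hg : Odds K g)
    (hp : ∀ k < 18, par K fE k = (!(Nat.beq k 1) && !(Nat.beq k 8))) :
    11 * g + 5 ≤ 3 * K.W := by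
  have hodd : ∀ k < 18, k ≠ 1 → k ≠ 8 → K.w (fE k) % 2 = 1 := by
    intro k hk h1 h8
    have := hp k hk
    rw [beq_dec, beq_dec, decide_eq_false h1, decide_eq_false h8] at this
    unfold par at this
    rw [← Nat.odd_iff]
    simpa using this
  have hev : ∀ k < 18, (k = 1 ∨ k = 8) → K.w (fE k) % 2 = 0 := by
    intro k hk h1
    have := hp k hk
    rw [← Nat.even_iff, ← Nat.not_odd_iff_even]
    intro ho
    unfold par at this
    rw [decide_eq_true ho] at this
    rcases h1 with rfl | rfl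
    · exact absurd this (by decide)
    · exact absurd this (by decide)
  have key : ∀ Z : Finset ℕ, Z ⊆ range 18 →
      (∀ v < 12, ∑ k ∈ Z, ((if dg 0xbba998776554332000 k = v then (1 : ZMod 2) else 0) +
        (if dg 0xa1182765441329ba86 k = v then 1 else 0)) = 0) →
      (∑ k ∈ Z, K.w (fE k)) % 2 = 1 → g ≤ ∑ k ∈ Z, K.w (fE k) := by
    intro Z hZ h1 h2
    rw [← L.wt_image hZ] at h2 ⊢
    exact hg _ (L.ev_image hZ h1) (Nat.odd_iff.2 h2)
  have o0 := hodd 0 (by norm_num) (by norm_num) (by norm_num)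
  have o1 := hev 1 (by norm_num) (by norm_num)
  have o2 := hodd 2 (by norm_num) (by norm_num) (by norm_num)
  have o3 := hodd 3 (by norm_num) (by norm_num) (by norm_num)
  have o4 := hodd 4 (by norm_num) (by norm_num) (by norm_num)
  have o5 := hodd 5 (by norm_num) (by norm_num) (by norm_num)
  have o6 := hodd 6 (by norm_num) (by norm_num) (by norm_num)
  have o7 := hodd 7 (by norm_num) (by norm_num) (by norm_num)
  have o8 := hev 8 (by norm_num) (by norm_num)
  have o9 := hodd 9 (by norm_num) (by norm_num) (by norm_num)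
  have o10 := hodd 10 (by norm_num) (by norm_num) (by norm_num)
  have o11 := hodd 11 (by norm_num) (by norm_num) (by norm_num)
  have o12 := hodd 12 (by norm_num) (by norm_num) (by norm_num)
  have o13 := hodd 13 (by norm_num) (by norm_num) (by norm_num)
  have o14 := hodd 14 (by norm_num) (by norm_num) (by norm_num)
  have o15 := hodd 15 (by norm_num) (by norm_num) (by norm_num)
  have o16 := hodd 16 (by norm_num) (by norm_num) (by norm_num)
  have o17 := hodd 17 (by norm_num) (by norm_num) (by norm_num)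
  have p2 : 1 ≤ K.w (fE 2) := by omega
  have p3 : 1 ≤ K.w (fE 3) := by omega
  have p6 : 1 ≤ K.w (fE 6) := by omega
  have p7 : 1 ≤ K.w (fE 7) := by omega
  have p14 : 1 ≤ K.w (fE 14) := by omega
  have q0 : (K.w (fE 8) + (K.w (fE 9) + (K.w (fE 10) + K.w (fE 11)))) % 2 = 1 := by
    omega
  have q1 : (K.w (fE 0) + (K.w (fE 1) + (K.w (fE 11) + K.w (fE 12)))) % 2 = 1 := by
    omega
  have q2 : (K.w (fE 4) + (K.w (fE 5) + K.w (fE 13))) % 2 = 1 := by
    omega
  have q3 : (K.w (fE 15) + (K.w (fE 16) + K.w (fE 17))) % 2 = 1 := by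
    omega
  have q4 : (K.w (fE 0) + (K.w (fE 1) + (K.w (fE 4) + (K.w (fE 6) + (K.w (fE 9) + K.w (fE 14)))))) % 2 = 1 := by
    omega
  have q5 : (K.w (fE 4) + (K.w (fE 6) + (K.w (fE 8) + (K.w (fE 10) + (K.w (fE 12) + K.w (fE 14)))))) % 2 = 1 := by
    omega
  have q6 : (K.w (fE 0) + (K.w (fE 2) + (K.w (fE 7) + (K.w (fE 8) + (K.w (fE 9) + K.w (fE 15)))))) % 2 = 1 := by
    omega
  have q7 : (K.w (fE 1) + (K.w (fE 2) + (K.w (fE 7) + (K.w (fE 10) + (K.w (fE 12) + K.w (fE 15)))))) % 2 = 1 := by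
    omega
  have q8 : (K.w (fE 3) + (K.w (fE 5) + (K.w (fE 6) + (K.w (fE 7) + (K.w (fE 8) + K.w (fE 16)))))) % 2 = 1 := by
    omega
  have q9 : (K.w (fE 3) + (K.w (fE 7) + (K.w (fE 10) + (K.w (fE 12) + (K.w (fE 13) + (K.w (fE 14) + K.w (fE 16))))))) % 2 = 1 := by
    omega
  have q10 : (K.w (fE 0) + (K.w (fE 2) + (K.w (fE 3) + (K.w (fE 5) + (K.w (fE 6) + (K.w (fE 9) + K.w (fE 17))))))) % 2 = 1 := by
    omega
  have q11 : (K.w (fE 1) + (K.w (fE 2) + (K.w (fE 3) + (K.w (fE 13) + (K.w (fE 14) + K.w (fE 17)))))) % 2 = 1 := by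
    omega
  have c0 : g ≤ K.w (fE 8) + (K.w (fE 9) + (K.w (fE 10) + K.w (fE 11))) := by
    have hs : ∑ k ∈ ({8, 9, 10, 11} : Finset ℕ), K.w (fE k) = K.w (fE 8) + (K.w (fE 9) + (K.w (fE 10) + K.w (fE 11))) := by
      rw [sum_insert (by decide), sum_insert (by decide), sum_insert (by decide), sum_singleton]
    rw [← hs]
    refine key _ (by decide) (by decide +kernel) ?_
    rw [hs]
    exact q0
  have c1 : g ≤ K.w (fE 0) + (K.w (fE 1) + (K.w (fE 11) + K.w (fE 12))) := by
    have hs : ∑ k ∈ ({0, 1, 11, 12} : Finset ℕ), K.w (fE k) = K.w (fE 0) + (K.w (fE 1) + (K.w (fE 11) + K.w (fE 12))) := by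
      rw [sum_insert (by decide), sum_insert (by decide), sum_insert (by decide), sum_singleton]
    rw [← hs]
    refine key _ (by decide) (by decide +kernel) ?_
    rw [hs]
    exact q1
  have c2 : g ≤ K.w (fE 4) + (K.w (fE 5) + K.w (fE 13)) := by
    have hs : ∑ k ∈ ({4, 5, 13} : Finset ℕ), K.w (fE k) = K.w (fE 4) + (K.w (fE 5) + K.w (fE 13)) := by
      rw [sum_insert (by decide), sum_insert (by decide), sum_singleton]
    rw [← hs]
    refine key _ (by decide) (by decide +kernel) ?_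
    rw [hs]
    exact q2
  have c3 : g ≤ K.w (fE 15) + (K.w (fE 16) + K.w (fE 17)) := by
    have hs : ∑ k ∈ ({15, 16, 17} : Finset ℕ), K.w (fE k) = K.w (fE 15) + (K.w (fE 16) + K.w (fE 17)) := by
      rw [sum_insert (by decide), sum_insert (by decide), sum_singleton]
    rw [← hs]
    refine key _ (by decide) (by decide +kernel) ?_
    rw [hs]
    exact q3
  have c4 : g ≤ K.w (fE 0) + (K.w (fE 1) + (K.w (fE 4) + (K.w (fE 6) + (K.w (fE 9) + K.w (fE 14))))) := by
    have hs : ∑ k ∈ ({0, 1, 4, 6, 9, 14} : Finset ℕ), K.w (fE k) = K.w (fE 0) + (K.w (fE 1) + (K.w (fE 4) + (K.w (fE 6) + (K.w (fE 9) + K.w (fE 14))))) := by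
      rw [sum_insert (by decide), sum_insert (by decide), sum_insert (by decide), sum_insert (by decide), sum_insert (by decide), sum_singleton]
    rw [← hs]
    refine key _ (by decide) (by decide +kernel) ?_
    rw [hs]
    exact q4
  have c5 : g ≤ K.w (fE 4) + (K.w (fE 6) + (K.w (fE 8) + (K.w (fE 10) + (K.w (fE 12) + K.w (fE 14))))) := by
    have hs : ∑ k ∈ ({4, 6, 8, 10, 12, 14} : Finset ℕ), K.w (fE k) = K.w (fE 4) + (K.w (fE 6) + (K.w (fE 8) + (K.w (fE 10) + (K.w (fE 12) + K.w (fE 14))))) := by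
      rw [sum_insert (by decide), sum_insert (by decide), sum_insert (by decide), sum_insert (by decide), sum_insert (by decide), sum_singleton]
    rw [← hs]
    refine key _ (by decide) (by decide +kernel) ?_
    rw [hs]
    exact q5
  have c6 : g ≤ K.w (fE 0) + (K.w (fE 2) + (K.w (fE 7) + (K.w (fE 8) + (K.w (fE 9) + K.w (fE 15))))) := by
    have hs : ∑ k ∈ ({0, 2, 7, 8, 9, 15} : Finset ℕ), K.w (fE k) = K.w (fE 0) + (K.w (fE 2) + (K.w (fE 7) + (K.w (fE 8) + (K.w (fE 9) + K.w (fE 15))))) := by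
      rw [sum_insert (by decide), sum_insert (by decide), sum_insert (by decide), sum_insert (by decide), sum_insert (by decide), sum_singleton]
    rw [← hs]
    refine key _ (by decide) (by decide +kernel) ?_
    rw [hs]
    exact q6
  have c7 : g ≤ K.w (fE 1) + (K.w (fE 2) + (K.w (fE 7) + (K.w (fE 10) + (K.w (fE 12) + K.w (fE 15))))) := by
    have hs : ∑ k ∈ ({1, 2, 7, 10, 12, 15} : Finset ℕ), K.w (fE k) = K.w (fE 1) + (K.w (fE 2) + (K.w (fE 7) + (K.w (fE 10) + (K.w (fE 12) + K.w (fE 15))))) := by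
      rw [sum_insert (by decide), sum_insert (by decide), sum_insert (by decide), sum_insert (by decide), sum_insert (by decide), sum_singleton]
    rw [← hs]
    refine key _ (by decide) (by decide +kernel) ?_
    rw [hs]
    exact q7
  have c8 : g ≤ K.w (fE 3) + (K.w (fE 5) + (K.w (fE 6) + (K.w (fE 7) + (K.w (fE 8) + K.w (fE 16))))) := by
    have hs : ∑ k ∈ ({3, 5, 6, 7, 8, 16} : Finset ℕ), K.w (fE k) = K.w (fE 3) + (K.w (fE 5) + (K.w (fE 6) + (K.w (fE 7) + (K.w (fE 8) + K.w (fE 16))))) := by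
      rw [sum_insert (by decide), sum_insert (by decide), sum_insert (by decide), sum_insert (by decide), sum_insert (by decide), sum_singleton]
    rw [← hs]
    refine key _ (by decide) (by decide +kernel) ?_
    rw [hs]
    exact q8
  have c9 : g ≤ K.w (fE 3) + (K.w (fE 7) + (K.w (fE 10) + (K.w (fE 12) + (K.w (fE 13) + (K.w (fE 14) + K.w (fE 16)))))) := by
    have hs : ∑ k ∈ ({3, 7, 10, 12, 13, 14, 16} : Finset ℕ), K.w (fE k) = K.w (fE 3) + (K.w (fE 7) + (K.w (fE 10) + (K.w (fE 12) + (K.w (fE 13) + (K.w (fE 14) + K.w (fE 16)))))) := by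
      rw [sum_insert (by decide), sum_insert (by decide), sum_insert (by decide), sum_insert (by decide), sum_insert (by decide), sum_insert (by decide), sum_singleton]
    rw [← hs]
    refine key _ (by decide) (by decide +kernel) ?_
    rw [hs]
    exact q9
  have c10 : g ≤ K.w (fE 0) + (K.w (fE 2) + (K.w (fE 3) + (K.w (fE 5) + (K.w (fE 6) + (K.w (fE 9) + K.w (fE 17)))))) := by
    have hs : ∑ k ∈ ({0, 2, 3, 5, 6, 9, 17} : Finset ℕ), K.w (fE k) = K.w (fE 0) + (K.w (fE 2) + (K.w (fE 3) + (K.w (fE 5) + (K.w (fE 6) + (K.w (fE 9) + K.w (fE 17)))))) := by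
      rw [sum_insert (by decide), sum_insert (by decide), sum_insert (by decide), sum_insert (by decide), sum_insert (by decide), sum_insert (by decide), sum_singleton]
    rw [← hs]
    refine key _ (by decide) (by decide +kernel) ?_
    rw [hs]
    exact q10
  have c11 : g ≤ K.w (fE 1) + (K.w (fE 2) + (K.w (fE 3) + (K.w (fE 13) + (K.w (fE 14) + K.w (fE 17))))) := by
    have hs : ∑ k ∈ ({1, 2, 3, 13, 14, 17} : Finset ℕ), K.w (fE k) = K.w (fE 1) + (K.w (fE 2) + (K.w (fE 3) + (K.w (fE 13) + (K.w (fE 14) + K.w (fE 17))))) := by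
      rw [sum_insert (by decide), sum_insert (by decide), sum_insert (by decide), sum_insert (by decide), sum_insert (by decide), sum_singleton]
    rw [← hs]
    refine key _ (by decide) (by decide +kernel) ?_
    rw [hs]
    exact q11
  have hW := L.W_eq
  rw [sum_range_succ, sum_range_succ, sum_range_succ, sum_range_succ, sum_range_succ, sum_range_succ,
    sum_range_succ, sum_range_succ, sum_range_succ, sum_range_succ, sum_range_succ, sum_range_succ,
    sum_range_succ, sum_range_succ, sum_range_succ, sum_range_succ, sum_range_succ, sum_range_succ,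
    sum_range_zero] at hW
  clear key hodd hev o0 o1 o2 o3 o4 o5 o6 o7 o8 o9 o10 o11 o12 o13 o14 o15 o16 o17 hp hg
  clear q0 q1 q2 q3 q4 q5 q6 q7 q8 q9 q10 q11
  rw [hW]
  linarith

end Pool.H29E
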