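import Pool.Agent.H29E.Tab

set_option maxRecDepth 100000

namespace Pool.H29E

theorem tb6_0 : tck (dg 0xbba998776554332000) (dg 0xa288566944132b117a) 18 3 1 0 false 0
  [(4, 9), (3, 4), (5, 7), (2, 3), (6, 11), (9, 10), (11, 17), (8, 15), (1, 2), (7, 1), (10, 0)]
  [5, 6, 8, 12, 13, 14, 16]
  (.n (.n (.n (.n (.n (.n (.n (.v 0) (.v 0)) (.n (.v 0) (.v 0))) (.n (.n (.v 0) (.v 0)) (.n (.v 512) (.v 512)))) (.n (.n (.n (.v 0) (.v 0)) (.n (.v 256) (.v 256))) (.n (.n (.v 0) (.v 0)) (.n (.v 256) (.v 256))))) (.n (.n (.n (.n (.v 0) (.v 0)) (.n (.v 0) (.v 0))) (.n (.n (.v 32) (.v 32)) (.n (.v 32) (.v 32)))) (.n (.n (.n (.v 0) (.v 0)) (.n (.v 256) (.v 256))) (.n (.n (.v 32) (.v 32)) (.n (.v 288) (.v 288)))))) (.n (.n (.n (.n (.n (.v 0) (.v 0)) (.n (.v 0) (.v 0))) (.n (.n (.v 0) (.v 0)) (.n (.v 512) (.v 512)))) (.n (.n (.n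 (.v 0) (.v 0)) (.n (.v 256) (.v 759))) (.n (.n (.v 112) (.v 112)) (.n (.v 720) (.v 720))))) (.n (.n (.n (.n (.v 16) (.v 16)) (.n (.v 16) (.v 16))) (.n (.n (.v 16) (.v 46)) (.n (.v 528) (.v 46)))) (.n (.n (.n (.v 80) (.v 80)) (.n (.v 80) (.v 80))) (.n (.n (.v 80) (.v 46)) (.n (.v 720) (.v 720))))))) (.n (.n (.n (.n (.n (.n (.v 0) (.v 4)) (.n (.v 0) (.v 4))) (.n (.n (.v 0) (.v 4)) (.n (.v 512) (.v 516)))) (.n (.n (.n (.v 0) (.v 4)) (.n (.v 256) (.v 260))) (.n (.n (.v 0) (.v 4)) (.n (.v 256) (.v 260))))) (.n (.n (.n (.n (.v 0) (.v 4)) (.n (.v 0) (.v 550))) (.n (.n (.v 32) (.v 38)) (.n (.v 32) (.v 38)))) (.n (.n (.n (.v 88) (.v 1959)) (.n (.v 88) (.v 743))) (.n (.n (.v 32) (.v 38)) (.n (.v 728) (.v 294)))))) (.n (.n (.n (.n (.n (.v 8) (.v 2039)) (.n (.v 8) (.v 759))) (.n (.n (.v 8) (.v 54)) (.n (.v 520) (.v 1527))))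 (.n (.n (.n (.v 8) (.v 759)) (.n (.v 264) (.v 759))) (.n (.n (.v 8) (.v 118)) (.n (.v 264) (.v 759))))) (.n (.n (.n (.n (.v 8) (.v 20)) (.n (.v 8) (.v 20))) (.n (.n (.v 40) (.v 38)) (.n (.v 40) (.v 38)))) (.n (.n (.n (.v 80) (.v 84)) (.n (.v 80) (.v 759))) (.n (.n (.v 40) (.v 38)) (.n (.v 720) (.v 724)))))))) = true := by
  decide +kernel

theorem tb6_1 : tck (dg 0xbba998776554332000) (dg 0xa3885669441b22117a) 18 3 1 0 false 0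
  [(3, 16), (4, 6), (5, 7), (2, 3), (6, 11), (9, 10), (11, 17), (8, 15), (1, 2), (7, 1), (10, 0)]
  [4, 5, 8, 9, 12, 13, 14]
  (.n (.n (.n (.n (.n (.n (.n (.v 0) (.v 0)) (.n (.v 0) (.v 512))) (.n (.n (.v 0) (.v 256)) (.n (.v 0) (.v 256)))) (.n (.n (.n (.v 0) (.v 0)) (.n (.v 0) (.v 512))) (.n (.n (.v 64) (.v 64)) (.n (.v 64) (.v 704))))) (.n (.n (.n (.n (.v 0) (.v 0)) (.n (.v 32) (.v 32))) (.n (.n (.v 0) (.v 256)) (.n (.v 32) (.v 288)))) (.n (.n (.n (.v 16) (.v 16)) (.n (.v 16) (.v 528))) (.n (.n (.v 16) (.v 272)) (.n (.v 96) (.v 704)))))) (.n (.n (.n (.n (.n (.v 0) (.v 0)) (.n (.v 0) (.v 512))) (.n (.n (.v 0) (.v 256)) (.n (.v 0) (.v 256)))) (.n (.n (.n (.v 0) (.v 0)) (.n (.v 0) (.v 512))) (.n (.n (.v 64) (.v 64)) (.n (.v 64) (.v 704))))) (.n (.n (.n (.n (.v 0) (.v 0)) (.n (.v 32) (.v 32))) (.n (.n (.v 0) (.v 256))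 (.n (.v 32) (.v 288)))) (.n (.n (.n (.v 16) (.v 16)) (.n (.v 16) (.v 528))) (.n (.n (.v 16) (.v 743)) (.n (.v 96) (.v 704))))))) (.n (.n (.n (.n (.n (.n (.v 0) (.v 0)) (.n (.v 0) (.v 512))) (.n (.n (.v 0) (.v 256)) (.n (.v 0) (.v 256)))) (.n (.n (.n (.v 0) (.v 0)) (.n (.v 0) (.v 512))) (.n (.n (.v 64) (.v 64)) (.n (.v 64) (.v 704))))) (.n (.n (.n (.n (.v 0) (.v 0)) (.n (.v 32) (.v 32))) (.n (.n (.v 0) (.v 256)) (.n (.v 32) (.v 288)))) (.n (.n (.n (.v 16) (.v 16)) (.n (.v 16) (.v 528))) (.n (.n (.v 16) (.v 743)) (.n (.v 96) (.v 704)))))) (.n (.n (.n (.n (.n (.v 4) (.v 4)) (.n (.v 4) (.v 516))) (.n (.n (.v 4) (.v 260)) (.n (.v 4) (.v 260)))) (.n (.n (.n (.v 4) (.v 4)) (.n (.v 54) (.v 54))) (.n (.n (.v 68) (.v 743)) (.n (.v 54) (.v 708))))) (.n (.n (.n (.n (.v 4) (.v 550)) (.n (.v 38) (.v 38))) (.n (.n (.v 1959) (.v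 743)) (.n (.v 38) (.v 294)))) (.n (.n (.n (.v 2023) (.v 743)) (.n (.v 38) (.v 1511))) (.n (.n (.v 743) (.v 743)) (.n (.v 102) (.v 743)))))))) = true := by
  decide +kernel

theorem tb6_2 : tck (dg 0xbba998776554332000) (dg 0xa48856694b1322117a) 18 3 1 0 false 0
  [(3, 4), (4, 16), (5, 7), (2, 3), (6, 11), (9, 10), (11, 17), (8, 15), (1, 2), (7, 1), (10, 0)]
  [5, 6, 8, 9, 12, 13, 14]
  (.n (.n (.n (.n (.n (.n (.n (.v 0) (.v 0)) (.n (.v 0) (.v 512))) (.n (.n (.v 0) (.v 256)) (.n (.v 0) (.v 256)))) (.n (.n (.n (.v 0) (.v 0)) (.n (.v 0) (.v 512))) (.n (.n (.v 64) (.v 64)) (.n (.v 64) (.v 704))))) (.n (.n (.n (.n (.v 0) (.v 0)) (.n (.v 32) (.v 32))) (.n (.n (.v 0) (.v 256)) (.n (.v 32) (.v 288)))) (.n (.n (.n (.v 0) (.v 0)) (.n (.v 32) (.v 32))) (.n (.n (.v 64) (.v 736)) (.n (.v 96) (.v 704)))))) (.n (.n (.n (.n (.n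 (.v 0) (.v 0)) (.n (.v 0) (.v 512))) (.n (.n (.v 0) (.v 256)) (.n (.v 0) (.v 720)))) (.n (.n (.n (.v 16) (.v 16)) (.n (.v 16) (.v 528))) (.n (.n (.v 16) (.v 272)) (.n (.v 16) (.v 704))))) (.n (.n (.n (.n (.v 0) (.v 558)) (.n (.v 46) (.v 46))) (.n (.n (.v 1967) (.v 751)) (.n (.v 46) (.v 302)))) (.n (.n (.n (.v 2031) (.v 751)) (.n (.v 46) (.v 1519))) (.n (.n (.v 751) (.v 751)) (.n (.v 110) (.v 751))))))) (.n (.n (.n (.n (.n (.n (.v 0) (.v 0)) (.n (.v 0) (.v 512))) (.n (.n (.v 0) (.v 256)) (.n (.v 0) (.v 256)))) (.n (.n (.n (.v 0) (.v 0)) (.n (.v 0) (.v 512))) (.n (.n (.v 64) (.v 64)) (.n (.v 64) (.v 704))))) (.n (.n (.n (.n (.v 0) (.v 0)) (.n (.v 32) (.v 32))) (.n (.n (.v 0) (.v 256)) (.n (.v 32) (.v 288)))) (.n (.n (.n (.v 2023) (.v 743)) (.n (.v 32) (.v 1511))) (.n (.n (.v 64) (.v 743)) (.n (.v 96) (.v 704))))))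 (.n (.n (.n (.n (.n (.v 8) (.v 8)) (.n (.v 8) (.v 520))) (.n (.n (.v 8) (.v 264)) (.n (.v 8) (.v 264)))) (.n (.n (.n (.v 8) (.v 8)) (.n (.v 8) (.v 520))) (.n (.n (.v 72) (.v 72)) (.n (.v 72) (.v 712))))) (.n (.n (.n (.n (.v 8) (.v 8)) (.n (.v 40) (.v 40))) (.n (.n (.v 8) (.v 264)) (.n (.v 40) (.v 296)))) (.n (.n (.n (.v 2031) (.v 751)) (.n (.v 40) (.v 1519))) (.n (.n (.v 72) (.v 751)) (.n (.v 104) (.v 712)))))))) = true := by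
  decide +kernel

theorem tb6_3 : tck (dg 0xbba998776554332000) (dg 0xa4885669b41322117a) 18 3 1 0 false 0
  [(3, 4), (4, 16), (5, 7), (2, 3), (6, 11), (9, 10), (11, 17), (8, 15), (1, 2), (7, 1), (10, 0)]
  [5, 6, 8, 9, 12, 13, 14]
  (.n (.n (.n (.n (.n (.n (.n (.v 0) (.v 0)) (.n (.v 0) (.v 512))) (.n (.n (.v 0) (.v 256)) (.n (.v 0) (.v 256)))) (.n (.n (.n (.v 0) (.v 0)) (.n (.v 0) (.v 512))) (.n (.n (.v 64) (.v 64)) (.n (.v 64) (.v 704))))) (.n (.n (.n (.n (.v 0) (.v 0)) (.n (.v 32) (.v 32))) (.n (.n (.v 0) (.v 256)) (.n (.v 32) (.v 288)))) (.n (.n (.n (.v 0) (.v 0)) (.n (.v 32) (.v 32))) (.n (.n (.v 64) (.v 736)) (.n (.v 96) (.v 704)))))) (.n (.n (.n (.n (.n (.v 0) (.v 0)) (.n (.v 0) (.v 512))) (.n (.n (.v 0) (.v 256)) (.n (.v 0) (.v 256)))) (.n (.n (.n (.v 0) (.v 0)) (.n (.v 1999) (.v 512))) (.n (.n (.v 64)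 (.v 751)) (.n (.v 64) (.v 704))))) (.n (.n (.n (.n (.v 16) (.v 16)) (.n (.v 46) (.v 46))) (.n (.n (.v 16) (.v 272)) (.n (.v 46) (.v 302)))) (.n (.n (.n (.v 2031) (.v 751)) (.n (.v 46) (.v 1519))) (.n (.n (.v 80) (.v 751)) (.n (.v 110) (.v 720))))))) (.n (.n (.n (.n (.n (.n (.v 0) (.v 0)) (.n (.v 0) (.v 512))) (.n (.n (.v 0) (.v 256)) (.n (.v 0) (.v 256)))) (.n (.n (.n (.v 0) (.v 0)) (.n (.v 0) (.v 512))) (.n (.n (.v 64) (.v 64)) (.n (.v 64) (.v 704))))) (.n (.n (.n (.n (.v 0) (.v 0)) (.n (.v 32) (.v 32))) (.n (.n (.v 0) (.v 256)) (.n (.v 32) (.v 288)))) (.n (.n (.n (.v 2023) (.v 743)) (.n (.v 32) (.v 1511))) (.n (.n (.v 64) (.v 743)) (.n (.v 96) (.v 704)))))) (.n (.n (.n (.n (.n (.v 8) (.v 8)) (.n (.v 8) (.v 520))) (.n (.n (.v 8) (.v 264)) (.n (.v 8) (.v 264)))) (.n (.n (.n (.v 8) (.v 8)) (.n (.v 8) (.v 520)))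 (.n (.n (.v 72) (.v 72)) (.n (.v 72) (.v 712))))) (.n (.n (.n (.n (.v 8) (.v 8)) (.n (.v 40) (.v 40))) (.n (.n (.v 8) (.v 264)) (.n (.v 40) (.v 296)))) (.n (.n (.n (.v 2031) (.v 751)) (.n (.v 40) (.v 1519))) (.n (.n (.v 72) (.v 751)) (.n (.v 104) (.v 712)))))))) = true := by
  decide +kernel

theorem tb6_4 : tck (dg 0xbba998776554332000) (dg 0xa928566b44132a1178) 18 3 1 0 false 0
  [(3, 5), (10, 17), (4, 9), (5, 7), (2, 3), (11, 10), (9, 14), (6, 12), (1, 2), (7, 1), (8, 0)]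
  [4, 6, 8, 11, 13, 15, 16]
  (.n (.n (.n (.n (.n (.n (.n (.v 0) (.v 0)) (.n (.v 0) (.v 0))) (.n (.n (.v 0) (.v 512)) (.n (.v 0) (.v 512)))) (.n (.n (.n (.v 0) (.v 0)) (.n (.v 0) (.v 895))) (.n (.n (.v 0) (.v 512)) (.n (.v 0) (.v 512))))) (.n (.n (.n (.n (.v 0) (.v 0)) (.n (.v 0) (.v 0))) (.n (.n (.v 32) (.v 32)) (.n (.v 32) (.v 32)))) (.n (.n (.n (.v 0) (.v 0)) (.n (.v 0) (.v 871))) (.n (.n (.v 32) (.v 848)) (.n (.v 32) (.v 848)))))) (.n (.n (.n (.n (.n (.v 0) (.v 0)) (.n (.v 0) (.v 1015))) (.n (.n (.v 0) (.v 512)) (.n (.v 0) (.v 512)))) (.n (.n (.n (.v 0) (.v 880)) (.n (.v 0) (.v 887))) (.n (.n (.v 112) (.v 848)) (.n (.v 112) (.v 848))))) (.n (.n (.n (.n (.v 16) (.v 16)) (.n (.v 16) (.v 16))) (.n (.n (.v 16) (.v 528)) (.n (.v 46) (.v 46)))) (.n (.n (.n (.v 80) (.v 80)) (.n (.v 80) (.v 80))) (.n (.n (.v 80) (.v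 848)) (.n (.v 46) (.v 848))))))) (.n (.n (.n (.n (.n (.n (.v 0) (.v 0)) (.n (.v 1024) (.v 1023))) (.n (.n (.v 0) (.v 512)) (.n (.v 62) (.v 1023)))) (.n (.n (.n (.v 0) (.v 895)) (.n (.v 895) (.v 895))) (.n (.n (.v 0) (.v 512)) (.n (.v 126) (.v 895))))) (.n (.n (.n (.n (.v 0) (.v 0)) (.n (.v 28) (.v 1023))) (.n (.n (.v 32) (.v 32)) (.n (.v 46) (.v 991)))) (.n (.n (.n (.v 88) (.v 88)) (.n (.v 92) (.v 895))) (.n (.n (.v 32) (.v 856)) (.n (.v 46) (.v 860)))))) (.n (.n (.n (.n (.n (.v 8) (.v 8)) (.n (.v 12) (.v 12))) (.n (.n (.v 8) (.v 520)) (.n (.v 12) (.v 524)))) (.n (.n (.n (.v 8) (.v 8)) (.n (.v 12) (.v 895))) (.n (.n (.v 8) (.v 520)) (.n (.v 12) (.v 524))))) (.n (.n (.n (.n (.v 8) (.v 8)) (.n (.v 12) (.v 558))) (.n (.n (.v 40) (.v 40)) (.n (.v 46) (.v 46)))) (.n (.n (.n (.v 80) (.v 80)) (.n (.v 1104) (.v 879)))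 (.n (.n (.v 40) (.v 848)) (.n (.v 46) (.v 1872)))))))) = true := by
  decide +kernel

theorem tb6_5 : tck (dg 0xbba998776554332000) (dg 0xa528b66944132a1178) 18 3 1 0 false 0
  [(10, 15), (3, 5), (11, 13), (4, 9), (5, 7), (2, 3), (9, 14), (6, 12), (1, 2), (7, 1), (8, 0)]
  [4, 6, 8, 10, 11, 16, 17]
  (.n (.n (.n (.n (.n (.n (.n (.v 0) (.v 0)) (.n (.v 0) (.v 2047))) (.n (.n (.v 0) (.v 0)) (.n (.v 0) (.v 1150)))) (.n (.n (.n (.v 0) (.v 0)) (.n (.v 0) (.v 1535))) (.n (.n (.v 128) (.v 128)) (.n (.v 128) (.v 1215))))) (.n (.n (.n (.n (.v 0) (.v 0)) (.n (.v 32) (.v 32))) (.n (.n (.v 0) (.v 1116)) (.n (.v 32) (.v 32)))) (.n (.n (.n (.v 0) (.v 1503)) (.n (.v 32) (.v 1535))) (.n (.n (.v 128) (.v 128)) (.n (.v 160) (.v 1199)))))) (.n (.n (.n (.n (.n (.v 0) (.v 1036)) (.n (.v 0) (.v 1036))) (.n (.n (.v 0) (.v 1036)) (.n (.v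 112) (.v 112)))) (.n (.n (.n (.v 0) (.v 1036)) (.n (.v 499) (.v 1535))) (.n (.n (.v 128) (.v 1164)) (.n (.v 112) (.v 1199))))) (.n (.n (.n (.n (.v 16) (.v 16)) (.n (.v 16) (.v 1070))) (.n (.n (.v 80) (.v 80)) (.n (.v 80) (.v 1070)))) (.n (.n (.n (.v 16) (.v 16)) (.n (.v 16) (.v 1070))) (.n (.n (.v 80) (.v 1199)) (.n (.v 1199) (.v 1199))))))) (.n (.n (.n (.n (.n (.n (.v 0) (.v 1024)) (.n (.v 0) (.v 1024))) (.n (.n (.v 0) (.v 1024)) (.n (.v 0) (.v 1024)))) (.n (.n (.n (.v 0) (.v 1024)) (.n (.v 511) (.v 1535))) (.n (.n (.v 128) (.v 1152)) (.n (.v 128) (.v 1152))))) (.n (.n (.n (.n (.v 0) (.v 1024)) (.n (.v 32) (.v 1056))) (.n (.n (.v 88) (.v 88)) (.n (.v 32) (.v 1056)))) (.n (.n (.n (.v 0) (.v 1024)) (.n (.v 32) (.v 1056))) (.n (.n (.v 88) (.v 1152)) (.n (.v 160) (.v 1191)))))) (.n (.n (.n (.n (.n (.v 8) (.v 8)) (.n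 (.v 8) (.v 2039))) (.n (.n (.v 8) (.v 8)) (.n (.v 8) (.v 1136)))) (.n (.n (.n (.v 8) (.v 8)) (.n (.v 8) (.v 1527))) (.n (.n (.v 136) (.v 136)) (.n (.v 136) (.v 1199))))) (.n (.n (.n (.n (.v 8) (.v 1040)) (.n (.v 40) (.v 1070))) (.n (.n (.v 80) (.v 1104)) (.n (.v 40) (.v 1070)))) (.n (.n (.n (.v 8) (.v 1040)) (.n (.v 40) (.v 1070))) (.n (.n (.v 80) (.v 1104)) (.n (.v 175) (.v 1199)))))))) = true := by
  decide +kernel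

theorem tb6_6 : tck (dg 0xbba998776554332000) (dg 0xa918566b44a3221178) 18 3 1 0 false 0
  [(3, 4), (5, 13), (4, 9), (10, 15), (2, 3), (11, 10), (9, 14), (6, 12), (1, 2), (7, 1), (8, 0)]
  [5, 6, 7, 8, 11, 16, 17]
  (.n (.n (.n (.n (.n (.n (.n (.v 0) (.v 0)) (.n (.v 0) (.v 2047))) (.n (.n (.v 0) (.v 0)) (.n (.v 0) (.v 1919)))) (.n (.n (.n (.v 0) (.v 0)) (.n (.v 0) (.v 1568))) (.n (.n (.v 0) (.v 0)) (.n (.v 0) (.v 1919))))) (.n (.n (.n (.n (.v 0) (.v 1024)) (.n (.v 0) (.v 1024))) (.n (.n (.v 0) (.v 1024)) (.n (.v 880) (.v 1919)))) (.n (.n (.n (.v 32) (.v 32)) (.n (.v 544) (.v 544))) (.n (.n (.v 32) (.v 1118)) (.n (.v 544) (.v 1887)))))) (.n (.n (.n (.n (.n (.v 0) (.v 0)) (.n (.v 0) (.v 2035))) (.n (.n (.v 0) (.v 0)) (.n (.v 880) (.v 1904)))) (.n (.n (.n (.v 16) (.v 16)) (.n (.v 16) (.v 1582))) (.n (.n (.v 80) (.v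 80)) (.n (.v 80) (.v 1903))))) (.n (.n (.n (.n (.v 0) (.v 1038)) (.n (.v 560) (.v 1038))) (.n (.n (.v 112) (.v 1038)) (.n (.v 880) (.v 880)))) (.n (.n (.n (.v 16) (.v 1038)) (.n (.v 544) (.v 544))) (.n (.n (.v 80) (.v 1104)) (.n (.v 880) (.v 880))))))) (.n (.n (.n (.n (.n (.n (.v 0) (.v 0)) (.n (.v 0) (.v 2047))) (.n (.n (.v 0) (.v 0)) (.n (.v 0) (.v 1919)))) (.n (.n (.n (.v 0) (.v 0)) (.n (.v 0) (.v 1568))) (.n (.n (.v 88) (.v 88)) (.n (.v 88) (.v 1895))))) (.n (.n (.n (.n (.v 0) (.v 1024)) (.n (.v 0) (.v 1024))) (.n (.n (.v 0) (.v 1024)) (.n (.v 888) (.v 888)))) (.n (.n (.n (.v 32) (.v 32)) (.n (.v 544) (.v 544))) (.n (.n (.v 32) (.v 1112)) (.n (.v 544) (.v 1887)))))) (.n (.n (.n (.n (.n (.v 8) (.v 8)) (.n (.v 8) (.v 2039))) (.n (.n (.v 8) (.v 8)) (.n (.v 8) (.v 1911)))) (.n (.n (.n (.v 8) (.v 8)) (.n (.v 8)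 (.v 1576))) (.n (.n (.v 80) (.v 80)) (.n (.v 80) (.v 1903))))) (.n (.n (.n (.n (.v 8) (.v 1032)) (.n (.v 8) (.v 1032))) (.n (.n (.v 8) (.v 1032)) (.n (.v 880) (.v 880)))) (.n (.n (.n (.v 40) (.v 40)) (.n (.v 552) (.v 552))) (.n (.n (.v 40) (.v 1104)) (.n (.v 552) (.v 1879)))))))) = true := by
  decide +kernel

theorem tb6_7 : tck (dg 0xbba998776554332000) (dg 0xa868276544132911ba) 18 3 1 0 false 0
  [(3, 5), (9, 14), (7, 11), (4, 9), (5, 7), (2, 3), (8, 16), (6, 15), (1, 2), (11, 1), (10, 0)]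
  [4, 6, 8, 10, 12, 13, 17]
  (.n (.n (.n (.n (.n (.n (.n (.v 0) (.v 0)) (.n (.v 0) (.v 0))) (.n (.n (.v 0) (.v 0)) (.n (.v 0) (.v 1279)))) (.n (.n (.n (.v 0) (.v 0)) (.n (.v 0) (.v 0))) (.n (.n (.v 128) (.v 128)) (.n (.v 128) (.v 128))))) (.n (.n (.n (.n (.v 0) (.v 0)) (.n (.v 0) (.v 0))) (.n (.n (.v 0) (.v 0)) (.n (.v 0) (.v 1255)))) (.n (.n (.n (.v 32) (.v 32)) (.n (.v 32) (.v 32))) (.n (.n (.v 32) (.v 1232)) (.n (.v 32) (.v 1232)))))) (.n (.n (.n (.n (.n (.v 0) (.v 0)) (.n (.v 0) (.v 0))) (.n (.n (.v 0) (.v 1264)) (.n (.v 776) (.v 1271)))) (.n (.n (.n (.v 0) (.v 0)) (.n (.v 0) (.v 1143))) (.n (.n (.v 128) (.v 1232)) (.n (.v 128) (.v 1232))))) (.n (.n (.n (.n (.v 16) (.v 16)) (.n (.v 16) (.v 16))) (.n (.n (.v 16) (.v 1232)) (.n (.v 16) (.v 1232)))) (.n (.n (.n (.v 16) (.v 1232)) (.n (.v 46) (.v 46))) (.n (.n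 (.v 208) (.v 1232)) (.n (.v 208) (.v 1232))))))) (.n (.n (.n (.n (.n (.n (.v 0) (.v 0)) (.n (.v 512) (.v 512))) (.n (.n (.v 0) (.v 1279)) (.n (.v 768) (.v 1279)))) (.n (.n (.n (.v 0) (.v 0)) (.n (.v 62) (.v 1151))) (.n (.n (.v 128) (.v 128)) (.n (.v 640) (.v 1279))))) (.n (.n (.n (.n (.v 0) (.v 0)) (.n (.v 28) (.v 28))) (.n (.n (.v 0) (.v 1240)) (.n (.v 768) (.v 1279)))) (.n (.n (.n (.v 32) (.v 32)) (.n (.v 46) (.v 46))) (.n (.n (.v 216) (.v 1240)) (.n (.v 220) (.v 1244)))))) (.n (.n (.n (.n (.n (.v 8) (.v 8)) (.n (.v 12) (.v 12))) (.n (.n (.v 8) (.v 8)) (.n (.v 12) (.v 1279)))) (.n (.n (.n (.v 8) (.v 8)) (.n (.v 12) (.v 12))) (.n (.n (.v 136) (.v 136)) (.n (.v 140) (.v 140))))) (.n (.n (.n (.n (.v 8) (.v 8)) (.n (.v 12) (.v 12))) (.n (.n (.v 8) (.v 1232)) (.n (.v 174) (.v 1263)))) (.n (.n (.n (.v 40) (.v 40))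 (.n (.v 46) (.v 46))) (.n (.n (.v 208) (.v 1232)) (.n (.v 46) (.v 1744)))))))) = true := by
  decide +kernel

theorem tb6_8 : tck (dg 0xbba998776554332000) (dg 0xa1682765441329b18a) 18 3 1 0 false 0
  [(3, 4), (2, 3), (4, 9), (5, 7), (9, 14), (7, 12), (11, 17), (6, 15), (1, 2), (8, 1), (10, 0)]
  [5, 6, 8, 10, 11, 13, 16]
  (.n (.n (.n (.n (.n (.n (.n (.v 0) (.v 0)) (.n (.v 0) (.v 0))) (.n (.n (.v 0) (.v 0)) (.n (.v 0) (.v 0)))) (.n (.n (.n (.v 0) (.v 0)) (.n (.v 0) (.v 0))) (.n (.n (.v 128) (.v 128)) (.n (.v 128) (.v 128))))) (.n (.n (.n (.n (.v 0) (.v 0)) (.n (.v 0) (.v 0))) (.n (.n (.v 0) (.v 162)) (.n (.v 0) (.v 931)))) (.n (.n (.n (.v 32) (.v 34)) (.n (.v 32) (.v 34))) (.n (.n (.v 32) (.v 34)) (.n (.v 32) (.v 34)))))) (.n (.n (.n (.n (.n (.v 0) (.v 0)) (.n (.v 0) (.v 2035))) (.n (.n (.v 0) (.v 0)) (.n (.v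 0) (.v 939)))) (.n (.n (.n (.v 0) (.v 50)) (.n (.v 0) (.v 50))) (.n (.n (.v 112) (.v 114)) (.n (.v 904) (.v 114))))) (.n (.n (.n (.n (.v 16) (.v 16)) (.n (.v 16) (.v 16))) (.n (.n (.v 80) (.v 80)) (.n (.v 80) (.v 939)))) (.n (.n (.n (.v 16) (.v 34)) (.n (.v 16) (.v 34))) (.n (.n (.v 80) (.v 34)) (.n (.v 80) (.v 939))))))) (.n (.n (.n (.n (.n (.n (.v 0) (.v 0)) (.n (.v 4) (.v 2043))) (.n (.n (.v 0) (.v 0)) (.n (.v 4) (.v 955)))) (.n (.n (.n (.v 0) (.v 0)) (.n (.v 4) (.v 2043))) (.n (.n (.v 128) (.v 122)) (.n (.v 132) (.v 1915))))) (.n (.n (.n (.n (.v 0) (.v 0)) (.n (.v 4) (.v 2043))) (.n (.n (.v 88) (.v 88)) (.n (.v 600) (.v 939)))) (.n (.n (.n (.v 32) (.v 34)) (.n (.v 36) (.v 38))) (.n (.n (.v 32) (.v 34)) (.n (.v 920) (.v 38)))))) (.n (.n (.n (.n (.n (.v 8) (.v 8)) (.n (.v 520) (.v 520))) (.n (.n (.v 8) (.v 8))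 (.n (.v 520) (.v 939)))) (.n (.n (.n (.v 8) (.v 8)) (.n (.v 520) (.v 54))) (.n (.n (.v 136) (.v 114)) (.n (.v 904) (.v 904))))) (.n (.n (.n (.n (.v 8) (.v 8)) (.n (.v 20) (.v 939))) (.n (.n (.v 80) (.v 939)) (.n (.v 84) (.v 939)))) (.n (.n (.n (.v 40) (.v 42)) (.n (.v 552) (.v 554))) (.n (.n (.v 40) (.v 42)) (.n (.v 904) (.v 939)))))))) = true := by
  decide +kernel

theorem tb6_9 : tck (dg 0xbba998776554332000) (dg 0xa968276544132b118a) 18 3 1 0 false 0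
  [(3, 4), (4, 9), (5, 7), (2, 3), (9, 14), (7, 12), (11, 17), (6, 15), (1, 2), (8, 1), (10, 0)]
  [5, 6, 8, 10, 11, 13, 16]
  (.n (.n (.n (.n (.n (.n (.n (.v 0) (.v 0)) (.n (.v 0) (.v 512))) (.n (.n (.v 0) (.v 0)) (.n (.v 0) (.v 512)))) (.n (.n (.n (.v 0) (.v 0)) (.n (.v 0) (.v 512))) (.n (.n (.v 128) (.v 128)) (.n (.v 128) (.v 896))))) (.n (.n (.n (.n (.v 0) (.v 0)) (.n (.v 0) (.v 512))) (.n (.n (.v 0) (.v 935)) (.n (.v 0) (.v 928)))) (.n (.n (.n (.v 32) (.v 32)) (.n (.v 32) (.v 544))) (.n (.n (.v 32) (.v 32)) (.n (.v 32) (.v 896)))))) (.n (.n (.n (.n (.n (.v 0) (.v 0)) (.n (.v 0) (.v 512))) (.n (.n (.v 0) (.v 0)) (.n (.v 0) (.v 512)))) (.n (.n (.n (.v 0) (.v 0)) (.n (.v 0) (.v 512))) (.n (.n (.v 112) (.v 112)) (.n (.v 112) (.v 896))))) (.n (.n (.n (.n (.v 16) (.v 16)) (.n (.v 16) (.v 528))) (.n (.n (.v 80) (.v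 80)) (.n (.v 80) (.v 592)))) (.n (.n (.n (.v 16) (.v 16)) (.n (.v 46) (.v 976))) (.n (.n (.v 80) (.v 80)) (.n (.v 46) (.v 912))))))) (.n (.n (.n (.n (.n (.n (.v 0) (.v 0)) (.n (.v 4) (.v 4))) (.n (.n (.v 0) (.v 935)) (.n (.v 4) (.v 4)))) (.n (.n (.n (.v 0) (.v 0)) (.n (.v 4) (.v 4))) (.n (.n (.v 128) (.v 900)) (.n (.v 132) (.v 896))))) (.n (.n (.n (.n (.v 0) (.v 935)) (.n (.v 4) (.v 4))) (.n (.n (.v 88) (.v 935)) (.n (.v 166) (.v 935)))) (.n (.n (.n (.v 32) (.v 550)) (.n (.v 38) (.v 38))) (.n (.n (.v 32) (.v 935)) (.n (.v 38) (.v 38)))))) (.n (.n (.n (.n (.n (.v 8) (.v 2039)) (.n (.v 4) (.v 520))) (.n (.n (.v 8) (.v 951)) (.n (.v 4) (.v 520)))) (.n (.n (.n (.v 8) (.v 2039)) (.n (.v 54) (.v 54))) (.n (.n (.v 136) (.v 1911)) (.n (.v 118) (.v 904))))) (.n (.n (.n (.n (.v 8) (.v 2039)) (.n (.v 20) (.v 20))) (.n (.n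 (.v 80) (.v 935)) (.n (.v 84) (.v 84)))) (.n (.n (.n (.v 40) (.v 2007)) (.n (.v 38) (.v 38))) (.n (.n (.v 40) (.v 916)) (.n (.v 38) (.v 904)))))))) = true := by
  decide +kernel

theorem tb6_10 : tck (dg 0xbba998776554332000) (dg 0xa26827654413b9118a) 18 3 1 0 false 0
  [(3, 5), (4, 9), (5, 7), (2, 3), (9, 14), (7, 12), (11, 17), (6, 15), (1, 2), (8, 1), (10, 0)]
  [4, 6, 8, 10, 11, 13, 16]
  (.n (.n (.n (.n (.n (.n (.n (.v 0) (.v 0)) (.n (.v 0) (.v 4))) (.n (.n (.v 0) (.v 0)) (.n (.v 0) (.v 4)))) (.n (.n (.n (.v 0) (.v 0)) (.n (.v 0) (.v 4))) (.n (.n (.v 128) (.v 128)) (.n (.v 128) (.v 132))))) (.n (.n (.n (.n (.v 0) (.v 0)) (.n (.v 0) (.v 4))) (.n (.n (.v 0) (.v 935)) (.n (.v 0) (.v 166)))) (.n (.n (.n (.v 32) (.v 32)) (.n (.v 32) (.v 38))) (.n (.n (.v 32) (.v 32)) (.n (.v 32) (.v 38)))))) (.n (.n (.n (.n (.n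 (.v 0) (.v 0)) (.n (.v 0) (.v 4))) (.n (.n (.v 0) (.v 0)) (.n (.v 0) (.v 4)))) (.n (.n (.n (.v 0) (.v 0)) (.n (.v 0) (.v 54))) (.n (.n (.v 112) (.v 112)) (.n (.v 904) (.v 118))))) (.n (.n (.n (.n (.v 16) (.v 16)) (.n (.v 16) (.v 20))) (.n (.n (.v 80) (.v 80)) (.n (.v 80) (.v 84)))) (.n (.n (.n (.v 16) (.v 16)) (.n (.v 16) (.v 38))) (.n (.n (.v 80) (.v 80)) (.n (.v 80) (.v 38))))))) (.n (.n (.n (.n (.n (.n (.v 0) (.v 0)) (.n (.v 512) (.v 4))) (.n (.n (.v 0) (.v 935)) (.n (.v 512) (.v 4)))) (.n (.n (.n (.v 0) (.v 0)) (.n (.v 512) (.v 4))) (.n (.n (.v 128) (.v 900)) (.n (.v 896) (.v 896))))) (.n (.n (.n (.n (.v 0) (.v 935)) (.n (.v 512) (.v 4))) (.n (.n (.v 88) (.v 935)) (.n (.v 928) (.v 935)))) (.n (.n (.n (.v 32) (.v 550)) (.n (.v 544) (.v 38))) (.n (.n (.v 32) (.v 935)) (.n (.v 896) (.v 38)))))) (.n (.n (.n (.n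 (.n (.v 8) (.v 2039)) (.n (.v 8) (.v 12))) (.n (.n (.v 8) (.v 951)) (.n (.v 8) (.v 12)))) (.n (.n (.n (.v 8) (.v 2039)) (.n (.v 8) (.v 12))) (.n (.n (.v 136) (.v 1911)) (.n (.v 896) (.v 118))))) (.n (.n (.n (.n (.v 8) (.v 2039)) (.n (.v 528) (.v 12))) (.n (.n (.v 80) (.v 935)) (.n (.v 592) (.v 84)))) (.n (.n (.n (.v 40) (.v 2007)) (.n (.v 976) (.v 46))) (.n (.n (.v 40) (.v 916)) (.n (.v 912) (.v 46)))))))) = true := by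
  decide +kernel

theorem tb6_11 : tck (dg 0xbba998776554332000) (dg 0xa3682765441b29118a) 18 3 1 0 false 0
  [(3, 16), (4, 9), (5, 7), (2, 3), (9, 14), (7, 12), (11, 17), (6, 15), (1, 2), (8, 1), (10, 0)]
  [4, 5, 6, 8, 10, 11, 13]
  (.n (.n (.n (.n (.n (.n (.n (.v 0) (.v 0)) (.n (.v 0) (.v 0))) (.n (.n (.v 0) (.v 0)) (.n (.v 128) (.v 128)))) (.n (.n (.n (.v 0) (.v 0)) (.n (.v 0) (.v 0))) (.n (.n (.v 32) (.v 32)) (.n (.v 32) (.v 32))))) (.n (.n (.n (.n (.v 0) (.v 0)) (.n (.v 0) (.v 0))) (.n (.n (.v 0) (.v 0)) (.n (.v 112) (.v 112)))) (.n (.n (.n (.v 16) (.v 16)) (.n (.v 80) (.v 80))) (.n (.n (.v 16) (.v 16)) (.n (.v 80) (.v 80)))))) (.n (.n (.n (.n (.n (.v 0) (.v 4)) (.n (.v 0) (.v 4))) (.n (.n (.v 0) (.v 4)) (.n (.v 128) (.v 132)))) (.n (.n (.n (.v 0) (.v 4)) (.n (.v 935) (.v 166))) (.n (.n (.v 32) (.v 38)) (.n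 (.v 32) (.v 38))))) (.n (.n (.n (.n (.v 0) (.v 4)) (.n (.v 0) (.v 4))) (.n (.n (.v 0) (.v 54)) (.n (.v 112) (.v 118)))) (.n (.n (.n (.v 16) (.v 20)) (.n (.v 80) (.v 84))) (.n (.n (.v 16) (.v 38)) (.n (.v 80) (.v 38))))))) (.n (.n (.n (.n (.n (.n (.v 0) (.v 512)) (.n (.v 0) (.v 512))) (.n (.n (.v 0) (.v 512)) (.n (.v 128) (.v 896)))) (.n (.n (.n (.v 0) (.v 512)) (.n (.v 935) (.v 928))) (.n (.n (.v 32) (.v 46)) (.n (.v 32) (.v 896))))) (.n (.n (.n (.n (.v 0) (.v 512)) (.n (.v 0) (.v 512))) (.n (.n (.v 0) (.v 62)) (.n (.v 112) (.v 896)))) (.n (.n (.n (.v 16) (.v 528)) (.n (.v 80) (.v 592))) (.n (.n (.v 16) (.v 976)) (.n (.v 80) (.v 912)))))) (.n (.n (.n (.n (.n (.v 8) (.v 4)) (.n (.v 8) (.v 4))) (.n (.n (.v 8) (.v 4)) (.n (.v 136) (.v 896)))) (.n (.n (.n (.v 8) (.v 4)) (.n (.v 935) (.v 935))) (.n (.n (.v 40) (.v 38))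 (.n (.v 935) (.v 38))))) (.n (.n (.n (.n (.v 2039) (.v 2039)) (.n (.v 951) (.v 951))) (.n (.n (.v 2039) (.v 54)) (.n (.v 1911) (.v 118)))) (.n (.n (.n (.v 24) (.v 20)) (.n (.v 88) (.v 84))) (.n (.n (.v 2007) (.v 38)) (.n (.v 88) (.v 912)))))))) = true := by
  decide +kernel

theorem tb6_12 : tck (dg 0xbba998776554332000) (dg 0xa168276544b329118a) 18 3 1 0 false 0
  [(3, 4), (5, 7), (4, 9), (2, 3), (9, 14), (7, 12), (11, 17), (6, 15), (1, 2), (8, 1), (10, 0)]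
  [5, 6, 8, 10, 11, 13, 16]
  (.n (.n (.n (.n (.n (.n (.n (.v 0) (.v 0)) (.n (.v 0) (.v 0))) (.n (.n (.v 0) (.v 0)) (.n (.v 0) (.v 0)))) (.n (.n (.n (.v 0) (.v 0)) (.n (.v 0) (.v 0))) (.n (.n (.v 128) (.v 128)) (.n (.v 128) (.v 128))))) (.n (.n (.n (.n (.v 0) (.v 0)) (.n (.v 0) (.v 0))) (.n (.n (.v 0) (.v 1887)) (.n (.v 0) (.v 94)))) (.n (.n (.n (.v 32) (.v 2015)) (.n (.v 32) (.v 2015))) (.n (.n (.v 32) (.v 927)) (.n (.v 32) (.v 927)))))) (.n (.n (.n (.n (.n (.v 0) (.v 0)) (.n (.v 0) (.v 14))) (.n (.n (.v 0) (.v 911)) (.n (.v 0) (.v 14)))) (.n (.n (.n (.v 0) (.v 911)) (.n (.v 0) (.v 14))) (.n (.n (.v 112) (.v 911)) (.n (.v 904) (.v 911))))) (.n (.n (.n (.n (.v 16) (.v 16)) (.n (.v 16) (.v 14))) (.n (.n (.v 80) (.v 80)) (.n (.v 80) (.v 80)))) (.n (.n (.n (.v 16) (.v 2015)) (.n (.v 16) (.v 46))) (.n (.n (.v 80) (.v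 911)) (.n (.v 80) (.v 911))))))) (.n (.n (.n (.n (.n (.n (.v 0) (.v 0)) (.n (.v 4) (.v 6))) (.n (.n (.v 0) (.v 0)) (.n (.v 4) (.v 6)))) (.n (.n (.n (.v 0) (.v 0)) (.n (.v 4) (.v 6))) (.n (.n (.v 128) (.v 903)) (.n (.v 132) (.v 134))))) (.n (.n (.n (.n (.v 0) (.v 0)) (.n (.v 4) (.v 6))) (.n (.n (.v 88) (.v 88)) (.n (.v 600) (.v 6)))) (.n (.n (.n (.v 32) (.v 2015)) (.n (.v 36) (.v 38))) (.n (.n (.v 32) (.v 903)) (.n (.v 920) (.v 38)))))) (.n (.n (.n (.n (.n (.v 8) (.v 8)) (.n (.v 520) (.v 6))) (.n (.n (.v 8) (.v 8)) (.n (.v 520) (.v 6)))) (.n (.n (.n (.v 8) (.v 8)) (.n (.v 520) (.v 6))) (.n (.n (.v 136) (.v 911)) (.n (.v 904) (.v 904))))) (.n (.n (.n (.n (.v 8) (.v 8)) (.n (.v 20) (.v 22))) (.n (.n (.v 80) (.v 80)) (.n (.v 84) (.v 86)))) (.n (.n (.n (.v 40) (.v 2007)) (.n (.v 552) (.v 1495))) (.n (.n (.v 40) (.v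 911)) (.n (.v 904) (.v 86)))))))) = true := by
  decide +kernel

theorem tb6_13 : tck (dg 0xbba998776554332000) (dg 0xa46827654b1329118a) 18 3 1 0 false 0
  [(3, 4), (4, 9), (5, 7), (2, 3), (9, 14), (7, 12), (11, 17), (6, 15), (1, 2), (8, 1), (10, 0)]
  [5, 6, 8, 10, 11, 13, 16]
  (.n (.n (.n (.n (.n (.n (.n (.v 0) (.v 0)) (.n (.v 0) (.v 0))) (.n (.n (.v 0) (.v 0)) (.n (.v 0) (.v 0)))) (.n (.n (.n (.v 0) (.v 0)) (.n (.v 0) (.v 0))) (.n (.n (.v 128) (.v 128)) (.n (.v 128) (.v 128))))) (.n (.n (.n (.n (.v 0) (.v 2047)) (.n (.v 0) (.v 2047))) (.n (.n (.v 0) (.v 959)) (.n (.v 0) (.v 959)))) (.n (.n (.n (.v 32) (.v 32)) (.n (.v 32) (.v 32))) (.n (.n (.v 32) (.v 1919)) (.n (.v 32) (.v 126)))))) (.n (.n (.n (.n (.n (.v 0) (.v 16)) (.n (.v 0) (.v 16))) (.n (.n (.v 0) (.v 80)) (.n (.v 0) (.v 80)))) (.n (.n (.n (.v 0) (.v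 16)) (.n (.v 0) (.v 16))) (.n (.n (.v 128) (.v 80)) (.n (.v 904) (.v 80))))) (.n (.n (.n (.n (.v 0) (.v 16)) (.n (.v 0) (.v 16))) (.n (.n (.v 943) (.v 80)) (.n (.v 943) (.v 80)))) (.n (.n (.n (.v 32) (.v 48)) (.n (.v 46) (.v 46))) (.n (.n (.v 943) (.v 112)) (.n (.v 46) (.v 112))))))) (.n (.n (.n (.n (.n (.n (.v 0) (.v 0)) (.n (.v 4) (.v 4))) (.n (.n (.v 0) (.v 88)) (.n (.v 4) (.v 600)))) (.n (.n (.n (.v 0) (.v 0)) (.n (.v 4) (.v 984))) (.n (.n (.v 128) (.v 88)) (.n (.v 132) (.v 920))))) (.n (.n (.n (.n (.v 0) (.v 2047)) (.n (.v 4) (.v 2043))) (.n (.n (.v 935) (.v 88)) (.n (.v 166) (.v 166)))) (.n (.n (.n (.v 32) (.v 32)) (.n (.v 38) (.v 38))) (.n (.n (.v 32) (.v 120)) (.n (.v 38) (.v 38)))))) (.n (.n (.n (.n (.n (.v 8) (.v 8)) (.n (.v 520) (.v 20))) (.n (.n (.v 8) (.v 80)) (.n (.v 520) (.v 84)))) (.n (.n (.n (.v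 8) (.v 8)) (.n (.v 520) (.v 20))) (.n (.n (.v 136) (.v 80)) (.n (.v 904) (.v 904))))) (.n (.n (.n (.n (.v 8) (.v 2039)) (.n (.v 520) (.v 1527))) (.n (.n (.v 943) (.v 80)) (.n (.v 936) (.v 84)))) (.n (.n (.n (.v 40) (.v 40)) (.n (.v 38) (.v 54))) (.n (.n (.v 40) (.v 112)) (.n (.v 904) (.v 118)))))))) = true := by
  decide +kernel

theorem tb6_14 : tck (dg 0xbba998776554332000) (dg 0xa4682765b41329118a) 18 3 1 0 false 0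
  [(3, 4), (4, 16), (5, 7), (2, 3), (9, 14), (7, 12), (11, 17), (6, 15), (1, 2), (8, 1), (10, 0)]
  [5, 6, 8, 9, 10, 11, 13]
  (.n (.n (.n (.n (.n (.n (.n (.v 0) (.v 0)) (.n (.v 0) (.v 0))) (.n (.n (.v 0) (.v 0)) (.n (.v 128) (.v 128)))) (.n (.n (.n (.v 0) (.v 0)) (.n (.v 64) (.v 64))) (.n (.n (.v 0) (.v 0)) (.n (.v 64) (.v 64))))) (.n (.n (.n (.n (.v 0) (.v 0)) (.n (.v 0) (.v 0))) (.n (.n (.v 32) (.v 32)) (.n (.v 32) (.v 32)))) (.n (.n (.n (.v 0) (.v 0)) (.n (.v 64) (.v 64))) (.n (.n (.v 32) (.v 32)) (.n (.v 96) (.v 96)))))) (.n (.n (.n (.n (.n (.v 0) (.v 0)) (.n (.v 0) (.v 0))) (.n (.n (.v 0) (.v 0)) (.n (.v 128) (.v 904)))) (.n (.n (.n (.v 0) (.v 0)) (.n (.v 64) (.v 64))) (.n (.n (.v 1999) (.v 968)) (.n (.v 64) (.v 904))))) (.n (.n (.n (.n (.v 16) (.v 16)) (.n (.v 943) (.v 943))) (.n (.n (.v 16) (.v 46)) (.n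 (.v 144) (.v 46)))) (.n (.n (.n (.v 2031) (.v 2031)) (.n (.v 80) (.v 80))) (.n (.n (.v 2031) (.v 46)) (.n (.v 1903) (.v 110))))))) (.n (.n (.n (.n (.n (.n (.v 0) (.v 4)) (.n (.v 0) (.v 4))) (.n (.n (.v 0) (.v 4)) (.n (.v 128) (.v 132)))) (.n (.n (.n (.v 0) (.v 4)) (.n (.v 64) (.v 68))) (.n (.n (.v 0) (.v 4)) (.n (.v 64) (.v 68))))) (.n (.n (.n (.n (.v 0) (.v 4)) (.n (.v 935) (.v 166))) (.n (.n (.v 32) (.v 38)) (.n (.v 32) (.v 38)))) (.n (.n (.n (.v 2023) (.v 1511)) (.n (.v 64) (.v 68))) (.n (.n (.v 32) (.v 38)) (.n (.v 96) (.v 102)))))) (.n (.n (.n (.n (.n (.v 8) (.v 520)) (.n (.v 8) (.v 520))) (.n (.n (.v 8) (.v 54)) (.n (.v 136) (.v 904)))) (.n (.n (.n (.v 8) (.v 520)) (.n (.v 72) (.v 584))) (.n (.n (.v 8) (.v 968)) (.n (.v 72) (.v 904))))) (.n (.n (.n (.n (.v 8) (.v 20)) (.n (.v 943) (.v 936))) (.n (.n (.v 40)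 (.v 38)) (.n (.v 40) (.v 904)))) (.n (.n (.n (.v 2031) (.v 2027)) (.n (.v 72) (.v 84))) (.n (.n (.v 40) (.v 38)) (.n (.v 104) (.v 102)))))))) = true := by
  decide +kernel

theorem tb6_15 : tck (dg 0xbba998776554332000) (dg 0xa7682b65441329118a) 18 3 1 0 false 0
  [(3, 4), (7, 11), (4, 9), (5, 7), (2, 3), (9, 14), (11, 17), (6, 15), (1, 2), (8, 1), (10, 0)]
  [5, 6, 8, 10, 12, 13, 16]
  (.n (.n (.n (.n (.n (.n (.n (.v 0) (.v 0)) (.n (.v 0) (.v 0))) (.n (.n (.v 0) (.v 2047)) (.n (.v 0) (.v 2047)))) (.n (.n (.n (.v 0) (.v 128)) (.n (.v 0) (.v 128))) (.n (.n (.v 0) (.v 128)) (.n (.v 0) (.v 128))))) (.n (.n (.n (.n (.v 0) (.v 0)) (.n (.v 0) (.v 0))) (.n (.n (.v 0) (.v 2047)) (.n (.v 0) (.v 2047)))) (.n (.n (.n (.v 32) (.v 32)) (.n (.v 32) (.v 32))) (.n (.n (.v 32) (.v 2015)) (.n (.v 32) (.v 984)))))) (.n (.n (.n (.n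 (.n (.v 0) (.v 0)) (.n (.v 0) (.v 0))) (.n (.n (.v 0) (.v 2047)) (.n (.v 776) (.v 776)))) (.n (.n (.n (.v 0) (.v 128)) (.n (.v 0) (.v 128))) (.n (.n (.v 815) (.v 128)) (.n (.v 776) (.v 904))))) (.n (.n (.n (.n (.v 16) (.v 16)) (.n (.v 16) (.v 16))) (.n (.n (.v 16) (.v 943)) (.n (.v 16) (.v 943)))) (.n (.n (.n (.v 16) (.v 208)) (.n (.v 46) (.v 208))) (.n (.n (.v 815) (.v 208)) (.n (.v 815) (.v 208))))))) (.n (.n (.n (.n (.n (.n (.v 0) (.v 0)) (.n (.v 4) (.v 4))) (.n (.n (.v 0) (.v 2047)) (.n (.v 4) (.v 2043)))) (.n (.n (.n (.v 0) (.v 128)) (.n (.v 4) (.v 132))) (.n (.n (.v 0) (.v 128)) (.n (.v 4) (.v 132))))) (.n (.n (.n (.n (.v 0) (.v 0)) (.n (.v 4) (.v 166))) (.n (.n (.v 0) (.v 935)) (.n (.v 792) (.v 166)))) (.n (.n (.n (.v 32) (.v 216)) (.n (.v 38) (.v 38))) (.n (.n (.v 807) (.v 216)) (.n (.v 38) (.v 984))))))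 (.n (.n (.n (.n (.n (.v 8) (.v 8)) (.n (.v 520) (.v 246))) (.n (.n (.v 8) (.v 2039)) (.n (.v 776) (.v 776)))) (.n (.n (.n (.v 8) (.v 136)) (.n (.v 54) (.v 648))) (.n (.n (.v 8) (.v 136)) (.n (.v 776) (.v 904))))) (.n (.n (.n (.n (.v 8) (.v 8)) (.n (.v 20) (.v 20))) (.n (.n (.v 8) (.v 943)) (.n (.v 776) (.v 776)))) (.n (.n (.n (.v 40) (.v 208)) (.n (.v 38) (.v 212))) (.n (.n (.v 815) (.v 208)) (.n (.v 808) (.v 212)))))))) = true := by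
  decide +kernel

theorem tb6_16 : tck (dg 0xbba998776554332000) (dg 0xa988276544132b11a6) 18 3 1 0 false 0
  [(9, 14), (3, 6), (5, 7), (2, 3), (11, 17), (8, 15), (7, 11), (4, 9), (1, 2), (10, 1), (6, 0)]
  [4, 5, 8, 10, 12, 13, 16]
  (.n (.n (.n (.n (.n (.n (.n (.v 0) (.v 0)) (.n (.v 0) (.v 512))) (.n (.n (.v 0) (.v 0)) (.n (.v 0) (.v 768)))) (.n (.n (.n (.v 0) (.v 0)) (.n (.v 0) (.v 512))) (.n (.n (.v 128) (.v 128)) (.n (.v 128) (.v 640))))) (.n (.n (.n (.n (.v 0) (.v 0)) (.n (.v 0) (.v 512))) (.n (.n (.v 0) (.v 0)) (.n (.v 0) (.v 768)))) (.n (.n (.n (.v 32) (.v 32)) (.n (.v 32) (.v 544))) (.n (.n (.v 32) (.v 32)) (.n (.v 32) (.v 800)))))) (.n (.n (.n (.n (.n (.v 0) (.v 0)) (.n (.v 4) (.v 4))) (.n (.n (.v 0) (.v 772)) (.n (.v 4) (.v 768)))) (.n (.n (.n (.v 0) (.v 0)) (.n (.v 4) (.v 4))) (.n (.n (.v 128) (.v 128))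 (.n (.v 132) (.v 132))))) (.n (.n (.n (.n (.v 0) (.v 2023)) (.n (.v 4) (.v 4))) (.n (.n (.v 0) (.v 678)) (.n (.v 166) (.v 166)))) (.n (.n (.n (.v 32) (.v 550)) (.n (.v 38) (.v 38))) (.n (.n (.v 216) (.v 806)) (.n (.v 38) (.v 38))))))) (.n (.n (.n (.n (.n (.n (.v 0) (.v 2047)) (.n (.v 0) (.v 512))) (.n (.n (.v 0) (.v 767)) (.n (.v 255) (.v 255)))) (.n (.n (.n (.v 0) (.v 2047)) (.n (.v 62) (.v 62))) (.n (.n (.v 128) (.v 1919)) (.n (.v 255) (.v 255))))) (.n (.n (.n (.n (.v 0) (.v 2047)) (.n (.v 28) (.v 28))) (.n (.n (.v 0) (.v 767)) (.n (.v 255) (.v 255)))) (.n (.n (.n (.v 32) (.v 2015)) (.n (.v 46) (.v 46))) (.n (.n (.v 216) (.v 216)) (.n (.v 220) (.v 220)))))) (.n (.n (.n (.n (.n (.v 8) (.v 8)) (.n (.v 4) (.v 520))) (.n (.n (.v 8) (.v 8)) (.n (.v 255) (.v 776)))) (.n (.n (.n (.v 8) (.v 8)) (.n (.v 4) (.v 520)))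 (.n (.n (.v 136) (.v 136)) (.n (.v 132) (.v 648))))) (.n (.n (.n (.n (.v 24) (.v 24)) (.n (.v 24) (.v 536))) (.n (.n (.v 24) (.v 24)) (.n (.v 24) (.v 792)))) (.n (.n (.n (.v 24) (.v 24)) (.n (.v 38) (.v 984))) (.n (.n (.v 216) (.v 216)) (.n (.v 216) (.v 728)))))))) = true := by
  decide +kernel

theorem tb6_17 : tck (dg 0xbba998776554332000) (dg 0xa28827654413b911a6) 18 3 1 0 false 0
  [(9, 14), (3, 6), (5, 7), (2, 3), (11, 17), (8, 15), (7, 11), (4, 9), (1, 2), (10, 1), (6, 0)]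
  [4, 5, 8, 10, 12, 13, 16]
  (.n (.n (.n (.n (.n (.n (.n (.v 0) (.v 0)) (.n (.v 0) (.v 4))) (.n (.n (.v 0) (.v 0)) (.n (.v 0) (.v 4)))) (.n (.n (.n (.v 0) (.v 0)) (.n (.v 0) (.v 4))) (.n (.n (.v 128) (.v 128)) (.n (.v 128) (.v 132))))) (.n (.n (.n (.n (.v 0) (.v 0)) (.n (.v 0) (.v 4))) (.n (.n (.v 0) (.v 0)) (.n (.v 0) (.v 166)))) (.n (.n (.n (.v 32) (.v 32)) (.n (.v 32) (.v 38))) (.n (.n (.v 32) (.v 32)) (.n (.v 32) (.v 38)))))) (.n (.n (.n (.n (.n (.v 0) (.v 2047)) (.n (.v 0) (.v 4))) (.n (.n (.v 0) (.v 767)) (.n (.v 776) (.v 255)))) (.n (.n (.n (.v 0) (.v 2047)) (.n (.v 0) (.v 4))) (.n (.n (.v 128) (.v 1919)) (.n (.v 128) (.v 132))))) (.n (.n (.n (.n (.v 0) (.v 2047)) (.n (.v 536) (.v 4))) (.n (.n (.v 0) (.v 767)) (.n (.v 792) (.v 166)))) (.n (.n (.n (.v 32) (.v 2015)) (.n (.v 984) (.v 38))) (.n (.n (.v 216)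 (.v 216)) (.n (.v 728) (.v 38))))))) (.n (.n (.n (.n (.n (.n (.v 0) (.v 0)) (.n (.v 512) (.v 4))) (.n (.n (.v 0) (.v 772)) (.n (.v 768) (.v 255)))) (.n (.n (.n (.v 0) (.v 0)) (.n (.v 512) (.v 4))) (.n (.n (.v 128) (.v 128)) (.n (.v 640) (.v 132))))) (.n (.n (.n (.n (.v 0) (.v 2023)) (.n (.v 512) (.v 4))) (.n (.n (.v 0) (.v 678)) (.n (.v 768) (.v 166)))) (.n (.n (.n (.v 32) (.v 550)) (.n (.v 544) (.v 38))) (.n (.n (.v 216) (.v 806)) (.n (.v 800) (.v 38)))))) (.n (.n (.n (.n (.n (.v 8) (.v 8)) (.n (.v 8) (.v 12))) (.n (.n (.v 8) (.v 255)) (.n (.v 255) (.v 255)))) (.n (.n (.n (.v 8) (.v 8)) (.n (.v 8) (.v 62))) (.n (.n (.v 136) (.v 136)) (.n (.v 136) (.v 255))))) (.n (.n (.n (.n (.v 24) (.v 24)) (.n (.v 24) (.v 28))) (.n (.n (.v 24) (.v 24)) (.n (.v 24) (.v 255)))) (.n (.n (.n (.v 24) (.v 24)) (.n (.v 24) (.v 46)))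 (.n (.n (.v 216) (.v 216)) (.n (.v 216) (.v 220)))))))) = true := by
  decide +kernel

theorem tb6_18 : tck (dg 0xbba998776554332000) (dg 0xa48827654b132911a6) 18 3 1 0 false 0
  [(9, 14), (3, 6), (5, 7), (2, 3), (11, 17), (8, 15), (7, 11), (4, 9), (1, 2), (10, 1), (6, 0)]
  [4, 5, 8, 10, 12, 13, 16]
  (.n (.n (.n (.n (.n (.n (.n (.v 0) (.v 0)) (.n (.v 0) (.v 0))) (.n (.n (.v 0) (.v 0)) (.n (.v 0) (.v 0)))) (.n (.n (.n (.v 0) (.v 0)) (.n (.v 0) (.v 0))) (.n (.n (.v 128) (.v 128)) (.n (.v 128) (.v 128))))) (.n (.n (.n (.n (.v 0) (.v 2047)) (.n (.v 0) (.v 2047))) (.n (.n (.v 0) (.v 767)) (.n (.v 0) (.v 255)))) (.n (.n (.n (.v 32) (.v 32)) (.n (.v 32) (.v 32))) (.n (.n (.v 32) (.v 1919)) (.n (.v 32) (.v 255)))))) (.n (.n (.n (.n (.n (.v 0) (.v 0)) (.n (.v 4) (.v 4))) (.n (.n (.v 0) (.v 0)) (.n (.v 4) (.v 792)))) (.n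 (.n (.n (.v 0) (.v 0)) (.n (.v 4) (.v 984))) (.n (.n (.v 128) (.v 216)) (.n (.v 132) (.v 728))))) (.n (.n (.n (.n (.v 0) (.v 2047)) (.n (.v 4) (.v 2043))) (.n (.n (.v 0) (.v 247)) (.n (.v 166) (.v 247)))) (.n (.n (.n (.v 32) (.v 32)) (.n (.v 38) (.v 38))) (.n (.n (.v 32) (.v 216)) (.n (.v 38) (.v 38))))))) (.n (.n (.n (.n (.n (.n (.v 0) (.v 0)) (.n (.v 512) (.v 28))) (.n (.n (.v 0) (.v 0)) (.n (.v 768) (.v 255)))) (.n (.n (.n (.v 0) (.v 0)) (.n (.v 512) (.v 28))) (.n (.n (.v 128) (.v 216)) (.n (.v 640) (.v 220))))) (.n (.n (.n (.n (.v 0) (.v 2047)) (.n (.v 512) (.v 255))) (.n (.n (.v 0) (.v 255)) (.n (.v 255) (.v 255)))) (.n (.n (.n (.v 32) (.v 32)) (.n (.v 46) (.v 62))) (.n (.n (.v 32) (.v 216)) (.n (.v 800) (.v 255)))))) (.n (.n (.n (.n (.n (.v 8) (.v 24)) (.n (.v 4) (.v 24))) (.n (.n (.v 8) (.v 24)) (.n (.v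 768) (.v 24)))) (.n (.n (.n (.v 8) (.v 24)) (.n (.v 4) (.v 24))) (.n (.n (.v 136) (.v 216)) (.n (.v 132) (.v 216))))) (.n (.n (.n (.n (.v 8) (.v 24)) (.n (.v 4) (.v 24))) (.n (.n (.v 8) (.v 248)) (.n (.v 166) (.v 255)))) (.n (.n (.n (.v 40) (.v 56)) (.n (.v 38) (.v 38))) (.n (.n (.v 806) (.v 216)) (.n (.v 38) (.v 216)))))))) = true := by
  decide +kernel

theorem tb6_19 : tck (dg 0xbba998776554332000) (dg 0xa7882b6544132911a6) 18 3 1 0 false 0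
  [(9, 14), (3, 6), (5, 7), (2, 3), (11, 17), (8, 15), (7, 11), (4, 9), (1, 2), (10, 1), (6, 0)]
  [4, 5, 8, 10, 12, 13, 16]
  (.n (.n (.n (.n (.n (.n (.n (.v 0) (.v 0)) (.n (.v 0) (.v 0))) (.n (.n (.v 0) (.v 2047)) (.n (.v 0) (.v 2047)))) (.n (.n (.n (.v 0) (.v 128)) (.n (.v 0) (.v 128))) (.n (.n (.v 0) (.v 128)) (.n (.v 0) (.v 128))))) (.n (.n (.n (.n (.v 0) (.v 0)) (.n (.v 0) (.v 0))) (.n (.n (.v 0) (.v 2047)) (.n (.v 0) (.v 2047)))) (.n (.n (.n (.v 32) (.v 32)) (.n (.v 32) (.v 32))) (.n (.n (.v 32) (.v 2015)) (.n (.v 32) (.v 984)))))) (.n (.n (.n (.n (.n (.v 0) (.v 0)) (.n (.v 4) (.v 4))) (.n (.n (.v 0) (.v 2047)) (.n (.v 4) (.v 2043)))) (.n (.n (.n (.v 0) (.v 128)) (.n (.v 4) (.v 132))) (.n (.n (.v 0) (.v 128)) (.n (.v 4) (.v 132))))) (.n (.n (.n (.n (.v 0) (.v 0)) (.n (.v 4) (.v 166))) (.n (.n (.v 0) (.v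 2023)) (.n (.v 792) (.v 166)))) (.n (.n (.n (.v 32) (.v 216)) (.n (.v 38) (.v 38))) (.n (.n (.v 32) (.v 216)) (.n (.v 38) (.v 984))))))) (.n (.n (.n (.n (.n (.n (.v 0) (.v 0)) (.n (.v 512) (.v 255))) (.n (.n (.v 0) (.v 2047)) (.n (.v 768) (.v 255)))) (.n (.n (.n (.v 0) (.v 128)) (.n (.v 62) (.v 255))) (.n (.n (.v 0) (.v 128)) (.n (.v 768) (.v 896))))) (.n (.n (.n (.n (.v 0) (.v 0)) (.n (.v 28) (.v 255))) (.n (.n (.v 0) (.v 2023)) (.n (.v 768) (.v 255)))) (.n (.n (.n (.v 32) (.v 216)) (.n (.v 46) (.v 220))) (.n (.n (.v 32) (.v 216)) (.n (.v 800) (.v 220)))))) (.n (.n (.n (.n (.n (.v 8) (.v 8)) (.n (.v 4) (.v 255))) (.n (.n (.v 8) (.v 2039)) (.n (.v 768) (.v 255)))) (.n (.n (.n (.v 8) (.v 136)) (.n (.v 4) (.v 132))) (.n (.n (.v 8) (.v 136)) (.n (.v 768) (.v 896))))) (.n (.n (.n (.n (.v 24) (.v 24)) (.n (.v 24) (.v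 24))) (.n (.n (.v 24) (.v 2023)) (.n (.v 24) (.v 2023)))) (.n (.n (.n (.v 24) (.v 216)) (.n (.v 38) (.v 216))) (.n (.n (.v 806) (.v 216)) (.n (.v 38) (.v 216)))))))) = true := by
  decide +kernel

theorem tb6_20 : tck (dg 0xbba998776554332000) (dg 0xa288b76544132911a6) 18 3 1 0 false 0
  [(9, 14), (3, 6), (5, 7), (2, 3), (11, 17), (8, 15), (7, 11), (4, 9), (1, 2), (10, 1), (6, 0)]
  [4, 5, 8, 10, 12, 13, 16]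
  (.n (.n (.n (.n (.n (.n (.n (.v 0) (.v 0)) (.n (.v 0) (.v 2047))) (.n (.n (.v 0) (.v 0)) (.n (.v 0) (.v 767)))) (.n (.n (.n (.v 0) (.v 0)) (.n (.v 0) (.v 2047))) (.n (.n (.v 128) (.v 128)) (.n (.v 128) (.v 1919))))) (.n (.n (.n (.n (.v 0) (.v 0)) (.n (.v 0) (.v 2047))) (.n (.n (.v 0) (.v 0)) (.n (.v 0) (.v 767)))) (.n (.n (.n (.v 32) (.v 32)) (.n (.v 32) (.v 2015))) (.n (.n (.v 32) (.v 32)) (.n (.v 32) (.v 732)))))) (.n (.n (.n (.n (.n (.v 0) (.v 4)) (.n (.v 0) (.v 4))) (.n (.n (.v 0) (.v 4)) (.n (.v 776) (.v 4)))) (.n (.n (.n (.v 0) (.v 4)) (.n (.v 0) (.v 4))) (.n (.n (.v 128) (.v 132)) (.n (.v 128) (.v 132))))) (.n (.n (.n (.n (.v 0) (.v 4)) (.n (.v 536) (.v 4))) (.n (.n (.v 0) (.v 166)) (.n (.v 792) (.v 166)))) (.n (.n (.n (.v 32) (.v 38)) (.n (.v 984) (.v 38))) (.n (.n (.v 216) (.v 38)) (.n (.v 728) (.v 38)))))))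 (.n (.n (.n (.n (.n (.n (.v 0) (.v 0)) (.n (.v 512) (.v 512))) (.n (.n (.v 0) (.v 255)) (.n (.v 768) (.v 255)))) (.n (.n (.n (.v 0) (.v 62)) (.n (.v 512) (.v 62))) (.n (.n (.v 128) (.v 255)) (.n (.v 640) (.v 255))))) (.n (.n (.n (.n (.v 0) (.v 28)) (.n (.v 512) (.v 28))) (.n (.n (.v 0) (.v 255)) (.n (.v 768) (.v 255)))) (.n (.n (.n (.v 32) (.v 46)) (.n (.v 544) (.v 46))) (.n (.n (.v 216) (.v 220)) (.n (.v 800) (.v 220)))))) (.n (.n (.n (.n (.n (.v 8) (.v 4)) (.n (.v 8) (.v 516))) (.n (.n (.v 8) (.v 255)) (.n (.v 768) (.v 772)))) (.n (.n (.n (.v 8) (.v 4)) (.n (.v 8) (.v 516))) (.n (.n (.v 136) (.v 132)) (.n (.v 136) (.v 644))))) (.n (.n (.n (.n (.v 24) (.v 24)) (.n (.v 24) (.v 2023))) (.n (.n (.v 24) (.v 24)) (.n (.v 24) (.v 678)))) (.n (.n (.n (.v 24) (.v 38)) (.n (.v 24) (.v 550))) (.n (.n (.v 216) (.v 216))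 (.n (.v 216) (.v 806)))))))) = true := by
  decide +kernel

theorem tb6_21 : tck (dg 0xbba998776554332000) (dg 0xa1182765441329ba86) 18 3 1 0 true 70808
  [(2, 13), (5, 8), (3, 6), (11, 17), (1, 15), (9, 14), (7, 11), (4, 9), (10, 2), (8, 1), (6, 0)]
  [3, 4, 5, 7, 10, 12, 16]
  (.n (.n (.n (.n (.n (.n (.n (.v 0) (.v 0)) (.n (.v 0) (.v 0))) (.n (.n (.v 0) (.v 0)) (.n (.v 128) (.v 128)))) (.n (.n (.n (.v 0) (.v 2)) (.n (.v 0) (.v 2))) (.n (.n (.v 32) (.v 2)) (.n (.v 32) (.v 130))))) (.n (.n (.n (.n (.v 0) (.v 0)) (.n (.v 0) (.v 0))) (.n (.n (.v 0) (.v 0)) (.n (.v 128) (.v 128)))) (.n (.n (.n (.v 0) (.v 2)) (.n (.v 248) (.v 2))) (.n (.n (.v 32) (.v 2)) (.n (.v 32) (.v 130)))))) (.n (.n (.n (.n (.n (.v 0) (.v 0)) (.n (.v 0) (.v 0))) (.n (.n (.v 0) (.v 0)) (.n (.v 128) (.v 128)))) (.n (.n (.n (.v 0) (.v 2)) (.n (.v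 248) (.v 2))) (.n (.n (.v 32) (.v 2)) (.n (.v 32) (.v 130))))) (.n (.n (.n (.n (.v 8) (.v 8)) (.n (.v 8) (.v 250))) (.n (.n (.v 8) (.v 58)) (.n (.v 136) (.v 58)))) (.n (.n (.n (.v 8) (.v 10)) (.n (.v 248) (.v 248))) (.n (.n (.v 56) (.v 56)) (.n (.v 56) (.v 56))))))) (.n (.n (.n (.n (.n (.n (.v 0) (.v 2047)) (.n (.v 0) (.v 2047))) (.n (.n (.v 0) (.v 2047)) (.n (.v 128) (.v 1919)))) (.n (.n (.n (.v 1021) (.v 2)) (.n (.v 764) (.v 2))) (.n (.n (.v 32) (.v 2015)) (.n (.v 828) (.v 130))))) (.n (.n (.n (.n (.v 4) (.v 4)) (.n (.v 4) (.v 4))) (.n (.n (.v 4) (.v 4)) (.n (.v 132) (.v 132)))) (.n (.n (.n (.v 4) (.v 6)) (.n (.v 4) (.v 6))) (.n (.n (.v 36) (.v 6)) (.n (.v 36) (.v 134)))))) (.n (.n (.n (.n (.n (.v 0) (.v 2047)) (.n (.v 772) (.v 254))) (.n (.n (.v 0) (.v 62)) (.n (.v 128) (.v 1919)))) (.n (.n (.n (.v 1021) (.v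 2)) (.n (.v 252) (.v 252))) (.n (.n (.v 60) (.v 60)) (.n (.v 60) .z)))) (.n (.n (.n (.n (.v 516) (.v 516)) (.n (.v 772) (.v 772))) (.n (.n (.v 516) (.v 58)) (.n (.v 644) (.v 644)))) (.n (.n (.n (.v 516) (.v 518)) (.n (.v 248) (.v 774))) (.n (.n (.v 56) (.v 1991)) (.n (.v 804) (.v 646)))))))) = true := by
  decide +kernel

theorem tb6_22 : tck (dg 0xbba998776554332000) (dg 0xa21827654413b91a86) 18 3 1 0 false 0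
  [(2, 13), (5, 8), (3, 6), (11, 17), (1, 15), (9, 14), (7, 11), (4, 9), (10, 2), (8, 1), (6, 0)]
  [3, 4, 5, 7, 10, 12, 16]
  (.n (.n (.n (.n (.n (.n (.n (.v 0) (.v 0)) (.n (.v 0) (.v 0))) (.n (.n (.v 0) (.v 0)) (.n (.v 128) (.v 128)))) (.n (.n (.n (.v 0) (.v 0)) (.n (.v 0) (.v 0))) (.n (.n (.v 32) (.v 32)) (.n (.v 32) (.v 32))))) (.n (.n (.n (.n (.v 0) (.v 2047)) (.n (.v 0) (.v 2047))) (.n (.n (.v 0) (.v 2047)) (.n (.v 128) (.v 1919)))) (.n (.n (.n (.v 0) (.v 1021)) (.n (.v 248) (.v 248))) (.n (.n (.v 32) (.v 2015)) (.n (.v 32) (.v 828)))))) (.n (.n (.n (.n (.n (.v 0) (.v 0)) (.n (.v 0) (.v 772))) (.n (.n (.v 0) (.v 0)) (.n (.v 128) (.v 128)))) (.n (.n (.n (.v 0) (.v 518)) (.n (.v 248) (.v 774))) (.n (.n (.v 32) (.v 1991)) (.n (.v 32) (.v 646))))) (.n (.n (.n (.n (.v 8) (.v 8)) (.n (.v 8) (.v 8))) (.n (.n (.v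 8) (.v 8)) (.n (.v 136) (.v 136)))) (.n (.n (.n (.v 8) (.v 8)) (.n (.v 248) (.v 248))) (.n (.n (.v 56) (.v 56)) (.n (.v 56) (.v 56))))))) (.n (.n (.n (.n (.n (.n (.v 0) (.v 4)) (.n (.v 0) (.v 4))) (.n (.n (.v 0) (.v 4)) (.n (.v 128) (.v 132)))) (.n (.n (.n (.v 2) (.v 2)) (.n (.v 2) (.v 2))) (.n (.n (.v 2) (.v 36)) (.n (.v 130) (.v 36))))) (.n (.n (.n (.n (.v 0) (.v 4)) (.n (.v 0) (.v 780))) (.n (.n (.v 0) (.v 989)) (.n (.v 128) (.v 132)))) (.n (.n (.n (.v 2) (.v 1021)) (.n (.v 2) (.v 764))) (.n (.n (.v 2) (.v 572)) (.n (.v 130) (.v 828)))))) (.n (.n (.n (.n (.n (.v 0) (.v 516)) (.n (.v 772) (.v 772))) (.n (.n (.v 0) (.v 516)) (.n (.v 128) (.v 644)))) (.n (.n (.n (.v 2) (.v 516)) (.n (.v 2) (.v 772))) (.n (.n (.v 2) (.v 548)) (.n (.v 130) (.v 804))))) (.n (.n (.n (.n (.v 8) (.v 12)) (.n (.v 250) (.v 772))) (.n (.n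 (.v 58) (.v 12)) (.n (.v 58) (.v 140)))) (.n (.n (.n (.v 10) (.v 1021)) (.n (.v 248) (.v 252))) (.n (.n (.v 56) (.v 60)) (.n (.v 56) (.v 60)))))))) = true := by
  decide +kernel

theorem tb6_23 : tck (dg 0xbba998776554332000) (dg 0xa218b7654413291a86) 18 3 1 0 false 0
  [(2, 3), (5, 8), (3, 6), (11, 17), (1, 15), (9, 14), (7, 11), (4, 9), (10, 2), (8, 1), (6, 0)]
  [4, 5, 7, 10, 12, 13, 16]
  (.n (.n (.n (.n (.n (.n (.n (.v 0) (.v 0)) (.n (.v 0) (.v 2047))) (.n (.n (.v 0) (.v 0)) (.n (.v 0) (.v 2047)))) (.n (.n (.n (.v 0) (.v 0)) (.n (.v 0) (.v 2047))) (.n (.n (.v 128) (.v 128)) (.n (.v 128) (.v 1919))))) (.n (.n (.n (.n (.v 0) (.v 0)) (.n (.v 0) (.v 1021))) (.n (.n (.v 0) (.v 0)) (.n (.v 0) (.v 764)))) (.n (.n (.n (.v 32) (.v 32)) (.n (.v 32) (.v 2015))) (.n (.n (.v 32) (.v 32)) (.n (.v 32) (.v 828)))))) (.n (.n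 (.n (.n (.n (.v 0) (.v 4)) (.n (.v 0) (.v 4))) (.n (.n (.v 0) (.v 4)) (.n (.v 776) (.v 4)))) (.n (.n (.n (.v 0) (.v 4)) (.n (.v 985) (.v 4))) (.n (.n (.v 128) (.v 132)) (.n (.v 128) (.v 132))))) (.n (.n (.n (.n (.v 0) (.v 6)) (.n (.v 1017) (.v 6))) (.n (.n (.v 248) (.v 6)) (.n (.v 760) (.v 6)))) (.n (.n (.n (.v 32) (.v 6)) (.n (.v 568) (.v 6))) (.n (.n (.v 32) (.v 134)) (.n (.v 824) (.v 134))))))) (.n (.n (.n (.n (.n (.n (.v 0) (.v 0)) (.n (.v 512) (.v 512))) (.n (.n (.v 0) (.v 254)) (.n (.v 768) (.v 768)))) (.n (.n (.n (.v 0) (.v 62)) (.n (.v 512) (.v 62))) (.n (.n (.v 128) (.v 62)) (.n (.v 640) (.v 640))))) (.n (.n (.n (.n (.v 0) (.v 14)) (.n (.v 512) (.v 14))) (.n (.n (.v 248) (.v 252)) (.n (.v 768) (.v 252)))) (.n (.n (.n (.v 32) (.v 60)) (.n (.v 544) (.v 60))) (.n (.n (.v 32) (.v 60)) (.n (.v 800) (.v 800))))))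 (.n (.n (.n (.n (.n (.v 8) (.v 4)) (.n (.v 8) (.v 516))) (.n (.n (.v 8) (.v 4)) (.n (.v 768) (.v 772)))) (.n (.n (.n (.v 8) (.v 4)) (.n (.v 8) (.v 516))) (.n (.n (.v 136) (.v 132)) (.n (.v 136) (.v 644))))) (.n (.n (.n (.n (.v 8) (.v 6)) (.n (.v 1017) (.v 518))) (.n (.n (.v 248) (.v 248)) (.n (.v 248) (.v 774)))) (.n (.n (.n (.v 56) (.v 56)) (.n (.v 56) (.v 1991))) (.n (.n (.v 56) (.v 56)) (.n (.v 56) (.v 646)))))))) = true := by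
  decide +kernel

theorem tb6_24 : tck (dg 0xbba998776554332000) (dg 0xa918276544132ba186) 18 3 1 0 false 0
  [(11, 16), (2, 13), (3, 6), (10, 15), (5, 7), (9, 14), (7, 11), (4, 9), (1, 2), (8, 1), (6, 0)]
  [3, 4, 5, 8, 10, 12, 17]
  (.n (.n (.n (.n (.n (.n (.n (.v 0) (.v 0)) (.n (.v 0) (.v 0))) (.n (.n (.v 0) (.v 0)) (.n (.v 128) (.v 128)))) (.n (.n (.n (.v 0) (.v 0)) (.n (.v 0) (.v 0))) (.n (.n (.v 32) (.v 32)) (.n (.v 32) (.v 32))))) (.n (.n (.n (.n (.v 0) (.v 0)) (.n (.v 0) (.v 0))) (.n (.n (.v 0) (.v 0)) (.n (.v 128) (.v 128)))) (.n (.n (.n (.v 0) (.v 2023)) (.n (.v 0) (.v 1190))) (.n (.n (.v 32) (.v 1062)) (.n (.v 216) (.v 1831)))))) (.n (.n (.n (.n (.n (.v 0) (.v 2047)) (.n (.v 0) (.v 1279))) (.n (.n (.v 0) (.v 2047)) (.n (.v 128) (.v 1919)))) (.n (.n (.n (.v 0) (.v 2047)) (.n (.v 0) (.v 1279))) (.n (.n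 (.v 32) (.v 2015)) (.n (.v 216) (.v 216))))) (.n (.n (.n (.n (.v 8) (.v 8)) (.n (.v 8) (.v 1275))) (.n (.n (.v 8) (.v 8)) (.n (.v 136) (.v 136)))) (.n (.n (.n (.v 24) (.v 24)) (.n (.v 24) (.v 24))) (.n (.n (.v 24) (.v 24)) (.n (.v 216) (.v 216))))))) (.n (.n (.n (.n (.n (.n (.v 0) (.v 1024)) (.n (.v 0) (.v 1024))) (.n (.n (.v 0) (.v 1024)) (.n (.v 128) (.v 1152)))) (.n (.n (.n (.v 0) (.v 1024)) (.n (.v 0) (.v 1186))) (.n (.n (.v 32) (.v 1058)) (.n (.v 32) (.v 1058))))) (.n (.n (.n (.n (.v 4) (.v 4)) (.n (.v 4) (.v 1275))) (.n (.n (.v 4) (.v 4)) (.n (.v 132) (.v 132)))) (.n (.n (.n (.v 4) (.v 4)) (.n (.v 4) (.v 1186))) (.n (.n (.v 36) (.v 1058)) (.n (.v 36) (.v 1058)))))) (.n (.n (.n (.n (.n (.v 0) (.v 1024)) (.n (.v 0) (.v 1275))) (.n (.n (.v 0) (.v 1024)) (.n (.v 128) (.v 1152)))) (.n (.n (.n (.v 28) (.v 28))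 (.n (.v 28) (.v 1186))) (.n (.n (.v 989) (.v 1058)) (.n (.v 220) (.v 220))))) (.n (.n (.n (.n (.v 4) (.v 1531)) (.n (.v 1275) (.v 1275))) (.n (.n (.v 4) (.v 1082)) (.n (.v 132) (.v 1275)))) (.n (.n (.n (.v 24) (.v 1048)) (.n (.v 24) (.v 1275))) (.n (.n (.v 24) (.v 1066)) (.n (.v 216) (.v 1240)))))))) = true := by
  decide +kernel

theorem tb6_25 : tck (dg 0xbba998776554332000) (dg 0xa21827654413b9a186) 18 3 1 0 false 0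
  [(11, 17), (2, 13), (3, 6), (10, 15), (5, 7), (9, 14), (7, 11), (4, 9), (1, 2), (8, 1), (6, 0)]
  [3, 4, 5, 8, 10, 12, 16]
  (.n (.n (.n (.n (.n (.n (.n (.v 0) (.v 0)) (.n (.v 0) (.v 0))) (.n (.n (.v 0) (.v 0)) (.n (.v 128) (.v 128)))) (.n (.n (.n (.v 0) (.v 0)) (.n (.v 0) (.v 0))) (.n (.n (.v 32) (.v 32)) (.n (.v 32) (.v 32))))) (.n (.n (.n (.n (.v 0) (.v 2047)) (.n (.v 0) (.v 2047))) (.n (.n (.v 0) (.v 2047)) (.n (.v 128) (.v 1919)))) (.n (.n (.n (.v 0) (.v 2047)) (.n (.v 0) (.v 796))) (.n (.n (.v 32) (.v 989)) (.n (.v 216) (.v 216)))))) (.n (.n (.n (.n (.n (.v 0) (.v 0)) (.n (.v 0) (.v 772))) (.n (.n (.v 0) (.v 0)) (.n (.v 128) (.v 128)))) (.n (.n (.n (.v 0) (.v 2023)) (.n (.v 0) (.v 772))) (.n (.n (.v 32) (.v 32)) (.n (.v 216) (.v 1831))))) (.n (.n (.n (.n (.v 8) (.v 8)) (.n (.v 8) (.v 8))) (.n (.n (.v 8)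 (.v 8)) (.n (.v 136) (.v 136)))) (.n (.n (.n (.v 24) (.v 24)) (.n (.v 24) (.v 24))) (.n (.n (.v 24) (.v 24)) (.n (.v 216) (.v 216))))))) (.n (.n (.n (.n (.n (.n (.v 0) (.v 4)) (.n (.v 0) (.v 4))) (.n (.n (.v 0) (.v 4)) (.n (.v 128) (.v 132)))) (.n (.n (.n (.v 0) (.v 4)) (.n (.v 0) (.v 4))) (.n (.n (.v 32) (.v 36)) (.n (.v 32) (.v 36))))) (.n (.n (.n (.n (.v 0) (.v 1023)) (.n (.v 0) (.v 780))) (.n (.n (.v 0) (.v 989)) (.n (.v 128) (.v 895)))) (.n (.n (.n (.v 0) (.v 540)) (.n (.v 796) (.v 796))) (.n (.n (.v 989) (.v 989)) (.n (.v 216) (.v 732)))))) (.n (.n (.n (.n (.n (.v 0) (.v 516)) (.n (.v 772) (.v 772))) (.n (.n (.v 0) (.v 516)) (.n (.v 128) (.v 644)))) (.n (.n (.n (.v 0) (.v 516)) (.n (.v 772) (.v 772))) (.n (.n (.v 32) (.v 548)) (.n (.v 216) (.v 804))))) (.n (.n (.n (.n (.v 8) (.v 12)) (.n (.v 1275) (.v 772)))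 (.n (.n (.v 8) (.v 12)) (.n (.v 136) (.v 140)))) (.n (.n (.n (.v 24) (.v 28)) (.n (.v 24) (.v 28))) (.n (.n (.v 24) (.v 989)) (.n (.v 216) (.v 220)))))))) = true := by
  decide +kernel

theorem tb6_26 : tck (dg 0xbba998776554332000) (dg 0xa3182765441b29a186) 18 3 1 0 false 0
  [(2, 13), (3, 4), (11, 6), (10, 15), (5, 7), (9, 14), (7, 11), (4, 9), (1, 2), (8, 1), (6, 0)]
  [3, 5, 8, 10, 12, 16, 17]
  (.n (.n (.n (.n (.n (.n (.n (.v 0) (.v 0)) (.n (.v 0) (.v 2047))) (.n (.n (.v 0) (.v 0)) (.n (.v 0) (.v 1804)))) (.n (.n (.n (.v 0) (.v 0)) (.n (.v 0) (.v 1999))) (.n (.n (.v 128) (.v 128)) (.n (.v 128) (.v 1839))))) (.n (.n (.n (.n (.v 0) (.v 0)) (.n (.v 0) (.v 2031))) (.n (.n (.v 0) (.v 0)) (.n (.v 0) (.v 1839)))) (.n (.n (.n (.v 32) (.v 32)) (.n (.v 32) (.v 1582))) (.n (.n (.v 32) (.v 1839)) (.n (.v 1839) (.v 1839))))))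 (.n (.n (.n (.n (.n (.v 0) (.v 0)) (.n (.v 8) (.v 8))) (.n (.n (.v 0) (.v 0)) (.n (.v 8) (.v 8)))) (.n (.n (.n (.v 0) (.v 0)) (.n (.v 8) (.v 8))) (.n (.n (.v 128) (.v 128)) (.n (.v 136) (.v 136))))) (.n (.n (.n (.n (.v 0) (.v 2023)) (.n (.v 8) (.v 2031))) (.n (.n (.v 0) (.v 1190)) (.n (.v 8) (.v 1839)))) (.n (.n (.n (.v 32) (.v 1062)) (.n (.v 40) (.v 40))) (.n (.n (.v 32) (.v 1831)) (.n (.v 40) (.v 1839))))))) (.n (.n (.n (.n (.n (.n (.v 0) (.v 1024)) (.n (.v 524) (.v 524))) (.n (.n (.v 0) (.v 1024)) (.n (.v 780) (.v 780)))) (.n (.n (.n (.v 0) (.v 1024)) (.n (.v 524) (.v 524))) (.n (.n (.v 128) (.v 1152)) (.n (.v 652) (.v 652))))) (.n (.n (.n (.n (.v 0) (.v 1024)) (.n (.v 524) (.v 2031))) (.n (.n (.v 0) (.v 1186)) (.n (.v 780) (.v 780)))) (.n (.n (.n (.v 32) (.v 1058)) (.n (.v 556) (.v 1058))) (.n (.n (.v 32) (.v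 1058)) (.n (.v 812) (.v 1839)))))) (.n (.n (.n (.n (.n (.v 4) (.v 4)) (.n (.v 4) (.v 1032))) (.n (.n (.v 4) (.v 4)) (.n (.v 780) (.v 780)))) (.n (.n (.n (.v 4) (.v 4)) (.n (.v 4) (.v 1032))) (.n (.n (.v 132) (.v 132)) (.n (.v 132) (.v 1160))))) (.n (.n (.n (.n (.v 4) (.v 4)) (.n (.v 4) (.v 2027))) (.n (.n (.v 4) (.v 1186)) (.n (.v 780) (.v 1194)))) (.n (.n (.n (.v 36) (.v 1058)) (.n (.v 36) (.v 1066))) (.n (.n (.v 36) (.v 1058)) (.n (.v 812) (.v 1835)))))))) = true := by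
  decide +kernel

theorem tb6_27 : tck (dg 0xbba998776554332000) (dg 0xa69827b544132a1186) 18 3 1 0 false 0
  [(10, 17), (3, 6), (5, 7), (2, 3), (9, 14), (7, 12), (11, 16), (4, 9), (1, 2), (8, 1), (6, 0)]
  [4, 5, 8, 10, 11, 13, 15]
  (.n (.n (.n (.n (.n (.n (.n (.v 0) (.v 0)) (.n (.v 0) (.v 512))) (.n (.n (.v 0) (.v 0)) (.n (.v 0) (.v 512)))) (.n (.n (.n (.v 0) (.v 0)) (.n (.v 0) (.v 512))) (.n (.n (.v 128) (.v 128)) (.n (.v 128) (.v 896))))) (.n (.n (.n (.n (.v 0) (.v 0)) (.n (.v 0) (.v 512))) (.n (.n (.v 0) (.v 935)) (.n (.v 0) (.v 928)))) (.n (.n (.n (.v 32) (.v 32)) (.n (.v 32) (.v 544))) (.n (.n (.v 32) (.v 32)) (.n (.v 32) (.v 896)))))) (.n (.n (.n (.n (.n (.v 0) (.v 0)) (.n (.v 4) (.v 4))) (.n (.n (.v 0) (.v 935)) (.n (.v 4) (.v 4)))) (.n (.n (.n (.v 0) (.v 0)) (.n (.v 4) (.v 4))) (.n (.n (.v 128) (.v 900))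 (.n (.v 132) (.v 896))))) (.n (.n (.n (.n (.v 0) (.v 935)) (.n (.v 4) (.v 4))) (.n (.n (.v 935) (.v 935)) (.n (.v 166) (.v 935)))) (.n (.n (.n (.v 32) (.v 550)) (.n (.v 38) (.v 38))) (.n (.n (.v 32) (.v 935)) (.n (.v 38) (.v 38))))))) (.n (.n (.n (.n (.n (.n (.v 0) (.v 1024)) (.n (.v 0) (.v 512))) (.n (.n (.v 0) (.v 1023)) (.n (.v 511) (.v 1023)))) (.n (.n (.n (.v 0) (.v 895)) (.n (.v 62) (.v 62))) (.n (.n (.v 128) (.v 1023)) (.n (.v 1920) (.v 896))))) (.n (.n (.n (.n (.v 0) (.v 1024)) (.n (.v 28) (.v 28))) (.n (.n (.v 0) (.v 943)) (.n (.v 28) (.v 928)))) (.n (.n (.n (.v 32) (.v 1056)) (.n (.v 46) (.v 46))) (.n (.n (.v 32) (.v 991)) (.n (.v 46) (.v 896)))))) (.n (.n (.n (.n (.n (.v 8) (.v 8)) (.n (.v 4) (.v 520))) (.n (.n (.v 8) (.v 1023)) (.n (.v 4) (.v 1019)))) (.n (.n (.n (.v 8) (.v 8)) (.n (.v 4) (.v 520)))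 (.n (.n (.v 136) (.v 136)) (.n (.v 132) (.v 904))))) (.n (.n (.n (.n (.v 24) (.v 24)) (.n (.v 24) (.v 536))) (.n (.n (.v 24) (.v 935)) (.n (.v 24) (.v 536)))) (.n (.n (.n (.v 24) (.v 24)) (.n (.v 38) (.v 1062))) (.n (.n (.v 152) (.v 152)) (.n (.v 38) (.v 920)))))))) = true := by
  decide +kernel

theorem tb6_28 : tck (dg 0xbba998776554332000) (dg 0xa62827b54413a91186) 18 3 1 0 false 0
  [(10, 17), (3, 6), (5, 7), (2, 3), (9, 14), (7, 12), (11, 16), (4, 9), (1, 2), (8, 1), (6, 0)]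
  [4, 5, 8, 10, 11, 13, 15]
  (.n (.n (.n (.n (.n (.n (.n (.v 0) (.v 0)) (.n (.v 0) (.v 4))) (.n (.n (.v 0) (.v 0)) (.n (.v 0) (.v 4)))) (.n (.n (.n (.v 0) (.v 0)) (.n (.v 0) (.v 4))) (.n (.n (.v 128) (.v 128)) (.n (.v 128) (.v 132))))) (.n (.n (.n (.n (.v 0) (.v 0)) (.n (.v 0) (.v 4))) (.n (.n (.v 0) (.v 935)) (.n (.v 0) (.v 166)))) (.n (.n (.n (.v 32) (.v 32)) (.n (.v 32) (.v 38))) (.n (.n (.v 32) (.v 32)) (.n (.v 32) (.v 38)))))) (.n (.n (.n (.n (.n (.v 0) (.v 1024)) (.n (.v 0) (.v 4))) (.n (.n (.v 0) (.v 1023)) (.n (.v 1019) (.v 1023)))) (.n (.n (.n (.v 0) (.v 895)) (.n (.v 0) (.v 4))) (.n (.n (.v 128) (.v 1023)) (.n (.v 904) (.v 132))))) (.n (.n (.n (.n (.v 0) (.v 1024)) (.n (.v 536) (.v 4))) (.n (.n (.v 0) (.v 943)) (.n (.v 536) (.v 166)))) (.n (.n (.n (.v 32) (.v 1056)) (.n (.v 1062) (.v 38))) (.n (.n (.v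 32) (.v 991)) (.n (.v 920) (.v 38))))))) (.n (.n (.n (.n (.n (.n (.v 0) (.v 0)) (.n (.v 512) (.v 4))) (.n (.n (.v 0) (.v 935)) (.n (.v 512) (.v 4)))) (.n (.n (.n (.v 0) (.v 0)) (.n (.v 512) (.v 4))) (.n (.n (.v 128) (.v 900)) (.n (.v 896) (.v 896))))) (.n (.n (.n (.n (.v 0) (.v 935)) (.n (.v 512) (.v 4))) (.n (.n (.v 935) (.v 935)) (.n (.v 928) (.v 935)))) (.n (.n (.n (.v 32) (.v 550)) (.n (.v 544) (.v 38))) (.n (.n (.v 32) (.v 935)) (.n (.v 896) (.v 38)))))) (.n (.n (.n (.n (.n (.v 8) (.v 8)) (.n (.v 8) (.v 12))) (.n (.n (.v 8) (.v 1023)) (.n (.v 8) (.v 511)))) (.n (.n (.n (.v 8) (.v 8)) (.n (.v 8) (.v 62))) (.n (.n (.v 136) (.v 136)) (.n (.v 896) (.v 1920))))) (.n (.n (.n (.n (.v 24) (.v 24)) (.n (.v 24) (.v 28))) (.n (.n (.v 24) (.v 935)) (.n (.v 24) (.v 28)))) (.n (.n (.n (.v 24) (.v 24)) (.n (.v 24) (.v 46)))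 (.n (.n (.v 152) (.v 152)) (.n (.v 152) (.v 46)))))))) = true := by
  decide +kernel

theorem tb6_29 : tck (dg 0xbba998776554332000) (dg 0xa9683765441b22118a) 18 3 1 0 false 0
  [(3, 13), (4, 9), (5, 7), (2, 3), (9, 14), (7, 12), (11, 17), (6, 15), (1, 2), (8, 1), (10, 0)]
  [4, 5, 6, 8, 10, 11, 16]
  (.n (.n (.n (.n (.n (.n (.n (.v 0) (.v 0)) (.n (.v 0) (.v 0))) (.n (.n (.v 0) (.v 0)) (.n (.v 128) (.v 128)))) (.n (.n (.n (.v 0) (.v 0)) (.n (.v 0) (.v 943))) (.n (.n (.v 32) (.v 32)) (.n (.v 32) (.v 943))))) (.n (.n (.n (.n (.v 0) (.v 2047)) (.n (.v 0) (.v 959))) (.n (.n (.v 0) (.v 2047)) (.n (.v 112) (.v 1919)))) (.n (.n (.n (.v 16) (.v 16)) (.n (.v 80) (.v 80))) (.n (.n (.v 16) (.v 2015)) (.n (.v 80) (.v 80)))))) (.n (.n (.n (.n (.n (.v 0) (.v 0)) (.n (.v 0) (.v 0))) (.n (.n (.v 0) (.v 0)) (.n (.v 128) (.v 904))))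 (.n (.n (.n (.v 0) (.v 0)) (.n (.v 0) (.v 943))) (.n (.n (.v 32) (.v 32)) (.n (.v 32) (.v 904))))) (.n (.n (.n (.n (.v 0) (.v 2047)) (.n (.v 0) (.v 959))) (.n (.n (.v 0) (.v 2047)) (.n (.v 112) (.v 904)))) (.n (.n (.n (.v 16) (.v 16)) (.n (.v 80) (.v 80))) (.n (.n (.v 16) (.v 984)) (.n (.v 80) (.v 920))))))) (.n (.n (.n (.n (.n (.n (.v 0) (.v 0)) (.n (.v 0) (.v 0))) (.n (.n (.v 0) (.v 0)) (.n (.v 128) (.v 904)))) (.n (.n (.n (.v 0) (.v 0)) (.n (.v 0) (.v 943))) (.n (.n (.v 32) (.v 32)) (.n (.v 32) (.v 904))))) (.n (.n (.n (.n (.v 0) (.v 2047)) (.n (.v 0) (.v 959))) (.n (.n (.v 0) (.v 2047)) (.n (.v 112) (.v 904)))) (.n (.n (.n (.v 16) (.v 16)) (.n (.v 80) (.v 80))) (.n (.n (.v 16) (.v 984)) (.n (.v 80) (.v 920)))))) (.n (.n (.n (.n (.n (.v 4) (.v 520)) (.n (.v 4) (.v 520))) (.n (.n (.v 4) (.v 520)) (.n (.v 132)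 (.v 904)))) (.n (.n (.n (.v 4) (.v 520)) (.n (.v 166) (.v 935))) (.n (.n (.v 38) (.v 38)) (.n (.v 38) (.v 904))))) (.n (.n (.n (.n (.v 4) (.v 520)) (.n (.v 4) (.v 520))) (.n (.n (.v 54) (.v 54)) (.n (.v 118) (.v 904)))) (.n (.n (.n (.v 20) (.v 536)) (.n (.v 84) (.v 600))) (.n (.n (.v 38) (.v 984)) (.n (.v 38) (.v 920)))))))) = true := by
  decide +kernel

theorem tb6_30 : tck (dg 0xbba998776554332000) (dg 0xa7683b65441922118a) 18 3 1 0 false 0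
  [(3, 13), (7, 11), (4, 9), (5, 7), (2, 3), (9, 14), (11, 17), (6, 15), (1, 2), (8, 1), (10, 0)]
  [4, 5, 6, 8, 10, 12, 16]
  (.n (.n (.n (.n (.n (.n (.n (.v 0) (.v 0)) (.n (.v 0) (.v 2047))) (.n (.n (.v 0) (.v 128)) (.n (.v 0) (.v 128)))) (.n (.n (.n (.v 0) (.v 0)) (.n (.v 0) (.v 2047))) (.n (.n (.v 32) (.v 32)) (.n (.v 32) (.v 2015))))) (.n (.n (.n (.n (.v 0) (.v 0)) (.n (.v 0) (.v 2047))) (.n (.n (.v 0) (.v 128)) (.n (.v 815) (.v 128)))) (.n (.n (.n (.v 16) (.v 16)) (.n (.v 16) (.v 943))) (.n (.n (.v 16) (.v 208)) (.n (.v 815) (.v 208)))))) (.n (.n (.n (.n (.n (.v 0) (.v 0)) (.n (.v 0) (.v 2047))) (.n (.n (.v 0) (.v 128)) (.n (.v 0) (.v 128)))) (.n (.n (.n (.v 0) (.v 0)) (.n (.v 0) (.v 2047))) (.n (.n (.v 32) (.v 32)) (.n (.v 32) (.v 984))))) (.n (.n (.n (.n (.v 0) (.v 0)) (.n (.v 776) (.v 776))) (.n (.n (.v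 0) (.v 128)) (.n (.v 776) (.v 904)))) (.n (.n (.n (.v 16) (.v 16)) (.n (.v 16) (.v 943))) (.n (.n (.v 16) (.v 208)) (.n (.v 815) (.v 208))))))) (.n (.n (.n (.n (.n (.n (.v 0) (.v 0)) (.n (.v 0) (.v 2047))) (.n (.n (.v 0) (.v 128)) (.n (.v 0) (.v 128)))) (.n (.n (.n (.v 0) (.v 0)) (.n (.v 0) (.v 2047))) (.n (.n (.v 32) (.v 32)) (.n (.v 32) (.v 984))))) (.n (.n (.n (.n (.v 0) (.v 0)) (.n (.v 776) (.v 776))) (.n (.n (.v 0) (.v 128)) (.n (.v 776) (.v 904)))) (.n (.n (.n (.v 16) (.v 16)) (.n (.v 16) (.v 943))) (.n (.n (.v 16) (.v 208)) (.n (.v 815) (.v 208)))))) (.n (.n (.n (.n (.n (.v 4) (.v 4)) (.n (.v 4) (.v 2039))) (.n (.n (.v 4) (.v 132)) (.n (.v 4) (.v 132)))) (.n (.n (.n (.v 4) (.v 166)) (.n (.v 792) (.v 166))) (.n (.n (.v 38) (.v 38)) (.n (.v 38) (.v 984))))) (.n (.n (.n (.n (.v 520) (.v 246)) (.n (.v 776) (.v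 776))) (.n (.n (.v 54) (.v 648)) (.n (.v 776) (.v 904)))) (.n (.n (.n (.v 20) (.v 20)) (.n (.v 776) (.v 776))) (.n (.n (.v 38) (.v 212)) (.n (.v 807) (.v 212)))))))) = true := by
  decide +kernel

theorem tb6_31 : tck (dg 0xbba998776554332000) (dg 0xa48837654b192211a6) 18 3 1 0 false 0
  [(3, 4), (9, 6), (5, 7), (2, 3), (11, 17), (8, 15), (7, 11), (4, 9), (1, 2), (10, 1), (6, 0)]
  [5, 8, 10, 12, 13, 14, 16]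
  (.n (.n (.n (.n (.n (.n (.n (.v 0) (.v 0)) (.n (.v 0) (.v 0))) (.n (.n (.v 0) (.v 0)) (.n (.v 512) (.v 528)))) (.n (.n (.n (.v 0) (.v 0)) (.n (.v 256) (.v 256))) (.n (.n (.v 0) (.v 784)) (.n (.v 256) (.v 528))))) (.n (.n (.n (.n (.v 0) (.v 0)) (.n (.v 0) (.v 0))) (.n (.n (.v 0) (.v 976)) (.n (.v 512) (.v 528)))) (.n (.n (.n (.v 128) (.v 128)) (.n (.v 128) (.v 720))) (.n (.n (.v 128) (.v 720)) (.n (.v 640) (.v 720)))))) (.n (.n (.n (.n (.n (.v 0) (.v 2047)) (.n (.v 0) (.v 767))) (.n (.n (.v 0) (.v 2035)) (.n (.v 512) (.v 528)))) (.n (.n (.n (.v 0) (.v 767)) (.n (.v 256) (.v 767))) (.n (.n (.v 174) (.v 255)) (.n (.v 174) (.v 752))))) (.n (.n (.n (.n (.v 32) (.v 32)) (.n (.v 32) (.v 574))) (.n (.n (.v 46) (.v 46)) (.n (.v 46) (.v 560)))) (.n (.n (.n (.v 32) (.v 1919)) (.n (.v 288) (.v 767))) (.n (.n (.v 46) (.v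 46)) (.n (.v 302) (.v 720))))))) (.n (.n (.n (.n (.n (.n (.v 0) (.v 0)) (.n (.v 0) (.v 536))) (.n (.n (.v 8) (.v 8)) (.n (.v 8) (.v 528)))) (.n (.n (.n (.v 0) (.v 0)) (.n (.v 256) (.v 256))) (.n (.n (.v 8) (.v 8)) (.n (.v 264) (.v 264))))) (.n (.n (.n (.n (.v 0) (.v 0)) (.n (.v 0) (.v 536))) (.n (.n (.v 8) (.v 8)) (.n (.v 8) (.v 528)))) (.n (.n (.n (.v 128) (.v 128)) (.n (.v 128) (.v 728))) (.n (.n (.v 136) (.v 136)) (.n (.v 136) (.v 720)))))) (.n (.n (.n (.n (.n (.v 0) (.v 2047)) (.n (.v 0) (.v 536))) (.n (.n (.v 8) (.v 2039)) (.n (.v 8) (.v 528)))) (.n (.n (.n (.v 0) (.v 247)) (.n (.v 256) (.v 767))) (.n (.n (.v 8) (.v 255)) (.n (.v 264) (.v 759))))) (.n (.n (.n (.n (.v 32) (.v 32)) (.n (.v 32) (.v 568))) (.n (.n (.v 40) (.v 40)) (.n (.v 40) (.v 560)))) (.n (.n (.n (.v 32) (.v 1919)) (.n (.v 288) (.v 728))) (.n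 (.n (.v 40) (.v 1911)) (.n (.v 296) (.v 720)))))))) = true := by
  decide +kernel

theorem tb6_32 : tck (dg 0xbba998776554332000) (dg 0xa188366244b927115a) 18 3 1 0 false 0
  [(7, 10), (3, 5), (9, 14), (6, 12), (2, 3), (4, 8), (11, 17), (8, 15), (1, 2), (5, 1), (10, 0)]
  [4, 6, 7, 9, 11, 13, 16]
  (.n (.n (.n (.n (.n (.n (.n (.v 0) (.v 0)) (.n (.v 0) (.v 0))) (.n (.n (.v 0) (.v 0)) (.n (.v 140) (.v 142)))) (.n (.n (.n (.v 0) (.v 0)) (.n (.v 0) (.v 206))) (.n (.n (.v 64) (.v 64)) (.n (.v 64) (.v 142))))) (.n (.n (.n (.n (.v 0) (.v 2047)) (.n (.v 0) (.v 2047))) (.n (.n (.v 0) (.v 2047)) (.n (.v 140) (.v 142)))) (.n (.n (.n (.v 0) (.v 2047)) (.n (.v 560) (.v 191))) (.n (.n (.v 64) (.v 703)) (.n (.v 64) (.v 191)))))) (.n (.n (.n (.n (.n (.v 0) (.v 0)) (.n (.v 512) (.v 512))) (.n (.n (.v 0) (.v 654)) (.n (.v 140) (.v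 142)))) (.n (.n (.n (.v 16) (.v 16)) (.n (.v 16) (.v 16))) (.n (.n (.v 16) (.v 16)) (.n (.v 832) (.v 158))))) (.n (.n (.n (.n (.v 0) (.v 2047)) (.n (.v 512) (.v 255))) (.n (.n (.v 112) (.v 112)) (.n (.v 112) (.v 191)))) (.n (.n (.n (.v 48) (.v 48)) (.n (.v 48) (.v 191))) (.n (.n (.v 48) (.v 191)) (.n (.v 188) (.v 191))))))) (.n (.n (.n (.n (.n (.n (.v 0) (.v 0)) (.n (.v 8) (.v 8))) (.n (.n (.v 128) (.v 128)) (.n (.v 8) (.v 142)))) (.n (.n (.n (.v 0) (.v 0)) (.n (.v 8) (.v 8))) (.n (.n (.v 64) (.v 64)) (.n (.v 72) (.v 72))))) (.n (.n (.n (.n (.v 0) (.v 2047)) (.n (.v 8) (.v 2039))) (.n (.n (.v 128) (.v 1919)) (.n (.v 8) (.v 142)))) (.n (.n (.n (.v 0) (.v 575)) (.n (.v 8) (.v 63))) (.n (.n (.v 64) (.v 183)) (.n (.v 72) (.v 191)))))) (.n (.n (.n (.n (.n (.v 0) (.v 0)) (.n (.v 8) (.v 8))) (.n (.n (.v 128) (.v 128))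 (.n (.v 640) (.v 142)))) (.n (.n (.n (.v 16) (.v 16)) (.n (.v 24) (.v 24))) (.n (.n (.v 144) (.v 144)) (.n (.v 832) (.v 158))))) (.n (.n (.n (.n (.v 0) (.v 247)) (.n (.v 8) (.v 63))) (.n (.n (.v 112) (.v 183)) (.n (.v 120) (.v 127)))) (.n (.n (.n (.v 48) (.v 48)) (.n (.v 56) (.v 63))) (.n (.n (.v 176) (.v 183)) (.n (.v 56) (.v 191)))))))) = true := by
  decide +kernel

theorem tb6_33 : tck (dg 0xbba998776554332000) (dg 0xa758366244192b11a8) 18 3 1 0 false 0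
  [(3, 13), (7, 11), (4, 9), (2, 3), (11, 17), (5, 15), (9, 14), (6, 12), (1, 2), (10, 1), (8, 0)]
  [4, 5, 6, 7, 8, 10, 16]
  (.n (.n (.n (.n (.n (.n (.n (.v 0) (.v 0)) (.n (.v 0) (.v 128))) (.n (.n (.v 0) (.v 0)) (.n (.v 0) (.v 128)))) (.n (.n (.n (.v 0) (.v 0)) (.n (.v 0) (.v 128))) (.n (.n (.v 32) (.v 32)) (.n (.v 32) (.v 160))))) (.n (.n (.n (.n (.v 0) (.v 0)) (.n (.v 0) (.v 128))) (.n (.n (.v 16) (.v 16)) (.n (.v 16) (.v 208)))) (.n (.n (.n (.v 0) (.v 0)) (.n (.v 0) (.v 240))) (.n (.n (.v 16) (.v 16)) (.n (.v 16) (.v 208)))))) (.n (.n (.n (.n (.n (.v 0) (.v 0)) (.n (.v 4) (.v 4))) (.n (.n (.v 0) (.v 0)) (.n (.v 4) (.v 984)))) (.n (.n (.n (.v 0) (.v 134)) (.n (.v 6) (.v 6))) (.n (.n (.v 32) (.v 983)) (.n (.v 6) (.v 6))))) (.n (.n (.n (.n (.v 0) (.v 1527)) (.n (.v 4) (.v 4))) (.n (.n (.v 16) (.v 212)) (.n (.v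 20) (.v 208)))) (.n (.n (.n (.v 0) (.v 134)) (.n (.v 6) (.v 6))) (.n (.n (.v 16) (.v 214)) (.n (.v 22) (.v 22))))))) (.n (.n (.n (.n (.n (.n (.v 0) (.v 2047)) (.n (.v 0) (.v 128))) (.n (.n (.v 0) (.v 988)) (.n (.v 0) (.v 984)))) (.n (.n (.n (.v 0) (.v 991)) (.n (.v 14) (.v 14))) (.n (.n (.v 32) (.v 991)) (.n (.v 863) (.v 991))))) (.n (.n (.n (.n (.v 0) (.v 2047)) (.n (.v 524) (.v 128))) (.n (.n (.v 16) (.v 2031)) (.n (.v 1839) (.v 208)))) (.n (.n (.n (.v 0) (.v 975)) (.n (.v 526) (.v 240))) (.n (.n (.v 16) (.v 991)) (.n (.v 30) (.v 208)))))) (.n (.n (.n (.n (.n (.v 8) (.v 8)) (.n (.v 4) (.v 136))) (.n (.n (.v 8) (.v 984)) (.n (.v 984) (.v 984)))) (.n (.n (.n (.v 8) (.v 8)) (.n (.v 6) (.v 1016))) (.n (.n (.v 40) (.v 991)) (.n (.v 6) (.v 984))))) (.n (.n (.n (.n (.v 520) (.v 520)) (.n (.v 520) (.v 648))) (.n (.n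 (.v 24) (.v 24)) (.n (.v 20) (.v 216)))) (.n (.n (.n (.v 520) (.v 520)) (.n (.v 6) (.v 248))) (.n (.n (.v 552) (.v 214)) (.n (.v 22) (.v 216)))))))) = true := by
  decide +kernel

theorem tb6_34 : tck (dg 0xbba998776554332000) (dg 0xa25836624419b711a8) 18 3 1 0 false 0
  [(3, 13), (7, 11), (4, 9), (2, 3), (11, 17), (5, 15), (9, 14), (6, 12), (1, 2), (10, 1), (8, 0)]
  [4, 5, 6, 7, 8, 10, 16]
  (.n (.n (.n (.n (.n (.n (.n (.v 0) (.v 0)) (.n (.v 0) (.v 4))) (.n (.n (.v 0) (.v 0)) (.n (.v 0) (.v 4)))) (.n (.n (.n (.v 0) (.v 0)) (.n (.v 0) (.v 6))) (.n (.n (.v 32) (.v 32)) (.n (.v 32) (.v 6))))) (.n (.n (.n (.n (.v 0) (.v 0)) (.n (.v 0) (.v 4))) (.n (.n (.v 16) (.v 16)) (.n (.v 16) (.v 20)))) (.n (.n (.n (.v 0) (.v 0)) (.n (.v 0) (.v 6))) (.n (.n (.v 16) (.v 16)) (.n (.v 16) (.v 22)))))) (.n (.n (.n (.n (.n (.v 0)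 (.v 2047)) (.n (.v 0) (.v 4))) (.n (.n (.v 0) (.v 988)) (.n (.v 984) (.v 984)))) (.n (.n (.n (.v 0) (.v 991)) (.n (.v 1016) (.v 6))) (.n (.n (.v 32) (.v 991)) (.n (.v 984) (.v 991))))) (.n (.n (.n (.n (.v 0) (.v 2047)) (.n (.v 648) (.v 4))) (.n (.n (.v 16) (.v 2031)) (.n (.v 216) (.v 20)))) (.n (.n (.n (.v 0) (.v 975)) (.n (.v 248) (.v 6))) (.n (.n (.v 16) (.v 991)) (.n (.v 216) (.v 22))))))) (.n (.n (.n (.n (.n (.n (.v 0) (.v 0)) (.n (.v 128) (.v 4))) (.n (.n (.v 0) (.v 0)) (.n (.v 128) (.v 4)))) (.n (.n (.n (.v 0) (.v 134)) (.n (.v 128) (.v 6))) (.n (.n (.v 32) (.v 983)) (.n (.v 160) (.v 6))))) (.n (.n (.n (.n (.v 0) (.v 1527)) (.n (.v 128) (.v 4))) (.n (.n (.v 16) (.v 212)) (.n (.v 208) (.v 208)))) (.n (.n (.n (.v 0) (.v 134)) (.n (.v 240) (.v 6))) (.n (.n (.v 16) (.v 214)) (.n (.v 208) (.v 22)))))) (.n (.n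 (.n (.n (.n (.v 8) (.v 8)) (.n (.v 8) (.v 12))) (.n (.n (.v 8) (.v 8)) (.n (.v 984) (.v 12)))) (.n (.n (.n (.v 8) (.v 8)) (.n (.v 8) (.v 14))) (.n (.n (.v 40) (.v 991)) (.n (.v 40) (.v 863))))) (.n (.n (.n (.n (.v 520) (.v 520)) (.n (.v 520) (.v 524))) (.n (.n (.v 24) (.v 24)) (.n (.v 208) (.v 1839)))) (.n (.n (.n (.v 520) (.v 520)) (.n (.v 240) (.v 526))) (.n (.n (.v 552) (.v 214)) (.n (.v 208) (.v 30)))))))) = true := by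
  decide +kernel

theorem tb6_35 : tck (dg 0xbba998776554332000) (dg 0xa21836624419b71a58) 18 3 1 0 false 0
  [(2, 3), (3, 13), (7, 11), (11, 17), (4, 8), (1, 7), (9, 14), (6, 12), (10, 2), (5, 1), (8, 0)]
  [4, 5, 6, 9, 10, 15, 16]
  (.n (.n (.n (.n (.n (.n (.n (.v 0) (.v 0)) (.n (.v 0) (.v 0))) (.n (.n (.v 0) (.v 4)) (.n (.v 0) (.v 6)))) (.n (.n (.n (.v 0) (.v 0)) (.n (.v 0) (.v 0))) (.n (.n (.v 0) (.v 4)) (.n (.v 0) (.v 6))))) (.n (.n (.n (.n (.v 0) (.v 0)) (.n (.v 0) (.v 0))) (.n (.n (.v 0) (.v 4)) (.n (.v 0) (.v 6)))) (.n (.n (.n (.v 16) (.v 16)) (.n (.v 16) (.v 54))) (.n (.n (.v 16) (.v 20)) (.n (.v 54) (.v 54)))))) (.n (.n (.n (.n (.n (.v 0) (.v 2047)) (.n (.v 0) (.v 1023))) (.n (.n (.v 0) (.v 4)) (.n (.v 1019) (.v 6)))) (.n (.n (.n (.v 0) (.v 2047)) (.n (.v 0) (.v 1023))) (.n (.n (.v 200) (.v 4)) (.n (.v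 200) (.v 6))))) (.n (.n (.n (.n (.v 0) (.v 2047)) (.n (.v 0) (.v 1023))) (.n (.n (.v 648) (.v 4)) (.n (.v 648) (.v 6)))) (.n (.n (.n (.v 16) (.v 972)) (.n (.v 16) (.v 974))) (.n (.n (.v 968) (.v 968)) (.n (.v 968) (.v 54))))))) (.n (.n (.n (.n (.n (.n (.v 0) (.v 0)) (.n (.v 0) (.v 134))) (.n (.n (.v 128) (.v 4)) (.n (.v 128) (.v 6)))) (.n (.n (.n (.v 0) (.v 196)) (.n (.v 0) (.v 198))) (.n (.n (.v 192) (.v 192)) (.n (.v 192) (.v 6))))) (.n (.n (.n (.n (.v 0) (.v 1527)) (.n (.v 0) (.v 246))) (.n (.n (.v 128) (.v 4)) (.n (.v 128) (.v 6)))) (.n (.n (.n (.v 16) (.v 16)) (.n (.v 16) (.v 182))) (.n (.n (.v 144) (.v 20)) (.n (.v 54) (.v 54)))))) (.n (.n (.n (.n (.n (.v 8) (.v 8)) (.n (.v 8) (.v 1023))) (.n (.n (.v 8) (.v 12)) (.n (.v 8) (.v 14)))) (.n (.n (.n (.v 8) (.v 8)) (.n (.v 8) (.v 198))) (.n (.n (.v 192) (.v 1855))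 (.n (.v 192) (.v 574))))) (.n (.n (.n (.n (.v 520) (.v 520)) (.n (.v 520) (.v 246))) (.n (.n (.v 520) (.v 524)) (.n (.v 520) (.v 526)))) (.n (.n (.n (.v 24) (.v 24)) (.n (.v 24) (.v 62))) (.n (.n (.v 968) (.v 28)) (.n (.v 62) (.v 62)))))))) = true := by
  decide +kernel

theorem tb6_36 : tck (dg 0xbba998776554332000) (dg 0xa718166244932b1a58) 18 3 1 0 false 0
  [(2, 3), (3, 6), (7, 11), (11, 17), (1, 15), (4, 8), (9, 14), (6, 12), (10, 2), (5, 1), (8, 0)]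
  [4, 5, 7, 9, 10, 13, 16]
  (.n (.n (.n (.n (.n (.n (.n (.v 0) (.v 0)) (.n (.v 0) (.v 0))) (.n (.n (.v 0) (.v 128)) (.n (.v 0) (.v 128)))) (.n (.n (.n (.v 0) (.v 0)) (.n (.v 0) (.v 0))) (.n (.n (.v 0) (.v 192)) (.n (.v 0) (.v 192))))) (.n (.n (.n (.n (.v 0) (.v 0)) (.n (.v 512) (.v 512))) (.n (.n (.v 0) (.v 128)) (.n (.v 512) (.v 640)))) (.n (.n (.n (.v 0) (.v 0)) (.n (.v 512) (.v 960))) (.n (.n (.v 0) (.v 192)) (.n (.v 960) (.v 960)))))) (.n (.n (.n (.n (.n (.v 0) (.v 0)) (.n (.v 0) (.v 134))) (.n (.n (.v 4) (.v 4)) (.n (.v 6) (.v 6)))) (.n (.n (.n (.v 0) (.v 196)) (.n (.v 0) (.v 198))) (.n (.n (.v 4) (.v 192)) (.n (.v 6) (.v 6))))) (.n (.n (.n (.n (.v 0) (.v 0)) (.n (.v 512) (.v 134))) (.n (.n (.v 4) (.v 4)) (.n (.v 6) (.v 6)))) (.n (.n (.n (.v 56) (.v 966)) (.n (.v 56) (.v 964))) (.n (.n (.v 4) (.v 184)) (.n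 (.v 6) (.v 960))))))) (.n (.n (.n (.n (.n (.n (.v 0) (.v 2047)) (.n (.v 0) (.v 1021))) (.n (.n (.v 0) (.v 128)) (.n (.v 14) (.v 1017)))) (.n (.n (.n (.v 0) (.v 2047)) (.n (.v 0) (.v 158))) (.n (.n (.v 28) (.v 192)) (.n (.v 30) (.v 30))))) (.n (.n (.n (.n (.v 0) (.v 2047)) (.n (.v 512) (.v 1535))) (.n (.n (.v 0) (.v 128)) (.n (.v 14) (.v 640)))) (.n (.n (.n (.v 56) (.v 56)) (.n (.v 56) (.v 190))) (.n (.n (.v 60) (.v 60)) (.n (.v 62) (.v 960)))))) (.n (.n (.n (.n (.n (.v 8) (.v 8)) (.n (.v 8) (.v 1017))) (.n (.n (.v 4) (.v 136)) (.n (.v 6) (.v 1017)))) (.n (.n (.n (.v 24) (.v 24)) (.n (.v 24) (.v 24))) (.n (.n (.v 24) (.v 152)) (.n (.v 6) (.v 1017))))) (.n (.n (.n (.n (.v 8) (.v 8)) (.n (.v 520) (.v 520))) (.n (.n (.v 4) (.v 248)) (.n (.v 6) (.v 984)))) (.n (.n (.n (.v 56) (.v 56)) (.n (.v 56) (.v 56))) (.n (.n (.v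 56) (.v 184)) (.n (.v 56) (.v 968)))))))) = true := by
  decide +kernel

theorem tb6_37 : tck (dg 0xbba998776554332000) (dg 0xa718166244932ba158) 18 3 1 0 false 0
  [(11, 17), (2, 3), (3, 6), (7, 11), (10, 15), (4, 8), (9, 14), (6, 12), (1, 2), (5, 1), (8, 0)]
  [4, 5, 7, 9, 10, 13, 16]
  (.n (.n (.n (.n (.n (.n (.n (.v 0) (.v 0)) (.n (.v 0) (.v 0))) (.n (.n (.v 0) (.v 128)) (.n (.v 0) (.v 128)))) (.n (.n (.n (.v 0) (.v 0)) (.n (.v 0) (.v 0))) (.n (.n (.v 0) (.v 192)) (.n (.v 0) (.v 192))))) (.n (.n (.n (.n (.v 0) (.v 0)) (.n (.v 512) (.v 512))) (.n (.n (.v 0) (.v 128)) (.n (.v 512) (.v 640)))) (.n (.n (.n (.v 0) (.v 0)) (.n (.v 512) (.v 960))) (.n (.n (.v 0) (.v 192)) (.n (.v 960) (.v 960)))))) (.n (.n (.n (.n (.n (.v 0) (.v 0)) (.n (.v 0) (.v 0))) (.n (.n (.v 4) (.v 4)) (.n (.v 4) (.v 1017)))) (.n (.n (.n (.v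 0) (.v 196)) (.n (.v 0) (.v 196))) (.n (.n (.v 4) (.v 192)) (.n (.v 4) (.v 192))))) (.n (.n (.n (.n (.v 0) (.v 0)) (.n (.v 512) (.v 512))) (.n (.n (.v 4) (.v 4)) (.n (.v 516) (.v 507)))) (.n (.n (.n (.v 56) (.v 1991)) (.n (.v 56) (.v 964))) (.n (.n (.v 4) (.v 184)) (.n (.v 516) (.v 960))))))) (.n (.n (.n (.n (.n (.n (.v 0) (.v 2047)) (.n (.v 0) (.v 1021))) (.n (.n (.v 0) (.v 128)) (.n (.v 0) (.v 1017)))) (.n (.n (.n (.v 0) (.v 2047)) (.n (.v 0) (.v 1021))) (.n (.n (.v 28) (.v 192)) (.n (.v 28) (.v 192))))) (.n (.n (.n (.n (.v 0) (.v 2047)) (.n (.v 512) (.v 1535))) (.n (.n (.v 0) (.v 128)) (.n (.v 512) (.v 507)))) (.n (.n (.n (.v 56) (.v 56)) (.n (.v 56) (.v 960))) (.n (.n (.v 60) (.v 60)) (.n (.v 1087) (.v 960)))))) (.n (.n (.n (.n (.n (.v 8) (.v 8)) (.n (.v 8) (.v 1017))) (.n (.n (.v 4) (.v 1019)) (.n (.v 1017)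 (.v 1017)))) (.n (.n (.n (.v 24) (.v 24)) (.n (.v 24) (.v 24))) (.n (.n (.v 24) (.v 152)) (.n (.v 24) (.v 1017))))) (.n (.n (.n (.n (.v 8) (.v 8)) (.n (.v 520) (.v 507))) (.n (.n (.v 4) (.v 248)) (.n (.v 507) (.v 507)))) (.n (.n (.n (.v 56) (.v 56)) (.n (.v 56) (.v 56))) (.n (.n (.v 56) (.v 184)) (.n (.v 56) (.v 968)))))))) = true := by
  decide +kernel

theorem tb6_38 : tck (dg 0xbba998776554332000) (dg 0xa28875624413b911a6) 18 3 1 0 false 0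
  [(9, 13), (3, 6), (5, 7), (2, 3), (11, 17), (8, 15), (7, 11), (4, 9), (1, 2), (10, 1), (6, 0)]
  [4, 5, 8, 10, 12, 14, 16]
  (.n (.n (.n (.n (.n (.n (.n (.v 0) (.v 0)) (.n (.v 0) (.v 0))) (.n (.n (.v 0) (.v 0)) (.n (.v 256) (.v 256)))) (.n (.n (.n (.v 0) (.v 4)) (.n (.v 0) (.v 4))) (.n (.n (.v 0) (.v 4)) (.n (.v 256) (.v 260))))) (.n (.n (.n (.n (.v 0) (.v 0)) (.n (.v 0) (.v 0))) (.n (.n (.v 32) (.v 32)) (.n (.v 32) (.v 32)))) (.n (.n (.n (.v 0) (.v 4)) (.n (.v 728) (.v 294))) (.n (.n (.v 32) (.v 38)) (.n (.v 32) (.v 38)))))) (.n (.n (.n (.n (.n (.v 0) (.v 2047)) (.n (.v 0) (.v 767))) (.n (.n (.v 0) (.v 767)) (.n (.v 256) (.v 767)))) (.n (.n (.n (.v 0) (.v 4)) (.n (.v 648) (.v 4))) (.n (.n (.v 0) (.v 4)) (.n (.v 760) (.v 767))))) (.n (.n (.n (.n (.v 0) (.v 2047)) (.n (.v 536) (.v 732))) (.n (.n (.v 32) (.v 2015))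 (.n (.v 32) (.v 767)))) (.n (.n (.n (.v 728) (.v 4)) (.n (.v 728) (.v 728))) (.n (.n (.v 984) (.v 38)) (.n (.v 728) (.v 38))))))) (.n (.n (.n (.n (.n (.n (.v 0) (.v 0)) (.n (.v 512) (.v 512))) (.n (.n (.v 0) (.v 0)) (.n (.v 256) (.v 759)))) (.n (.n (.n (.v 0) (.v 4)) (.n (.v 640) (.v 516))) (.n (.n (.v 896) (.v 4)) (.n (.v 640) (.v 260))))) (.n (.n (.n (.n (.v 0) (.v 2023)) (.n (.v 512) (.v 512))) (.n (.n (.v 32) (.v 32)) (.n (.v 544) (.v 678)))) (.n (.n (.n (.v 0) (.v 4)) (.n (.v 640) (.v 294))) (.n (.n (.v 32) (.v 38)) (.n (.v 672) (.v 550)))))) (.n (.n (.n (.n (.n (.v 8) (.v 8)) (.n (.v 8) (.v 1535))) (.n (.n (.v 8) (.v 255)) (.n (.v 264) (.v 767)))) (.n (.n (.n (.v 8) (.v 12)) (.n (.v 640) (.v 1407))) (.n (.n (.v 8) (.v 62)) (.n (.v 264) (.v 62))))) (.n (.n (.n (.n (.v 24) (.v 24)) (.n (.v 24) (.v 24))) (.n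 (.n (.v 24) (.v 24)) (.n (.v 280) (.v 280)))) (.n (.n (.n (.v 24) (.v 28)) (.n (.v 728) (.v 28))) (.n (.n (.v 24) (.v 46)) (.n (.v 280) (.v 46)))))))) = true := by
  decide +kernel

theorem tb6_39 : tck (dg 0xbba998776554332000) (dg 0xa288756b44132911a6) 18 3 1 0 false 0
  [(9, 13), (3, 6), (5, 7), (2, 3), (11, 17), (8, 15), (7, 11), (4, 9), (1, 2), (10, 1), (6, 0)]
  [4, 5, 8, 10, 12, 14, 16]
  (.n (.n (.n (.n (.n (.n (.n (.v 0) (.v 0)) (.n (.v 0) (.v 0))) (.n (.n (.v 0) (.v 0)) (.n (.v 256) (.v 256)))) (.n (.n (.n (.v 0) (.v 2047)) (.n (.v 0) (.v 767))) (.n (.n (.v 0) (.v 767)) (.n (.v 256) (.v 767))))) (.n (.n (.n (.n (.v 0) (.v 0)) (.n (.v 0) (.v 0))) (.n (.n (.v 32) (.v 32)) (.n (.v 32) (.v 32)))) (.n (.n (.n (.v 0) (.v 2047)) (.n (.v 728) (.v 732))) (.n (.n (.v 32) (.v 2015)) (.n (.v 32) (.v 767)))))) (.n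 (.n (.n (.n (.n (.v 0) (.v 4)) (.n (.v 0) (.v 4))) (.n (.n (.v 0) (.v 4)) (.n (.v 256) (.v 260)))) (.n (.n (.n (.v 0) (.v 4)) (.n (.v 648) (.v 4))) (.n (.n (.v 0) (.v 4)) (.n (.v 760) (.v 767))))) (.n (.n (.n (.n (.v 0) (.v 4)) (.n (.v 536) (.v 294))) (.n (.n (.v 32) (.v 38)) (.n (.v 32) (.v 38)))) (.n (.n (.n (.v 728) (.v 4)) (.n (.v 728) (.v 728))) (.n (.n (.v 984) (.v 38)) (.n (.v 728) (.v 38))))))) (.n (.n (.n (.n (.n (.n (.v 0) (.v 0)) (.n (.v 512) (.v 512))) (.n (.n (.v 0) (.v 62)) (.n (.v 256) (.v 62)))) (.n (.n (.n (.v 0) (.v 2047)) (.n (.v 640) (.v 640))) (.n (.n (.v 896) (.v 255)) (.n (.v 640) (.v 767))))) (.n (.n (.n (.n (.v 0) (.v 28)) (.n (.v 512) (.v 28))) (.n (.n (.v 32) (.v 46)) (.n (.v 544) (.v 46)))) (.n (.n (.n (.v 0) (.v 28)) (.n (.v 640) (.v 640))) (.n (.n (.v 32) (.v 46)) (.n (.v 672) (.v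 672)))))) (.n (.n (.n (.n (.n (.v 8) (.v 4)) (.n (.v 8) (.v 516))) (.n (.n (.v 8) (.v 4)) (.n (.v 264) (.v 260)))) (.n (.n (.n (.v 8) (.v 2039)) (.n (.v 640) (.v 644))) (.n (.n (.v 8) (.v 255)) (.n (.v 264) (.v 759))))) (.n (.n (.n (.n (.v 24) (.v 24)) (.n (.v 24) (.v 24))) (.n (.n (.v 24) (.v 38)) (.n (.v 280) (.v 550)))) (.n (.n (.n (.v 24) (.v 2023)) (.n (.v 728) (.v 644))) (.n (.n (.v 24) (.v 38)) (.n (.v 280) (.v 678)))))))) = true := by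
  decide +kernel

theorem tb6_40 : tck (dg 0xbba998776554332000) (dg 0xa46821624b1397185a) 18 3 1 0 false 0
  [(3, 5), (2, 3), (7, 11), (4, 9), (9, 14), (1, 7), (11, 17), (6, 15), (8, 2), (5, 1), (10, 0)]
  [4, 6, 8, 10, 12, 13, 16]
  (.n (.n (.n (.n (.n (.n (.n (.v 0) (.v 0)) (.n (.v 0) (.v 0))) (.n (.n (.v 0) (.v 0)) (.n (.v 0) (.v 0)))) (.n (.n (.n (.v 0) (.v 0)) (.n (.v 4) (.v 4))) (.n (.n (.v 0) (.v 0)) (.n (.v 6) (.v 6))))) (.n (.n (.n (.n (.v 0) (.v 2047)) (.n (.v 0) (.v 2047))) (.n (.n (.v 0) (.v 2047)) (.n (.v 38) (.v 38)))) (.n (.n (.n (.v 0) (.v 2047)) (.n (.v 4) (.v 2043))) (.n (.n (.v 38) (.v 38)) (.n (.v 38) (.v 38)))))) (.n (.n (.n (.n (.n (.v 0) (.v 16)) (.n (.v 0) (.v 16))) (.n (.n (.v 0) (.v 16)) (.n (.v 776) (.v 16)))) (.n (.n (.n (.v 0) (.v 16)) (.n (.v 4) (.v 20))) (.n (.n (.v 0) (.v 16)) (.n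 (.v 6) (.v 22))))) (.n (.n (.n (.n (.v 0) (.v 16)) (.n (.v 0) (.v 16))) (.n (.n (.v 0) (.v 16)) (.n (.v 38) (.v 54)))) (.n (.n (.n (.v 815) (.v 16)) (.n (.v 4) (.v 20))) (.n (.n (.v 38) (.v 54)) (.n (.v 38) (.v 54))))))) (.n (.n (.n (.n (.n (.n (.v 0) (.v 0)) (.n (.v 0) (.v 536))) (.n (.n (.v 0) (.v 0)) (.n (.v 134) (.v 792)))) (.n (.n (.n (.v 128) (.v 128)) (.n (.v 4) (.v 4))) (.n (.n (.v 128) (.v 128)) (.n (.v 6) (.v 6))))) (.n (.n (.n (.n (.v 0) (.v 2047)) (.n (.v 0) (.v 536))) (.n (.n (.v 0) (.v 2047)) (.n (.v 166) (.v 166)))) (.n (.n (.n (.v 128) (.v 831)) (.n (.v 4) (.v 831))) (.n (.n (.v 38) (.v 574)) (.n (.v 38) (.v 38)))))) (.n (.n (.n (.n (.n (.v 8) (.v 8)) (.n (.v 520) (.v 212))) (.n (.n (.v 8) (.v 8)) (.n (.v 776) (.v 214)))) (.n (.n (.n (.v 8) (.v 208)) (.n (.v 12) (.v 208))) (.n (.n (.v 526) (.v 208))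 (.n (.v 14) (.v 14))))) (.n (.n (.n (.n (.v 8) (.v 2039)) (.n (.v 520) (.v 1527))) (.n (.n (.v 8) (.v 246)) (.n (.v 776) (.v 246)))) (.n (.n (.n (.v 815) (.v 208)) (.n (.v 815) (.v 208))) (.n (.n (.v 558) (.v 208)) (.n (.v 46) (.v 46)))))))) = true := by
  decide +kernel

end Pool.H29E
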