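import Pool.Agent.H29E.Three
import Pool.Agent.H29E.TabC
import Pool.Agent.H29E.Special2
import Pool.Agent.H29E.Special3

set_option linter.unusedSimpArgs false
set_option linter.unusedVariables false

/-! Excess six and seven. -/

namespace Pool.H29E

open Finset Pool.H82.SC Pool.H82.SC.MG

variable {K : MG}

lemma use_tck' {n m d : ℕ} {A B fV fE : ℕ → ℕ} {tl : List (ℕ × ℕ)} {nf : List ℕ} {T : Tr}
    (L : Lab K n m A B fV fE) (h : tck A B m d 1 0 false 0 tl nf T = true)
    (ht : Tau K (d + 1)) {g : ℕ} (hg : Odds K g) (hpos : 0 < g) : False := by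
  have := use_tck L h ht hg
  omega

theorem six_cubic {h g : ℕ} (P : Par2 h g) (hK : K.Cyc h) (hl : K.NoLoops) (hc : K.Cubic)
    (hV : #K.V = 12) (hD : ∀ X ⊆ K.V, 4 ≤ K.D X) : 63 * h ≤ 17 * K.W ∨ 11 * g + 5 ≤ 3 * K.W := by
  have hcard := hc.card
  have ht : Tau K 4 := tau_of_D hD
  have hg := odds_of P hK
  have hpos : 0 < g := by have := P.h5; have := P.hg; omega
  by_cases hW : 17 * K.W < 63 * h
  swap
  · left; omega
  right
  obtain ⟨t, htL, fV, fE, L⟩ := cls6 h K hK hl hc hV (by omega) hW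
  simp only [L6, List.mem_cons, List.not_mem_nil, or_false] at htL
  rcases htL with rfl | rfl | rfl | rfl | rfl | rfl | rfl | rfl | rfl | rfl | rfl | rfl | rfl | rfl | rfl | rfl | rfl | rfl | rfl | rfl | rfl | rfl | rfl | rfl | rfl | rfl | rfl | rfl | rfl | rfl | rfl | rfl | rfl | rfl | rfl | rfl | rfl | rfl | rfl | rfl | rfl
  · exact (use_tck' L tb6_0 ht hg hpos).elim
  · exact (use_tck' L tb6_1 ht hg hpos).elim
  · exact (use_tck' L tb6_2 ht hg hpos).elim
  · exact (use_tck' L tb6_3 ht hg hpos).elim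
  · exact (use_tck' L tb6_4 ht hg hpos).elim
  · exact (use_tck' L tb6_5 ht hg hpos).elim
  · exact (use_tck' L tb6_6 ht hg hpos).elim
  · exact (use_tck' L tb6_7 ht hg hpos).elim
  · exact (use_tck' L tb6_8 ht hg hpos).elim
  · exact (use_tck' L tb6_9 ht hg hpos).elim
  · exact (use_tck' L tb6_10 ht hg hpos).elim
  · exact (use_tck' L tb6_11 ht hg hpos).elim
  · exact (use_tck' L tb6_12 ht hg hpos).elim
  · exact (use_tck' L tb6_13 ht hg hpos).elim
  · exact (use_tck' L tb6_14 ht hg hpos).elim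
  · exact (use_tck' L tb6_15 ht hg hpos).elim
  · exact (use_tck' L tb6_16 ht hg hpos).elim
  · exact (use_tck' L tb6_17 ht hg hpos).elim
  · exact (use_tck' L tb6_18 ht hg hpos).elim
  · exact (use_tck' L tb6_19 ht hg hpos).elim
  · exact (use_tck' L tb6_20 ht hg hpos).elim
  · rcases tck_sound L tb6_21 with ⟨S, hS, hS1, hS2⟩ | h1 | ⟨-, h1⟩
    · exact absurd (bipOn_iff.1 hS2) (ht S hS (by omega))
    · have := h1 g hg
      omega
    · exact special_W L hg (special_par L hD h1)
  · exact (use_tck' L tb6_22 ht hg hpos).elim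
  · exact (use_tck' L tb6_23 ht hg hpos).elim
  · exact (use_tck' L tb6_24 ht hg hpos).elim
  · exact (use_tck' L tb6_25 ht hg hpos).elim
  · exact (use_tck' L tb6_26 ht hg hpos).elim
  · exact (use_tck' L tb6_27 ht hg hpos).elim
  · exact (use_tck' L tb6_28 ht hg hpos).elim
  · exact (use_tck' L tb6_29 ht hg hpos).elim
  · exact (use_tck' L tb6_30 ht hg hpos).elim
  · exact (use_tck' L tb6_31 ht hg hpos).elim
  · exact (use_tck' L tb6_32 ht hg hpos).elim
  · exact (use_tck' L tb6_33 ht hg hpos).elim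
  · exact (use_tck' L tb6_34 ht hg hpos).elim
  · exact (use_tck' L tb6_35 ht hg hpos).elim
  · exact (use_tck' L tb6_36 ht hg hpos).elim
  · exact (use_tck' L tb6_37 ht hg hpos).elim
  · exact (use_tck' L tb6_38 ht hg hpos).elim
  · exact (use_tck' L tb6_39 ht hg hpos).elim
  · exact (use_tck' L tb6_40 ht hg hpos).elim

theorem seven_cubic {h g : ℕ} (P : Par2 h g) (hK : K.Cyc h) (hl : K.NoLoops) (hc : K.Cubic)
    (hV : #K.V = 14) (ht : Tau K 4) : 187 * h ≤ 50 * K.W := by
  have hcard := hc.card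
  have hg := odds_of P hK
  have hpos : 0 < g := by have := P.h5; have := P.hg; omega
  by_contra hW
  obtain ⟨t, htL, fV, fE, L⟩ := cls7 h K hK hl hc hV (by omega) (by omega)
  simp only [L7, List.mem_cons, List.not_mem_nil, or_false] at htL
  rcases htL with rfl | rfl
  · exact use_tck' L tb7_0 ht hg hpos
  · exact use_tck' L tb7_1 ht hg hpos

end Pool.H29E
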