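import Pool.Agent.H29E.DTab


set_option linter.unusedSimpArgs false
set_option linter.unusedVariables false
set_option maxRecDepth 100000

/-! The exceptional skeleton with twelve vertices. -/

namespace Pool.H29E

open Finset Pool.H82.SC Pool.H82.SC.MG

variable {K : MG} {fV fE : ℕ → ℕ}

theorem dt21 : dtab (dg 0xbba998776554332000) (dg 0xa1182765441329ba86) 12 18 70808 1608 3 [8, 9, 7, 10, 1, 5, 6, 4, 3, 11, 2] 1 0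
  (.n (.n (.n (.n (.n (.n (.n (.n (.n (.v 0) (.v 0)) (.n (.v 40) (.v 32))) (.n (.n (.n (.v 64) (.v 64)) (.n (.v 48) (.v 48))) (.n (.n (.v 40) (.v 40)) (.v 32)))) (.n (.n (.v 0) (.v 0)) (.n (.n (.v 64) (.v 16)) (.n (.v 8) (.v 0))))) (.n (.n (.n (.n (.v 0) (.v 0)) (.n (.n (.v 8) (.v 42)) (.v 34))) (.n (.n (.n (.v 64) (.v 2112)) (.n (.v 64) (.v 2112))) (.n (.n (.v 80) (.v 2184)) (.v 128)))) (.n (.n (.n (.v 2) (.v 2)) (.n (.v 10) (.v 0))) (.n (.n (.n (.v 64) (.v 66)) (.n (.v 16) (.v 18))) (.n (.n (.v 8) (.v 10)) (.v 2)))))) (.n (.n (.n (.n (.n (.n (.v 2) (.v 0)) (.n (.v 2) (.v 0))) (.n (.n (.v 1064) (.v 40)) (.v 1056))) (.n (.n (.n (.n (.v 66) (.v 66)) (.n (.v 0) (.v 68))) (.n (.n (.v 66) (.v 66)) (.n (.v 48) (.v 48)))) (.n (.n (.n (.v 82) (.v 138)) (.n (.v 32) (.v 36))) (.n (.v 130) (.v 32))))) (.n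 (.n (.n (.v 1024) (.v 1024)) (.n (.v 1032) (.v 0))) (.n (.n (.n (.v 1088) (.v 64)) (.n (.v 1040) (.v 16))) (.n (.n (.v 1032) (.v 8)) (.v 1024))))) (.n (.n (.n (.n (.v 0) (.v 0)) (.n (.n (.v 16) (.v 16)) (.n (.v 0) (.v 0)))) (.n (.n (.n (.v 64) (.v 64)) (.n (.v 64) (.v 64))) (.n (.n (.v 136) (.v 136)) (.v 128)))) (.n (.n (.n (.n (.v 0) (.v 0)) (.n (.v 0) (.v 0))) (.n (.n (.v 8) (.v 8)) (.v 0))) (.n (.n (.n (.n (.v 64) (.v 24)) (.n (.v 0) (.v 68))) (.n (.n (.v 16) (.v 16)) (.n (.v 16) (.v 16)))) (.n (.n (.n (.v 0) (.v 8)) (.n (.v 0) (.v 4))) (.n (.v 0) (.v 0)))))))) (.n (.n (.n (.n (.n (.v 0) (.n (.v 16) (.v 0))) (.n (.n (.v 0) (.v 0)) (.n (.v 8) (.v 0)))) (.n (.n (.n (.v 0) (.v 0)) (.n (.v 8) (.v 0))) (.n (.n (.v 24) (.v 16)) (.v 0)))) (.n (.n (.n (.v 0) (.n (.v 16) (.v 0))) (.n (.n (.v 0) (.v 0))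 (.n (.v 8) (.v 0)))) (.n (.n (.n (.v 32) (.v 32)) (.n (.n (.v 8) (.v 10)) (.v 2))) (.n (.n (.n (.v 24) (.v 26)) (.v 18)) (.n (.v 10) (.v 0)))))) (.n (.n (.n (.n (.n (.v 2) (.v 2)) (.n (.n (.v 18) (.v 16)) (.n (.v 2) (.v 0)))) (.n (.n (.n (.v 2) (.v 0)) (.n (.v 2) (.v 0))) (.n (.n (.v 10) (.v 8)) (.v 2)))) (.n (.n (.n (.n (.v 34) (.v 0)) (.n (.v 34) (.v 0))) (.n (.n (.v 1032) (.v 8)) (.v 1024))) (.n (.n (.n (.v 1048) (.v 24)) (.v 1040)) (.n (.v 1032) (.v 0))))) (.n (.n (.n (.v 0) (.n (.v 16) (.v 0))) (.n (.n (.v 0) (.v 0)) (.n (.v 8) (.v 0)))) (.n (.n (.n (.v 32) (.v 32)) (.n (.n (.v 48) (.v 48)) (.n (.v 0) (.v 0)))) (.n (.n (.n (.v 32) (.v 32)) (.n (.v 16) (.v 16))) (.n (.n (.v 8) (.v 8)) (.v 0)))))))) (.n (.n (.n (.n (.n (.n (.n (.v 0) (.n (.v 8) (.v 8))) (.n (.n (.v 16) (.v 16)) (.v 544))) (.n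 (.n (.n (.v 64) (.v 64)) (.n (.n (.v 52) (.v 48)) (.n (.v 72) (.v 48)))) (.n (.n (.n (.v 32) (.v 32)) (.n (.v 32) (.v 32))) (.n (.v 544) (.v 544))))) (.n (.n (.n (.v 0) (.v 8)) (.n (.v 0) (.v 0))) (.n (.n (.v 64) (.n (.v 72) (.v 72))) (.n (.n (.v 0) (.v 0)) (.v 512))))) (.n (.n (.n (.n (.v 0) (.n (.v 0) (.v 2056))) (.n (.n (.v 16) (.v 2064)) (.n (.v 24) (.v 546)))) (.n (.n (.n (.v 64) (.v 2112)) (.n (.v 72) (.n (.v 72) (.v 2112)))) (.n (.n (.v 80) (.n (.v 34) (.v 2128))) (.n (.v 128) (.v 2688))))) (.n (.n (.n (.v 2) (.n (.v 8) (.v 10))) (.n (.n (.v 0) (.v 2)) (.v 514))) (.n (.n (.n (.v 64) (.v 66)) (.n (.n (.v 20) (.v 16)) (.n (.v 74) (.v 18)))) (.n (.n (.n (.v 0) (.v 0)) (.n (.v 2) (.v 2))) (.n (.v 512) (.v 514))))))) (.n (.n (.n (.n (.n (.n (.v 2) (.v 0)) (.n (.n (.v 6) (.v 2)) (.n (.v 8) (.v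 0)))) (.n (.n (.n (.v 18) (.v 18)) (.n (.v 16) (.v 16))) (.n (.v 1568) (.v 544)))) (.n (.n (.n (.n (.v 66) (.v 66)) (.n (.v 64) (.v 64))) (.n (.n .z (.v 66)) (.n (.v 72) (.v 305)))) (.n (.n (.n (.v 2337) (.v 82)) (.v 289)) (.n (.n (.v 134) (.v 130)) (.v 289))))) (.n (.n (.n (.v 1024) (.n (.v 1032) (.v 8))) (.n (.n (.v 1024) (.v 0)) (.v 1536))) (.n (.n (.n (.v 1088) (.v 64)) (.n (.n (.v 277) (.v 273)) (.v 273))) (.n (.n (.v 2305) (.v 257)) (.n (.v 1536) (.v 257)))))) (.n (.n (.n (.n (.v 0) (.n (.v 8) (.v 8))) (.n (.n (.v 16) (.v 16)) (.n (.n (.v 4) (.v 0)) (.n (.v 24) (.v 0))))) (.n (.n (.n (.v 64) (.v 64)) (.n (.n (.v 68) (.v 64)) (.n (.v 72) (.v 64)))) (.n (.n (.n (.v 80) (.v 80)) (.n (.v 80) (.v 80))) (.n (.v 640) (.v 640))))) (.n (.n (.n (.n (.v 0) (.v 0)) (.n (.n (.v 4) (.v 0)) (.n (.v 8) (.v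 0)))) (.n (.n (.n (.v 0) (.v 0)) (.n (.v 0) (.v 0))) (.n (.v 512) (.v 512)))) (.n (.n (.n (.n (.v 64) (.v 64)) (.n (.v 64) (.v 64))) (.n (.n (.v 277) (.v 16)) (.n (.v 72) (.v 273)))) (.n (.n (.v 257) (.v 257)) (.n (.v 257) (.v 257)))))))) (.n (.n (.n (.n (.n (.n (.v 0) (.v 8)) (.n (.v 16) (.n (.v 24) (.v 24)))) (.n (.n (.v 0) (.n (.v 8) (.v 8))) (.n (.n (.v 0) (.v 0)) (.v 512)))) (.n (.n (.n (.v 0) (.n (.v 8) (.v 8))) (.n (.n (.v 0) (.v 0)) (.v 512))) (.n (.n (.n (.v 0) (.v 0)) (.v 528)) (.n (.v 0) (.v 0))))) (.n (.n (.n (.n (.v 0) (.v 8)) (.n (.v 16) (.n (.v 0) (.v 2072)))) (.n (.n (.v 0) (.n (.v 0) (.v 2056))) (.n (.n (.v 0) (.v 2048)) (.v 512)))) (.n (.n (.n (.v 32) (.n (.v 32) (.v 2088))) (.n (.n (.v 48) (.v 2096)) (.n (.v 56) (.v 514)))) (.n (.n (.n (.v 32) (.v 2080)) (.n (.v 40) (.v 530)))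 (.n (.n (.v 0) (.v 2)) (.v 514)))))) (.n (.n (.n (.n (.n (.v 2) (.n (.v 10) (.v 8))) (.n (.n (.v 18) (.v 16)) (.n (.n (.v 6) (.v 2)) (.n (.v 24) (.v 0))))) (.n (.n (.n (.v 2) (.v 0)) (.n (.n (.v 6) (.v 2)) (.n (.v 8) (.v 0)))) (.n (.n (.n (.v 2) (.v 2)) (.n (.v 0) (.v 0))) (.n (.v 514) (.v 512))))) (.n (.n (.n (.n (.v 34) (.v 0)) (.n (.n (.v 38) (.v 34)) (.n (.v 8) (.v 0)))) (.n (.n (.n (.v 50) (.v 50)) (.n (.v 0) (.v 0))) (.n (.v 1536) (.v 512)))) (.n (.n (.n (.n (.v 34) (.v 34)) (.n (.v 0) (.v 0))) (.n (.v 1552) (.v 528))) (.n (.n (.v 1024) (.v 0)) (.v 1536))))) (.n (.n (.n (.n (.v 0) (.v 8)) (.n (.v 16) (.n (.v 24) (.v 24)))) (.n (.n (.v 0) (.n (.v 8) (.v 8))) (.n (.n (.v 0) (.v 0)) (.v 512)))) (.n (.n (.n (.v 32) (.n (.v 40) (.v 40))) (.n (.n (.v 48) (.v 48)) (.n (.n (.v 4) (.v 0)) (.n (.v 56)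 (.v 0))))) (.n (.n (.n (.v 32) (.v 32)) (.n (.n (.v 20) (.v 16)) (.n (.v 40) (.v 16)))) (.n (.n (.n (.v 0) (.v 0)) (.n (.v 0) (.v 0))) (.n (.v 512) (.v 512)))))))))) (.n (.n (.n (.n (.n (.n (.n (.n (.v 512) (.n (.v 0) (.v 0))) (.n (.n (.v 40) (.v 40)) (.v 32))) (.n (.n (.n (.v 576) (.v 576)) (.n (.n (.v 48) (.v 48)) (.n (.v 48) (.v 48)))) (.n (.n (.n (.v 32) (.v 40)) (.n (.v 32) (.v 36))) (.n (.v 32) (.v 32))))) (.n (.n (.n (.v 0) (.v 0)) (.n (.v 8) (.v 0))) (.n (.n (.v 576) (.n (.v 16) (.v 16))) (.n (.n (.v 8) (.v 8)) (.v 0))))) (.n (.n (.n (.n (.v 512) (.n (.v 0) (.v 2048))) (.n (.n (.v 16) (.v 2576)) (.n (.v 0) (.v 34)))) (.n (.n (.n (.v 64) (.v 2624)) (.n (.v 64) (.n (.v 50) (.v 2112)))) (.n (.n (.v 392) (.n (.v 34) (.v 2440))) (.n (.v 384) (.v 2432))))) (.n (.n (.n (.v 514) (.n (.v 0) (.v 2)))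 (.n (.n (.v 8) (.v 10)) (.v 2))) (.n (.n (.n (.v 576) (.v 578)) (.n (.n (.v 16) (.v 16)) (.n (.v 18) (.v 18)))) (.n (.n (.n (.v 0) (.v 8)) (.n (.v 2) (.v 6))) (.n (.v 0) (.v 2))))))) (.n (.n (.n (.n (.n (.n (.v 514) (.v 512)) (.n (.n (.v 2) (.v 2)) (.n (.v 0) (.v 0)))) (.n (.n (.n (.v 18) (.v 530)) (.n (.v 16) (.v 20))) (.n (.v 1056) (.v 32)))) (.n (.n (.n (.n (.v 3) (.v 515)) (.n (.v 1) (.v 5))) (.n (.n (.v 2097) (.v 3)) (.v 49))) (.n (.n (.n (.v 2081) (.v 11)) (.v 41)) (.n (.v 2081) (.v 33))))) (.n (.n (.n (.v 1536) (.n (.v 1024) (.v 0))) (.n (.n (.v 1032) (.v 8)) (.v 1024))) (.n (.n (.n (.v 1600) (.v 25)) (.n (.v 2065) (.v 17))) (.n (.n (.v 2057) (.v 1)) (.v 1))))) (.n (.n (.n (.n (.v 512) (.n (.v 0) (.v 0))) (.n (.n (.v 528) (.v 528)) (.n (.n (.v 0) (.v 0)) (.n (.v 0) (.v 0))))) (.n (.n (.n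 (.v 513) (.v 513)) (.n (.n (.v 1) (.v 1)) (.n (.v 1) (.v 1)))) (.n (.n (.n (.v 1) (.v 9)) (.n (.v 1) (.v 5))) (.n (.v 1) (.v 1))))) (.n (.n (.n (.n (.v 512) (.v 512)) (.n (.n (.v 0) (.v 0)) (.n (.v 0) (.v 0)))) (.n (.n (.n (.v 0) (.v 8)) (.n (.v 0) (.v 4))) (.n (.v 0) (.v 0)))) (.n (.n (.n (.n (.v 1) (.v 25)) (.n (.v 1) (.v 5))) (.n (.v 17) (.v 17))) (.n (.n (.v 9) (.v 9)) (.v 1))))))) (.n (.n (.n (.n (.n (.n (.v 256) (.v 256)) (.n (.n (.v 272) (.v 272)) (.n (.v 160) (.v 160)))) (.n (.n (.n (.v 256) (.v 256)) (.n (.v 256) (.v 256))) (.n (.n (.v 264) (.v 264)) (.v 256)))) (.n (.n (.n (.v 640) (.n (.v 128) (.v 128))) (.n (.n (.v 136) (.v 136)) (.v 128))) (.n (.n (.n (.v 280) (.v 280)) (.v 272)) (.n (.v 264) (.v 256))))) (.n (.n (.n (.n (.v 256) (.v 256)) (.n (.n (.v 264) (.v 2320)) (.n (.v 256) (.v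 2304)))) (.n (.n (.n (.v 256) (.v 1537)) (.n (.v 256) (.v 2304))) (.n (.n (.v 256) (.v 2312)) (.v 256)))) (.n (.n (.n (.n (.v 288) (.v 642)) (.n (.v 288) (.v 2336))) (.n (.n (.v 304) (.n (.v 130) (.v 134))) (.n (.v 128) (.v 130)))) (.n (.n (.n (.v 288) (.n (.v 194) (.v 198))) (.n (.v 272) (.v 274))) (.n (.n (.v 264) (.v 266)) (.v 258)))))) (.n (.n (.n (.n (.n (.n (.v 258) (.v 256)) (.n (.v 258) (.v 256))) (.n (.n (.n (.v 274) (.v 75)) (.n (.v 16) (.v 276))) (.n (.n (.v 67) (.v 67)) (.n (.v 65) (.v 65))))) (.n (.n (.n (.v 515) (.v 513)) (.n (.n (.v 3) (.v 3)) (.n (.v 1) (.v 1)))) (.n (.n (.n (.v 3) (.v 11)) (.n (.v 1) (.v 5))) (.n (.v 3) (.v 1))))) (.n (.n (.n (.n (.v 1664) (.v 640)) (.n (.n (.v 290) (.v 290)) (.n (.v 81) (.v 81)))) (.n (.n (.n (.v 306) (.v 1160)) (.n (.v 65) (.v 69))) (.n (.v 1152)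 (.v 65)))) (.n (.n (.n (.n (.v 35) (.v 547)) (.n (.v 1) (.v 5))) (.n (.v 1296) (.v 17))) (.n (.n (.v 1288) (.v 9)) (.v 1280))))) (.n (.n (.n (.n (.v 256) (.v 256)) (.n (.n (.v 272) (.v 272)) (.n (.v 65) (.v 65)))) (.n (.n (.v 513) (.n (.v 1) (.v 1))) (.n (.n (.v 9) (.v 9)) (.v 1)))) (.n (.n (.n (.n (.v 288) (.v 288)) (.n (.v 288) (.v 288))) (.n (.n (.n (.v 304) (.v 73)) (.n (.v 48) (.v 308))) (.n (.n (.v 65) (.v 65)) (.n (.v 65) (.v 65))))) (.n (.n (.n (.v 545) (.v 545)) (.n (.n (.v 17) (.v 17)) (.n (.v 17) (.v 17)))) (.n (.n (.n (.v 1) (.v 9)) (.n (.v 1) (.v 5))) (.n (.v 1) (.v 1))))))))) (.n (.n (.n (.n (.n (.n (.n (.v 0) (.v 8)) (.n (.v 16) (.v 32))) (.n (.n (.v 64) (.n (.v 72) (.v 72))) (.n (.n (.v 32) (.v 32)) (.n (.v 32) (.v 32))))) (.n (.n (.v 0) (.v 0)) (.n (.n (.v 64) (.v 72)) (.n (.v 0)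 (.v 0))))) (.n (.n (.n (.n (.v 0) (.v 8)) (.n (.v 16) (.n (.v 0) (.v 34)))) (.n (.n (.v 64) (.n (.v 64) (.v 2120))) (.n (.n (.v 80) (.v 2128)) (.n (.v 88) (.n (.v 34) (.v 34)))))) (.n (.n (.n (.v 0) (.v 10)) (.n (.v 2) (.v 2))) (.n (.n (.v 66) (.n (.v 72) (.v 74))) (.n (.n (.v 0) (.v 2)) (.n (.v 0) (.v 2))))))) (.n (.n (.n (.n (.n (.v 2) (.n (.v 10) (.v 8))) (.n (.n (.v 18) (.v 16)) (.n (.v 1056) (.v 32)))) (.n (.n (.n (.v 3) (.v 1)) (.n (.n (.v 7) (.v 3)) (.v 49))) (.n (.n (.v 2081) (.v 33)) (.n (.v 2081) (.v 33))))) (.n (.n (.n (.v 0) (.v 1032)) (.n (.v 1024) (.v 1024))) (.n (.n (.v 1088) (.n (.v 1096) (.v 9))) (.n (.v 1) (.v 1))))) (.n (.n (.n (.n (.v 0) (.v 8)) (.n (.v 16) (.n (.v 24) (.v 24)))) (.n (.n (.v 1) (.n (.v 9) (.v 9))) (.n (.n (.v 1) (.v 1)) (.n (.v 1) (.v 1))))) (.n (.n (.n (.v 0)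 (.n (.v 8) (.v 8))) (.n (.n (.v 0) (.v 0)) (.n (.v 0) (.v 0)))) (.n (.n (.n (.v 1) (.v 1)) (.n (.v 17) (.v 17))) (.n (.v 1) (.v 1))))))) (.n (.n (.n (.n (.n (.n (.v 0) (.n (.v 8) (.v 8))) (.n (.n (.v 16) (.v 16)) (.n (.v 160) (.v 160)))) (.n (.n (.n (.v 0) (.v 0)) (.n (.n (.v 4) (.v 0)) (.n (.v 8) (.v 0)))) (.n (.n (.n (.v 0) (.v 0)) (.n (.v 0) (.v 0))) (.n (.v 768) (.v 768))))) (.n (.n (.n (.v 128) (.v 136)) (.n (.v 128) (.v 128))) (.n (.n (.v 192) (.n (.v 200) (.v 200))) (.n (.n (.v 0) (.v 0)) (.v 768))))) (.n (.n (.n (.n (.v 0) (.n (.v 0) (.v 2056))) (.n (.n (.v 16) (.v 2064)) (.n (.v 24) (.n (.v 24) (.v 162))))) (.n (.n (.v 1025) (.n (.v 8) (.v 1033))) (.n (.n (.v 0) (.v 1025)) (.n (.v 0) (.v 1025))))) (.n (.n (.n (.v 130) (.n (.v 40) (.v 138))) (.n (.n (.v 48) (.v 130)) (.n (.v 128) (.v 130))))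 (.n (.n (.n (.v 32) (.v 194)) (.n (.n (.v 20) (.v 16)) (.n (.v 202) (.v 18)))) (.n (.n (.n (.v 0) (.v 0)) (.n (.v 2) (.v 2))) (.n (.v 768) (.v 770))))))) (.n (.n (.n (.n (.n (.n (.v 2) (.v 0)) (.n (.n (.v 6) (.v 2)) (.n (.v 8) (.v 0)))) (.n (.n (.n (.v 18) (.v 18)) (.n (.v 16) (.v 16))) (.n (.n (.v 71) (.v 2)) (.n (.v 24) (.v 65))))) (.n (.n (.v 3) (.n (.v 11) (.v 9))) (.n (.n (.v 3) (.v 1)) (.n (.v 3) (.v 1))))) (.n (.n (.n (.v 1152) (.n (.v 1160) (.v 136))) (.n (.n (.v 1152) (.v 65)) (.n (.v 1152) (.v 65)))) (.n (.n (.n (.v 35) (.v 1)) (.n (.n (.v 21) (.v 17)) (.v 17))) (.n (.n (.v 2049) (.v 1)) (.n (.v 1792) (.v 1)))))) (.n (.n (.n (.n (.v 0) (.n (.v 8) (.v 8))) (.n (.n (.v 16) (.v 16)) (.n (.v 65) (.v 65)))) (.n (.n (.v 1) (.v 9)) (.n (.v 1) (.v 1)))) (.n (.n (.n (.n (.v 32) (.v 32)) (.n (.n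 (.v 36) (.v 32)) (.n (.v 40) (.v 32)))) (.n (.n (.n (.v 48) (.v 48)) (.n (.v 48) (.v 48))) (.n (.n (.v 69) (.v 0)) (.n (.v 56) (.v 65))))) (.n (.n (.v 33) (.n (.v 41) (.v 41))) (.n (.n (.v 1) (.v 1)) (.n (.v 1) (.v 1))))))))))) = true := by
  decide +kernel

end Pool.H29E
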