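import Pool.Agent.H29E.Lists

set_option linter.unusedSimpArgs false
set_option linter.unusedVariables false

/-! One step of the classification. -/

namespace Pool.H29E

open Finset Pool.H82.SC Pool.H82.SC.MG

variable {K : MG} {n m : ℕ}

theorem step_core {h : ℕ} (hK : K.Cyc h) {p q : ℕ} {Lp Lc : List (ℕ × ℕ)}
    (hW : q * K.W < p * h)
    (hchk : ∀ t ∈ Lp, ∀ i < m, ∀ j < m + 1,
      ∃ c, cchk (cA (dg t.1) n m) (cB (dg t.2) n m i j) (n + 2) (m + 3) p q Lc c = true)
    {e e1 e2 f1 f2 : ℕ} (he : e ∈ K.E)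
    (hS1 : (K.sube (K.E.erase e) (erase_subset _ _)).SuppData (K.s e) e1 e2)
    (hS2 : (supp hS1).SuppData (K.t e) f1 f2)
    (hL : InL (supp hS2) n m Lp) : InL K (n + 2) (m + 3) Lc := by
  obtain ⟨t, ht, fV, fE, L⟩ := hL
  obtain ⟨i, hi, fE1, L1⟩ := L.unsupp hS2
  obtain ⟨j, hj, fE2, L2⟩ := L1.unsupp hS1
  have hJ : K.J e ((fun k => if k = n + 1 then K.s e else
      (fun k => if k = n then K.t e else fV k) k) (n + 1))
      ((fun k => if k = n + 1 then K.s e else
      (fun k => if k = n then K.t e else fV k) k) n) := by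
    have : n ≠ n + 1 := by omega
    simp only [if_true, this, if_false]
    exact Or.inl ⟨rfl, rfl⟩
  have L3 := L2.add he (p := n + 1) (q := n) (by omega) (by omega) hJ
  obtain ⟨c, hc⟩ := hchk t ht i hi j hj
  refine cchk_sound (L := L3.congr (fun k _ => ?_) (fun k _ => ?_)) hK hW hc
  · rfl
  · rfl

lemma supp_noLoops {v e1 e2 : ℕ} (h : K.SuppData v e1 e2) (hne : K.oth e1 v ≠ K.oth e2 v) :
    (supp h).NoLoops := by
  intro e he
  simp only [supp_E, mem_erase] at he
  simp only [supp_s, supp_t]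
  by_cases h1 : e = e1
  · simp only [h1, if_true]; exact hne
  · simp only [h1, if_false]; exact h.hl e he.2

lemma deg_erase {e : ℕ} (he : e ∈ K.E) (v : ℕ) :
    (K.sube (K.E.erase e) (erase_subset _ _)).deg v + K.incN e v = K.deg v := by
  unfold deg
  simp only [sube_E]
  show ∑ f ∈ K.E.erase e, K.incN f v + K.incN e v = _
  rw [add_comm, add_sum_erase _ (fun f => K.incN f v) he]

/-- the data of deleting an edge of a loopless cubic graph -/
theorem exists_data (hl : K.NoLoops) (hc : K.Cubic) {e : ℕ} (he : e ∈ K.E) :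
    ∃ e1 e2, ∃ hS1 : (K.sube (K.E.erase e) (erase_subset _ _)).SuppData (K.s e) e1 e2,
      ((supp hS1).NoLoops → ∃ f1 f2, ∃ hS2 : (supp hS1).SuppData (K.t e) f1 f2,
        (supp hS2).Cubic ∧ #(supp hS2).V + 2 = #K.V ∧ #(supp hS2).E + 3 = #K.E ∧
        (supp hS2).W + K.w e = K.W) := by
  have hst : K.s e ≠ K.t e := hl e he
  have hl1 : (K.sube (K.E.erase e) (erase_subset _ _)).NoLoops := by
    intro f hf
    exact hl f (mem_of_mem_erase hf)
  have hd1 : (K.sube (K.E.erase e) (erase_subset _ _)).deg (K.s e) = 2 := by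
    have h1 := deg_erase (K := K) he (K.s e)
    rw [hc _ (K.hs e he)] at h1
    have h2 : K.incN e (K.s e) = 1 := by simp [incN, hst.symm]
    omega
  obtain ⟨e1, e2, hS1⟩ := exists_suppData hl1 (show K.s e ∈
    (K.sube (K.E.erase e) (erase_subset _ _)).V from K.hs e he) hd1
  refine ⟨e1, e2, hS1, fun hl2 => ?_⟩
  have hd2 : (supp hS1).deg (K.t e) = 2 := by
    rw [supp_deg hS1 hst.symm]
    have h1 := deg_erase (K := K) he (K.t e)
    rw [hc _ (K.ht e he)] at h1
    have h2 : K.incN e (K.t e) = 1 := by simp [incN, hst]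
    omega
  have hmem : K.t e ∈ (supp hS1).V := by
    rw [supp_V]
    exact mem_erase.2 ⟨hst.symm, K.ht e he⟩
  obtain ⟨f1, f2, hS2⟩ := exists_suppData hl2 hmem hd2
  refine ⟨f1, f2, hS2, ?_, ?_, ?_, ?_⟩
  · intro v hv
    rw [supp_V, mem_erase] at hv
    obtain ⟨hv1, hv2⟩ := hv
    rw [supp_deg hS2 hv1]
    rw [supp_V, mem_erase] at hv2
    obtain ⟨hv3, hv4⟩ := hv2
    rw [supp_deg hS1 hv3]
    have h1 := deg_erase (K := K) he v
    rw [hc _ hv4] at h1
    have h2 : K.incN e v = 0 := by simp [incN, Ne.symm hv1, Ne.symm hv3]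
    omega
  · have c1 := supp_cardV hS2
    have c2 := supp_cardV hS1
    simp only [sube_V] at c2
    omega
  · have c1 := supp_cardE hS2
    have c2 := supp_cardE hS1
    simp only [sube_E, card_erase_of_mem he] at c2
    have := card_pos.2 ⟨e, he⟩
    omega
  · rw [supp_W, supp_W]
    exact K.W_erase he

lemma supp_J {v e1 e2 f : ℕ} (h : K.SuppData v e1 e2) (hf : f ≠ e1) (a b : ℕ) :
    (supp h).J f a b ↔ K.J f a b := by
  unfold J
  simp [hf]

lemma par_of_J {e f a b : ℕ} (h1 : K.J e a b) (h2 : K.J f a b) : K.Par e f := by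
  unfold Par
  rcases h1 with ⟨x1, x2⟩ | ⟨x1, x2⟩ <;> rcases h2 with ⟨y1, y2⟩ | ⟨y1, y2⟩
  · exact Or.inl ⟨x1.trans y1.symm, x2.trans y2.symm⟩
  · exact Or.inr ⟨x1.trans y2.symm, x2.trans y1.symm⟩
  · exact Or.inr ⟨x1.trans y2.symm, x2.trans y1.symm⟩
  · exact Or.inl ⟨x1.trans y1.symm, x2.trans y2.symm⟩

/-- no parallel edges: both suppressions stay loopless -/
theorem simple_noLoops (hl : K.NoLoops) (hc : K.Cubic)
    (hs : ∀ e ∈ K.E, ∀ f ∈ K.E, e ≠ f → ¬ K.Par e f) {e : ℕ} (he : e ∈ K.E) {e1 e2 : ℕ}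
    (hS1 : (K.sube (K.E.erase e) (erase_subset _ _)).SuppData (K.s e) e1 e2) :
    (supp hS1).NoLoops ∧ ∀ f1 f2, ∀ hS2 : (supp hS1).SuppData (K.t e) f1 f2,
      (supp hS2).NoLoops := by
  have hst : K.s e ≠ K.t e := hl e he
  have m1 : e1 ∈ (K.sube (K.E.erase e) (erase_subset _ _)).star (K.s e) := by
    rw [hS1.hstar]; simp
  have m2 : e2 ∈ (K.sube (K.E.erase e) (erase_subset _ _)).star (K.s e) := by
    rw [hS1.hstar]; simp
  have j1 := J_star hS1.hl m1
  have j2 := J_star hS1.hl m2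
  have E1 : e1 ∈ K.E ∧ e1 ≠ e := by
    have := hS1.h1
    simp only [sube_E, mem_erase] at this
    exact ⟨this.2, this.1⟩
  have E2 : e2 ∈ K.E ∧ e2 ≠ e := by
    have := hS1.h2
    simp only [sube_E, mem_erase] at this
    exact ⟨this.2, this.1⟩
  have j1' : K.J e1 (K.s e) ((K.sube (K.E.erase e) (erase_subset _ _)).oth e1 (K.s e)) := j1
  have j2' : K.J e2 (K.s e) ((K.sube (K.E.erase e) (erase_subset _ _)).oth e2 (K.s e)) := j2
  have hJe : K.J e (K.s e) (K.t e) := Or.inl ⟨rfl, rfl⟩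
  constructor
  · apply supp_noLoops
    intro h
    rw [h] at j1'
    exact hs e1 E1.1 e2 E2.1 hS1.hne (par_of_J j1' j2')
  · intro f1 f2 hS2
    apply supp_noLoops
    intro h
    have k1 : f1 ∈ (supp hS1).star (K.t e) := by rw [hS2.hstar]; simp
    have k2 : f2 ∈ (supp hS1).star (K.t e) := by rw [hS2.hstar]; simp
    have g1 := J_star hS2.hl k1
    have g2 := J_star hS2.hl k2
    have F1 := hS2.h1
    have F2 := hS2.h2
    simp only [supp_E, sube_E, mem_erase] at F1 F2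
    -- the merged edge does not meet `t`
    have key : ∀ f, f ∈ (supp hS1).star (K.t e) → f ≠ e1 := by
      rintro f hf rfl
      have := (mem_filter.1 hf).2
      simp only [supp_s, supp_t, if_true] at this
      rcases this with h1 | h1
      · rw [h1] at j1'
        exact hs f E1.1 e he E1.2 (par_of_J j1' hJe)
      · rw [h1] at j2'
        exact hs e2 E2.1 e he E2.2 (par_of_J j2' hJe)
    have g1' := (supp_J hS1 (key _ k1) _ _).1 g1
    have g2' := (supp_J hS1 (key _ k2) _ _).1 g2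
    rw [h] at g1'
    exact hs f1 F1.2.2 f2 F2.2.2 hS2.hne (par_of_J (K := K) g1' g2')

/-! ### parallel edges -/

lemma touch (hc : K.Cubic) {S : Finset ℕ} (hS : S ⊆ K.V) :
    #K.E + #(K.ind S).E ≤ #(K.ind (K.V \ S)).E + 3 * #S := by
  classical
  have h1 : ∑ v ∈ S, K.deg v = 3 * #S := by
    rw [sum_congr rfl fun v hv => hc v (hS hv), sum_const, smul_eq_mul, mul_comm]
  have h2 : ∑ v ∈ S, K.deg v = ∑ e ∈ K.E, ((if K.s e ∈ S then 1 else 0) +
      (if K.t e ∈ S then 1 else 0)) := by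
    unfold deg
    rw [sum_comm]
    apply sum_congr rfl
    intro e _
    unfold incN
    rw [sum_add_distrib, sum_ite_eq, sum_ite_eq]
  rw [← h1, h2]
  simp only [ind_E, card_filter]
  rw [card_eq_sum_ones, ← sum_add_distrib, ← sum_add_distrib]
  apply sum_le_sum
  intro e he
  have a := K.hs e he
  have b := K.ht e he
  by_cases x : K.s e ∈ S <;> by_cases y : K.t e ∈ S <;> simp [x, y, a, b]

lemma mem_ind_E {S : Finset ℕ} {e a b : ℕ} (he : e ∈ K.E) (hJ : K.J e a b) (ha : a ∈ S)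
    (hb : b ∈ S) : e ∈ (K.ind S).E := by
  simp only [ind_E, mem_filter]
  rcases hJ with ⟨h1, h2⟩ | ⟨h1, h2⟩
  · rw [h1, h2]; exact ⟨he, ha, hb⟩
  · rw [h1, h2]; exact ⟨he, hb, ha⟩

/-- three parallel edges -/
lemma triple (hc : K.Cubic) {h x p q : ℕ} (hK : K.Cyc h) (hV : #K.V = 2 * (x + 2))
    (hA : ∀ K' : MG, K'.Cyc h → K'.V.Nonempty → #K'.V + (x + 1) ≤ #K'.E →
      2 * p * h ≤ 2 * q * K'.W + 3 * q * h) {a b e f g : ℕ} (hab : a ≠ b) (ha : a ∈ K.V)
    (hb : b ∈ K.V) (he : e ∈ K.E) (hf : f ∈ K.E) (hg : g ∈ K.E) (h1 : e ≠ f) (h2 : e ≠ g)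
    (h3 : f ≠ g) (j1 : K.J e a b) (j2 : K.J f a b) (j3 : K.J g a b) : p * h ≤ q * K.W := by
  classical
  have hS : ({a, b} : Finset ℕ) ⊆ K.V := by
    intro z hz
    simp only [mem_insert, mem_singleton] at hz
    rcases hz with rfl | rfl <;> assumption
  have hcS : #({a, b} : Finset ℕ) = 2 := card_pair hab
  have hin : ({e, f, g} : Finset ℕ) ⊆ (K.ind {a, b}).E := by
    intro z hz
    simp only [mem_insert, mem_singleton] at hz
    rcases hz with rfl | rfl | rfl
    · exact mem_ind_E he j1 (by simp) (by simp)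
    · exact mem_ind_E hf j2 (by simp) (by simp)
    · exact mem_ind_E hg j3 (by simp) (by simp)
  have hc3 : #({e, f, g} : Finset ℕ) = 3 := by
    rw [card_insert_of_notMem (by simp [h1, h2]), card_pair h3]
  have hcin := card_le_card hin
  have ht := touch hc hS
  have hcard := hc.card
  have hVr : #(K.ind (K.V \ {a, b})).V + 2 = #K.V := by
    show #(K.V \ {a, b}) + 2 = #K.V
    rw [card_sdiff_of_subset hS, hcS]
    omega
  have m1 := MB1 h _ (hK.ind {a, b}) (by simp : (K.ind {a, b}).V.Nonempty) (by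
    show #({a, b} : Finset ℕ) + 1 ≤ _
    omega)
  have m2 := hA _ (hK.ind (K.V \ {a, b})) (card_pos.1 (by omega)) (by omega)
  have m3 := K.W_add_le (S := {a, b})
  nlinarith

/-- a double edge closed up by two edges to a common vertex -/
lemma cap (hl : K.NoLoops) (hc : K.Cubic) {h x p q : ℕ} (hK : K.Cyc h)
    (hV : #K.V = 2 * (x + 2))
    (hB : ∀ K' : MG, K'.Cyc h → K'.V.Nonempty → #K'.V + x ≤ #K'.E → 1 ≤ x →
      2 * p * h ≤ 2 * q * K'.W + 3 * q * h) {a b c e f g k : ℕ} (hab : a ≠ b) (hac : a ≠ c)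
    (hbc : b ≠ c) (ha : a ∈ K.V)
    (hb : b ∈ K.V) (hcc : c ∈ K.V) (he : e ∈ K.E) (hf : f ∈ K.E) (hg : g ∈ K.E) (hk : k ∈ K.E)
    (h1 : e ≠ f) (h2 : e ≠ g) (h3 : e ≠ k) (h4 : f ≠ g) (h5 : f ≠ k) (h6 : g ≠ k)
    (j1 : K.J e a b) (j2 : K.J f a b) (j3 : K.J g a c) (j4 : K.J k b c) : p * h ≤ q * K.W := by
  classical
  have hS : ({a, b, c} : Finset ℕ) ⊆ K.V := by
    intro z hz
    simp only [mem_insert, mem_singleton] at hz
    rcases hz with rfl | rfl | rfl <;> assumption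
  have hcS : #({a, b, c} : Finset ℕ) = 3 := by
    rw [card_insert_of_notMem (by simp [hab, hac]), card_pair hbc]
  have hin : ({e, f, g, k} : Finset ℕ) ⊆ (K.ind {a, b, c}).E := by
    intro z hz
    simp only [mem_insert, mem_singleton] at hz
    rcases hz with rfl | rfl | rfl | rfl
    · exact mem_ind_E he j1 (by simp) (by simp)
    · exact mem_ind_E hf j2 (by simp) (by simp)
    · exact mem_ind_E hg j3 (by simp) (by simp)
    · exact mem_ind_E hk j4 (by simp) (by simp)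
  have hc3 : #({e, f, g, k} : Finset ℕ) = 4 := by
    rw [card_insert_of_notMem (by simp [h1, h2, h3]), card_insert_of_notMem (by simp [h4, h5]),
      card_pair h6]
  have hcin := card_le_card hin
  have ht := touch hc hS
  have hcard := hc.card
  have hVr : #(K.ind (K.V \ {a, b, c})).V + 3 = #K.V := by
    show #(K.V \ {a, b, c}) + 3 = #K.V
    rw [card_sdiff_of_subset hS, hcS]
    omega
  have m1 := MB1 h _ (hK.ind {a, b, c}) (by simp : (K.ind {a, b, c}).V.Nonempty) (by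
    show #({a, b, c} : Finset ℕ) + 1 ≤ _
    omega)
  by_cases hx : x = 0
  · -- the rest is a single vertex with an edge: a loop
    exfalso
    subst hx
    have hV1 : #(K.ind (K.V \ {a, b, c})).V = 1 := by omega
    obtain ⟨d, hd⟩ := card_eq_one.1 hV1
    obtain ⟨r, hr⟩ : (K.ind (K.V \ {a, b, c})).E.Nonempty := card_pos.1 (by omega)
    have r1 := (K.ind (K.V \ {a, b, c})).hs r hr
    have r2 := (K.ind (K.V \ {a, b, c})).ht r hr
    rw [hd, mem_singleton] at r1 r2
    exact hl r (mem_filter.1 hr).1 (r1.trans r2.symm)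
  · have m2 := hB _ (hK.ind (K.V \ {a, b, c})) (card_pos.1 (by omega)) (by omega) (by omega)
    have m3 := K.W_add_le (S := {a, b, c})
    nlinarith

/-- with parallel edges, either the weight is large or both suppressions stay loopless -/
theorem par_noLoops (hl : K.NoLoops) (hc : K.Cubic) {h x p q : ℕ} (hK : K.Cyc h)
    (hV : #K.V = 2 * (x + 2))
    (hA : ∀ K' : MG, K'.Cyc h → K'.V.Nonempty → #K'.V + (x + 1) ≤ #K'.E →
      2 * p * h ≤ 2 * q * K'.W + 3 * q * h)
    (hB : ∀ K' : MG, K'.Cyc h → K'.V.Nonempty → #K'.V + x ≤ #K'.E → 1 ≤ x →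
      2 * p * h ≤ 2 * q * K'.W + 3 * q * h) (hW : q * K.W < p * h)
    {e f : ℕ} (he : e ∈ K.E) (hf : f ∈ K.E) (hef : e ≠ f) (hp : K.Par e f) {e1 e2 : ℕ}
    (hS1 : (K.sube (K.E.erase e) (erase_subset _ _)).SuppData (K.s e) e1 e2) :
    (supp hS1).NoLoops ∧ ∀ f1 f2, ∀ hS2 : (supp hS1).SuppData (K.t e) f1 f2,
      (supp hS2).NoLoops := by
  classical
  have hst : K.s e ≠ K.t e := hl e he
  have hfJ : K.J f (K.s e) (K.t e) := by
    unfold J
    rcases hp with ⟨a, b⟩ | ⟨a, b⟩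
    · exact Or.inl ⟨a.symm, b.symm⟩
    · exact Or.inr ⟨b.symm, a.symm⟩
  have hJe : K.J e (K.s e) (K.t e) := Or.inl ⟨rfl, rfl⟩
  have hfm : f ∈ (K.sube (K.E.erase e) (erase_subset _ _)).star (K.s e) := by
    apply hfJ.mem_star (K := K.sube (K.E.erase e) (erase_subset _ _))
    simp only [sube_E, mem_erase]
    exact ⟨hef.symm, hf⟩
  -- name the two edges at `s`
  obtain ⟨g, hgm, hgf, hgs⟩ : ∃ g, g ∈ (K.sube (K.E.erase e) (erase_subset _ _)).star (K.s e) ∧
      g ≠ f ∧ ({e1, e2} : Finset ℕ) = {f, g} := by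
    rw [hS1.hstar] at hfm ⊢
    simp only [mem_insert, mem_singleton] at hfm
    rcases hfm with h1 | h1
    · exact ⟨e2, by simp, by rw [h1]; exact hS1.hne.symm, by rw [h1]⟩
    · exact ⟨e1, by simp, by rw [h1]; exact hS1.hne, by rw [h1]; exact pair_comm _ _⟩
  have hgE : g ∈ K.E ∧ g ≠ e := by
    have := (K.sube (K.E.erase e) (erase_subset _ _)).star_subset _ hgm
    simp only [sube_E, mem_erase] at this
    exact ⟨this.2, this.1⟩
  set a := (K.sube (K.E.erase e) (erase_subset _ _)).oth g (K.s e) with hadef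
  have hgJ : K.J g (K.s e) a := J_star (K := K.sube (K.E.erase e) (erase_subset _ _)) hS1.hl hgm
  have hfo : (K.sube (K.E.erase e) (erase_subset _ _)).oth f (K.s e) = K.t e := by
    apply MG.J.oth (K := K.sube (K.E.erase e) (erase_subset _ _)) hS1.hl _ hfJ
    simp only [sube_E, mem_erase]
    exact ⟨hef.symm, hf⟩
  have hsa : K.s e ≠ a := by
    intro h
    rcases hgJ with ⟨x1, x2⟩ | ⟨x1, x2⟩
    · exact hl g hgE.1 (x1.trans (h.trans x2.symm))
    · exact hl g hgE.1 (x1.trans (h.symm.trans x2.symm))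
  have haV : a ∈ K.V := by
    rcases hgJ with ⟨x1, x2⟩ | ⟨x1, x2⟩
    · rw [← x2]; exact K.ht g hgE.1
    · rw [← x1]; exact K.hs g hgE.1
  have hat : a ≠ K.t e := by
    intro h
    have := triple hc hK hV hA hst (K.hs e he) (K.ht e he) he hf hgE.1 hef hgE.2.symm hgf.symm
      hJe hfJ (h ▸ hgJ)
    omega
  -- the merged edge joins `t` and `a`
  have hmerged : (supp hS1).J e1 (K.t e) a := by
    unfold J
    simp only [supp_s, supp_t, if_true]
    have hcase : (e1 = f ∧ e2 = g) ∨ (e1 = g ∧ e2 = f) := by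
      have m1 : e1 ∈ ({f, g} : Finset ℕ) := by rw [← hgs]; simp
      have m2 : e2 ∈ ({f, g} : Finset ℕ) := by rw [← hgs]; simp
      simp only [mem_insert, mem_singleton] at m1 m2
      have := hS1.hne
      rcases m1 with rfl | rfl <;> rcases m2 with rfl | rfl <;> simp_all
    rcases hcase with ⟨x1, x2⟩ | ⟨x1, x2⟩
    · left
      rw [x1, x2]
      exact ⟨hfo, rfl⟩
    · right
      rw [x1, x2]
      exact ⟨rfl, hfo⟩
  have hmE : e1 ∈ (supp hS1).E := hS1.e1_mem
  constructor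
  · apply supp_noLoops
    intro h
    rcases hmerged with ⟨x1, x2⟩ | ⟨x1, x2⟩
    · simp only [supp_s, supp_t, if_true] at x1 x2
      exact hat (x2.symm.trans (h.symm.trans x1))
    · simp only [supp_s, supp_t, if_true] at x1 x2
      exact hat (x1.symm.trans (h.trans x2))
  · intro f1 f2 hS2
    apply supp_noLoops
    intro h
    have hm1 : e1 ∈ (supp hS1).star (K.t e) := hmerged.mem_star hmE
    obtain ⟨k, hkm, hke, hks⟩ : ∃ k, k ∈ (supp hS1).star (K.t e) ∧ k ≠ e1 ∧
        ({f1, f2} : Finset ℕ) = {e1, k} := by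
      rw [hS2.hstar] at hm1 ⊢
      simp only [mem_insert, mem_singleton] at hm1
      rcases hm1 with h1 | h1
      · exact ⟨f2, by simp, by rw [h1]; exact hS2.hne.symm, by rw [h1]⟩
      · exact ⟨f1, by simp, by rw [h1]; exact hS2.hne, by rw [h1]; exact pair_comm _ _⟩
    have hkE := (supp hS1).star_subset _ hkm
    have hkE' : k ∈ K.E ∧ k ≠ e ∧ k ≠ e2 := by
      simp only [supp_E, sube_E, mem_erase] at hkE
      exact ⟨hkE.2.2, hkE.2.1, hkE.1⟩
    have ho1 : (supp hS1).oth e1 (K.t e) = a := MG.J.oth hS2.hl hmE hmerged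
    have hok : (supp hS1).oth k (K.t e) = a := by
      have hcase : (f1 = e1 ∧ f2 = k) ∨ (f1 = k ∧ f2 = e1) := by
        have m1 : f1 ∈ ({e1, k} : Finset ℕ) := by rw [← hks]; simp
        have m2 : f2 ∈ ({e1, k} : Finset ℕ) := by rw [← hks]; simp
        simp only [mem_insert, mem_singleton] at m1 m2
        have := hS2.hne
        rcases m1 with rfl | rfl <;> rcases m2 with rfl | rfl <;> simp_all
      rcases hcase with ⟨x1, x2⟩ | ⟨x1, x2⟩
      · rw [← x2, ← h, x1, ho1]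
      · rw [← x1, h, x2, ho1]
    have hkJ : (supp hS1).J k (K.t e) a := by
      rw [← hok]
      exact J_star hS2.hl hkm
    have hkJ' : K.J k (K.t e) a := (supp_J hS1 hke _ _).1 hkJ
    have hkf : k ≠ f ∧ k ≠ g := by
      have : k ∉ ({f, g} : Finset ℕ) := by
        rw [← hgs]
        simp [hke, hkE'.2.2]
      simpa using this
    have := cap hl hc hK hV hB hst hsa hat.symm (K.hs e he) (K.ht e he) haV he hf hgE.1 hkE'.1
      hef hgE.2.symm hkE'.2.1.symm hgf.symm hkf.1.symm hkf.2.symm hJe hfJ hgJ hkJ'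
    omega

/-- the classification statement -/
def Cls (h n m p q : ℕ) (Ls : List (ℕ × ℕ)) : Prop :=
  ∀ K : MG, K.Cyc h → K.NoLoops → K.Cubic → #K.V = n → #K.E = m → q * K.W < p * h →
    InL K n m Ls

theorem step {h x p q p' q' : ℕ} {Lp Lc : List (ℕ × ℕ)} (hq : 0 < q) (hq' : 0 < q')
    (hpar : Cls h (2 * (x + 1)) (3 * (x + 1)) p' q' Lp)
    (hchk : ∀ t ∈ Lp, ∀ i < 3 * (x + 1), ∀ j < 3 * (x + 1) + 1,
      ∃ c, cchk (cA (dg t.1) (2 * (x + 1)) (3 * (x + 1)))
        (cB (dg t.2) (2 * (x + 1)) (3 * (x + 1)) i j) (2 * (x + 1) + 2) (3 * (x + 1) + 3) p q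
        Lc c = true)
    (h1 : p * (3 * (x + 1) + 2) * q' ≤ p' * (3 * (x + 1) + 3) * q)
    (h2 : 2 * p * q' ≤ 2 * p' * q + q * q')
    (hA : ∀ K' : MG, K'.Cyc h → K'.V.Nonempty → #K'.V + (x + 1) ≤ #K'.E →
      2 * p * h ≤ 2 * q * K'.W + 3 * q * h)
    (hB : ∀ K' : MG, K'.Cyc h → K'.V.Nonempty → #K'.V + x ≤ #K'.E → 1 ≤ x →
      2 * p * h ≤ 2 * q * K'.W + 3 * q * h) :
    Cls h (2 * (x + 1) + 2) (3 * (x + 1) + 3) p q Lc := by
  classical
  intro K hK hl hc hV hE hW
  by_cases hp : ∃ e ∈ K.E, ∃ f ∈ K.E, e ≠ f ∧ K.Par e f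
  · -- parallel edges
    obtain ⟨e, he, f, hf, hne, hpar', hwe⟩ : ∃ e ∈ K.E, ∃ f ∈ K.E, e ≠ f ∧ K.Par e f ∧
        h ≤ 2 * K.w e := by
      obtain ⟨e, he, f, hf, hne, hpp⟩ := hp
      have h3 := hK _ (K.pair_ev he hf hne hpp) (by simp)
      rw [K.wt_pair hne] at h3
      by_cases h4 : K.w f ≤ K.w e
      · exact ⟨e, he, f, hf, hne, hpp, by omega⟩
      · refine ⟨f, hf, e, he, hne.symm, ?_, by omega⟩
        rcases hpp with ⟨a, b⟩ | ⟨a, b⟩
        · exact Or.inl ⟨a.symm, b.symm⟩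
        · exact Or.inr ⟨b.symm, a.symm⟩
    obtain ⟨e1, e2, hS1, hnext⟩ := exists_data hl hc he
    obtain ⟨n1, n2⟩ := par_noLoops hl hc hK (x := x) (by omega) hA hB hW he hf hne hpar' hS1
    obtain ⟨f1, f2, hS2, d1, d2, d3, d4⟩ := hnext n1
    have hK3 : (supp hS2).Cyc h := supp_Cyc hS2 (supp_Cyc hS1 (hK.sube _ _))
    apply step_core hK hW hchk he hS1 hS2
    apply hpar _ hK3 (n2 f1 f2 hS2) d1 (by omega) (by omega)
    -- weight
    have h5 : q * (2 * (supp hS2).W + h) ≤ q * (2 * K.W) := Nat.mul_le_mul_left _ (by omega)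
    have h6 : q' * (q * (2 * (supp hS2).W + h)) ≤ q' * (2 * (q * K.W)) :=
      Nat.mul_le_mul_left _ (by linarith)
    have h7 : q' * (2 * (q * K.W)) < q' * (2 * (p * h)) :=
      Nat.mul_lt_mul_of_pos_left (by omega) hq'
    have h8 : 2 * p * q' * h ≤ (2 * p' * q + q * q') * h := Nat.mul_le_mul_right _ h2
    have h9 : 2 * q * (q' * (supp hS2).W) < 2 * q * (p' * h) := by nlinarith
    exact Nat.lt_of_mul_lt_mul_left h9
  · push Not at hp
    obtain ⟨e, he, hwe⟩ : ∃ e ∈ K.E, K.W ≤ (3 * (x + 1) + 3) * K.w e := by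
      by_contra hcon
      push Not at hcon
      have h3 : ∑ e ∈ K.E, (3 * (x + 1) + 3) * K.w e < ∑ e ∈ K.E, K.W :=
        sum_lt_sum_of_nonempty (card_pos.1 (by omega)) hcon
      rw [← mul_sum, sum_const, smul_eq_mul, hE] at h3
      have h4 : ∑ e ∈ K.E, K.w e = K.W := rfl
      rw [h4] at h3
      omega
    obtain ⟨e1, e2, hS1, hnext⟩ := exists_data hl hc he
    obtain ⟨n1, n2⟩ := simple_noLoops hl hc hp he hS1
    obtain ⟨f1, f2, hS2, d1, d2, d3, d4⟩ := hnext n1
    have hK3 : (supp hS2).Cyc h := supp_Cyc hS2 (supp_Cyc hS1 (hK.sube _ _))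
    apply step_core hK hW hchk he hS1 hS2
    apply hpar _ hK3 (n2 f1 f2 hS2) d1 (by omega) (by omega)
    set M := 3 * (x + 1) + 2 with hM
    set W3 := (supp hS2).W
    have h5 : (M + 1) * W3 ≤ M * K.W := by
      have : (M + 1) * W3 + (M + 1) * K.w e = (M + 1) * K.W := by rw [← mul_add, d4]
      have hwe' : K.W ≤ (M + 1) * K.w e := hwe
      nlinarith
    have h6 : q * ((M + 1) * W3) ≤ q * (M * K.W) := Nat.mul_le_mul_left _ h5
    have h7 : M * (q * K.W) < M * (p * h) := Nat.mul_lt_mul_of_pos_left hW (by omega)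
    have h8 : q' * (q * ((M + 1) * W3)) < q' * (M * (p * h)) := by
      calc q' * (q * ((M + 1) * W3)) ≤ q' * (q * (M * K.W)) := Nat.mul_le_mul_left _ h6
        _ = q' * (M * (q * K.W)) := by ring
        _ < _ := Nat.mul_lt_mul_of_pos_left h7 hq'
    have h9 : p * M * q' * h ≤ p' * (M + 1) * q * h := Nat.mul_le_mul_right _ h1
    have h10 : ((M + 1) * q) * (q' * W3) < ((M + 1) * q) * (p' * h) := by
      calc ((M + 1) * q) * (q' * W3) = q' * (q * ((M + 1) * W3)) := by ring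
        _ < q' * (M * (p * h)) := h8
        _ = p * M * q' * h := by ring
        _ ≤ p' * (M + 1) * q * h := h9
        _ = _ := by ring
    exact Nat.lt_of_mul_lt_mul_left h10

/-- the theta graph -/
theorem cls1 (h p q : ℕ) : Cls h 2 3 p q L1 := by
  intro K hK hl hc hV hE hW
  obtain ⟨a, b, hab, hVV⟩ := card_eq_two.1 hV
  obtain ⟨e1, e2, e3, h12, h13, h23, hEE⟩ := card_eq_three.1 hE
  have hJ : ∀ e ∈ K.E, K.J e a b := by
    intro e he
    have s1 := K.hs e he
    have t1 := K.ht e he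
    have l1 := hl e he
    rw [hVV] at s1 t1
    simp only [mem_insert, mem_singleton] at s1 t1
    unfold J
    rcases s1 with s1 | s1 <;> rcases t1 with t1 | t1
    · exact absurd (s1.trans t1.symm) l1
    · exact Or.inl ⟨s1, t1⟩
    · exact Or.inr ⟨s1, t1⟩
    · exact absurd (s1.trans t1.symm) l1
  refine ⟨(0x0, 0x111), by simp [L1], fun k => if k = 0 then a else b,
    fun k => if k = 0 then e1 else if k = 1 then e2 else e3, ?_, ?_, ?_, ?_, ?_⟩
  · intro i hi j hj h
    interval_cases i <;> interval_cases j <;> simp_all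
  · rw [hVV]
    simp [range_add_one, image_insert, pair_comm]
  · intro i hi j hj h
    interval_cases i <;> interval_cases j <;> simp_all
  · rw [hEE]
    ext z
    simp only [mem_image, mem_range, mem_insert, mem_singleton]
    constructor
    · rintro ⟨k, hk, rfl⟩
      interval_cases k <;> simp
    · rintro (rfl | rfl | rfl)
      · exact ⟨0, by norm_num, by simp⟩
      · exact ⟨1, by norm_num, by simp⟩
      · exact ⟨2, by norm_num, by simp⟩
  · intro k hk
    have m1 : e1 ∈ K.E := by rw [hEE]; simp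
    have m2 : e2 ∈ K.E := by rw [hEE]; simp
    have m3 : e3 ∈ K.E := by rw [hEE]; simp
    interval_cases k
    · simp [dg]; exact hJ _ m1
    · simp [dg]; exact hJ _ m2
    · simp [dg]; exact hJ _ m3

end Pool.H29E
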