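import Pool.Agent.H29E.Iso

set_option linter.unusedSimpArgs false
set_option linter.unusedVariables false

/-! Tables: for every parity class of a skeleton, a vertex colouring with few bad edges or a
family of odd even-degree sets. -/

namespace Pool.H29E

open Finset Pool.H82.SC

variable {K : MG} {n m : ℕ} {A B fV fE : ℕ → ℕ}

theorem kill_gen (L : Lab K n m A B fV fE) {g : ℕ} {M : ℕ → ℕ} {c Y : ℕ}
    (hc : c ≤ 30) (hM : ∀ k, M k < 2 ^ (5 * c)) (hchk : kchk M A B c Y m = true)
    (hg : ∀ j < c, K.Ev ((cz M m j).image fE) → g ≤ K.wt ((cz M m j).image fE)) :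
    c * g ≤ Y * K.W := by
  unfold kchk at hchk
  rw [Bool.and_eq_true, Bool.and_eq_true] at hchk
  obtain ⟨hcov, hacc, hor⟩ := hchk
  have hacc' := Nat.eq_of_beq_eq_true hacc
  have hor' := Nat.eq_of_beq_eq_true hor
  have h1 := sum_cz hc hor' hcov (fun k => K.w (fE k))
  rw [← L.W_eq] at h1
  refine le_trans ?_ h1
  calc c * g = ∑ j ∈ range c, g := by simp
    _ ≤ _ := by
      apply sum_le_sum
      intro j hj
      have hj' := mem_range.1 hj
      have h2 := hg j hj' (cz_ev L hM hacc' hj')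
      have hsub : cz M m j ⊆ range m := filter_subset _ _
      rwa [L.wt_image hsub] at h2

/-- `v` is incident with no edge of the list -/
def nin (A B : ℕ → ℕ) (v : ℕ) : List (ℕ × ℕ) → Bool
  | [] => true
  | p :: l => (!(Nat.beq (A p.2) v) && !(Nat.beq (B p.2) v)) && nin A B v l

/-- leaf removal order of a forest -/
def tchk (A B : ℕ → ℕ) : List (ℕ × ℕ) → Bool
  | [] => true
  | p :: l => (((Nat.beq (A p.2) p.1 && !(Nat.beq (B p.2) p.1)) ||
      (Nat.beq (B p.2) p.1 && !(Nat.beq (A p.2) p.1))) && nin A B p.1 l) && tchk A B l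

lemma beq_false_ne {a b : ℕ} (h : (!(Nat.beq a b)) = true) : a ≠ b := by
  rintro rfl
  simp at h

lemma nin_spec {v : ℕ} : ∀ l : List (ℕ × ℕ), nin A B v l = true → ∀ p ∈ l, A p.2 ≠ v ∧ B p.2 ≠ v := by
  intro l
  induction l with
  | nil => intro _ p hp; simp at hp
  | cons q l ih =>
    intro h p hp
    rw [nin, Bool.and_eq_true, Bool.and_eq_true] at h
    rcases List.mem_cons.1 hp with h1 | h1
    · subst h1
      exact ⟨beq_false_ne h.1.1, beq_false_ne h.1.2⟩
    · exact ih h.2 p h1

lemma tchk_spec (par : ℕ → Bool) : ∀ l : List (ℕ × ℕ), tchk A B l = true →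
    ∃ c : ℕ → Bool, ∀ p ∈ l, (par p.2 ^^ (c (A p.2) ^^ c (B p.2))) = false := by
  intro l
  induction l with
  | nil => intro _; exact ⟨fun _ => false, fun p hp => by simp at hp⟩
  | cons q l ih =>
    intro h
    rw [tchk, Bool.and_eq_true, Bool.and_eq_true, Bool.or_eq_true, Bool.and_eq_true,
      Bool.and_eq_true] at h
    obtain ⟨⟨h1, h2⟩, h3⟩ := h
    obtain ⟨c, hc⟩ := ih h3
    have hn := nin_spec l h2
    have key : ∀ b : Bool, ∀ p ∈ l, (par p.2 ^^ (Function.update c q.1 b (A p.2) ^^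
        Function.update c q.1 b (B p.2))) = false := by
      intro b p hp
      obtain ⟨n1, n2⟩ := hn p hp
      rw [Function.update_of_ne n1, Function.update_of_ne n2]
      exact hc p hp
    rcases h1 with ⟨e1, e2⟩ | ⟨e1, e2⟩
    · have e1' := Nat.eq_of_beq_eq_true e1
      have e2' := beq_false_ne e2
      refine ⟨Function.update c q.1 (par q.2 ^^ c (B q.2)), ?_⟩
      intro p hp
      rcases List.mem_cons.1 hp with h4 | h4
      · subst h4
        rw [e1', Function.update_self, Function.update_of_ne e2']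
        cases par p.2 <;> cases c (B p.2) <;> rfl
      · exact key _ p h4
    · have e1' := Nat.eq_of_beq_eq_true e1
      have e2' := beq_false_ne e2
      refine ⟨Function.update c q.1 (par q.2 ^^ c (A q.2)), ?_⟩
      intro p hp
      rcases List.mem_cons.1 hp with h4 | h4
      · subst h4
        rw [e1', Function.update_self, Function.update_of_ne e2']
        cases par p.2 <;> cases c (A p.2) <;> rfl
      · exact key _ p h4

/-- number of bad edges of the colouring `X` in the class `R` -/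
def viol (A B : ℕ → ℕ) (R X : ℕ) : ℕ → ℕ
  | 0 => 0
  | k + 1 => viol A B R X k + ((R >>> k) + (X >>> A k) + (X >>> B k)) % 2

lemma tb (x i : ℕ) : x.testBit i = decide ((x >>> i) % 2 = 1) := by
  rw [Nat.testBit_eq_decide_div_mod_eq, Nat.shiftRight_eq_div_pow]

lemma viol_eq (R X m : ℕ) : viol A B R X m =
    #((range m).filter fun k => (R.testBit k ^^ (X.testBit (A k) ^^ X.testBit (B k))) = true) := by
  induction m with
  | zero => simp [viol]
  | succ m ih =>
    rw [viol, ih, range_add_one, filter_insert]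
    have hnm : m ∉ (range m).filter fun k =>
        (R.testBit k ^^ (X.testBit (A k) ^^ X.testBit (B k))) = true := by simp
    rw [tb R m, tb X (A m), tb X (B m)]
    rcases Nat.mod_two_eq_zero_or_one (R >>> m) with h1 | h1 <;>
    rcases Nat.mod_two_eq_zero_or_one (X >>> A m) with h2 | h2 <;>
    rcases Nat.mod_two_eq_zero_or_one (X >>> B m) with h3 | h3 <;>
    · have h4 : ((R >>> m) + (X >>> A m) + (X >>> B m)) % 2 =
        ((R >>> m) % 2 + (X >>> A m) % 2 + (X >>> B m) % 2) % 2 := by omega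
      rw [h4, h1, h2, h3]
      simp [card_insert_of_notMem hnm]

/-- table -/
inductive Tr
  | v (X : ℕ) : Tr
  | o (c Y P : ℕ) : Tr
  | z : Tr
  | n (a b : Tr) : Tr

/-- xor of the blocks of the odd edges -/
def kxr (M : ℕ → ℕ) (R : ℕ) : ℕ → ℕ
  | 0 => 0
  | k + 1 => kxr M R k ^^^ (M k * ((R >>> k) % 2))

/-- `d`: allowed number of bad edges; `p/q`: required ratio; `sp`, `R0`: special class -/
def tab (A B : ℕ → ℕ) (m d p q : ℕ) (sp : Bool) (R0 : ℕ) : List ℕ → ℕ → Tr → Bool
  | [], R, .v X => Nat.ble (viol A B R X m) d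
  | [], R, .o c Y P => (Nat.ble c 30 && (Nat.ble 1 Y && Nat.ble (p * Y) (q * c))) &&
      (kchk (fun k => (P >>> (5 * c * k)) % 2 ^ (5 * c)) A B c Y m &&
        Nat.beq (31 * kxr (fun k => (P >>> (5 * c * k)) % 2 ^ (5 * c)) R m + 1) (32 ^ c))
  | [], R, .z => sp && Nat.beq R R0
  | _ :: _, _, .v _ => false
  | _ :: _, _, .o _ _ _ => false
  | _ :: _, _, .z => false
  | [], _, .n _ _ => false
  | k :: ks, R, .n a b => tab A B m d p q sp R0 ks R a &&
      tab A B m d p q sp R0 ks (R ||| (1 <<< k)) b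

lemma tab_walk {d p q : ℕ} {sp : Bool} {R0 : ℕ} (r : ℕ → Bool) :
    ∀ (nf : List ℕ) (R : ℕ) (T : Tr), tab A B m d p q sp R0 nf R T = true →
    ∃ R' T', tab A B m d p q sp R0 [] R' T' = true ∧
      ∀ j, R'.testBit j = (R.testBit j || (decide (j ∈ nf) && r j)) := by
  intro nf
  induction nf with
  | nil => intro R T h; exact ⟨R, T, h, fun j => by simp⟩
  | cons k ks ih =>
    intro R T h
    cases T with
    | v X => rw [tab] at h; exact absurd h (by simp)
    | o c Y P => rw [tab] at h; exact absurd h (by simp)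
    | z => rw [tab] at h; exact absurd h (by simp)
    | n a b =>
      rw [tab, Bool.and_eq_true] at h
      by_cases hr : r k = true
      · obtain ⟨R', T', h1, h2⟩ := ih _ _ h.2
        refine ⟨R', T', h1, fun j => ?_⟩
        rw [h2, Nat.testBit_or]
        by_cases hj : j = k
        · subst hj
          simp [hr]
        · have h3 : (1 <<< k).testBit j = false := by
            rw [Nat.one_shiftLeft, Nat.testBit_two_pow_of_ne (Ne.symm hj)]
          rw [h3]
          simp [hj]
      · obtain ⟨R', T', h1, h2⟩ := ih _ _ h.1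
        refine ⟨R', T', h1, fun j => ?_⟩
        rw [h2]
        by_cases hj : j = k
        · subst hj
          rw [Bool.not_eq_true] at hr
          simp [hr]
        · simp [hj]

/-- every edge is in the forest or in the list of the other edges -/
def cov (tl : List (ℕ × ℕ)) (nf : List ℕ) : ℕ → Bool
  | 0 => true
  | k + 1 => (tl.any (fun p => Nat.beq p.2 k) || nf.any (fun j => Nat.beq j k)) && cov tl nf k

lemma cov_spec {tl : List (ℕ × ℕ)} {nf : List ℕ} {m : ℕ} (h : cov tl nf m = true) :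
    ∀ k < m, (∃ p ∈ tl, p.2 = k) ∨ k ∈ nf := by
  induction m with
  | zero => intro k hk; omega
  | succ m ih =>
    rw [cov, Bool.and_eq_true, Bool.or_eq_true, List.any_eq_true, List.any_eq_true] at h
    intro k hk
    rcases Nat.lt_succ_iff_lt_or_eq.1 hk with h1 | h1
    · exact ih h.2 k h1
    · subst h1
      rcases h.1 with ⟨p, hp, h2⟩ | ⟨j, hj, h2⟩
      · exact Or.inl ⟨p, hp, Nat.eq_of_beq_eq_true h2⟩
      · have := Nat.eq_of_beq_eq_true h2
        subst this
        exact Or.inr hj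

/-- parity of an edge -/
def par (K : MG) (fE : ℕ → ℕ) (k : ℕ) : Bool := decide (Odd (K.w (fE k)))

lemma Lab.inv (L : Lab K n m A B fV fE) : ∃ iv : ℕ → ℕ, ∀ i < n, iv (fV i) = i := by
  classical
  refine ⟨fun u => if h : ∃ i < n, fV i = u then h.choose else 0, fun i hi => ?_⟩
  have hex : ∃ j < n, fV j = fV i := ⟨i, hi, rfl⟩
  simp only [hex, dif_pos]
  exact L.vinj _ hex.choose_spec.1 _ hi hex.choose_spec.2

lemma bip_of (L : Lab K n m A B fV fE) {c : ℕ → Bool} {F : Finset ℕ} (hF : F ⊆ range m)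
    (h : ∀ k < m, k ∉ F → (par K fE k ^^ (c (A k) ^^ c (B k))) = false) :
    ∃ S ⊆ K.V, #S ≤ #F ∧ (K.ind (K.V \ S)).Bip := by
  classical
  obtain ⟨iv, hiv⟩ := L.inv
  refine ⟨F.image fun k => fV (A k), ?_, card_image_le, fun u => c (iv u), ?_⟩
  · intro u hu
    obtain ⟨k, hk, rfl⟩ := mem_image.1 hu
    exact L.vmem (L.ends k (mem_range.1 (hF hk))).1
  · intro e he
    rw [MG.ind_E, mem_filter] at he
    obtain ⟨heE, h1, h2⟩ := he
    obtain ⟨k, hk, rfl⟩ := L.esurj heE
    obtain ⟨a1, a2, a3⟩ := L.ends k hk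
    have hkF : k ∉ F := by
      intro hkF
      have hm : fV (A k) ∈ F.image fun k => fV (A k) := mem_image_of_mem _ hkF
      rcases a3 with ⟨b1, b2⟩ | ⟨b1, b2⟩
      · rw [b1] at h1
        exact (mem_sdiff.1 h1).2 hm
      · rw [b2] at h2
        exact (mem_sdiff.1 h2).2 hm
    have h3 := h k hk hkF
    have h4 : (c (iv (K.s (fE k))) ^^ c (iv (K.t (fE k)))) = (c (A k) ^^ c (B k)) := by
      rcases a3 with ⟨b1, b2⟩ | ⟨b1, b2⟩
      · rw [b1, b2, hiv _ a1, hiv _ a2]
      · rw [b1, b2, hiv _ a1, hiv _ a2, Bool.xor_comm]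
    simp only [MG.ind_s, MG.ind_t, MG.ind_w]
    rw [← h4] at h3
    unfold par at h3
    rw [← Nat.not_odd_iff_even]
    by_cases ho : Odd (K.w (fE k))
    · rw [decide_eq_true ho] at h3
      simp only [ho, not_true_eq_false, iff_false]
      intro h5
      rw [h5] at h3
      simp at h3
    · rw [decide_eq_false ho] at h3
      simp only [ho, not_false_eq_true, iff_true]
      revert h3
      cases c (iv (K.s (fE k))) <;> cases c (iv (K.t (fE k))) <;> simp

lemma ev_sum {z : Finset ℕ} (hz : K.Ev z) (f : ℕ → ZMod 2) :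
    ∑ e ∈ z, (f (K.s e) + f (K.t e)) = 0 := by
  have h1 : ∀ e ∈ z, f (K.s e) + f (K.t e) = ∑ v ∈ K.V, K.inc e v * f v := by
    intro e he
    have hs := K.hs e (hz.1 he)
    have ht := K.ht e (hz.1 he)
    unfold MG.inc
    simp only [add_mul, sum_add_distrib, ite_mul, one_mul, zero_mul]
    rw [sum_ite_eq, sum_ite_eq, if_pos hs, if_pos ht]
  rw [sum_congr rfl h1, sum_comm]
  apply sum_eq_zero
  intro v _
  rw [← sum_mul]
  have := hz.2 v
  unfold MG.bd at this
  rw [this, zero_mul]

lemma kxr_testBit {M : ℕ → ℕ} {R p : ℕ} (m : ℕ) :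
    bz ((kxr M R m).testBit p) = ∑ k ∈ (range m).filter (fun k => (M k).testBit p = true),
      bz (R.testBit k) := by
  induction m with
  | zero => simp [kxr, bz]
  | succ m ih =>
    rw [kxr, Nat.testBit_xor, bz_xor, ih, range_add_one, filter_insert]
    have h1 : bz ((M m * ((R >>> m) % 2)).testBit p) =
        if (M m).testBit p = true then bz (R.testBit m) else 0 := by
      rw [tb R m]
      rcases Nat.mod_two_eq_zero_or_one (R >>> m) with h2 | h2
      · rw [h2]; simp [bz]
      · rw [h2]; simp [bz]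
    rw [h1]
    split_ifs with h2
    · rw [sum_insert (by simp), add_comm]
    · rw [add_zero]

lemma bz_par (K : MG) (fE : ℕ → ℕ) (k : ℕ) : ((K.w (fE k) : ℕ) : ZMod 2) = bz (par K fE k) := by
  unfold par bz
  by_cases h : Odd (K.w (fE k))
  · rw [if_pos (decide_eq_true h)]
    exact (ZMod.natCast_eq_one_iff_odd).2 h
  · rw [decide_eq_false h]
    rw [Nat.not_odd_iff_even] at h
    simp only [Bool.false_eq_true, if_false]
    exact (ZMod.natCast_eq_zero_iff_even).2 h

/-- lower bound for the odd cycles -/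
def Odds (K : MG) (g : ℕ) : Prop := ∀ z, K.Ev z → Odd (K.wt z) → g ≤ K.wt z

theorem tab_sound (L : Lab K n m A B fV fE) {d p q : ℕ} {sp : Bool} {R0 : ℕ}
    {tl : List (ℕ × ℕ)} {nf : List ℕ} {T : Tr} (ht : tchk A B tl = true)
    (hc : cov tl nf m = true) (hT : tab A B m d p q sp R0 nf 0 T = true) :
    (∃ S ⊆ K.V, #S ≤ d ∧ (K.ind (K.V \ S)).Bip) ∨ (∀ g, Odds K g → p * g ≤ q * K.W) ∨
    (sp = true ∧ ∃ c : ℕ → Bool, ∀ k < m, (par K fE k ^^ (c (A k) ^^ c (B k))) = R0.testBit k) := by
  classical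
  obtain ⟨c, hcc⟩ := tchk_spec (par K fE) tl ht
  obtain ⟨R, T', h1, h2⟩ := tab_walk (fun k => par K fE k ^^ (c (A k) ^^ c (B k))) nf 0 T hT
  have hR : ∀ k < m, (par K fE k ^^ (c (A k) ^^ c (B k))) = R.testBit k := by
    intro k hk
    rw [h2, Nat.zero_testBit, Bool.false_or]
    rcases cov_spec hc k hk with ⟨pp, hp, rfl⟩ | h3
    · rw [hcc pp hp, Bool.and_false]
    · simp [h3]
  cases T' with
  | v X =>
    left
    rw [tab] at h1
    have h3 := Nat.le_of_ble_eq_true h1
    rw [viol_eq] at h3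
    obtain ⟨S, hS, hS1, hS2⟩ := bip_of L (c := fun i => c i ^^ X.testBit i)
      (F := (range m).filter fun k => (R.testBit k ^^ (X.testBit (A k) ^^ X.testBit (B k))) = true)
      (filter_subset _ _) (by
        intro k hk hkF
        have h4 : ¬ ((R.testBit k ^^ (X.testBit (A k) ^^ X.testBit (B k))) = true) := by
          intro h5
          exact hkF (mem_filter.2 ⟨mem_range.2 hk, h5⟩)
        rw [← hR k hk, Bool.not_eq_true] at h4
        revert h4
        cases par K fE k <;> cases c (A k) <;> cases c (B k) <;> cases X.testBit (A k) <;>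
          cases X.testBit (B k) <;> simp)
    exact ⟨S, hS, hS1.trans h3, hS2⟩
  | o cc Y P =>
    right; left
    intro g hg
    rw [tab, Bool.and_eq_true, Bool.and_eq_true, Bool.and_eq_true, Bool.and_eq_true] at h1
    obtain ⟨⟨c30, hY, hpq⟩, hk1, hk2⟩ := h1
    have c30' := Nat.le_of_ble_eq_true c30
    have hY' := Nat.le_of_ble_eq_true hY
    have hpq' := Nat.le_of_ble_eq_true hpq
    have hk2' := Nat.eq_of_beq_eq_true hk2
    set M : ℕ → ℕ := fun k => (P >>> (5 * cc * k)) % 2 ^ (5 * cc) with hM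
    have h4 : cc * g ≤ Y * K.W := by
      apply kill_gen L c30' (fun k => Nat.mod_lt _ (by positivity)) hk1
      intro j hj hev
      apply hg _ hev
      have hsub : cz M m j ⊆ range m := filter_subset _ _
      rw [L.wt_image hsub, ← ZMod.natCast_eq_one_iff_odd]
      push_cast
      have h5 : (kxr M R m).testBit (5 * j) = true := (rep_testBit hk2' (5 * j)).2 ⟨j, hj, rfl⟩
      have h6 := kxr_testBit (M := M) (R := R) (p := 5 * j) m
      rw [h5] at h6
      have h7 : ∑ k ∈ cz M m j, ((K.w (fE k) : ℕ) : ZMod 2) =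
          ∑ k ∈ cz M m j, bz (R.testBit k) + ∑ k ∈ cz M m j, (bz (c (A k)) + bz (c (B k))) := by
        rw [← sum_add_distrib]
        apply sum_congr rfl
        intro k hk
        rw [bz_par, ← hR k (mem_range.1 (hsub hk)), bz_xor, bz_xor]
        generalize bz (par K fE k) = x
        generalize bz (c (A k)) = y
        generalize bz (c (B k)) = z
        revert x y z
        decide
      have h8 : ∑ k ∈ cz M m j, (bz (c (A k)) + bz (c (B k))) = 0 := by
        obtain ⟨iv, hiv⟩ := L.inv
        have h9 := ev_sum hev (fun u => bz (c (iv u)))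
        rw [sum_image (by
          intro a ha b hb hab
          exact L.einj' (by exact_mod_cast hsub ha) (by exact_mod_cast hsub hb) hab)] at h9
        rw [← h9]
        apply sum_congr rfl
        intro k hk
        obtain ⟨a1, a2, a3⟩ := L.ends k (mem_range.1 (hsub hk))
        rcases a3 with ⟨b1, b2⟩ | ⟨b1, b2⟩
        · rw [b1, b2, hiv _ a1, hiv _ a2]
        · rw [b1, b2, hiv _ a1, hiv _ a2, add_comm]
      rw [h7, h8, add_zero]
      have h10 : cz M m j = (range m).filter (fun k => (M k).testBit (5 * j) = true) := rfl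
      rw [h10, ← h6]
      rfl
    have h5 : p * Y * g ≤ q * cc * g := Nat.mul_le_mul_right _ hpq'
    have h6 : q * (cc * g) ≤ q * (Y * K.W) := Nat.mul_le_mul_left _ h4
    have h7 : Y * (p * g) ≤ Y * (q * K.W) := by nlinarith
    exact Nat.le_of_mul_le_mul_left h7 (by omega)
  | z =>
    right; right
    rw [tab, Bool.and_eq_true] at h1
    have h3 := Nat.eq_of_beq_eq_true h1.2
    subst h3
    exact ⟨h1.1, c, hR⟩
  | n a b => rw [tab] at h1; exact absurd h1 (by simp)

/-- full check of a table -/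
def tck (A B : ℕ → ℕ) (m d p q : ℕ) (sp : Bool) (R0 : ℕ) (tl : List (ℕ × ℕ)) (nf : List ℕ)
    (T : Tr) : Bool :=
  tchk A B tl && (cov tl nf m && tab A B m d p q sp R0 nf 0 T)

theorem tck_sound (L : Lab K n m A B fV fE) {d p q : ℕ} {sp : Bool} {R0 : ℕ}
    {tl : List (ℕ × ℕ)} {nf : List ℕ} {T : Tr} (h : tck A B m d p q sp R0 tl nf T = true) :
    (∃ S ⊆ K.V, #S ≤ d ∧ (K.ind (K.V \ S)).Bip) ∨ (∀ g, Odds K g → p * g ≤ q * K.W) ∨
    (sp = true ∧ ∃ c : ℕ → Bool, ∀ k < m, (par K fE k ^^ (c (A k) ^^ c (B k))) = R0.testBit k) := by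
  unfold tck at h
  rw [Bool.and_eq_true, Bool.and_eq_true] at h
  exact tab_sound L h.1 h.2.1 h.2.2

end Pool.H29E
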