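import Pool.Agent.H29E.Tab

set_option maxRecDepth 100000

namespace Pool.H29E

theorem tb2_0 : tck (dg 0x332000) (dg 0x221113) 6 2 3 1 false 0
  [(2, 4), (1, 1), (3, 0)]
  [2, 3, 5]
  (.n (.n (.n (.v 0) (.v 0)) (.n (.v 0) (.v 4))) (.n (.n (.v 0) (.v 0)) (.n (.v 2) (.v 2)))) = true := by
  decide +kernel

theorem tb2_1 : tck (dg 0x332000) (dg 0x211132) 6 2 3 1 false 0
  [(1, 2), (3, 1), (2, 0)]
  [3, 4, 5]
  (.n (.n (.n (.v 0) (.v 0)) (.n (.v 0) (.v 7))) (.n (.n (.v 0) (.v 4)) (.n (.v 2) (.v 2)))) = true := by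
  decide +kernel

theorem tb3_0 : tck (dg 0x554332000) (dg 0x413221154) 9 2 3 1 false 0
  [(2, 3), (3, 6), (1, 2), (5, 1), (4, 0)]
  [4, 5, 7, 8]
  (.n (.n (.n (.n (.v 0) (.v 0)) (.n (.v 0) (.v 31))) (.n (.n (.v 0) (.v 0)) (.n (.v 0) (.v 31)))) (.n (.n (.n (.v 0) (.v 0)) (.n (.v 0) (.v 31))) (.n (.n (.v 4) (.v 24)) (.n (.v 6) (.v 6))))) = true := by
  decide +kernel

theorem tb3_1 : tck (dg 0x554332000) (dg 0x413225114) 9 2 3 1 false 0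
  [(2, 4), (5, 8), (3, 6), (1, 1), (4, 0)]
  [2, 3, 5, 7]
  (.n (.n (.n (.n (.v 0) (.v 0)) (.n (.v 0) (.v 0))) (.n (.n (.v 0) (.v 31)) (.n (.v 4) (.v 4)))) (.n (.n (.n (.v 0) (.v 2)) (.n (.v 0) (.v 2))) (.n (.n (.v 0) (.v 2)) (.n (.v 4) (.v 6))))) = true := by
  decide +kernel

theorem tb3_2 : tck (dg 0x554332000) (dg 0x421251143) 9 2 3 1 false 0
  [(2, 5), (5, 4), (1, 2), (4, 1), (3, 0)]
  [3, 6, 7, 8]
  (.n (.n (.n (.n (.v 0) (.v 0)) (.n (.v 0) (.v 31))) (.n (.n (.v 0) (.v 16)) (.n (.v 0) (.v 16)))) (.n (.n (.n (.v 0) (.v 19)) (.n (.v 4) (.v 4))) (.n (.n (.v 2) (.v 2)) (.n (.v 2) (.v 20))))) = true := by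
  decide +kernel

theorem tb3_3 : tck (dg 0x554332000) (dg 0x412251134) 9 2 3 1 false 0
  [(5, 8), (2, 6), (1, 2), (3, 1), (4, 0)]
  [3, 4, 5, 7]
  (.n (.n (.n (.n (.v 0) (.v 0)) (.n (.v 0) (.v 0))) (.n (.n (.v 0) (.v 31)) (.n (.v 8) (.v 8)))) (.n (.n (.n (.v 0) (.v 2)) (.n (.v 4) (.v 2))) (.n (.n (.v 0) (.v 2)) (.n (.v 4) (.v 11))))) = true := by
  decide +kernel

theorem tb4_6 : tck (dg 0x776554332000) (dg 0x625413271164) 12 2 3 1 false 0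
  [(2, 3), (7, 11), (5, 8), (3, 6), (1, 2), (6, 1), (4, 0)]
  [4, 5, 7, 9, 10]
  (.n (.n (.n (.n (.n (.v 0) (.v 0)) (.n (.v 0) (.v 0))) (.n (.n (.v 0) (.v 0)) (.n (.v 32) (.v 32)))) (.n (.n (.n (.v 0) (.v 4)) (.n (.v 0) (.v 4))) (.n (.n (.v 0) (.v 6)) (.n (.v 32) (.v 6))))) (.n (.n (.n (.n (.v 0) (.v 127)) (.n (.v 0) (.v 63))) (.n (.n (.v 0) (.v 14)) (.n (.v 32) (.v 60)))) (.n (.n (.n (.v 8) (.v 4)) (.n (.v 8) (.v 63))) (.n (.n (.v 8) (.v 6)) (.n (.v 56) (.v 56)))))) = true := by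
  decide +kernel

theorem tb4_12 : tck (dg 0x776554332000) (dg 0x624421751163) 12 2 3 1 false 0
  [(2, 3), (4, 9), (7, 5), (5, 4), (1, 2), (6, 1), (3, 0)]
  [6, 7, 8, 10, 11]
  (.n (.n (.n (.n (.n (.v 0) (.v 0)) (.n (.v 0) (.v 127))) (.n (.n (.v 0) (.v 0)) (.n (.v 0) (.v 87)))) (.n (.n (.n (.v 0) (.v 0)) (.n (.v 4) (.v 4))) (.n (.n (.v 32) (.v 32)) (.n (.v 4) (.v 87))))) (.n (.n (.n (.n (.v 0) (.v 0)) (.n (.v 0) (.v 127))) (.n (.n (.v 16) (.v 80)) (.n (.v 16) (.v 80)))) (.n (.n (.n (.v 0) (.v 112)) (.n (.v 6) (.v 6))) (.n (.n (.v 16) (.v 80)) (.n (.v 6) (.v 84)))))) = true := by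
  decide +kernel

theorem tb7_0 : tck (dg 0xddcbba998776554332000) (dg 0xc26ad8827c54413b911a6) 21 3 1 0 false 0
  [(9, 14), (13, 20), (7, 11), (3, 6), (5, 7), (2, 3), (11, 17), (8, 15), (12, 18), (4, 9), (1, 2), (10, 1), (6, 0)]
  [4, 5, 8, 10, 12, 13, 16, 19]
  (.n (.n (.n (.n (.n (.n (.n (.n (.v 0) (.v 0)) (.n (.v 0) (.v 8191))) (.n (.n (.v 0) (.v 4)) (.n (.v 0) (.v 4)))) (.n (.n (.n (.v 0) (.v 0)) (.n (.v 0) (.v 3967))) (.n (.n (.v 0) (.v 4)) (.n (.v 3848) (.v 4))))) (.n (.n (.n (.n (.v 0) (.v 0)) (.n (.v 0) (.v 3967))) (.n (.n (.v 0) (.v 4)) (.n (.v 0) (.v 4)))) (.n (.n (.n (.v 128) (.v 128)) (.n (.v 128) (.v 3967))) (.n (.n (.v 128) (.v 132)) (.n (.v 3963) (.v 3967)))))) (.n (.n (.n (.n (.n (.v 0) (.v 0)) (.n (.v 0) (.v 8191))) (.n (.n (.v 0) (.v 4)) (.n (.v 0) (.v 4)))) (.n (.n (.n (.v 0) (.v 0)) (.n (.v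 0) (.v 3935))) (.n (.n (.v 0) (.v 166)) (.n (.v 3864) (.v 166))))) (.n (.n (.n (.n (.v 32) (.v 32)) (.n (.v 32) (.v 8159))) (.n (.n (.v 32) (.v 38)) (.n (.v 8153) (.v 38)))) (.n (.n (.n (.v 32) (.v 32)) (.n (.v 32) (.v 3887))) (.n (.n (.v 32) (.v 38)) (.n (.v 3864) (.v 38))))))) (.n (.n (.n (.n (.n (.n (.v 0) (.v 0)) (.n (.v 2048) (.v 2048))) (.n (.n (.v 0) (.v 4)) (.n (.v 2048) (.v 2052)))) (.n (.n (.n (.v 0) (.v 0)) (.n (.v 2048) (.v 2048))) (.n (.n (.v 776) (.v 4)) (.n (.v 3840) (.v 2052))))) (.n (.n (.n (.n (.v 0) (.v 0)) (.n (.v 2048) (.v 2048))) (.n (.n (.v 0) (.v 4)) (.n (.v 2048) (.v 2052)))) (.n (.n (.n (.v 128) (.v 1919)) (.n (.v 2176) (.v 3967))) (.n (.n (.v 128) (.v 132)) (.n (.v 2176) (.v 2180)))))) (.n (.n (.n (.n (.n (.v 0) (.v 0)) (.n (.v 2048) (.v 2048))) (.n (.n (.v 536) (.v 4)) (.n (.v 536) (.v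 2052)))) (.n (.n (.n (.v 0) (.v 796)) (.n (.v 2048) (.v 3879))) (.n (.n (.v 792) (.v 166)) (.n (.v 792) (.v 2214))))) (.n (.n (.n (.n (.v 32) (.v 32)) (.n (.v 2080) (.v 2080))) (.n (.n (.v 32) (.v 38)) (.n (.v 2080) (.v 2086)))) (.n (.n (.n (.v 32) (.v 814)) (.n (.v 2080) (.v 3879))) (.n (.n (.v 664) (.v 38)) (.n (.v 3367) (.v 3367)))))))) (.n (.n (.n (.n (.n (.n (.n (.v 0) (.v 0)) (.n (.v 0) (.v 8191))) (.n (.n (.v 512) (.v 4)) (.n (.v 512) (.v 7679)))) (.n (.n (.n (.v 0) (.v 772)) (.n (.v 0) (.v 772))) (.n (.n (.v 768) (.v 768)) (.n (.v 768) (.v 7423))))) (.n (.n (.n (.n (.v 0) (.v 0)) (.n (.v 0) (.v 3199))) (.n (.n (.v 512) (.v 4)) (.n (.v 512) (.v 3199)))) (.n (.n (.n (.v 128) (.v 128)) (.n (.v 128) (.v 3967))) (.n (.n (.v 640) (.v 132)) (.n (.v 640) (.v 3455)))))) (.n (.n (.n (.n (.n (.v 0) (.v 0)) (.n (.v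 2072) (.v 2072))) (.n (.n (.v 512) (.v 4)) (.n (.v 512) (.v 2076)))) (.n (.n (.n (.v 0) (.v 678)) (.n (.v 2072) (.v 3879))) (.n (.n (.v 768) (.v 166)) (.n (.v 768) (.v 3423))))) (.n (.n (.n (.n (.v 32) (.v 550)) (.n (.v 32) (.v 550))) (.n (.n (.v 544) (.v 38)) (.n (.v 544) (.v 38)))) (.n (.n (.n (.v 32) (.v 806)) (.n (.v 2200) (.v 3879))) (.n (.n (.v 800) (.v 38)) (.n (.v 800) (.v 3375))))))) (.n (.n (.n (.n (.n (.n (.v 8) (.v 8)) (.n (.v 8) (.v 8183))) (.n (.n (.v 8) (.v 12)) (.n (.v 2560) (.v 12)))) (.n (.n (.n (.v 8) (.v 8)) (.n (.v 3840) (.v 3844))) (.n (.n (.v 768) (.v 4351)) (.n (.v 3840) (.v 3840))))) (.n (.n (.n (.n (.v 8) (.v 8)) (.n (.v 8) (.v 3879))) (.n (.n (.v 8) (.v 62)) (.n (.v 3968) (.v 62)))) (.n (.n (.n (.v 136) (.v 136)) (.n (.v 136) (.v 3879))) (.n (.n (.v 136) (.v 62)) (.n (.v 3840) (.v 3455))))))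 (.n (.n (.n (.n (.n (.v 24) (.v 24)) (.n (.v 24) (.v 4007))) (.n (.n (.v 24) (.v 28)) (.n (.v 24) (.v 28)))) (.n (.n (.n (.v 24) (.v 24)) (.n (.v 24) (.v 3879))) (.n (.n (.v 24) (.v 28)) (.n (.v 3840) (.v 3840))))) (.n (.n (.n (.n (.v 24) (.v 24)) (.n (.v 24) (.v 3879))) (.n (.n (.v 24) (.v 46)) (.n (.v 2592) (.v 46)))) (.n (.n (.n (.v 152) (.v 3879)) (.n (.v 3879) (.v 3879))) (.n (.n (.v 152) (.v 46)) (.n (.v 3872) (.v 3879))))))))) = true := by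
  decide +kernel

theorem tb7_1 : tck (dg 0xddcbba998776554332000) (dg 0xc91a28875624413bd1ca6) 21 3 1 0 false 0
  [(9, 13), (2, 10), (5, 8), (3, 6), (13, 20), (1, 18), (11, 17), (8, 15), (7, 11), (4, 9), (12, 2), (10, 1), (6, 0)]
  [3, 4, 5, 7, 12, 14, 16, 19]
  (.n (.n (.n (.n (.n (.n (.n (.n (.v 0) (.v 0)) (.n (.v 0) (.v 0))) (.n (.n (.v 0) (.v 512)) (.n (.v 0) (.v 512)))) (.n (.n (.n (.v 0) (.v 0)) (.n (.v 0) (.v 0))) (.n (.n (.v 256) (.v 256)) (.n (.v 256) (.v 256))))) (.n (.n (.n (.n (.v 0) (.v 0)) (.n (.v 0) (.v 0))) (.n (.n (.v 0) (.v 512)) (.n (.v 0) (.v 646)))) (.n (.n (.n (.v 32) (.v 32)) (.n (.v 32) (.v 32))) (.n (.n (.v 32) (.v 544)) (.n (.v 32) (.v 544)))))) (.n (.n (.n (.n (.n (.v 0) (.v 0)) (.n (.v 2048) (.v 2048))) (.n (.n (.v 0) (.v 512)) (.n (.v 2048) (.v 2560)))) (.n (.n (.n (.v 0) (.v 0)) (.n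 (.v 2048) (.v 3840))) (.n (.n (.v 256) (.v 256)) (.n (.v 3328) (.v 3328))))) (.n (.n (.n (.n (.v 0) (.v 0)) (.n (.v 2048) (.v 2048))) (.n (.n (.v 0) (.v 512)) (.n (.v 3360) (.v 646)))) (.n (.n (.n (.v 32) (.v 8135)) (.n (.v 2080) (.v 2080))) (.n (.n (.v 32) (.v 544)) (.n (.v 3328) (.v 764))))))) (.n (.n (.n (.n (.n (.n (.v 0) (.v 8191)) (.n (.v 0) (.v 8191))) (.n (.n (.v 0) (.v 512)) (.n (.v 0) (.v 512)))) (.n (.n (.n (.v 0) (.v 8191)) (.n (.v 0) (.v 3848))) (.n (.n (.v 256) (.v 7935)) (.n (.v 3336) (.v 766))))) (.n (.n (.n (.n (.v 0) (.v 4093)) (.n (.v 0) (.v 4089))) (.n (.n (.v 0) (.v 512)) (.n (.v 3384) (.v 646)))) (.n (.n (.n (.v 32) (.v 8159)) (.n (.v 2104) (.v 2104))) (.n (.n (.v 32) (.v 544)) (.n (.v 2104) (.v 764)))))) (.n (.n (.n (.n (.n (.v 8) (.v 8)) (.n (.v 8) (.v 6143))) (.n (.n (.v 8) (.v 520)) (.n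 (.v 8) (.v 520)))) (.n (.n (.n (.v 8) (.v 8)) (.n (.v 8) (.v 766))) (.n (.n (.v 264) (.v 264)) (.n (.v 3328) (.v 766))))) (.n (.n (.n (.n (.v 8) (.v 8)) (.n (.v 8) (.v 1020))) (.n (.n (.v 312) (.v 312)) (.n (.v 312) (.v 654)))) (.n (.n (.n (.v 56) (.v 56)) (.n (.v 56) (.v 56))) (.n (.n (.v 56) (.v 568)) (.n (.v 56) (.v 764)))))))) (.n (.n (.n (.n (.n (.n (.n (.v 0) (.v 0)) (.n (.v 4) (.v 4))) (.n (.n (.v 0) (.v 512)) (.n (.v 4) (.v 644)))) (.n (.n (.n (.v 0) (.v 0)) (.n (.v 4) (.v 900))) (.n (.n (.v 256) (.v 256)) (.n (.v 260) (.v 644))))) (.n (.n (.n (.n (.v 2) (.v 2)) (.n (.v 2) (.v 2))) (.n (.n (.v 2) (.v 514)) (.n (.v 2) (.v 644)))) (.n (.n (.n (.v 2) (.v 2)) (.n (.v 36) (.v 36))) (.n (.n (.v 258) (.v 258)) (.n (.v 36) (.v 676)))))) (.n (.n (.n (.n (.n (.v 0) (.v 0)) (.n (.v 4) (.v 4))) (.n (.n (.v 0) (.v 2692))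 (.n (.v 4) (.v 644)))) (.n (.n (.n (.v 0) (.v 3972)) (.n (.v 4) (.v 900))) (.n (.n (.v 3332) (.v 2692)) (.n (.v 3328) (.v 644))))) (.n (.n (.n (.n (.v 2) (.v 4085)) (.n (.v 2050) (.v 1020))) (.n (.n (.v 2) (.v 514)) (.n (.v 2050) (.v 644)))) (.n (.n (.n (.v 2) (.v 3972)) (.n (.v 36) (.v 764))) (.n (.n (.v 258) (.v 764)) (.n (.v 3330) (.v 764))))))) (.n (.n (.n (.n (.n (.n (.v 0) (.v 4093)) (.n (.v 4) (.v 8187))) (.n (.n (.v 0) (.v 512)) (.n (.v 7547) (.v 644)))) (.n (.n (.n (.v 0) (.v 4061)) (.n (.v 4) (.v 900))) (.n (.n (.v 256) (.v 2812)) (.n (.v 260) (.v 644))))) (.n (.n (.n (.n (.v 2) (.v 4093)) (.n (.v 2) (.v 4093))) (.n (.n (.v 3581) (.v 4093)) (.n (.v 3384) (.v 644)))) (.n (.n (.n (.v 2) (.v 4093)) (.n (.v 36) (.v 764))) (.n (.n (.v 258) (.v 2812)) (.n (.v 764) (.v 764)))))) (.n (.n (.n (.n (.n (.v 8) (.v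 8)) (.n (.v 12) (.v 12))) (.n (.n (.v 8) (.v 520)) (.n (.v 12) (.v 652)))) (.n (.n (.n (.v 58) (.v 58)) (.n (.v 12) (.v 764))) (.n (.n (.v 58) (.v 570)) (.n (.v 268) (.v 764))))) (.n (.n (.n (.n (.v 10) (.v 4093)) (.n (.v 10) (.v 1020))) (.n (.n (.v 10) (.v 522)) (.n (.v 316) (.v 764)))) (.n (.n (.n (.v 56) (.v 56)) (.n (.v 60) (.v 764))) (.n (.n (.v 56) (.v 764)) (.n (.v 764) (.v 764))))))))) = true := by
  decide +kernel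

end Pool.H29E
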