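import Pool.Agent.H29E.Tab

set_option linter.unusedSimpArgs false
set_option linter.unusedVariables false

/-! Tables with mixed families of odd and even cycles, for one given value of the parameters. -/

namespace Pool.H29E

open Finset Pool.H82.SC

variable {K : MG} {n m : ℕ} {A B fV fE : ℕ → ℕ}

theorem kill_mix (L : Lab K n m A B fV fE) {M : ℕ → ℕ} {c Y : ℕ} {hh : ℕ → ℕ}
    (hc : c ≤ 30) (hM : ∀ k, M k < 2 ^ (5 * c)) (hchk : kchk M A B c Y m = true)
    (hg : ∀ j < c, K.Ev ((cz M m j).image fE) → hh j ≤ K.wt ((cz M m j).image fE)) :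
    ∑ j ∈ range c, hh j ≤ Y * K.W := by
  unfold kchk at hchk
  rw [Bool.and_eq_true, Bool.and_eq_true] at hchk
  obtain ⟨hcov, hacc, hor⟩ := hchk
  have hacc' := Nat.eq_of_beq_eq_true hacc
  have hor' := Nat.eq_of_beq_eq_true hor
  have h1 := sum_cz hc hor' hcov (fun k => K.w (fE k))
  rw [← L.W_eq] at h1
  refine le_trans ?_ h1
  apply sum_le_sum
  intro j hj
  have hj' := mem_range.1 hj
  have h2 := hg j hj' (cz_ev L hM hacc' hj')
  have hsub : cz M m j ⊆ range m := filter_subset _ _
  rwa [L.wt_image hsub] at h2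

/-- `d`: allowed number of bad edges; `h`: cycle length (even); `W`: excluded weight -/
def tabm (A B : ℕ → ℕ) (m d h W : ℕ) : List ℕ → ℕ → Tr → Bool
  | [], R, .v X => Nat.ble (viol A B R X m) d
  | [], R, .o c Y P => (Nat.ble c 30 &&
      Nat.ble (Y * W + 1) (c * h + kxr (fun k => (P >>> (5 * c * k)) % 2 ^ (5 * c)) R m % 31)) &&
      kchk (fun k => (P >>> (5 * c * k)) % 2 ^ (5 * c)) A B c Y m
  | [], _, .z => false
  | _ :: _, _, .v _ => false
  | _ :: _, _, .o _ _ _ => false
  | _ :: _, _, .z => false
  | [], _, .n _ _ => false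
  | k :: ks, R, .n a b => tabm A B m d h W ks R a && tabm A B m d h W ks (R ||| (1 <<< k)) b

lemma tabm_walk {d h W : ℕ} (r : ℕ → Bool) :
    ∀ (nf : List ℕ) (R : ℕ) (T : Tr), tabm A B m d h W nf R T = true →
    ∃ R' T', tabm A B m d h W [] R' T' = true ∧
      ∀ j, R'.testBit j = (R.testBit j || (decide (j ∈ nf) && r j)) := by
  intro nf
  induction nf with
  | nil => intro R T h; exact ⟨R, T, h, fun j => by simp⟩
  | cons k ks ih =>
    intro R T h
    cases T with
    | v X => rw [tabm] at h; exact absurd h (by simp)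
    | o c Y P => rw [tabm] at h; exact absurd h (by simp)
    | z => rw [tabm] at h; exact absurd h (by simp)
    | n a b =>
      rw [tabm, Bool.and_eq_true] at h
      by_cases hr : r k = true
      · obtain ⟨R', T', h1, h2⟩ := ih _ _ h.2
        refine ⟨R', T', h1, fun j => ?_⟩
        rw [h2, Nat.testBit_or]
        by_cases hj : j = k
        · subst hj
          simp [hr]
        · have h3 : (1 <<< k).testBit j = false := by
            rw [Nat.one_shiftLeft, Nat.testBit_two_pow_of_ne (Ne.symm hj)]
          rw [h3]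
          simp [hj]
      · obtain ⟨R', T', h1, h2⟩ := ih _ _ h.1
        refine ⟨R', T', h1, fun j => ?_⟩
        rw [h2]
        by_cases hj : j = k
        · subst hj
          rw [Bool.not_eq_true] at hr
          simp [hr]
        · simp [hj]

/-- full check of a table -/
def tckm (A B : ℕ → ℕ) (m d h W : ℕ) (tl : List (ℕ × ℕ)) (nf : List ℕ) (T : Tr) : Bool :=
  tchk A B tl && (cov tl nf m && tabm A B m d h W nf 0 T)

theorem tckm_sound (L : Lab K n m A B fV fE) {d h W : ℕ} (hev : Even h) (hK : K.Cyc h)
    {tl : List (ℕ × ℕ)} {nf : List ℕ} {T : Tr} (hck : tckm A B m d h W tl nf T = true) :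
    (∃ S ⊆ K.V, #S ≤ d ∧ (K.ind (K.V \ S)).Bip) ∨ W < K.W := by
  classical
  unfold tckm at hck
  rw [Bool.and_eq_true, Bool.and_eq_true] at hck
  obtain ⟨ht, hc, hT⟩ := hck
  obtain ⟨c, hcc⟩ := tchk_spec (par K fE) tl ht
  obtain ⟨R, T', h1, h2⟩ := tabm_walk (fun k => par K fE k ^^ (c (A k) ^^ c (B k))) nf 0 T hT
  have hR : ∀ k < m, (par K fE k ^^ (c (A k) ^^ c (B k))) = R.testBit k := by
    intro k hk
    rw [h2, Nat.zero_testBit, Bool.false_or]
    rcases cov_spec hc k hk with ⟨pp, hp, rfl⟩ | h3
    · rw [hcc pp hp, Bool.and_false]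
    · simp [h3]
  cases T' with
  | v X =>
    left
    rw [tabm] at h1
    have h3 := Nat.le_of_ble_eq_true h1
    rw [viol_eq] at h3
    obtain ⟨S, hS, hS1, hS2⟩ := bip_of L (c := fun i => c i ^^ X.testBit i)
      (F := (range m).filter fun k => (R.testBit k ^^ (X.testBit (A k) ^^ X.testBit (B k))) = true)
      (filter_subset _ _) (by
        intro k hk hkF
        have h4 : ¬ ((R.testBit k ^^ (X.testBit (A k) ^^ X.testBit (B k))) = true) := by
          intro h5
          exact hkF (mem_filter.2 ⟨mem_range.2 hk, h5⟩)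
        rw [← hR k hk, Bool.not_eq_true] at h4
        revert h4
        cases par K fE k <;> cases c (A k) <;> cases c (B k) <;> cases X.testBit (A k) <;>
          cases X.testBit (B k) <;> simp)
    exact ⟨S, hS, hS1.trans h3, hS2⟩
  | o cc Y P =>
    right
    rw [tabm, Bool.and_eq_true, Bool.and_eq_true] at h1
    obtain ⟨⟨c30, hsz⟩, hk1⟩ := h1
    have c30' := Nat.le_of_ble_eq_true c30
    have hsz' := Nat.le_of_ble_eq_true hsz
    set M : ℕ → ℕ := fun k => (P >>> (5 * cc * k)) % 2 ^ (5 * cc) with hM
    have hkk := hk1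
    unfold kchk at hkk
    rw [Bool.and_eq_true, Bool.and_eq_true] at hkk
    have hor := Nat.eq_of_beq_eq_true hkk.2.2
    have hbits : ∀ p, (kxr M R m).testBit p = true → ∃ j < cc, p = 5 * j := by
      intro p hp
      have h6 := kxr_testBit (M := M) (R := R) (p := p) m
      rw [hp] at h6
      have h7 : ∃ k ∈ (range m).filter (fun k => (M k).testBit p = true), bz (R.testBit k) ≠ 0 := by
        by_contra hcon
        push Not at hcon
        rw [sum_eq_zero hcon] at h6
        exact absurd h6 (by decide)
      obtain ⟨k, hk, -⟩ := h7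
      obtain ⟨hk1, hk2⟩ := mem_filter.1 hk
      exact (rep_testBit hor p).1 ((kor_testBit m).2 ⟨k, mem_range.1 hk1, hk2⟩)
    have h4 : ∑ j ∈ range cc, (h + if (kxr M R m).testBit (5 * j) = true then 1 else 0) ≤
        Y * K.W := by
      apply kill_mix L c30' (fun k => Nat.mod_lt _ (by positivity)) hk1
      intro j hj hev'
      have hsub : cz M m j ⊆ range m := filter_subset _ _
      have hne : ((cz M m j).image fE).Nonempty := (cz_ne hor hj).image _
      have h10 := hK _ hev' hne
      by_cases h5 : (kxr M R m).testBit (5 * j) = true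
      swap
      · rw [if_neg h5]
        exact h10
      rw [if_pos h5]
      have hodd : Odd (K.wt ((cz M m j).image fE)) := by
        rw [L.wt_image hsub, ← ZMod.natCast_eq_one_iff_odd]
        push_cast
        have h6 := kxr_testBit (M := M) (R := R) (p := 5 * j) m
        rw [h5] at h6
        have h7 : ∑ k ∈ cz M m j, ((K.w (fE k) : ℕ) : ZMod 2) =
            ∑ k ∈ cz M m j, bz (R.testBit k) + ∑ k ∈ cz M m j, (bz (c (A k)) + bz (c (B k))) := by
          rw [← sum_add_distrib]
          apply sum_congr rfl
          intro k hk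
          rw [bz_par, ← hR k (mem_range.1 (hsub hk)), bz_xor, bz_xor]
          generalize bz (par K fE k) = x
          generalize bz (c (A k)) = y
          generalize bz (c (B k)) = z
          revert x y z
          decide
        have h8 : ∑ k ∈ cz M m j, (bz (c (A k)) + bz (c (B k))) = 0 := by
          obtain ⟨iv, hiv⟩ := L.inv
          have h9 := ev_sum hev' (fun u => bz (c (iv u)))
          rw [sum_image (by
            intro a ha b hb hab
            exact L.einj' (by exact_mod_cast hsub ha) (by exact_mod_cast hsub hb) hab)] at h9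
          rw [← h9]
          apply sum_congr rfl
          intro k hk
          obtain ⟨a1, a2, a3⟩ := L.ends k (mem_range.1 (hsub hk))
          rcases a3 with ⟨b1, b2⟩ | ⟨b1, b2⟩
          · rw [b1, b2, hiv _ a1, hiv _ a2]
          · rw [b1, b2, hiv _ a1, hiv _ a2, add_comm]
        rw [h7, h8, add_zero]
        have h10 : cz M m j = (range m).filter (fun k => (M k).testBit (5 * j) = true) := rfl
        rw [h10, ← h6]
        rfl
      rw [Nat.odd_iff] at hodd
      rw [Nat.even_iff] at hev
      change h ≤ K.wt ((cz M m j).image fE) at h10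
      change h + 1 ≤ K.wt ((cz M m j).image fE)
      omega
    rw [sum_add_distrib, sum_const, card_range, smul_eq_mul] at h4
    have h5 := pc_eq c30' hbits
    unfold pc at h5
    rw [h5] at h4
    by_contra hcon
    push Not at hcon
    have := Nat.mul_le_mul_left Y hcon
    omega
  | z => rw [tabm] at h1; exact absurd h1 (by simp)
  | n a b => rw [tabm] at h1; exact absurd h1 (by simp)

end Pool.H29E
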