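import Pool.Agent.H82.SC.Ram

set_option linter.unusedSimpArgs false
set_option linter.unusedVariables false

/-! Vertex transversals of the odd cycles. -/

namespace Pool.H29E

open Finset Pool.H82.SC Pool.H82.SC.MG

variable {K : MG}

/-- bipartite on a vertex set -/
def BipOn (K : MG) (T : Finset ℕ) : Prop :=
  ∃ c : ℕ → Bool, ∀ e ∈ K.E, K.s e ∈ T → K.t e ∈ T → (c (K.s e) = c (K.t e) ↔ Even (K.w e))

lemma bipOn_iff {T : Finset ℕ} : (K.ind T).Bip ↔ BipOn K T := by
  constructor
  · rintro ⟨c, hc⟩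
    exact ⟨c, fun e he h1 h2 => hc e (mem_filter.2 ⟨he, h1, h2⟩)⟩
  · rintro ⟨c, hc⟩
    refine ⟨c, fun e he => ?_⟩
    obtain ⟨h0, h1, h2⟩ := mem_filter.1 he
    exact hc e h0 h1 h2

/-- no fewer than `d` vertices meet all odd cycles -/
def Tau (K : MG) (d : ℕ) : Prop := ∀ S ⊆ K.V, #S < d → ¬ BipOn K (K.V \ S)

lemma tau_of_D {d : ℕ} (hD : ∀ X ⊆ K.V, (d : ℤ) ≤ K.D X) : Tau K d := by
  intro S hS hlt hb
  obtain ⟨X, hX, hle⟩ := K.exists_D_le hS (bipOn_iff.2 hb)
  have := hD X hX
  have : (#S : ℤ) < d := by exact_mod_cast hlt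
  linarith

lemma Tau.mono {d d' : ℕ} (h : Tau K d) (hd : d' ≤ d) : Tau K d' :=
  fun S hS hlt => h S hS (lt_of_lt_of_le hlt hd)

lemma BipOn.mono {T T' : Finset ℕ} (h : BipOn K T') (hT : ∀ v ∈ T, v ∈ K.V → v ∈ T') :
    BipOn K T := by
  obtain ⟨c, hc⟩ := h
  exact ⟨c, fun e he h1 h2 => hc e he (hT _ h1 (K.hs e he)) (hT _ h2 (K.ht e he))⟩

/-- removing a vertex -/
lemma tau_del {d : ℕ} (h : Tau K (d + 1)) {v : ℕ} (hv : v ∈ K.V) :
    Tau (K.ind (K.V \ {v})) d := by
  intro S hS hlt hb
  have hS' : S ⊆ K.V \ {v} := hS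
  apply h (insert v S) (insert_subset hv (hS'.trans sdiff_subset))
    (lt_of_le_of_lt (card_insert_le _ _) (by omega))
  obtain ⟨c, hc⟩ := hb
  refine ⟨c, fun e he h1 h2 => ?_⟩
  simp only [mem_sdiff, mem_insert, not_or] at h1 h2
  exact hc e (by simp [he, h1, h2]) (by simp [h1]) (by simp [h2])

/-- a transversal gives a bound -/
lemma Tau.pos {d : ℕ} (h : Tau K (d + 1)) : K.V.Nonempty := by
  rw [nonempty_iff_ne_empty]
  intro hV
  apply h ∅ (empty_subset _) (by simp)
  refine ⟨fun _ => true, fun e he => ?_⟩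
  have := K.hs e he
  rw [hV] at this
  simp at this

/-- two transversal number -/
theorem two_of_tau {h g : ℕ} (P : Par2 h g) (hK : K.Cyc h) (ht : Tau K 2) : 2 * g ≤ K.W := by
  by_contra hcon
  push Not at hcon
  obtain ⟨u, hu, hb⟩ := oct_one P K hK hcon (Tau.pos ht)
  exact ht {u} (by simpa using hu) (by simp) (bipOn_iff.1 hb)

theorem one_of_tau {h g : ℕ} (P : Par2 h g) (hK : K.Cyc h) (ht : Tau K 1) : g ≤ K.W := by
  apply g_le_of_not_bip P hK
  rintro ⟨c, hc⟩
  exact ht ∅ (empty_subset _) (by simp) ⟨c, fun e he _ _ => hc e he⟩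

/-- removing a vertex of degree at most one -/
lemma tau_leaf {d : ℕ} (h : Tau K d) (hl : K.NoLoops) {v : ℕ} (hv : v ∈ K.V)
    (hd : K.deg v ≤ 1) : Tau (K.ind (K.V \ {v})) d := by
  classical
  intro S hS hlt hb
  have hS' : S ⊆ K.V \ {v} := hS
  apply h S (hS'.trans sdiff_subset) hlt
  obtain ⟨c, hc⟩ := hb
  have hmem : ∀ f ∈ K.E, K.s f ∈ K.V \ S → K.t f ∈ K.V \ S → K.s f ≠ v → K.t f ≠ v →
      (c (K.s f) = c (K.t f) ↔ Even (K.w f)) := by
    intro f hf h1 h2 h3 h4
    simp only [mem_sdiff] at h1 h2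
    exact hc f (by simp [hf, h1, h2, h3, h4]) (by simp [h1, h3]) (by simp [h2, h4])
  have hcs := K.card_star_le v
  by_cases hse : K.star v = ∅
  · refine ⟨c, fun f hf h1 h2 => ?_⟩
    have : f ∉ K.star v := by rw [hse]; simp
    have hn : ¬ (K.s f = v ∨ K.t f = v) := fun hh => this (mem_filter.2 ⟨hf, hh⟩)
    push Not at hn
    exact hmem f hf h1 h2 hn.1 hn.2
  · obtain ⟨e, he⟩ : ∃ e, K.star v = {e} := by
      apply card_eq_one.1
      have := card_pos.2 (nonempty_iff_ne_empty.2 hse)
      omega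
    have heS : e ∈ K.star v := by rw [he]; simp
    have heE := K.star_subset v heS
    have hev : K.s e = v ∨ K.t e = v := (mem_filter.1 heS).2
    refine ⟨fun x => if x = v then (if Even (K.w e) then c (K.oth e v) else !(c (K.oth e v)))
      else c x, fun f hf h1 h2 => ?_⟩
    by_cases hfe : f = e
    · subst hfe
      rcases hev with hh | hh
      · have hne : K.t f ≠ v := fun h2 => hl f hf (hh.trans h2.symm)
        by_cases hw : Even (K.w f) <;> simp [oth, hh, hne, hw]
      · have hne : K.s f ≠ v := fun h2 => hl f hf (h2.trans hh.symm)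
        by_cases hw : Even (K.w f) <;> simp [oth, hh, hne, hw]
    · have : f ∉ K.star v := by rw [he]; simpa using hfe
      have hn : ¬ (K.s f = v ∨ K.t f = v) := fun hh => this (mem_filter.2 ⟨hf, hh⟩)
      push Not at hn
      simp only [if_neg hn.1, if_neg hn.2]
      exact hmem f hf h1 h2 hn.1 hn.2

/-- suppressing a vertex of degree two -/
lemma tau_supp {d v e1 e2 : ℕ} (ht : Tau K d) (h : K.SuppData v e1 e2) : Tau (supp h) d := by
  classical
  intro S hS hlt hb
  have hS' : S ⊆ K.V.erase v := hS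
  have hvS : v ∉ S := fun hh => (mem_erase.1 (hS' hh)).1 rfl
  apply ht S (hS'.trans (erase_subset _ _)) hlt
  obtain ⟨c, hc⟩ := hb
  have hoth : ∀ e, e ∈ K.E → (K.s e = v ∨ K.t e = v) → ∀ b : Bool,
      (((if K.s e = v then b else c (K.s e)) = (if K.t e = v then b else c (K.t e)) ↔
        Even (K.w e)) ↔ (b = c (K.oth e v) ↔ Even (K.w e))) := by
    intro e he hev b
    unfold oth
    rcases hev with hh | hh
    · have : K.t e ≠ v := fun h2 => h.hl e he (hh.trans h2.symm)
      simp [hh, this]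
    · have : K.s e ≠ v := fun h2 => h.hl e he (h2.trans hh.symm)
      simp [hh, this, eq_comm]
  have main : ∃ b : Bool, (K.oth e1 v ∉ S → (b = c (K.oth e1 v) ↔ Even (K.w e1))) ∧
      (K.oth e2 v ∉ S → (b = c (K.oth e2 v) ↔ Even (K.w e2))) := by
    by_cases n1 : K.oth e1 v ∈ S
    · by_cases n2 : K.oth e2 v ∈ S
      · exact ⟨true, fun h => absurd n1 h, fun h => absurd n2 h⟩
      · refine ⟨if Even (K.w e2) then c (K.oth e2 v) else !(c (K.oth e2 v)),
          fun h => absurd n1 h, fun _ => ?_⟩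
        by_cases w2 : Even (K.w e2) <;> simp [w2]
    · by_cases n2 : K.oth e2 v ∈ S
      · refine ⟨if Even (K.w e1) then c (K.oth e1 v) else !(c (K.oth e1 v)),
          fun _ => ?_, fun h => absurd n2 h⟩
        by_cases w1 : Even (K.w e1) <;> simp [w1]
      · refine ⟨if Even (K.w e1) then c (K.oth e1 v) else !(c (K.oth e1 v)), fun _ => ?_,
          fun _ => ?_⟩
        · by_cases w1 : Even (K.w e1) <;> simp [w1]
        · have m1 := oth_mem (v := v) h.h1
          have m2 := oth_mem (v := v) h.h2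
          have k1 : K.oth e1 v ≠ v := oth_ne h.hl h.h1
          have k2 : K.oth e2 v ≠ v := oth_ne h.hl h.h2
          have := hc e1 (by simp [h.hne, h.h1]) (by simp [m1, k1, n1]) (by simp [m2, k2, n2])
          simp only [supp_s, supp_t, supp_w, if_true, Nat.even_add] at this
          by_cases w1 : Even (K.w e1) <;> by_cases w2 : Even (K.w e2) <;>
            simp only [w1, w2, if_true, if_false, iff_true, iff_false, true_iff,
              not_true_eq_false, not_false_eq_true] at this ⊢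
          · exact this
          · exact this
          · cases h1 : c (K.oth e1 v) <;> cases h2 : c (K.oth e2 v) <;> simp_all
          · cases h1 : c (K.oth e1 v) <;> cases h2 : c (K.oth e2 v) <;> simp_all
  obtain ⟨b, hb1, hb2⟩ := main
  refine ⟨fun x => if x = v then b else c x, ?_⟩
  intro e heE h1 h2
  obtain ⟨hs, hsu⟩ := mem_sdiff.1 h1
  obtain ⟨ht', htu⟩ := mem_sdiff.1 h2
  have hothu : ∀ e, K.s e ∉ S → K.t e ∉ S → K.oth e v ∉ S := by
    intro e h1 h2
    unfold oth
    split_ifs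
    · exact h2
    · exact h1
  by_cases n1 : e = e1
  · subst n1
    rw [hoth e heE h.mem1]
    exact hb1 (hothu _ hsu htu)
  · by_cases n2 : e = e2
    · subst n2
      rw [hoth e heE h.mem2]
      exact hb2 (hothu _ hsu htu)
    · obtain ⟨k1, k2⟩ := h.not_mem heE n1 n2
      simp only [if_neg k1, if_neg k2]
      have := hc e (by simp [n2, heE]) (by simp [n1, hs, k1, hsu]) (by simp [n1, ht', k2, htu])
      simpa [n1] using this

/-- splitting a vertex -/
lemma tau_split {d v e1 e2 v' e0 : ℕ} (ht : Tau K d) (h : K.SplitData v e1 e2 v' e0) :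
    Tau (split h) d := by
  classical
  intro S hS hlt hb
  have hvv := h.vne
  obtain ⟨c, hc⟩ := hb
  rw [split_V] at hS
  by_cases huv : v ∈ S ∨ v' ∈ S
  · apply ht (insert v (S.erase v'))
    · apply insert_subset h.hv
      intro x hx
      rw [mem_erase] at hx
      exact (mem_insert.1 (hS hx.2)).resolve_left hx.1
    · refine lt_of_le_of_lt ?_ hlt
      by_cases h1 : v' ∈ S
      · have := card_erase_add_one h1
        have := card_insert_le v (S.erase v')
        omega
      · rw [erase_eq_of_notMem h1]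
        rw [insert_eq_of_mem (huv.resolve_right h1)]
    · refine ⟨c, fun e heE h1 h2 => ?_⟩
      simp only [mem_sdiff, mem_insert, mem_erase, not_or, not_and] at h1 h2
      obtain ⟨hs, hsv, hsu⟩ := h1
      obtain ⟨ht', htv, htu⟩ := h2
      have hse : (split h).s e = K.s e := by
        rcases h.s_cases heE with ⟨a1, a2, a3⟩ | ⟨a1, a2, a3⟩
        · exact absurd a2 hsv
        · exact a1
      have hte : (split h).t e = K.t e := by
        rcases h.t_cases heE with ⟨a1, a2, a3⟩ | ⟨a1, a2, a3⟩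
        · exact absurd a2 htv
        · exact a1
      have hsv' : K.s e ≠ v' := fun hh => h.hv' (hh ▸ hs)
      have htv' : K.t e ≠ v' := fun hh => h.hv' (hh ▸ ht')
      have := hc e (by rw [split_E]; exact mem_insert_of_mem heE)
        (by rw [hse, split_V]; exact mem_sdiff.2 ⟨mem_insert_of_mem hs, hsu hsv'⟩)
        (by rw [hte, split_V]; exact mem_sdiff.2 ⟨mem_insert_of_mem ht', htu htv'⟩)
      rw [hse, hte] at this
      rw [this]
      simp [h.ne0 heE, split_w]
  · push Not at huv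
    have hSV : S ⊆ K.V := by
      intro x hx
      exact (mem_insert.1 (hS hx)).resolve_left (fun hh => huv.2 (hh ▸ hx))
    apply ht S hSV hlt
    have hcc : c v = c v' := by
      have := hc e0 (by rw [split_E]; exact mem_insert_self _ _)
        (by simp [split_s, split_V, h.hv, huv.1]) (by simp [split_t, split_V, huv.2])
      simp only [split_s, split_t, split_w, if_true] at this
      exact this.2 (by decide)
    refine ⟨c, fun e heE h1 h2 => ?_⟩
    obtain ⟨hs, hsu⟩ := mem_sdiff.1 h1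
    obtain ⟨ht', htu⟩ := mem_sdiff.1 h2
    have hse : c ((split h).s e) = c (K.s e) ∧ (split h).s e ∉ S := by
      rcases h.s_cases heE with ⟨a1, a2, a3⟩ | ⟨a1, a2, a3⟩
      · rw [a1, a2]; exact ⟨hcc.symm, huv.2⟩
      · rw [a1]; exact ⟨rfl, hsu⟩
    have hte : c ((split h).t e) = c (K.t e) ∧ (split h).t e ∉ S := by
      rcases h.t_cases heE with ⟨a1, a2, a3⟩ | ⟨a1, a2, a3⟩
      · rw [a1, a2]; exact ⟨hcc.symm, huv.2⟩
      · rw [a1]; exact ⟨rfl, htu⟩
    have hE' : e ∈ (split h).E := by rw [split_E]; exact mem_insert_of_mem heE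
    have := hc e hE' (mem_sdiff.2 ⟨(split h).hs e hE', hse.2⟩)
      (mem_sdiff.2 ⟨(split h).ht e hE', hte.2⟩)
    rw [hse.1, hte.1] at this
    rw [this]
    simp [h.ne0 heE, split_w]

end Pool.H29E
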