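import Pool.Agent.H29E.Chain
import Pool.Agent.H29E.Tau
import Pool.Agent.H29E.TabA

set_option linter.unusedSimpArgs false
set_option linter.unusedVariables false

/-! Transversal number three. -/

namespace Pool.H29E

open Finset Pool.H82.SC Pool.H82.SC.MG

variable {K : MG}

lemma odds_of {h g : ℕ} (P : Par2 h g) (hK : K.Cyc h) : Odds K g :=
  fun _ hz ho => odd_wt P hK hz ho

lemma use_tck {n m d p q : ℕ} {A B fV fE : ℕ → ℕ} {tl : List (ℕ × ℕ)} {nf : List ℕ} {T : Tr}
    (L : Lab K n m A B fV fE) (h : tck A B m d p q false 0 tl nf T = true)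
    (ht : Tau K (d + 1)) {g : ℕ} (hg : Odds K g) : p * g ≤ q * K.W := by
  rcases tck_sound L h with ⟨S, hS, hS1, hS2⟩ | h1 | ⟨h1, -⟩
  · exact absurd (bipOn_iff.1 hS2) (ht S hS (by omega))
  · exact h1 g hg
  · exact absurd h1 (by decide)

lemma tau_card_two (hl : K.NoLoops) (hV : #K.V ≤ 2) : ¬ Tau K 2 := by
  intro ht
  obtain ⟨u, hu⟩ := Tau.pos ht
  apply ht {u} (by simpa using hu) (by simp)
  refine ⟨fun _ => true, fun e he h1 h2 => ?_⟩
  exfalso
  have h3 : #(K.V \ {u}) ≤ 1 := by
    have := cardV_ind hu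
    rw [ind_V] at this
    omega
  exact hl e he (card_le_one.1 h3 _ h1 _ h2)

theorem tau3_cubic {h g : ℕ} (P : Par2 h g) (hK : K.Cyc h) (hl : K.NoLoops) (hc : K.Cubic)
    (ht : Tau K 3) : 3 * h ≤ K.W := by
  have hcard := hc.card
  have hV := Tau.pos ht
  have hg := odds_of P hK
  have Pg := P.hg
  by_contra hW
  push Not at hW
  have hx : #K.V ≤ 2 ∨ #K.V = 4 ∨ #K.V = 6 ∨ #K.V = 8 ∨ 10 ≤ #K.V := by omega
  rcases hx with hx | hx | hx | hx | hx
  · exact tau_card_two hl hx (ht.mono (by norm_num))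
  · obtain ⟨t, htL, fV, fE, L⟩ := cls2 h K hK hl hc hx (by omega) (by omega)
    simp only [L2, List.mem_cons, List.not_mem_nil, or_false] at htL
    rcases htL with rfl | rfl
    · have := use_tck L tb2_0 ht hg; omega
    · have := use_tck L tb2_1 ht hg; omega
  · obtain ⟨t, htL, fV, fE, L⟩ := cls3 h K hK hl hc hx (by omega) (by omega)
    simp only [L3, List.mem_cons, List.not_mem_nil, or_false] at htL
    rcases htL with rfl | rfl | rfl | rfl
    · have := use_tck L tb3_0 ht hg; omega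
    · have := use_tck L tb3_1 ht hg; omega
    · have := use_tck L tb3_2 ht hg; omega
    · have := use_tck L tb3_3 ht hg; omega
  · obtain ⟨t, htL, fV, fE, L⟩ := cls4 h K hK hl hc hx (by omega) (by omega)
    obtain ⟨c, hc'⟩ := fchk_spec _ _ f4 t htL
    obtain ⟨t', htL', fV', fE', L'⟩ := cchk_sound L hK (by omega) hc'
    simp only [L4s, List.mem_cons, List.not_mem_nil, or_false] at htL'
    rcases htL' with rfl | rfl
    · have := use_tck L' tb4_6 ht hg; omega
    · have := use_tck L' tb4_12 ht hg; omega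
  · have := MB5 h K hK hV (by omega)
    omega

/-- three vertices are needed to meet all odd cycles: then the weight is at least `3h` -/
theorem three_of_tau {h g : ℕ} (P : Par2 h g) (K : MG) (hK : K.Cyc h) (ht : Tau K 3) :
    3 * h ≤ K.W := by
  induction' hn : K.mu using Nat.strong_induction_on with n ih generalizing K
  by_cases hl : K.NoLoops
  swap
  · unfold NoLoops at hl
    push Not at hl
    obtain ⟨e, he, hst⟩ := hl
    have h1 := two_of_tau P (hK.ind _) (tau_del ht (K.hs e he))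
    have h2 := hK _ (K.loop_ev he hst) (singleton_nonempty e)
    have h3 := K.W_ind_sdiff (K.s e)
    have h4 : K.wt {e} ≤ K.wt (K.star (K.s e)) := K.wt_mono (by
      intro f hf
      rw [mem_singleton] at hf
      subst hf
      exact mem_filter.2 ⟨he, Or.inl rfl⟩)
    have := P.hg
    omega
  by_cases h1 : ∃ v ∈ K.V, K.deg v ≤ 1
  · obtain ⟨v, hv, hd⟩ := h1
    exact (ih _ (hn ▸ K.mu_ind_lt hv) _ (hK.ind _) (tau_leaf ht hl hv hd) rfl).trans
      (K.ind_W_le _)
  by_cases h2 : ∃ v ∈ K.V, K.deg v = 2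
  · obtain ⟨v, hv, hd⟩ := h2
    obtain ⟨e1, e2, hS⟩ := exists_suppData hl hv hd
    have := ih _ (hn ▸ supp_mu_lt hS) _ (supp_Cyc hS hK) (tau_supp ht hS) rfl
    rwa [supp_W] at this
  by_cases h3 : ∃ v ∈ K.V, 4 ≤ K.deg v
  · obtain ⟨v, hv, hd⟩ := h3
    obtain ⟨e1, e2, v', e0, hS⟩ := exists_splitData hl hv hd
    have := ih _ (hn ▸ split_mu_lt hS) _ (split_Cyc hS hK) (tau_split ht hS) rfl
    rwa [split_W] at this
  have hc : K.Cubic := by
    intro v hv
    push Not at h1 h2 h3
    have a1 := h1 v hv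
    have a2 := h2 v hv
    have a3 := h3 v hv
    omega
  exact tau3_cubic P hK hl hc ht

end Pool.H29E
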